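import Pool.Agent.MP_e6aac2_al.Defs

-- part MP_e6aac2_al.Gen
section

/-!
General group-theoretic lemmas: size of groups with small orbits, Følner sets in extensions of
`ℤ^K` by locally finite groups, and an isoperimetric inequality for locally free products.
-/

namespace Pool.Agent.MP_e6aac2_al

open Set

lemma card_hom_le {Γ P : Type} [Group Γ] [Group.FG Γ] [Group P] [Finite P] :
    Finite (Γ →* P) ∧ Nat.card (Γ →* P) ≤ Nat.card P ^ Group.rank Γ := by
  obtain ⟨S, hS1, hS2⟩ := Group.rank_spec Γ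
  let r : (Γ →* P) → (S → P) := fun φ s => φ s
  have hr : Function.Injective r := by
    intro φ ψ h
    refine MonoidHom.eq_of_eqOn_dense hS2 fun s hs => congrFun h ⟨s, hs⟩
  refine ⟨Finite.of_injective r hr, (Nat.card_le_card_of_injective r hr).trans ?_⟩
  rw [Nat.card_fun, Nat.card_eq_finsetCard, hS1]

lemma index_le_of_orbits {Γ Z : Type} [Group Γ] [Group.FG Γ] [MulAction Γ Z] (Y : Set Z) (D : ℕ)
    (hY : ∀ y ∈ Y, (MulAction.orbit Γ y).Finite ∧ (MulAction.orbit Γ y).ncard ≤ D) :
    ∃ K : Subgroup Γ, (∀ g ∈ K, ∀ y ∈ Y, g • y = y) ∧ K.index ≠ 0 ∧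
      K.index ≤ D.factorial ^ (D.factorial ^ Group.rank Γ) := by
  obtain ⟨hfin, hcard⟩ := card_hom_le (Γ := Γ) (P := Equiv.Perm (Fin D))
  have hP : Nat.card (Equiv.Perm (Fin D)) = D.factorial := by
    rw [Nat.card_perm, Nat.card_fin]
  let Φ : Γ →* ((Γ →* Equiv.Perm (Fin D)) → Equiv.Perm (Fin D)) := MonoidHom.pi fun φ => φ
  refine ⟨Φ.ker, fun g hg y hy => ?_, ?_, ?_⟩
  · obtain ⟨h1, h2⟩ := hY y hy
    have : Finite (MulAction.orbit Γ y) := h1
    obtain ⟨e⟩ : Nonempty (MulAction.orbit Γ y ↪ Fin D) := by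
      have := Fintype.ofFinite (MulAction.orbit Γ y)
      refine Function.Embedding.nonempty_of_card_le ?_
      rwa [Fintype.card_fin, ← Nat.card_eq_fintype_card, Nat.card_coe_set_eq]
    have h3 := congrFun (MonoidHom.mem_ker.1 hg)
      ((Equiv.Perm.viaEmbeddingHom e).comp (MulAction.toPermHom Γ (MulAction.orbit Γ y)))
    have h4 : MulAction.toPermHom Γ (MulAction.orbit Γ y) g = 1 :=
      Equiv.Perm.viaEmbeddingHom_injective e (by rw [map_one]; exact h3)
    have h5 := congrArg (fun p => (p ⟨y, MulAction.mem_orbit_self y⟩).1) h4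
    exact h5
  · rw [Subgroup.index_ker]; exact Nat.card_pos.ne'
  · rw [Subgroup.index_ker]
    refine (Nat.card_le_card_of_injective _ Subtype.val_injective).trans ?_
    rw [Nat.card_fun, hP]
    exact Nat.pow_le_pow_right (Nat.factorial_pos D) (hP ▸ hcard)

lemma card_le_of_abelian {Γ : Type} [Group Γ] [Group.FG Γ] (K : Subgroup Γ) (hK : K.index ≠ 0)
    (hc : ∀ a ∈ K, ∀ b ∈ K, a * b = b * a) (h3 : ∀ a ∈ K, a ^ 3 = 1) :
    Finite Γ ∧ Nat.card Γ ≤ K.index * 3 ^ (K.index * Group.rank Γ) := by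
  have : K.FiniteIndex := ⟨hK⟩
  let _ : CommGroup K := { (inferInstance : Group K) with
    mul_comm := fun a b => Subtype.ext (hc a a.2 b b.2) }
  have h1 := card_dvd_exponent_pow_rank' K (n := 3) fun g => Subtype.ext (h3 g g.2)
  have h2 := Nat.le_of_dvd (by positivity) h1
  have h4 : Nat.card K ≠ 0 := fun h => by
    rw [h, zero_dvd_iff] at h1
    exact absurd h1 (by positivity)
  have h5 := K.index_mul_card
  refine ⟨Nat.finite_of_card_ne_zero (h5 ▸ mul_ne_zero hK h4), ?_⟩
  rw [← h5]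
  exact Nat.mul_le_mul_left _ (h2.trans (Nat.pow_le_pow_right (by norm_num)
    K.rank_le_index_mul_rank))

section Boundary

variable {M : Type} [Group M]

/-- number of points moved out of `E` -/
noncomputable def bd (E : Set M) (g : M) : ℕ := ((fun x => g * x) '' E \ E).ncard

lemma ncard_image_mul (E : Set M) (g : M) : ((fun x => g * x) '' E).ncard = E.ncard :=
  ncard_image_of_injective _ (mul_right_injective g)

lemma ncard_symmDiff {E : Set M} (hE : E.Finite) (g : M) :
    (symmDiff ((fun x => g * x) '' E) E).ncard = 2 * bd E g := by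
  have h1 : ((fun x => g * x) '' E).Finite := hE.image _
  have h2 := ncard_inter_add_ncard_sdiff_eq_ncard _ E h1
  have h3 := ncard_inter_add_ncard_sdiff_eq_ncard _ ((fun x => g * x) '' E) hE
  rw [Set.symmDiff_def, ncard_union_eq disjoint_sdiff_sdiff h1.sdiff hE.sdiff]
  rw [ncard_image_mul] at h2
  rw [inter_comm] at h3
  unfold bd
  omega

lemma bd_inv {E : Set M} (hE : E.Finite) (g : M) : bd E g⁻¹ = bd E g := by
  have h1 := ncard_symmDiff hE g
  have h2 := ncard_symmDiff hE g⁻¹
  have h3 : (fun x => g * x) '' symmDiff ((fun x => g⁻¹ * x) '' E) E =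
      symmDiff ((fun x => g * x) '' E) E := by
    rw [image_symmDiff (mul_right_injective g), image_image, symmDiff_comm]
    simp
  rw [← h3, ncard_image_mul] at h1
  omega

lemma bd_one (E : Set M) : bd E 1 = 0 := by simp [bd]

lemma bd_mul {E : Set M} (hE : E.Finite) (g h : M) : bd E (g * h) ≤ bd E g + bd E h := by
  have h1 : (fun x => g * h * x) '' E \ E ⊆
      ((fun x => g * x) '' E \ E) ∪ (fun x => g * x) '' ((fun x => h * x) '' E \ E) := by
    rintro _ ⟨⟨x, hx, rfl⟩, hn⟩
    by_cases hh : h * x ∈ E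
    · exact Or.inl ⟨⟨h * x, hh, by simp [mul_assoc]⟩, hn⟩
    · exact Or.inr ⟨h * x, ⟨⟨x, hx, rfl⟩, hh⟩, by simp [mul_assoc]⟩
  refine (ncard_le_ncard h1 ((hE.image _).sdiff.union ((hE.image _).sdiff.image _))).trans ?_
  refine (ncard_union_le _ _).trans ?_
  rw [ncard_image_mul]
  rfl

lemma bd_pow {E : Set M} (hE : E.Finite) (g : M) (k : ℕ) : bd E (g ^ k) ≤ k * bd E g := by
  induction k with
  | zero => simp [bd_one]
  | succ k ih =>
    rw [pow_succ]
    have := bd_mul hE (g ^ k) g
    nlinarith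

lemma bd_zpow {E : Set M} (hE : E.Finite) (g : M) (k : ℤ) : bd E (g ^ k) ≤ k.natAbs * bd E g := by
  rcases Int.natAbs_eq k with h | h
  · rw [h, zpow_natCast]; exact bd_pow hE g _
  · rw [h, zpow_neg, bd_inv hE, zpow_natCast, Int.natAbs_neg]; exact bd_pow hE g _

lemma isFolner_iff {S : Finset M} {n : ℕ} {E : Set M} :
    IsFolner S n E ↔ E.Finite ∧ E.Nonempty ∧ ∀ s ∈ S, n * (2 * bd E s) < E.ncard := by
  refine and_congr_right fun hE => and_congr_right fun _ => ?_
  simp only [ncard_symmDiff hE]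

/-- saturation under the cyclic group of order three generated by `g` -/
def sat (g : M) (E : Set M) : Set M := E ∪ (fun x => g * x) '' E ∪ (fun x => g⁻¹ * x) '' E

lemma sat_finite (g : M) {E : Set M} (hE : E.Finite) : (sat g E).Finite :=
  (hE.union (hE.image _)).union (hE.image _)

lemma sat_mono (g : M) {E F : Set M} (h : E ⊆ F) : sat g E ⊆ sat g F :=
  union_subset_union (union_subset_union h (image_mono h)) (image_mono h)

lemma ncard_sat_le (g : M) {E : Set M} (hE : E.Finite) :
    (sat g E).ncard ≤ E.ncard + 2 * bd E g := by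
  have h1 : sat g E ⊆ E ∪ ((fun x => g * x) '' E \ E) ∪ ((fun x => g⁻¹ * x) '' E \ E) := by
    intro x hx
    by_cases h : x ∈ E
    · exact Or.inl (Or.inl h)
    · rcases hx with (hx | hx) | hx
      · exact absurd hx h
      · exact Or.inl (Or.inr ⟨hx, h⟩)
      · exact Or.inr ⟨hx, h⟩
  refine (ncard_le_ncard h1 ((hE.union (hE.image _).sdiff).union (hE.image _).sdiff)).trans ?_
  have h2 := ncard_union_le (E ∪ ((fun x => g * x) '' E \ E)) ((fun x => g⁻¹ * x) '' E \ E)
  have h3 := ncard_union_le E ((fun x => g * x) '' E \ E)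
  have h4 := bd_inv hE g
  unfold bd at *
  omega

lemma ncard_sat_leaf {g : M} (hg : g ^ 3 = 1) (hg1 : g ≠ 1) {E : Set M} (hE : E.Finite) {y : M}
    (hy : y ∈ E) (h1 : g * y ∉ E) (h2 : g⁻¹ * y ∉ E) :
    (sat g (E \ {y})).ncard + 3 ≤ (sat g E).ncard := by
  have hgg : g * g = g⁻¹ := by
    rw [eq_inv_iff_mul_eq_one, ← hg, pow_succ, pow_two]
  have hii : g⁻¹ * g⁻¹ = g := by rw [← mul_inv_rev, hgg, inv_inv]
  have hne : g ≠ g⁻¹ := fun h => hg1 (by rw [← hgg] at h; simpa using h)
  have hT : ({y, g * y, g⁻¹ * y} : Set M).ncard = 3 := by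
    refine ncard_eq_three.2 ⟨_, _, _, ?_, ?_, ?_, rfl⟩
    · exact fun h => h1 (h ▸ hy)
    · exact fun h => h2 (h ▸ hy)
    · exact fun h => hne (mul_right_cancel h)
  have hd : Disjoint (sat g (E \ {y})) {y, g * y, g⁻¹ * y} := by
    rw [disjoint_left]
    rintro x ((hx | ⟨z, hz, rfl⟩) | ⟨z, hz, rfl⟩) (h | h | h)
    · exact hx.2 h
    · exact h1 (h ▸ hx.1)
    · exact h2 (mem_singleton_iff.1 h ▸ hx.1)
    · exact h2 (by rw [← h]; simpa using hz.1)
    · exact hz.2 (mul_left_cancel h)
    · refine h1 ?_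
      have : z = g * y := by
        rw [← hii, mul_assoc, ← mem_singleton_iff.1 h]; simp
      exact this ▸ hz.1
    · exact h1 (by rw [← h]; simpa using hz.1)
    · refine h2 ?_
      have : z = g⁻¹ * y := by
        rw [← hgg, mul_assoc, ← h]; simp
      exact this ▸ hz.1
    · exact hz.2 (mul_left_cancel (mem_singleton_iff.1 h))
  rw [← hT, ← ncard_union_eq hd (sat_finite g hE.sdiff) (toFinite _)]
  refine ncard_le_ncard (union_subset (sat_mono g sdiff_subset) ?_) (sat_finite g hE)
  rintro x (rfl | rfl | rfl)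
  · exact Or.inl (Or.inl hy)
  · exact Or.inl (Or.inr ⟨y, hy, rfl⟩)
  · exact Or.inr ⟨y, hy, rfl⟩

/-- alternating products of `k` blocks `b^± a^±` -/
inductive Alt (a b : M) : ℕ → M → Prop
  | zero : Alt a b 0 1
  | succ {k : ℕ} {w u v : M} : Alt a b k w → (u = a ∨ u = a⁻¹) → (v = b ∨ v = b⁻¹) →
      Alt a b (k + 1) (v * u * w)

lemma exists_leaf {a b : M} {l : ℕ} (hfree : ∀ k w, 1 ≤ k → k ≤ l → Alt a b k w → w ≠ 1)
    {E : Set M} (hE : E.Finite) (hne : E.Nonempty) (hl : E.ncard ≤ l) :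
    ∃ y ∈ E, (a * y ∉ E ∧ a⁻¹ * y ∉ E) ∨ (b * y ∉ E ∧ b⁻¹ * y ∉ E) := by
  by_contra hcon
  push Not at hcon
  have h1 : ∀ y : E, ∃ z : E, ∃ u v, (u = a ∨ u = a⁻¹) ∧ (v = b ∨ v = b⁻¹) ∧ z.1 = v * u * y := by
    intro y
    obtain ⟨u, hu, huy⟩ : ∃ u, (u = a ∨ u = a⁻¹) ∧ u * y ∈ E := by
      by_cases h : a * y ∈ E
      · exact ⟨a, Or.inl rfl, h⟩
      · exact ⟨a⁻¹, Or.inr rfl, (hcon y y.2).1 h⟩
    obtain ⟨v, hv, hvy⟩ : ∃ v, (v = b ∨ v = b⁻¹) ∧ v * (u * y) ∈ E := by
      by_cases h : b * (u * y) ∈ E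
      · exact ⟨b, Or.inl rfl, h⟩
      · exact ⟨b⁻¹, Or.inr rfl, (hcon _ huy).2 h⟩
    exact ⟨⟨_, hvy⟩, u, v, hu, hv, (mul_assoc _ _ _).symm⟩
  choose φ hφ using h1
  have h2 : ∀ (k : ℕ) (y : E), ∃ w, Alt a b k w ∧ (φ^[k] y).1 = w * y := by
    intro k y
    induction k with
    | zero => exact ⟨1, Alt.zero, by simp⟩
    | succ k ih =>
      obtain ⟨w, hw, hwy⟩ := ih
      obtain ⟨u, v, hu, hv, h⟩ := hφ (φ^[k] y)
      exact ⟨_, hw.succ hu hv, by rw [Function.iterate_succ_apply', h, hwy, ← mul_assoc]⟩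
  obtain ⟨y, hy⟩ := hne
  have : Finite E := hE
  have := Fintype.ofFinite E
  obtain ⟨i, j, hij, heq⟩ := Fintype.exists_ne_map_eq_of_card_lt
    (fun i : Fin (l + 1) => φ^[i] ⟨y, hy⟩)
    (by rw [Fintype.card_fin, ← Nat.card_eq_fintype_card, Nat.card_coe_set_eq]; omega)
  wlog hlt : (i : ℕ) < j generalizing i j
  · exact this j i hij.symm heq.symm (by have := Fin.val_ne_of_ne hij; omega)
  obtain ⟨w, hw, hwy⟩ := h2 (j - i) (φ^[i] ⟨y, hy⟩)
  rw [← Function.iterate_add_apply, Nat.sub_add_cancel hlt.le, ← heq] at hwy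
  exact hfree _ w (by omega) (by omega) hw (by simpa using hwy)

lemma isoperimetric {a b : M} (ha : a ^ 3 = 1) (hb : b ^ 3 = 1) (ha1 : a ≠ 1) (hb1 : b ≠ 1) {l : ℕ}
    (hfree : ∀ k w, 1 ≤ k → k ≤ l → Alt a b k w → w ≠ 1) {E : Set M} (hE : E.Finite)
    (hl : E.ncard ≤ l) : E.ncard ≤ 2 * (bd E a + bd E b) := by
  have key : ∀ (n : ℕ) (E : Set M), E.Finite → E.ncard = n → n ≤ l →
      3 * n ≤ (sat a E).ncard + (sat b E).ncard := by
    intro n
    induction n with
    | zero => intros; omega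
    | succ n ih =>
      intro E hE hn hl
      obtain ⟨y, hy, h⟩ := exists_leaf hfree hE (nonempty_of_ncard_ne_zero (by omega)) (by omega)
      have h1 := ih (E \ {y}) hE.sdiff (by rw [ncard_sdiff_singleton_of_mem hy]; omega) (by omega)
      have h2 := ncard_le_ncard (sat_mono a (sdiff_subset (s := E) (t := {y}))) (sat_finite a hE)
      have h3 := ncard_le_ncard (sat_mono b (sdiff_subset (s := E) (t := {y}))) (sat_finite b hE)
      rcases h with h | h
      · have := ncard_sat_leaf ha ha1 hE hy h.1 h.2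
        omega
      · have := ncard_sat_leaf hb hb1 hE hy h.1 h.2
        omega
  have h1 := key _ E hE rfl hl
  have h2 := ncard_sat_le a hE
  have h3 := ncard_sat_le b hE
  omega

end Boundary

end Pool.Agent.MP_e6aac2_al

end

-- part MP_e6aac2_al.Coarea
section

/-!
From an almost invariant finite family of group elements to a Følner set (layer-cake argument).
-/

namespace Pool.Agent.MP_e6aac2_al

open Finset

variable {M : Type} [Group M]

lemma folner_le {S : Finset M} {n : ℕ} {E : Set M} (h : IsFolner S n E) : folner S n ≤ E.ncard :=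
  Nat.sInf_le ⟨E, h, rfl⟩

lemma folner_spec {S : Finset M} {n : ℕ} (h : ∃ E, IsFolner S n E) :
    ∃ E, IsFolner S n E ∧ E.ncard = folner S n := by
  obtain ⟨E, hE⟩ := h
  exact Nat.sInf_mem (s := {k : ℕ | ∃ E : Set M, IsFolner S n E ∧ E.ncard = k}) ⟨_, E, hE, rfl⟩

lemma exists_folner_of_approx {I : Type} [Fintype I] [Nonempty I] (S : Finset M) (n : ℕ)
    (φ : I → M) (h : ∀ s ∈ S, ∃ (π : I → I) (B : Finset I), Set.InjOn π (B : Set I)ᶜ ∧
      (∀ i ∉ B, φ (π i) = s * φ i) ∧ S.card * n * (2 * B.card) < Fintype.card I) :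
    ∃ E, IsFolner S n E ∧ E.ncard ≤ Fintype.card I := by
  classical
  choose! π B hinj hφ hB using h
  set N := Fintype.card I with hN
  have hNpos : 0 < N := Fintype.card_pos
  have hsum : n * (2 * ∑ s ∈ S, (B s).card) < N := by
    rcases S.eq_empty_or_nonempty with rfl | hS
    · simpa using hNpos
    · have h1 := sum_lt_sum_of_nonempty hS hB
      rw [sum_const, smul_eq_mul, ← mul_sum, ← mul_sum, mul_assoc] at h1
      exact lt_of_mul_lt_mul_left h1 (Nat.zero_le _)
  let μ : M → ℕ := fun x => #{i | φ i = x}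
  let T : Finset M := univ.image φ
  let E : ℕ → Finset M := fun t => T.filter fun x => t < μ x
  have hμ : ∀ x, μ x ≤ N := fun x => card_le_univ _
  have h1 : ∑ t ∈ range N, (E t).card = N := by
    simp only [E, card_filter]
    rw [sum_comm]
    have : ∀ x ∈ T, (∑ t ∈ range N, if t < μ x then 1 else 0) = μ x := by
      intro x _
      rw [← card_filter]
      have : (range N).filter (fun t => t < μ x) = range (μ x) := by
        ext t; have := hμ x; simp only [mem_filter, mem_range]; omega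
      rw [this, card_range]
    rw [sum_congr rfl this, hN, ← card_univ]
    exact (card_eq_sum_card_image φ univ).symm
  have h2 : ∀ s ∈ S, ∑ t ∈ range N, bd (E t : Set M) s ≤ (B s).card := by
    intro s hs
    have h3 : ∀ t, bd (E t : Set M) s ≤ #{x ∈ T | μ (s * x) ≤ t ∧ t < μ x} := by
      intro t
      rw [← Set.ncard_coe_finset, ← ncard_image_mul _ s]
      refine Set.ncard_le_ncard ?_ ((finite_toSet _).image _)
      rintro _ ⟨⟨x, hx, rfl⟩, hn⟩
      simp only [E, coe_filter, Set.mem_ofPred_eq, not_and, not_lt] at hx hn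
      refine ⟨x, ?_, rfl⟩
      simp only [coe_filter, Set.mem_ofPred_eq]
      refine ⟨hx.1, ?_, hx.2⟩
      by_cases hT : s * x ∈ T
      · exact hn hT
      · have : μ (s * x) = 0 := by
          simp only [μ, card_eq_zero, filter_eq_empty_iff]
          exact fun i _ hi => hT (mem_image.2 ⟨i, mem_univ _, hi⟩)
        omega
    refine (sum_le_sum fun t _ => h3 t).trans ?_
    simp only [card_filter]
    rw [sum_comm, card_eq_sum_card_fiberwise (f := φ) (s := B s) (t := T)
      fun i _ => mem_coe.2 (mem_image.2 ⟨i, mem_univ _, rfl⟩)]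
    refine sum_le_sum fun x _ => ?_
    rw [← card_filter]
    have h4 : #{t ∈ range N | μ (s * x) ≤ t ∧ t < μ x} ≤ μ x - μ (s * x) := by
      rw [← Nat.card_Ico]
      exact card_le_card fun t ht => mem_Ico.2 (mem_filter.1 ht).2
    have h5 : #{i | φ i = x ∧ i ∉ B s} ≤ μ (s * x) := by
      refine card_le_card_of_injOn (π s) (fun i hi => ?_) fun i hi j hj => ?_
      · simp only [coe_filter, mem_univ, true_and, Set.mem_ofPred_eq] at hi ⊢
        rw [hφ s hs i hi.2, hi.1]
      · simp only [coe_filter, mem_univ, true_and, Set.mem_ofPred_eq] at hi hj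
        exact hinj s hs hi.2 hj.2
    have h6 : μ x ≤ #{i | φ i = x ∧ i ∉ B s} + #{i ∈ B s | φ i = x} := by
      refine (card_le_card fun i hi => ?_).trans (card_union_le _ _)
      simp only [mem_filter, mem_univ, true_and, mem_union] at hi ⊢
      tauto
    omega
  have h7 : ∑ t ∈ range N, n * (2 * ∑ s ∈ S, bd (E t : Set M) s) < ∑ t ∈ range N, (E t).card := by
    rw [h1, ← mul_sum, ← mul_sum, sum_comm]
    exact lt_of_le_of_lt (Nat.mul_le_mul_left _ (Nat.mul_le_mul_left _ (sum_le_sum h2))) hsum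
  obtain ⟨t, -, ht⟩ := exists_lt_of_sum_lt h7
  refine ⟨E t, isFolner_iff.2 ⟨finite_toSet _, ?_, fun s hs => ?_⟩, ?_⟩
  · exact coe_nonempty.2 (card_pos.1 (by omega))
  · rw [Set.ncard_coe_finset]
    exact lt_of_le_of_lt (Nat.mul_le_mul_left _ (Nat.mul_le_mul_left _
      (single_le_sum (f := fun s => bd (E t : Set M) s) (fun _ _ => Nat.zero_le _) hs))) ht
  · rw [Set.ncard_coe_finset]
    exact (card_filter_le _ _).trans (card_image_le.trans card_univ.le)

/-- Følner sets in a group generated by translations and by elements whose conjugates by a box of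
translations lie in a finite subgroup. -/
lemma exists_folner_box {K : Type} [Fintype K] [DecidableEq K] (S : Finset M) (n : ℕ)
    (t : (K → ℤ) → M) (ht : ∀ a b, t (a + b) = t a * t b) (H : Subgroup M) [Finite H]
    (h : ∀ s ∈ S, (∃ k, s = t (Pi.single k 1)) ∨
      ∀ a : K → ℤ, (∀ k, 0 ≤ a k ∧ a k ≤ (2 * S.card * n : ℕ)) → (t a)⁻¹ * s * t a ∈ H) :
    ∃ E, IsFolner S n E ∧ E.ncard ≤ (2 * S.card * n + 1) ^ Fintype.card K * Nat.card H := by
  classical
  have := Fintype.ofFinite H
  set R := 2 * S.card * n with hR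
  have hc : Fintype.card ((K → Fin (R + 1)) × H) = (R + 1) ^ Fintype.card K * Nat.card H := by
    simp
  rw [← hc]
  refine exists_folner_of_approx S n (fun p => t (fun k => ((p.1 k : ℕ) : ℤ)) * p.2)
    fun s hs => ?_
  rcases h s hs with ⟨k, rfl⟩ | h
  · refine ⟨fun p => (Function.update p.1 k (p.1 k + 1), p.2), univ.filter fun p => p.1 k = Fin.last R,
      fun p _ q _ hpq => ?_, fun p hp => ?_, ?_⟩
    · simp only [Prod.mk.injEq] at hpq
      refine Prod.ext (funext fun j => ?_) hpq.2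
      have := congrFun hpq.1 j
      by_cases hj : j = k
      · subst hj; simpa using this
      · simpa [hj] using this
    · simp only [mem_filter, mem_univ, true_and] at hp
      rw [← mul_assoc, ← ht]
      congr 2
      funext j
      by_cases hj : j = k
      · subst hj
        simp only [Function.update_self, Pi.add_apply, Pi.single_eq_same]
        rw [Fin.val_add_one_of_lt (Fin.lt_last_iff_ne_last.2 hp)]
        push_cast; ring
      · simp [hj]
    · have h1 : #{p : (K → Fin (R + 1)) × H | p.1 k = Fin.last R} * (R + 1) ≤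
          Fintype.card ((K → Fin (R + 1)) × H) := by
        refine le_of_eq_of_le (b := #((univ.filter fun p : (K → Fin (R + 1)) × H =>
          p.1 k = Fin.last R) ×ˢ (univ : Finset (Fin (R + 1))))) (by rw [card_product, card_fin]) ?_
        refine card_le_card_of_injOn (fun q => (Function.update q.1.1 k q.2, q.1.2))
          (fun _ _ => mem_coe.2 (mem_univ _)) fun p hp q hq hpq => ?_
        simp only [coe_product, coe_filter, mem_univ, true_and, coe_univ, Set.mem_prod,
          Set.mem_ofPred_eq, Set.mem_univ, and_true, Prod.mk.injEq] at hp hq hpq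
        have h2 := congrFun hpq.1 k
        simp only [Function.update_self] at h2
        refine Prod.ext (Prod.ext (funext fun j => ?_) hpq.2) h2
        by_cases hj : j = k
        · subst hj; rw [hp, hq]
        · simpa [hj] using congrFun hpq.1 j
      have h2 : 0 < Fintype.card ((K → Fin (R + 1)) × H) := Fintype.card_pos
      rcases Nat.eq_zero_or_pos #{p : (K → Fin (R + 1)) × H | p.1 k = Fin.last R} with h3 | h3
      · rw [h3]; simpa using h2
      · nlinarith
  · refine ⟨fun p => (p.1, ⟨_, h (fun k => ((p.1 k : ℕ) : ℤ)) fun k => ⟨by positivity,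
      by exact_mod_cast Nat.lt_succ_iff.1 (p.1 k).2⟩⟩ * p.2),
      ∅, fun p _ q _ hpq => ?_, fun p _ => ?_, by simpa using Fintype.card_pos⟩
    · obtain ⟨p1, p2⟩ := p
      obtain ⟨q1, q2⟩ := q
      simp only [Prod.mk.injEq] at hpq
      obtain ⟨rfl, h2⟩ := hpq
      rw [mul_left_cancel h2]
    · simp [mul_assoc]

end Pool.Agent.MP_e6aac2_al

end
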