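import Pool.Agent.MP_e6aac2_al.Mg.Coarea

/-!
An isoperimetric inequality for exponentially large sets in groups generated by two elements of
order three without short relations.
-/

namespace Pool.Agent.MP_e6aac2_al.H99

open Finset

variable {M : Type} [Group M]

def gen (a b : M) (j : ℕ) : M := if j % 2 = 0 then a else b

/-- alternating word, the head letter is the leftmost one -/
def altW (a b : M) : List Bool → M
  | [] => 1
  | ε :: l => (if ε then gen a b l.length else (gen a b l.length)⁻¹) * altW a b l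

lemma log_add_ge {p q : ℝ} (hp : 0 < p) (hq : 0 < q) :
    Real.log 2 + (Real.log p + Real.log q) / 2 ≤ Real.log (p + q) := by
  have h1 : Real.log (2 ^ 2 * (p * q)) ≤ Real.log ((p + q) ^ 2) :=
    Real.log_le_log (by positivity) (by nlinarith [sq_nonneg (p - q)])
  rw [Real.log_mul (by positivity) (by positivity), Real.log_pow, Real.log_pow,
    Real.log_mul hp.ne' hq.ne'] at h1
  push_cast at h1
  linarith

lemma sum_sigma_eq [DecidableEq M] {g : M} (hg : g ^ 3 = 1) (E : Finset M)
    (hE : ∀ y ∈ E, g * y ∈ E ∨ g⁻¹ * y ∈ E) (w : M → ℝ) :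
    ∑ y ∈ E, w (if g * y ∈ E then g * y else g⁻¹ * y) = ∑ y ∈ E, w y := by
  have hgg : g * g = g⁻¹ := by rw [eq_inv_iff_mul_eq_one, ← hg, pow_succ, pow_two]
  have hii : g⁻¹ * g⁻¹ = g := by rw [← mul_inv_rev, hgg, inv_inv]
  refine sum_nbij' (fun y => if g * y ∈ E then g * y else g⁻¹ * y)
    (fun y => if g⁻¹ * y ∈ E then g⁻¹ * y else g * y) ?_ ?_ ?_ ?_ (fun _ _ => rfl)
  · intro y hy
    split_ifs with h
    · exact h
    · exact (hE y hy).resolve_left h
  · intro y hy
    split_ifs with h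
    · exact h
    · exact (hE y hy).resolve_right h
  · intro y hy
    by_cases h : g * y ∈ E
    · simp [h, hy]
    · simp only [h, if_false, ← mul_assoc, hii]
      simp
  · intro y hy
    by_cases h : g⁻¹ * y ∈ E
    · simp [h, hy]
    · simp only [h, if_false, ← mul_assoc, hgg]
      simp

lemma log_step [DecidableEq M] {g : M} (hg : g ^ 3 = 1) (E : Finset M)
    (hE : ∀ y ∈ E, g * y ∈ E ∨ g⁻¹ * y ∈ E) (u u' : M → ℝ) (hu : ∀ y ∈ E, 0 < u y)
    (hu' : ∀ y ∈ E, u' y = (if g⁻¹ * y ∈ E then u (g⁻¹ * y) else 0) +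
      (if g * y ∈ E then u (g * y) else 0)) :
    (#{y ∈ E | g * y ∈ E ∧ g⁻¹ * y ∈ E} : ℝ) * Real.log 2 + ∑ y ∈ E, Real.log (u y) ≤
      ∑ y ∈ E, Real.log (u' y) := by
  have h1 := sum_sigma_eq hg E hE fun y => Real.log (u y)
  have h2 := sum_sigma_eq (g := g⁻¹) (by rw [inv_pow, hg, inv_one]) E
    (fun y hy => by simpa [or_comm] using hE y hy) fun y => Real.log (u y)
  rw [inv_inv] at h2
  have h3 : ∀ y ∈ E, (if g * y ∈ E ∧ g⁻¹ * y ∈ E then Real.log 2 else 0) +
      (Real.log (u (if g * y ∈ E then g * y else g⁻¹ * y)) +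
        Real.log (u (if g⁻¹ * y ∈ E then g⁻¹ * y else g * y))) / 2 ≤ Real.log (u' y) := by
    intro y hy
    rw [hu' y hy]
    by_cases ha : g * y ∈ E <;> by_cases hb : g⁻¹ * y ∈ E
    · simp only [ha, hb, and_self, if_true]
      have := log_add_ge (hu _ hb) (hu _ ha)
      linarith
    · simp [ha, hb]
    · simp [ha, hb]
    · exact absurd (hE y hy) (by tauto)
  have h4 := sum_le_sum h3
  rw [sum_add_distrib, ← sum_div, sum_add_distrib, h1, h2, ← sum_filter, sum_const,
    nsmul_eq_mul] at h4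
  linarith

/-- starting points of alternating paths inside `E` -/
def pts [DecidableEq M] (a b : M) (E : Finset M) : ℕ → M → Finset M
  | 0, y => {y}
  | j + 1, y => (if (gen a b j)⁻¹ * y ∈ E then pts a b E j ((gen a b j)⁻¹ * y) else ∅) ∪
      (if gen a b j * y ∈ E then pts a b E j (gen a b j * y) else ∅)

lemma pts_sub [DecidableEq M] (a b : M) (E : Finset M) (j : ℕ) :
    ∀ y ∈ E, pts a b E j y ⊆ E := by
  induction j with
  | zero => intro y hy; simpa [pts] using hy
  | succ j ih =>
    intro y _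
    refine union_subset ?_ ?_ <;> split_ifs with h
    · exact ih _ h
    · exact empty_subset _
    · exact ih _ h
    · exact empty_subset _

lemma pts_word [DecidableEq M] (a b : M) (E : Finset M) (j : ℕ) :
    ∀ y, ∀ z ∈ pts a b E j y, ∃ l : List Bool, l.length = j ∧ y = altW a b l * z := by
  induction j with
  | zero => intro y z hz; exact ⟨[], rfl, by simpa [pts, altW, eq_comm] using hz⟩
  | succ j ih =>
    intro y z hz
    rcases mem_union.1 hz with h | h <;> split_ifs at h
    · obtain ⟨l, rfl, h2⟩ := ih _ z h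
      exact ⟨true :: l, rfl, by simp [altW, mul_assoc, ← h2]⟩
    · simp at h
    · obtain ⟨l, rfl, h2⟩ := ih _ z h
      exact ⟨false :: l, rfl, by simp [altW, mul_assoc, ← h2]⟩
    · simp at h

lemma card_ge_of_leafless [DecidableEq M] {a b : M} (ha : a ^ 3 = 1) (hb : b ^ 3 = 1) {k : ℕ}
    (hinj : ∀ l l' : List Bool, l.length = l'.length → l.length ≤ 2 * k →
      altW a b l = altW a b l' → l = l') (E : Finset M) (hne : E.Nonempty)
    (hEa : ∀ y ∈ E, a * y ∈ E ∨ a⁻¹ * y ∈ E) (hEb : ∀ y ∈ E, b * y ∈ E ∨ b⁻¹ * y ∈ E)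
    (hfull : #E ≤ #{y ∈ E | a * y ∈ E ∧ a⁻¹ * y ∈ E} + #{y ∈ E | b * y ∈ E ∧ b⁻¹ * y ∈ E}) :
    2 ^ k ≤ #E := by
  have hg3 : ∀ j, gen a b j ^ 3 = 1 := fun j => by unfold gen; split_ifs <;> assumption
  have hgE : ∀ j, ∀ y ∈ E, gen a b j * y ∈ E ∨ (gen a b j)⁻¹ * y ∈ E := fun j => by
    unfold gen; split_ifs <;> assumption
  have hcard : ∀ j, j + 1 ≤ 2 * k → ∀ y, (#(pts a b E (j + 1) y) : ℝ) =
      (if (gen a b j)⁻¹ * y ∈ E then (#(pts a b E j ((gen a b j)⁻¹ * y)) : ℝ) else 0) +
      (if gen a b j * y ∈ E then (#(pts a b E j (gen a b j * y)) : ℝ) else 0) := by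
    intro j hj y
    rw [pts, card_union_of_disjoint]
    · push_cast; split_ifs <;> simp
    · rw [disjoint_left]
      intro z h1 h2
      split_ifs at h1 h2 <;> try simp at h1 h2
      obtain ⟨l, e1, e2⟩ := pts_word a b E j _ z h1
      obtain ⟨l', e3, e4⟩ := pts_word a b E j _ z h2
      have := hinj (true :: l) (false :: l') (by simp [e1, e3]) (by simpa [e1] using hj) (by
        refine mul_right_cancel (b := z) ?_
        simp [altW, mul_assoc, ← e2, ← e4, e1, e3])
      simp at this
  have hpos : ∀ j, ∀ y ∈ E, 0 < (#(pts a b E j y) : ℝ) := by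
    intro j
    induction j with
    | zero => intro y _; simp [pts]
    | succ j ih =>
      intro y hy
      rw [Nat.cast_pos, card_pos]
      rcases hgE j y hy with h | h
      · obtain ⟨z, hz⟩ := card_pos.1 (Nat.cast_pos.1 (ih _ h))
        exact ⟨z, mem_union_right _ (by simpa [h] using hz)⟩
      · obtain ⟨z, hz⟩ := card_pos.1 (Nat.cast_pos.1 (ih _ h))
        exact ⟨z, mem_union_left _ (by simpa [h] using hz)⟩
  have hl2 : 0 < Real.log 2 := Real.log_pos (by norm_num)
  have key : ∀ i ≤ k, (i : ℝ) * #E * Real.log 2 ≤ ∑ y ∈ E, Real.log #(pts a b E (2 * i) y) := by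
    intro i
    induction i with
    | zero => intro _; simp [pts]
    | succ i ih =>
      intro hi
      have h1 := log_step (hg3 (2 * i)) E (hgE _) _ _ (hpos (2 * i))
        fun y _ => hcard (2 * i) (by omega) y
      have h2 := log_step (hg3 (2 * i + 1)) E (hgE _) _ _ (hpos (2 * i + 1))
        fun y _ => hcard (2 * i + 1) (by omega) y
      have e1 : gen a b (2 * i) = a := if_pos (by omega)
      have e2 : gen a b (2 * i + 1) = b := if_neg (by omega)
      rw [e1] at h1
      rw [e2] at h2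
      have h3 := ih (by omega)
      have h4 : (#E : ℝ) * Real.log 2 ≤ (#{y ∈ E | a * y ∈ E ∧ a⁻¹ * y ∈ E} +
          #{y ∈ E | b * y ∈ E ∧ b⁻¹ * y ∈ E}) * Real.log 2 :=
        mul_le_mul_of_nonneg_right (by exact_mod_cast hfull) hl2.le
      rw [show 2 * (i + 1) = 2 * i + 1 + 1 by ring]
      push_cast
      linarith
  have h5 := key k le_rfl
  have h6 : ∑ y ∈ E, Real.log #(pts a b E (2 * k) y) ≤ ∑ _y ∈ E, Real.log #E :=
    sum_le_sum fun y hy => Real.log_le_log (hpos _ y hy)
      (by exact_mod_cast card_le_card (pts_sub a b E _ y hy))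
  rw [sum_const, nsmul_eq_mul] at h6
  have hE0 : (0 : ℝ) < #E := by exact_mod_cast hne.card_pos
  have h7 : Real.log (2 ^ k) ≤ Real.log #E := by
    rw [Real.log_pow]
    refine le_of_mul_le_mul_left ?_ hE0
    linarith
  exact_mod_cast (Real.log_le_log_iff (by positivity) hE0).1 h7

lemma sat_nonfull [DecidableEq M] (g : M) (E : Finset M) :
    3 * #E ≤ 2 * (sat g (E : Set M)).ncard + #{y ∈ E | g * y ∈ E ∧ g⁻¹ * y ∈ E} := by
  have hf := sat_finite g E.finite_toSet
  have h1 : (E : Set M) ⊆ sat g E := fun x hx => Or.inl (Or.inl hx)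
  have h2 := Set.ncard_sdiff_add_ncard_of_subset h1 hf
  have h3 : (↑{y ∈ E | ¬ (g * y ∈ E ∧ g⁻¹ * y ∈ E)} : Set M) ⊆
      (fun x => g⁻¹ * x) '' (sat g E \ E) ∪ (fun x => g * x) '' (sat g E \ E) := by
    intro y hy
    simp only [coe_filter, Set.mem_ofPred_eq, not_and_or] at hy
    rcases hy.2 with h | h
    · exact Or.inl ⟨g * y, ⟨Or.inl (Or.inr ⟨y, hy.1, rfl⟩), h⟩, by simp⟩
    · exact Or.inr ⟨g⁻¹ * y, ⟨Or.inr ⟨y, hy.1, rfl⟩, h⟩, by simp⟩
  have h4 := (Set.ncard_le_ncard h3 ((hf.sdiff.image _).union (hf.sdiff.image _))).trans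
    (Set.ncard_union_le _ _)
  rw [ncard_image_mul, ncard_image_mul, Set.ncard_coe_finset] at h4
  have h5 := card_filter_add_card_filter_not (s := E) fun y => g * y ∈ E ∧ g⁻¹ * y ∈ E
  rw [Set.ncard_coe_finset] at h2
  omega

theorem iso_exp {a b : M} (ha : a ^ 3 = 1) (hb : b ^ 3 = 1) {k : ℕ}
    (hinj : ∀ l l' : List Bool, l.length = l'.length → l.length ≤ 2 * k →
      altW a b l = altW a b l' → l = l') {E : Set M} (hE : E.Finite) (hl : E.ncard < 2 ^ k) :
    E.ncard ≤ 4 * (bd E a + bd E b) := by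
  classical
  rcases Nat.eq_zero_or_pos k with rfl | hk
  · omega
  have ha1 : a ≠ 1 := by
    rintro rfl
    simpa using hinj [true] [false] rfl (by simp; omega) (by simp [altW, gen])
  have hb1 : b ≠ 1 := by
    rintro rfl
    simpa using hinj [true, true] [false, true] rfl (by simp; omega) (by simp [altW, gen])
  have key : ∀ (n : ℕ) (E : Set M), E.Finite → E.ncard = n → n < 2 ^ k →
      5 * n ≤ 2 * ((sat a E).ncard + (sat b E).ncard) := by
    intro n
    induction n with
    | zero => intros; omega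
    | succ n ih =>
      intro E hE hn hl
      by_cases hleaf : ∃ y ∈ E, (a * y ∉ E ∧ a⁻¹ * y ∉ E) ∨ (b * y ∉ E ∧ b⁻¹ * y ∉ E)
      · obtain ⟨y, hy, h⟩ := hleaf
        have h1 := ih (E \ {y}) hE.sdiff (by rw [Set.ncard_sdiff_singleton_of_mem hy]; omega)
          (by omega)
        have h2 := Set.ncard_le_ncard (sat_mono a (Set.sdiff_subset (s := E) (t := {y})))
          (sat_finite a hE)
        have h3 := Set.ncard_le_ncard (sat_mono b (Set.sdiff_subset (s := E) (t := {y})))
          (sat_finite b hE)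
        rcases h with h | h
        · have := ncard_sat_leaf ha ha1 hE hy h.1 h.2
          omega
        · have := ncard_sat_leaf hb hb1 hE hy h.1 h.2
          omega
      · lift E to Finset M using hE
        rw [Set.ncard_coe_finset] at hn
        push Not at hleaf
        simp only [mem_coe] at hleaf
        have h1 := sat_nonfull a E
        have h2 := sat_nonfull b E
        by_contra hcon
        have := card_ge_of_leafless ha hb hinj E (card_pos.1 (by omega))
          (fun y hy => by have := (hleaf y hy).1; tauto)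
          (fun y hy => by have := (hleaf y hy).2; tauto) (by omega)
        omega
  have h1 := key _ E hE rfl hl
  have h2 := ncard_sat_le a hE
  have h3 := ncard_sat_le b hE
  omega

end Pool.Agent.MP_e6aac2_al.H99
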