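import Pool.Agent.MP_e6aac2_al.H99.Finger
import Pool.Agent.MP_e6aac2_al.Mg.Coarea
import Pool.Agent.MP_e6aac2_al.Mg.H99_Iso

/-!
A relative spectral gap: almost invariance under two shears and two translations forces almost
invariance under all translations.
-/

noncomputable section

namespace Pool.Agent.MP_e6aac2_al.H22

open Finset H99 ComplexConjugate

abbrev Vn (n : ℕ) := Fin n → Bool → F3

variable {n : ℕ}

def ext (v : Vn n) : Sq := fun t b => if h : t < n then v ⟨t, h⟩ b else 0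

lemma ext_fin (v : Vn n) (t : Fin n) (b : Bool) : ext v t b = v t b := by simp [ext]

lemma ext_ge (v : Vn n) {t : ℕ} (h : n ≤ t) (b : Bool) : ext v t b = 0 := by
  simp [ext, not_lt.2 h]

def sh (b : Bool) (l : F3) (v : Vn n) : Vn n := fun t b' => U b (l, 0) n (ext v) t b'

def dsh (b : Bool) (l : F3) (x : Vn n) : Vn n :=
  fun t b' => x t b' + if b' = !b then l * ext x (t + 1) b else 0

def e0 (n : ℕ) (b : Bool) : Vn n := fun t b' => if (t : ℕ) = 0 ∧ b' = b then 1 else 0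

def dot (x v : Vn n) : F3 := ∑ t, ∑ b, x t b * v t b

lemma dot_add_left (x y v : Vn n) : dot (x + y) v = dot x v + dot y v := by
  simp only [dot, Pi.add_apply, add_mul, sum_add_distrib]

lemma dot_add_right (x v w : Vn n) : dot x (v + w) = dot x v + dot x w := by
  simp only [dot, Pi.add_apply, mul_add, sum_add_distrib]

lemma dot_sub_right (x v w : Vn n) : dot x (v - w) = dot x v - dot x w := by
  simp only [dot, Pi.sub_apply, mul_sub, sum_sub_distrib]

lemma dot_e0 (x : Vn n) (b : Bool) : dot x (e0 n b) = ext x 0 b := by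
  cases n with
  | zero => simp [dot, ext]
  | succ n => cases b <;> simp [dot, ext, e0]

lemma ext_sh (b : Bool) (l : F3) (v : Vn n) : ext (sh b l v) = U b (l, 0) n (ext v) := by
  funext t b'
  by_cases h : t < n
  · simp [ext, h, sh]
  · simp [ext, h, U]

lemma ext_inj {v w : Vn n} (h : ext v = ext w) : v = w := by
  funext t b
  rw [← ext_fin v, h, ext_fin]

lemma sh_sh (b : Bool) (l : F3) (v : Vn n) : sh b l (sh b (-l) v) = v := by
  refine ext_inj ?_
  rw [ext_sh, ext_sh]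
  funext t b'
  cases t <;> simp only [U, cr] <;> split_ifs <;> simp_all

def shE (b : Bool) (l : F3) : Vn n ≃ Vn n where
  toFun := sh b l
  invFun := sh b (-l)
  left_inv v := by simpa using sh_sh b (-l) v
  right_inv v := sh_sh b l v

lemma dot_sh (b : Bool) (l : F3) (x v : Vn n) : dot x (sh b l v) = dot (dsh b l x) v := by
  have h1 : ∑ t : Fin n, x t b * cr b (l, 0) (ext v) t =
      ∑ t : Fin n, l * ext x (t + 1) b * v t (!b) := by
    simp only [← ext_fin]
    rw [Fin.sum_univ_eq_sum_range (fun t => ext x t b * cr b (l, 0) (ext v) t),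
      Fin.sum_univ_eq_sum_range (fun t => l * ext x (t + 1) b * ext v t (!b))]
    cases n with
    | zero => simp
    | succ n =>
      rw [sum_range_succ', sum_range_succ, ext_ge x le_rfl]
      simp only [cr, mul_zero, zero_mul, add_zero]
      exact sum_congr rfl fun t _ => by ring
  simp only [dot, sh, dsh, U, ext_fin, Fin.is_lt, and_true, mul_add, add_mul, sum_add_distrib]
  congr 1
  cases b <;> simpa using h1

def ch (x v : Vn n) : ℂ := ZMod.stdAddChar (N := 3) (dot x v)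

lemma normSq_ch (x v : Vn n) : Complex.normSq (ch x v) = 1 := by
  rw [Complex.normSq_eq_norm_sq, ch, AddChar.norm_apply, one_pow]

lemma sum_ch (v : Vn n) : ∑ x, ch x v = if v = 0 then (Fintype.card (Vn n) : ℂ) else 0 := by
  split_ifs with h
  · simp [h, ch, dot]
  · let ψ : AddChar (Vn n) ℂ :=
      ⟨fun x => ch x v, by simp [ch, dot], fun x y => by
        simp only [ch, dot_add_left, AddChar.map_add_eq_mul]⟩
    refine (AddChar.sum_eq_zero_iff_ne_zero (ψ := ψ)).2 fun h0 => h ?_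
    funext t b
    have h1 : ch (Pi.single t (Pi.single b 1)) v = 1 := by
      have := DFunLike.congr_fun h0 (Pi.single t (Pi.single b 1) : Vn n)
      rw [AddChar.zero_apply] at this
      exact this
    rw [ch, ← (ZMod.stdAddChar (N := 3)).map_zero_eq_one, ZMod.injective_stdAddChar.eq_iff] at h1
    rw [Pi.zero_apply, Pi.zero_apply, ← h1, dot, sum_eq_single t, sum_eq_single b] <;>
      simp +contextual [Pi.single_apply]

lemma parseval (c : Vn n → ℂ) : ∑ x, Complex.normSq (∑ v, ch x v * c v) =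
    Fintype.card (Vn n) * ∑ v, Complex.normSq (c v) := by
  have h : ∀ x v w : Vn n, ch x v * conj (ch x w) = ch x (v - w) := fun x v w => by
    rw [ch, ch, ch, ← AddChar.map_neg_eq_conj, ← AddChar.map_add_eq_mul, dot_sub_right,
      sub_eq_add_neg]
  apply Complex.ofReal_injective
  push_cast
  simp only [← Complex.mul_conj, map_sum, map_mul, sum_mul_sum]
  rw [sum_comm, mul_sum]
  refine sum_congr rfl fun v _ => ?_
  rw [sum_comm]
  have : ∀ w, ∑ x, ch x v * c v * (conj (ch x w) * conj (c w)) =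
      if w = v then Fintype.card (Vn n) * (c v * conj (c w)) else 0 := by
    intro w
    have e : ∀ x, ch x v * c v * (conj (ch x w) * conj (c w)) =
      ch x (v - w) * (c v * conj (c w)) := fun x => by rw [← h]; ring
    simp only [e, ← sum_mul, sum_ch, sub_eq_zero, eq_comm (a := v)]
    split_ifs <;> simp
  simp [this]

lemma normSq_cube {x : F3} (hx : x ≠ 0) :
    Complex.normSq (ZMod.stdAddChar (N := 3) x - 1) = 3 := by
  have h0 : x + x + x = 0 := by clear hx; revert x; decide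
  set w := ZMod.stdAddChar (N := 3) x with hw
  have h1 : w ≠ 1 := by
    rw [hw, ← (ZMod.stdAddChar (N := 3)).map_zero_eq_one, Ne, ZMod.injective_stdAddChar.eq_iff]
    exact hx
  have h2 : w * w * w = 1 := by
    rw [hw, ← AddChar.map_add_eq_mul, ← AddChar.map_add_eq_mul, h0, AddChar.map_zero_eq_one]
  have h3 : w * w + w + 1 = 0 :=
    mul_left_cancel₀ (sub_ne_zero.2 h1) (by linear_combination h2)
  have h4 : (w - 1) * (w - 1) = -3 * w := by linear_combination h3
  have h5 := congrArg Complex.normSq h4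
  have h6 : Complex.normSq w = 1 := by
    rw [Complex.normSq_eq_norm_sq, hw, AddChar.norm_apply, one_pow]
  rw [map_mul, map_mul, h6, show (-3 : ℂ) = ((-3 : ℝ) : ℂ) by simp, Complex.normSq_ofReal] at h5
  have h7 := Complex.normSq_nonneg (w - 1)
  nlinarith

lemma normSq_le (x y : ℂ) :
    Complex.normSq x ≤ 3 / 2 * Complex.normSq y + 3 * Complex.normSq (x - y) := by
  simp only [Complex.normSq_apply, Complex.sub_re, Complex.sub_im]
  nlinarith [sq_nonneg (2 * x.re - 3 * y.re), sq_nonneg (2 * x.im - 3 * y.im)]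

/-- characters whose first nonzero coordinate has positive index and is nonzero on side `b` -/
def Sb (b : Bool) (x : Vn n) : Prop :=
  ∃ t, ext x (t + 1) b ≠ 0 ∧ ∀ t' ≤ t, ∀ b', ext x t' b' = 0

lemma ext_dsh (b : Bool) (l : F3) (x : Vn n) (t : ℕ) (b' : Bool) :
    ext (dsh b l x) t b' = ext x t b' + if b' = !b then l * ext x (t + 1) b else 0 := by
  by_cases h : t < n
  · simp only [ext, h, dif_pos, dsh]
  · rw [ext_ge _ (not_lt.1 h), ext_ge _ (not_lt.1 h), ext_ge _ (by omega)]; simp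

lemma dsh_first {b : Bool} {l : F3} {x : Vn n} {t : ℕ}
    (h : ∀ t' ≤ t, ∀ b', ext x t' b' = 0) :
    ext (dsh b l x) t (!b) = l * ext x (t + 1) b ∧
      ∀ t' < t, ∀ b', ext (dsh b l x) t' b' = 0 := by
  refine ⟨by simp [ext_dsh, h t le_rfl], fun t' ht b' => ?_⟩
  simp [ext_dsh, h t' ht.le, h (t' + 1) ht]

lemma dsh_mem {b : Bool} {l : F3} (hl : l ≠ 0) {x : Vn n} (h : Sb b x) :
    Sb (!b) (dsh b l x) ∨ ∃ b', ext (dsh b l x) 0 b' ≠ 0 := by
  obtain ⟨t, h1, h2⟩ := h
  obtain ⟨h3, h4⟩ := dsh_first (b := b) (l := l) h2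
  have h5 : ext (dsh b l x) t (!b) ≠ 0 := h3 ▸ mul_ne_zero hl h1
  cases t with
  | zero => exact Or.inr ⟨_, h5⟩
  | succ t => exact Or.inl ⟨t, h5, fun t' ht => h4 t' (by omega)⟩

lemma dsh_same {b : Bool} {l l' : F3} {x y : Vn n} (h : dsh b l x = dsh b l' y) (t : ℕ) :
    ext x t b = ext y t b := by
  have := congrArg (fun z => ext z t b) h
  simpa [ext_dsh] using this

lemma dsh_inj (b : Bool) (l : F3) : Function.Injective (dsh (n := n) b l) := by
  intro x y h
  refine ext_inj (funext fun t => funext fun b' => ?_)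
  have := congrArg (fun z => ext z t b') h
  simpa [ext_dsh, dsh_same h] using this

lemma dsh_ne {b : Bool} {x y : Vn n} (hx : Sb b x) (hy : Sb b y) : dsh b 1 x ≠ dsh b (-1) y := by
  intro h
  obtain ⟨t, h1, h2⟩ := hx
  obtain ⟨s, k1, k2⟩ := hy
  have e := dsh_same h
  obtain rfl : t = s := by
    rcases lt_trichotomy t s with a | a | a
    · exact absurd ((e _).trans (k2 (t + 1) a b)) h1
    · exact a
    · exact absurd ((e _).symm.trans (h2 (s + 1) a b)) k1
  have h3 := (dsh_first (b := b) (l := 1) h2).1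
  rw [h, (dsh_first (b := b) (l := -1) k2).1, ← e] at h3
  revert h1 h3
  generalize ext x (t + 1) b = z
  revert z
  decide

lemma ne_zero_cases {x : Vn n} (h : x ≠ 0) : (∃ b, ext x 0 b ≠ 0) ∨ Sb false x ∨ Sb true x := by
  classical
  have h1 : ∃ t, ∃ b, ext x t b ≠ 0 := by
    by_contra h1
    push Not at h1
    exact h (funext fun t => funext fun b => by rw [← ext_fin x, h1]; rfl)
  obtain ⟨b, hb⟩ := Nat.find_spec h1
  have h2 := fun t => Nat.find_min h1 (m := t)
  cases e : Nat.find h1 with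
  | zero => exact Or.inl ⟨b, e ▸ hb⟩
  | succ t =>
    have h3 : Sb b x := ⟨t, e ▸ hb, fun t' ht b' => by
      by_contra h4
      exact h2 t' (by omega) ⟨b', h4⟩⟩
    cases b
    · exact Or.inr (Or.inl h3)
    · exact Or.inr (Or.inr h3)

section

variable {M : Type} [Group M] [Fintype M] (ρ : Vn n → M)

def ms (g : M → ℂ) (x : Vn n) : ℝ := ∑ m, Complex.normSq (∑ v, ch x v * g (ρ v * m))

lemma ms_nonneg (g : M → ℂ) (x : Vn n) : 0 ≤ ms ρ g x :=
  sum_nonneg fun _ _ => Complex.normSq_nonneg _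

lemma sum_ms (g : M → ℂ) : ∑ x, ms ρ g x =
    (Fintype.card (Vn n) : ℝ) ^ 2 * ∑ m, Complex.normSq (g m) := by
  simp only [ms]
  rw [sum_comm]
  simp only [parseval, ← mul_sum]
  rw [sum_comm]
  have : ∀ v, ∑ m, Complex.normSq (g (ρ v * m)) = ∑ m, Complex.normSq (g m) := fun v =>
    Equiv.sum_comp (Equiv.mulLeft (ρ v)) fun m => Complex.normSq (g m)
  simp only [this, sum_const, card_univ, nsmul_eq_mul]
  ring

lemma ms_le (g g' : M → ℂ) (x : Vn n) : ms ρ g x ≤ 3 / 2 * ms ρ g' x + 3 * ms ρ (g - g') x := by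
  simp only [ms, mul_sum, ← sum_add_distrib]
  refine sum_le_sum fun m _ => (normSq_le _ (∑ v, ch x v * g' (ρ v * m))).trans_eq ?_
  simp only [Pi.sub_apply, mul_sub, sum_sub_distrib]

variable {ρ}

lemma ms_shear {a : M} {b : Bool} {l : F3} (h : ∀ v, a * ρ v = ρ (sh b l v) * a) (g : M → ℂ)
    (x : Vn n) : ms ρ (fun m => g (a * m)) (dsh b l x) = ms ρ g x := by
  rw [ms, ms, ← Equiv.sum_comp (Equiv.mulLeft a) fun m => Complex.normSq (∑ v, ch x v * g (ρ v * m))]
  refine sum_congr rfl fun m _ => congrArg _ ?_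
  rw [← Equiv.sum_comp (shE b l) fun v => ch x v * g (ρ v * Equiv.mulLeft a m)]
  refine sum_congr rfl fun v _ => ?_
  simp only [ch, ← dot_sh, ← mul_assoc, h, shE, Equiv.coe_fn_mk, Equiv.coe_mulLeft]

lemma ms_trans (hρ : ∀ v w, ρ (v + w) = ρ v * ρ w) (g : M → ℂ) (w x : Vn n) :
    ms ρ ((fun m => g (ρ w * m)) - g) x = Complex.normSq (ch x w - 1) * ms ρ g x := by
  rw [ms, ms, mul_sum]
  refine sum_congr rfl fun m _ => ?_
  have h1 : ch x w * ∑ v, ch x v * g (ρ w * (ρ v * m)) = ∑ v, ch x v * g (ρ v * m) := by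
    rw [← Equiv.sum_comp (Equiv.addLeft w) fun v => ch x v * g (ρ v * m), mul_sum]
    refine sum_congr rfl fun v _ => ?_
    simp only [Equiv.coe_addLeft, hρ, ch, dot_add_right, AddChar.map_add_eq_mul, mul_assoc]
  simp only [Pi.sub_apply, mul_sub, sum_sub_distrib]
  rw [← h1, ← map_mul, ← one_mul (Complex.normSq (_ - _)), ← normSq_ch x w, ← map_mul,
    ← Complex.normSq_neg]
  congr 1
  ring

open Classical in
lemma sum_ind (E : Set M) (s : M) :
    ∑ m, Complex.normSq ((if s * m ∈ E then (1 : ℂ) else 0) - if m ∈ E then 1 else 0) =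
      2 * bd E s := by
  have h1 := ncard_symmDiff E.toFinite s⁻¹
  rw [bd_inv E.toFinite] at h1
  have h2 : symmDiff ((fun x => s⁻¹ * x) '' E) E = ↑{m | ¬ (s * m ∈ E ↔ m ∈ E)} := by
    ext m
    have : m ∈ (fun x => s⁻¹ * x) '' E ↔ s * m ∈ E :=
      ⟨by rintro ⟨x, hx, rfl⟩; simpa using hx, fun h => ⟨_, h, by simp⟩⟩
    simp only [Set.mem_symmDiff, this, Set.mem_ofPred_eq]
    tauto
  rw [h2, Set.ncard_eq_toFinset_card', Set.toFinset_ofPred, card_filter] at h1
  have h3 := congrArg (Nat.cast : ℕ → ℝ) h1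
  push_cast at h3
  rw [← h3]
  refine sum_congr rfl fun m _ => ?_
  by_cases a1 : s * m ∈ E <;> by_cases a2 : m ∈ E <;> simp [a1, a2]

theorem relT (hρ : ∀ v w, ρ (v + w) = ρ v * ρ w) (A : Bool → M)
    (hA : ∀ b v, A b * ρ v = ρ (sh b 1 v) * A b) (E : Set M) (w : Vn n) :
    bd E (ρ w) ≤ 48 * ∑ b, (bd E (A b) + bd E (ρ (e0 n b))) := by
  classical
  let f : M → ℂ := fun m => if m ∈ E then 1 else 0
  set K : ℝ := (Fintype.card (Vn n) : ℝ) ^ 2 with hK
  have hK0 : 0 < K := by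
    have : 0 < Fintype.card (Vn n) := Fintype.card_pos
    positivity
  have hD : ∀ s, ∑ x, ms ρ ((fun m => f (s * m)) - f) x = K * (2 * bd E s) := fun s => by
    rw [sum_ms, ← sum_ind]; rfl
  have hA' : ∀ b v, (A b)⁻¹ * ρ v = ρ (sh b (-1) v) * (A b)⁻¹ := fun b v => by
    rw [eq_mul_inv_iff_mul_eq, mul_assoc, inv_mul_eq_iff_eq_mul, hA, sh_sh]
  let α : Bool → ℝ := fun b => ∑ x with Sb b x, ms ρ f x
  let o : ℝ := ∑ x with ∃ b, ext x 0 b ≠ 0, ms ρ f x
  have h1 : ∀ (a : M) b l, (∀ v, a * ρ v = ρ (sh b l v) * a) →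
      α b ≤ 3 / 2 * ∑ x ∈ (univ.filter (Sb b)).image (dsh b l), ms ρ f x + 3 * (K * (2 * bd E a)) := by
    intro a b l h
    rw [← hD, sum_image fun x _ y _ e => dsh_inj b l e, mul_sum]
    refine le_trans (sum_le_sum fun x _ => (ms_shear h f x).symm.trans_le (ms_le ρ _ f _)) ?_
    rw [sum_add_distrib, ← mul_sum _ _ (3 : ℝ),
      ← sum_image (f := ms ρ ((fun m => f (a * m)) - f)) fun x _ y _ e => dsh_inj b l e]
    gcongr
    · exact fun _ _ _ => ms_nonneg _ _ _
    · exact subset_univ _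
  have h2 : ∀ b, 2 * α b ≤ 3 / 2 * (α (!b) + o) + 6 * (K * (2 * bd E (A b))) := by
    intro b
    have a1 := h1 _ b _ (hA b)
    have a2 := h1 _ b _ (hA' b)
    rw [bd_inv E.toFinite] at a2
    have a3 : ∑ x ∈ (univ.filter (Sb b)).image (dsh b 1), ms ρ f x +
        ∑ x ∈ (univ.filter (Sb b)).image (dsh b (-1)), ms ρ f x ≤ α (!b) + o := by
      rw [← sum_union, ← sum_union_inter]
      · refine le_add_of_le_of_nonneg (sum_le_sum_of_subset_of_nonneg (fun x hx => ?_)
          fun _ _ _ => ms_nonneg _ _ _) (sum_nonneg fun _ _ => ms_nonneg _ _ _)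
        simp only [mem_union, mem_image, mem_filter, mem_univ, true_and] at hx ⊢
        rcases hx with ⟨y, hy, rfl⟩ | ⟨y, hy, rfl⟩
        · exact dsh_mem (by decide) hy
        · exact dsh_mem (by decide) hy
      · rw [disjoint_left]
        intro x hx hx'
        simp only [mem_image, mem_filter, mem_univ, true_and] at hx hx'
        obtain ⟨y, hy, rfl⟩ := hx
        obtain ⟨z, hz, e⟩ := hx'
        exact dsh_ne hy hz e.symm
    linarith
  have h3 : 3 * o ≤ ∑ b, K * (2 * bd E (ρ (e0 n b))) := by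
    simp only [← hD, ms_trans hρ]
    rw [sum_comm, mul_sum]
    refine le_trans (sum_le_sum fun x hx => ?_) (sum_le_sum_of_subset_of_nonneg (subset_univ _)
      fun x _ _ => sum_nonneg fun _ _ => mul_nonneg (Complex.normSq_nonneg _) (ms_nonneg _ _ _))
    obtain ⟨b, hb⟩ := (mem_filter.1 hx).2
    refine le_trans (le_of_eq ?_) (single_le_sum (f := fun b =>
      Complex.normSq (ch x (e0 n b) - 1) * ms ρ f x)
      (fun _ _ => mul_nonneg (Complex.normSq_nonneg _) (ms_nonneg _ _ _)) (mem_univ b))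
    simp only [ch, dot_e0, normSq_cube hb]
  have h4 : K * (2 * bd E (ρ w)) ≤ 4 * (o + α false + α true) := by
    simp only [← hD, ms_trans hρ, o, α, sum_filter, ← sum_add_distrib, mul_sum]
    refine sum_le_sum fun x _ => ?_
    have a1 := ms_nonneg ρ f x
    by_cases hx : x = 0
    · have : ch x w = 1 := by simp [hx, ch, dot]
      rw [this, sub_self, map_zero, zero_mul]
      positivity
    · have a2 : Complex.normSq (ch x w - 1) ≤ 4 := by
        by_cases h0 : dot x w = 0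
        · simp [ch, h0]
        · rw [ch, normSq_cube h0]; norm_num
      refine (mul_le_mul_of_nonneg_right a2 a1).trans (mul_le_mul_of_nonneg_left ?_ (by norm_num))
      rcases ne_zero_cases hx with a3 | a3 | a3 <;> simp only [a3, if_true] <;> split_ifs <;>
        linarith
  have h5 := h2 false
  have h6 := h2 true
  simp only [Fintype.sum_bool, Bool.not_false, Bool.not_true] at h3 h5 h6 ⊢
  have h7 : K * (bd E (ρ w) : ℝ) ≤ K * (48 * (bd E (A true) + bd E (ρ (e0 n true)) +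
      (bd E (A false) + bd E (ρ (e0 n false))))) := by
    have b1 : 0 ≤ K * (bd E (ρ (e0 n true)) : ℝ) := by positivity
    have b2 : 0 ≤ K * (bd E (ρ (e0 n false)) : ℝ) := by positivity
    linarith
  exact_mod_cast le_of_mul_le_mul_left h7 hK0

end

end Pool.Agent.MP_e6aac2_al.H22

end

/-!
An isoperimetric inequality of wreath product type.
-/

noncomputable section

namespace Pool.Agent.MP_e6aac2_al.H22

open Finset
open H99 hiding univ

open Classical in
lemma pow_le_card {K T : Type} (b x : ℕ) : ∀ F : Finset (K → T), F.Nonempty →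
    (∀ f ∈ F, ∃ C : Finset K, x ≤ #C ∧ ∀ k ∈ C, b ≤ #{g ∈ F | ∀ k' ≠ k, g k' = f k'}) →
      b ^ x ≤ #F := by
  induction x with
  | zero => exact fun F h _ => h.card_pos
  | succ x ih =>
    intro F hne h
    obtain ⟨f, hf⟩ := hne
    obtain ⟨C, h1, h2⟩ := h f hf
    obtain ⟨k, hk⟩ := card_pos.1 (show 0 < #C by omega)
    have h3 : b ≤ #(F.image fun g => g k) := by
      refine (h2 k hk).trans (card_le_card_of_injOn (fun g => g k) (fun g hg => ?_)
        fun g hg g' hg' e => funext fun k' => ?_)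
      · exact mem_coe.2 (mem_image_of_mem _ (mem_filter.1 hg).1)
      · by_cases a : k' = k
        · exact a ▸ e
        · rw [(mem_filter.1 hg).2 k' a, (mem_filter.1 hg').2 k' a]
    rw [card_eq_sum_card_image (fun g => g k) F, pow_succ']
    refine (Nat.mul_le_mul_right _ h3).trans (card_nsmul_le_sum _ _ _ fun τ hτ => ?_)
    obtain ⟨g, hg, rfl⟩ := mem_image.1 hτ
    refine ih _ ⟨g, mem_filter.2 ⟨hg, rfl⟩⟩ fun f' hf' => ?_
    obtain ⟨C', a1, a2⟩ := h f' (mem_filter.1 hf').1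
    refine ⟨C'.erase k, by have := pred_card_le_card_erase (s := C') (a := k); omega,
      fun k' hk' => (a2 k' (mem_of_mem_erase hk')).trans (card_le_card fun g' hg' => ?_)⟩
    simp only [mem_filter] at hg' hf' ⊢
    exact ⟨⟨hg'.1, (hg'.2 k (ne_of_mem_erase hk').symm).trans hf'.2⟩, hg'.2⟩

open Classical in
lemma prune {α : Type} (r : Fin 3 → α → α → Prop) (hr : ∀ i, Equivalence (r i)) (T T0 : Finset α)
    (h : 3 * #T < 4 * #T0) : ∃ T' ⊆ T0, T'.Nonempty ∧
      ∀ e ∈ T', ∀ i, #{e' ∈ T | r i e e'} ≤ 4 * #{e' ∈ T' | r i e e'} := by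
  let sa : Fin 3 → Finset α → Finset α := fun i S => {e ∈ T | ∃ e' ∈ S, r i e' e}
  let Ψ : Finset α → ℤ := fun S => 4 * (#S : ℤ) - ∑ i, (#(sa i S) : ℤ)
  obtain ⟨S, hS, hmax⟩ := T0.powerset.exists_max_image Ψ ⟨∅, empty_mem_powerset _⟩
  refine ⟨S, mem_powerset.1 hS, ?_, fun e he i => ?_⟩
  · rw [nonempty_iff_ne_empty]
    rintro rfl
    have h1 := hmax T0 (mem_powerset_self _)
    have h2 : ∑ i, (#(sa i T0) : ℤ) ≤ ∑ _i : Fin 3, (#T : ℤ) :=
      sum_le_sum fun i _ => by exact_mod_cast card_filter_le _ _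
    simp only [Ψ, sa, sum_const, card_univ, Fintype.card_fin, card_empty, notMem_empty, false_and,
      exists_false, filter_false, nsmul_eq_mul] at h1 h2
    push_cast at h1 h2
    omega
  · have h1 := hmax (S.filter fun e' => ¬ r i e e')
      (mem_powerset.2 ((filter_subset _ _).trans (mem_powerset.1 hS)))
    have h2 := card_filter_add_card_filter_not (s := S) fun e' => r i e e'
    have h3 : ∀ j, #(sa j (S.filter fun e' => ¬ r i e e')) +
        (if j = i then #{e' ∈ T | r i e e'} else 0) ≤ #(sa j S) := by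
      intro j
      have a1 : sa j (S.filter fun e' => ¬ r i e e') ⊆ sa j S := fun x hx => by
        simp only [sa, mem_filter] at hx ⊢
        obtain ⟨b1, y, b2, b3⟩ := hx
        exact ⟨b1, y, b2.1, b3⟩
      split_ifs with a
      · subst a
        rw [← card_union_of_disjoint]
        · refine card_le_card (union_subset a1 fun x hx => ?_)
          simp only [sa, mem_filter] at hx ⊢
          exact ⟨hx.1, e, he, hx.2⟩
        · rw [disjoint_left]
          intro x hx hx'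
          simp only [sa, mem_filter] at hx hx'
          obtain ⟨-, y, b2, b3⟩ := hx
          exact b2.2 ((hr j).trans hx'.2 ((hr j).symm b3))
      · exact card_le_card a1
    have h4 := sum_le_sum fun j (_ : j ∈ univ) => h3 j
    rw [sum_add_distrib, sum_ite_eq', if_pos (mem_univ _)] at h4
    have h5 := (Nat.cast_le (α := ℤ)).2 h4
    simp only [Ψ] at h1
    push_cast at h5
    omega

variable {M : Type} [Group M]

open Classical in
lemma bd_eq (E : Finset M) (g : M) : bd (E : Set M) g = #{x ∈ E | g * x ∉ E} := by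
  rw [bd, ← Set.ncard_coe_finset, ← ncard_image_mul (↑{x ∈ E | g * x ∉ E} : Set M) g]
  congr 1
  ext x
  simp only [coe_filter, Set.mem_image, Set.mem_ofPred_eq, Set.mem_sdiff, mem_coe]
  constructor
  · rintro ⟨⟨y, h1, rfl⟩, h2⟩; exact ⟨y, ⟨h1, h2⟩, rfl⟩
  · rintro ⟨y, ⟨h1, h2⟩, rfl⟩; exact ⟨⟨y, h1, rfl⟩, h2⟩

open Classical in
lemma small_cosets (H : Subgroup M) {a b : M} (ha : a ∈ H) (hb : b ∈ H) {V : ℕ}
    (hiso : ∀ S : Set M, S.Finite → S.ncard < V → S.ncard ≤ 4 * (bd S a + bd S b))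
    (E : Finset M) : #{x ∈ E | #{y ∈ E | y * x⁻¹ ∈ H} < V} ≤
      4 * (bd (E : Set M) a + bd (E : Set M) b) := by
  let key : M → Quotient (QuotientGroup.rightRel H) := Quotient.mk _
  have hk : ∀ x y, key y = key x ↔ y * x⁻¹ ∈ H := fun x y => by
    rw [eq_comm, Quotient.eq]; exact QuotientGroup.rightRel_apply
  set F := {x ∈ E | #{y ∈ E | y * x⁻¹ ∈ H} < V}
  have h2 : ∀ g ∈ H, ∑ c ∈ F.image key, bd (↑{y ∈ E | key y = c} : Set M) g ≤
      bd (E : Set M) g := by
    intro g hg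
    rw [bd_eq E]
    refine le_trans (sum_le_sum fun c _ => ?_)
      ((sum_card_fiberwise_eq_card_filter _ (F.image key) key).trans_le (card_filter_le _ _))
    rw [bd_eq]
    refine card_le_card fun x hx => ?_
    simp only [mem_filter, not_and] at hx ⊢
    exact ⟨⟨hx.1.1, fun h => hx.2 h (((hk _ _).2 (by simpa using hg)).trans hx.1.2)⟩, hx.1.2⟩
  have h3 : ∑ c ∈ F.image key, #{y ∈ F | key y = c} ≤ ∑ c ∈ F.image key,
      4 * (bd (↑{y ∈ E | key y = c} : Set M) a + bd (↑{y ∈ E | key y = c} : Set M) b) := by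
    refine sum_le_sum fun c hc => ?_
    obtain ⟨x, hx, rfl⟩ := mem_image.1 hc
    refine le_trans ?_ (hiso _ (finite_toSet _) ?_)
    · rw [Set.ncard_coe_finset]
      exact card_le_card (filter_subset_filter _ (filter_subset _ _))
    · rw [Set.ncard_coe_finset]
      simpa only [hk] using (mem_filter.1 hx).2
  rw [← card_eq_sum_card_image, ← mul_sum, sum_add_distrib] at h3
  have := h2 a ha
  have := h2 b hb
  omega

open Classical in
lemma small_rows {V : Type} [Fintype V] (ρ : V → M) (hρ : Function.Injective ρ) (E : Finset M)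
    {β : ℕ} (hβ : ∀ v, bd (E : Set M) (ρ v) ≤ β) :
    #{x ∈ E | 2 * #{y ∈ E | ∃ v, y = ρ v * x} < Fintype.card V} ≤ 2 * β := by
  set F := {x ∈ E | 2 * #{y ∈ E | ∃ v, y = ρ v * x} < Fintype.card V}
  have h1 : ∀ x ∈ F, Fintype.card V + 1 ≤ 2 * #{v | ρ v * x ∉ E} := by
    intro x hx
    have a1 := card_filter_add_card_filter_not (s := univ) fun v => ρ v * x ∈ E
    have a2 : #{v | ρ v * x ∈ E} ≤ #{y ∈ E | ∃ v, y = ρ v * x} :=
      card_le_card_of_injOn (fun v => ρ v * x)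
        (fun v hv => mem_coe.2 (mem_filter.2 ⟨(mem_filter.1 hv).2, v, rfl⟩))
        fun v _ w _ e => hρ (mul_right_cancel e)
    have a3 := (mem_filter.1 hx).2
    rw [card_univ] at a1
    omega
  have h2 : ∑ x ∈ F, #{v | ρ v * x ∉ E} ≤ Fintype.card V * β := by
    refine (sum_le_sum_of_subset (filter_subset _ E)).trans ?_
    simp only [card_filter]
    rw [sum_comm, ← card_univ]
    refine sum_le_card_nsmul _ _ _ fun v _ => ?_
    rw [← card_filter, ← bd_eq]
    exact hβ v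
  have h3 := card_nsmul_le_sum _ _ _ h1
  rw [← mul_sum, smul_eq_mul] at h3
  refine Nat.le_of_mul_le_mul_left (c := Fintype.card V + 1) ?_ (by omega)
  nlinarith

theorem wreath_iso [Fintype M] {q n k : ℕ} {K T : Type} (ρ : Fin q → Vn n → M)
    (hρ : ∀ u v w, ρ u (v + w) = ρ u v * ρ u w) (A : Fin q → Bool → M)
    (hA : ∀ u b v, A u b * ρ u v = ρ u (sh b 1 v) * A u b) (a a' : Fin q → M)
    (ha : ∀ u, a u ^ 3 = 1) (ha' : ∀ u, a' u ^ 3 = 1)
    (hinj : ∀ u, ∀ l l' : List Bool, l.length = l'.length → l.length ≤ 2 * (k + 2) →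
      altW (a u) (a' u) l = altW (a u) (a' u) l' → l = l')
    (F : M → K → T) (c : Fin q → M → K) (hF1 : ∀ u v m, F (ρ u v * m) = F m)
    (hc1 : ∀ u v v' m, c u (ρ u v * m) = c u (ρ u v' * m) → v = v')
    (hc2 : ∀ u u' m m', c u m = c u' m' → u = u')
    (hF2 : ∀ u m, ∀ h ∈ Subgroup.closure {a u, a' u},
      (∀ k ≠ c u m, F (h * m) k = F m k) ∧ (F (h * m) = F m → h = 1))
    (E : Finset M) (hne : E.Nonempty)
    (hb : 768 * ∑ u, (bd (E : Set M) (a u) + bd (E : Set M) (a' u) +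
      ∑ b, (bd (E : Set M) (A u b) + bd (E : Set M) (ρ u (e0 n b)))) ≤ q * #E)
    {x : ℕ} (hx : 32 * x ≤ q * 9 ^ n) : (2 ^ k) ^ x ≤ #E := by
  classical
  rcases Nat.eq_zero_or_pos q with rfl | hq
  · obtain rfl : x = 0 := by omega
    exact hne.card_pos
  have hV : Fintype.card (Vn n) = 9 ^ n := by simp
  have hρ0 : ∀ u, ρ u 0 = 1 := fun u => by simpa using hρ u 0 0
  let H : Fin q → Subgroup M := fun u => Subgroup.closure {a u, a' u}
  let r : Fin 3 → M × Fin q → M × Fin q → Prop := ![fun e e' => e'.1 = e.1,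
    fun e e' => e'.2 = e.2 ∧ ∃ v, e'.1 = ρ e.2 v * e.1, fun e e' => e'.2 = e.2 ∧ e'.1 * e.1⁻¹ ∈ H e.2]
  have hr : ∀ i, Equivalence (r i) := by
    intro i
    fin_cases i
    · exact ⟨fun _ => rfl, Eq.symm, fun h h' => Eq.trans h' h⟩
    · refine ⟨fun e => ⟨rfl, 0, by simp [hρ0]⟩, ?_, ?_⟩
      · rintro ⟨m, u⟩ ⟨m', u'⟩ ⟨rfl : u' = u, v, rfl : m' = ρ u' v * m⟩
        exact ⟨rfl, -v, by simp [← mul_assoc, ← hρ, hρ0]⟩
      · rintro ⟨m, u⟩ ⟨m', u'⟩ ⟨m'', u''⟩ ⟨rfl : u' = u, v, rfl : m' = ρ u' v * m⟩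
          ⟨rfl : u'' = u', w, rfl : m'' = ρ u'' w * _⟩
        exact ⟨rfl, w + v, by simp [mul_assoc, hρ]⟩
    · refine ⟨fun e => ⟨rfl, by simp⟩, ?_, ?_⟩
      · rintro ⟨m, u⟩ ⟨m', u'⟩ ⟨rfl, h⟩
        exact ⟨rfl, by simpa using inv_mem h⟩
      · rintro ⟨m, u⟩ ⟨m', u'⟩ ⟨m'', u''⟩ ⟨rfl, h⟩ ⟨rfl, h'⟩
        exact ⟨rfl, by simpa using mul_mem h' h⟩
  let B1 : Fin q → Finset M := fun u => {x ∈ E | 2 * #{y ∈ E | ∃ v, y = ρ u v * x} < 9 ^ n}
  let B2 : Fin q → Finset M := fun u => {x ∈ E | #{y ∈ E | y * x⁻¹ ∈ H u} < 2 ^ (k + 2)}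
  have hB : ∀ u, #(B1 u ∪ B2 u) ≤ 96 * (bd (E : Set M) (a u) + bd (E : Set M) (a' u) +
      ∑ b, (bd (E : Set M) (A u b) + bd (E : Set M) (ρ u (e0 n b)))) := by
    intro u
    have a1 := small_rows (ρ u) (fun v v' e => hc1 u v v' 1 (by rw [e])) E
      (relT (hρ u) (A u) (hA u) E)
    have a2 := small_cosets (H u) (Subgroup.subset_closure (by simp))
      (Subgroup.subset_closure (by simp))
      (fun S h1 h2 => iso_exp (ha u) (ha' u) (hinj u) h1 h2) E
    rw [hV] at a1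
    have a3 := card_union_le (B1 u) (B2 u)
    simp only [B1, B2] at a3 ⊢
    omega
  have hT : 3 * #(E ×ˢ (univ : Finset (Fin q))) <
      4 * #{e ∈ E ×ˢ (univ : Finset (Fin q)) | e.1 ∉ B1 e.2 ∪ B2 e.2} := by
    have a1 := card_filter_add_card_filter_not (s := E ×ˢ (univ : Finset (Fin q)))
      fun e => e.1 ∈ B1 e.2 ∪ B2 e.2
    have a2 : #{e ∈ E ×ˢ (univ : Finset (Fin q)) | e.1 ∈ B1 e.2 ∪ B2 e.2} ≤
        ∑ u, #(B1 u ∪ B2 u) := by
      rw [← card_sigma]
      refine card_le_card_of_injOn (fun e => ⟨e.2, e.1⟩) (fun e he => ?_) fun e _ e' _ h => ?_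
      · exact mem_coe.2 (mem_sigma.2 ⟨mem_univ _, (mem_filter.1 he).2⟩)
      · simp only [Sigma.mk.injEq, heq_eq_eq] at h
        exact Prod.ext h.2 h.1
    have a3 := sum_le_sum fun u (_ : u ∈ univ) => hB u
    rw [← mul_sum] at a3
    have a4 := Nat.mul_pos hq hne.card_pos
    rw [card_product, card_univ, Fintype.card_fin, mul_comm #E] at a1 ⊢
    omega
  obtain ⟨T', h1, ⟨e1, he1⟩, h3⟩ := prune r hr _ _ hT
  have h4 : ∀ e ∈ T', e.1 ∈ E ∧ 9 ^ n ≤ 2 * #{y ∈ E | ∃ v, y = ρ e.2 v * e.1} ∧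
      2 ^ (k + 2) ≤ #{y ∈ E | y * e.1⁻¹ ∈ H e.2} := by
    intro e he
    have := h1 he
    simp only [B1, B2, mem_filter, mem_product, mem_univ, and_true, mem_union, not_or, not_and,
      not_lt] at this
    exact ⟨this.1, this.2.1 this.1, this.2.2 this.1⟩
  have h5 : ∀ e ∈ T', 9 ^ n ≤ 8 * #{e' ∈ T' | r 1 e e'} := by
    intro e he
    have b1 := h3 e he 1
    have b2 := (h4 e he).2.1
    have b3 : #{y ∈ E | ∃ v, y = ρ e.2 v * e.1} ≤
        #{e' ∈ E ×ˢ (univ : Finset (Fin q)) | r 1 e e'} :=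
      card_le_card_of_injOn (fun y => (y, e.2)) (fun y hy => mem_coe.2 (mem_filter.2
        ⟨mem_product.2 ⟨(mem_filter.1 hy).1, mem_univ _⟩, rfl, (mem_filter.1 hy).2⟩))
        fun y _ y' _ h => congrArg Prod.fst h
    omega
  have h6 : ∀ e ∈ T', 2 ^ k ≤ #{e' ∈ T' | r 2 e e'} := by
    intro e he
    have b1 := h3 e he 2
    have b2 := (h4 e he).2.2
    have b3 : #{y ∈ E | y * e.1⁻¹ ∈ H e.2} ≤ #{e' ∈ E ×ˢ (univ : Finset (Fin q)) | r 2 e e'} :=
      card_le_card_of_injOn (fun y => (y, e.2)) (fun y hy => mem_coe.2 (mem_filter.2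
        ⟨mem_product.2 ⟨(mem_filter.1 hy).1, mem_univ _⟩, rfl, (mem_filter.1 hy).2⟩))
        fun y _ y' _ h => congrArg Prod.fst h
    rw [pow_add] at b2
    omega
  have h7 : ∀ e ∈ T', q ≤ 4 * #{u | (e.1, u) ∈ T'} := by
    intro e he
    have a1 := h3 e he 0
    have a2 : #(univ : Finset (Fin q)) ≤ #{e' ∈ E ×ˢ (univ : Finset (Fin q)) | r 0 e e'} :=
      card_le_card_of_injOn (fun u => (e.1, u)) (fun u _ => mem_coe.2 (mem_filter.2
        ⟨mem_product.2 ⟨(h4 e he).1, mem_univ _⟩, rfl⟩)) fun u _ u' _ h => congrArg Prod.snd h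
    have a3 : #{e' ∈ T' | r 0 e e'} ≤ #{u | (e.1, u) ∈ T'} := by
      refine card_le_card_of_injOn Prod.snd ?_ fun x hx y hy h =>
        Prod.ext (Eq.trans (mem_filter.1 hx).2 (Eq.symm (mem_filter.1 hy).2)) h
      rintro ⟨m, u⟩ h
      obtain ⟨c1, rfl : m = e.1⟩ := mem_filter.1 h
      exact mem_coe.2 (mem_filter.2 ⟨mem_univ _, c1⟩)
    rw [card_fin] at a2
    omega
  refine le_trans (pow_le_card _ x (T'.image fun e => F e.1) ⟨_, mem_image_of_mem _ he1⟩ ?_)
    (le_trans (card_le_card fun f hf => ?_) (card_image_le (s := E) (f := F)))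
  swap
  · obtain ⟨e, he, rfl⟩ := mem_image.1 hf
    exact mem_image_of_mem _ (h4 e he).1
  intro f hf
  obtain ⟨e, he, rfl⟩ := mem_image.1 hf
  let S := (univ.filter fun u => (e.1, u) ∈ T').sigma fun u => {e' ∈ T' | r 1 (e.1, u) e'}
  have hS : ∀ p ∈ S, p.2 ∈ T' ∧ p.2.2 = p.1 ∧ ∃ v, p.2.1 = ρ p.1 v * e.1 := fun p hp =>
    mem_filter.1 (mem_sigma.1 hp).2
  refine ⟨S.image fun p => c p.1 p.2.1, ?_, fun κ hκ => ?_⟩
  · rw [card_image_of_injOn, card_sigma]
    · have a4 := card_nsmul_le_sum (univ.filter fun u => (e.1, u) ∈ T')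
        (fun u => 8 * #{e' ∈ T' | r 1 (e.1, u) e'}) (9 ^ n) fun u hu => h5 _ (mem_filter.1 hu).2
      rw [← mul_sum, smul_eq_mul] at a4
      have a5 := Nat.mul_le_mul_right (9 ^ n) (h7 e he)
      rw [mul_assoc] at a5
      omega
    · rintro ⟨u, m, u1⟩ h ⟨u', m', u1'⟩ h' e'
      obtain rfl : u = u' := hc2 _ _ _ _ e'
      obtain ⟨-, rfl : u1 = u, v, rfl : m = ρ u1 v * e.1⟩ := hS _ h
      obtain ⟨-, rfl : u1' = u1, v', rfl : m' = ρ u1' v' * e.1⟩ := hS _ h'
      rw [hc1 _ _ _ _ e']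
  · obtain ⟨⟨u, m, u1⟩, b1, rfl⟩ := mem_image.1 hκ
    obtain ⟨b1, rfl : u1 = u, v, rfl : m = ρ u1 v * e.1⟩ := hS _ b1
    refine (h6 _ b1).trans
      (card_le_card_of_injOn (fun e' => F e'.1) (fun e' he' => ?_) fun e' he' e'' he'' h => ?_)
    · obtain ⟨c1, -, c2⟩ := mem_filter.1 he'
      refine mem_coe.2 (mem_filter.2 ⟨mem_image_of_mem _ c1, fun k' hk' => ?_⟩)
      have := (hF2 u1 _ _ c2).1 k' hk'
      rwa [inv_mul_cancel_right, hF1] at this
    · obtain ⟨-, c1, c2⟩ := mem_filter.1 he'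
      obtain ⟨-, c3, c4⟩ := mem_filter.1 he''
      have := (hF2 u1 e''.1 _ (mul_mem c2 (inv_mem c4))).2 (by simpa [mul_assoc] using h)
      exact Prod.ext (by simpa [mul_assoc, mul_inv_eq_one] using this) (c1.trans c3.symm)

end Pool.Agent.MP_e6aac2_al.H22

end
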