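import Pool.Agent.MP_e6aac2_al.Mg.H22_Sync
import Pool.Agent.MP_e6aac2_al.Mg.H22_Wreath

/-!
Finite descriptions of the survival patterns of the lamps in a box.
-/

noncomputable section

namespace Pool.Agent.MP_e6aac2_al.H22

open H99 hiding univ

abbrev G0 (St : Type) (R : ℕ) := St × Bool × Fin (R + 1)

def sd {St : Type} {R : ℕ} (g : G0 St R) : Bool := g.2.1

lemma box {R : ℕ} (u : Fin (R + 1)) : 0 ≤ ((u : ℕ) : ℤ) ∧ ((u : ℕ) : ℤ) ≤ R :=
  ⟨by positivity, by exact_mod_cast Nat.lt_succ_iff.1 u.2⟩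

namespace XM

variable {Md St : Type} (M : XM Md St)

def tg {R : ℕ} (k : Bool) (ω : List M.Ctl) (g : G0 St R) : ℕ := M.tau k ω g.1 g.2.1 (g.2.2 : ℕ)

abbrev Vec (R : ℕ) := Fin M.B → Fin (Nat.log 2 R + 1)

def toC {R : ℕ} (v : M.Vec R) : Cfg := fun k => if h : k < M.B then v ⟨k, h⟩ else 0

lemma exists_vec {R : ℕ} {n : ℤ} (hn : n ≠ 0) (h : |n| ≤ R) : ∃ v : M.Vec R, M.toC v = M.cfg n :=
  ⟨fun k => ⟨M.cfg n k, Nat.lt_succ_of_le (M.cfg_le hn h k)⟩, funext fun k => by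
    unfold toC
    split_ifs with a
    · rfl
    · exact (if_neg a).symm⟩

lemma pattern (R : ℕ) (ω : List M.Ctl) (C : Prop) {r : ℤ} (hr : 0 ≤ r ∧ r ≤ R)
    (href : ∀ σ b (u : ℤ), 0 ≤ u ∧ u ≤ R → C → M.Al ω σ b u → ∃ σ' b', C ∧ M.Al ω σ' b' r) :
    ∃ p : M.QS R 0 × (St × Bool → ZMod M.N → Bool), ∀ σ b (u : ℤ), 0 ≤ u ∧ u ≤ R →
      ((((p.1 : ℕ) : ℤ) ∣ u - r ∧ p.2 (σ, b) ((u - r) / (p.1 : ℕ) : ℤ) = true) ↔
        C ∧ M.Al ω σ b u) := by
  classical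
  by_cases hex : ∃ σ' b', C ∧ M.Al ω σ' b' r
  swap
  · exact ⟨(⟨0, by simp [CM.QS]⟩, fun _ _ => false), fun σ b u hu =>
      ⟨fun h => by simp at h, fun h => absurd (href σ b u hu h.1 h.2) hex⟩⟩
  obtain ⟨σ', b', hC, hal⟩ := hex
  by_cases hQ : M.Q ω ≤ R
  · refine ⟨(⟨M.Q ω, ?_⟩, fun i y => decide (∃ u', M.Al ω i.1 i.2 u' ∧
      (((u' - r) / M.Q ω : ℤ) : ZMod M.N) = y)), fun σ b u _ => ⟨fun h => ⟨hC, ?_⟩, fun h => ?_⟩⟩
    · simp only [CM.QS, Finset.mem_insert, Finset.mem_filter, Finset.mem_Icc]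
      exact Or.inr ⟨⟨M.Q_pos ω, hQ⟩, ⟨_, M.Q_dvd_pow ω⟩, one_dvd _⟩
    · obtain ⟨⟨a, ha⟩, h2⟩ := h
      obtain ⟨u', h3, h4⟩ := of_decide_eq_true h2
      obtain ⟨a', ha'⟩ := M.Al_dvd ω _ _ _ _ h3 hal
      have hQ0 : (M.Q ω : ℤ) ≠ 0 := by exact_mod_cast (M.Q_pos ω).ne'
      dsimp only at ha h4
      rw [ha, ha', Int.mul_ediv_cancel_left _ hQ0, Int.mul_ediv_cancel_left _ hQ0,
        ZMod.intCast_eq_intCast_iff_dvd_sub] at h4
      obtain ⟨z, hz⟩ := h4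
      have := M.Al_shift ω _ _ z h3
      rwa [show u' + M.N * (M.Q ω * z) = u by linear_combination ha' - ha - M.Q ω * hz] at this
    · exact ⟨M.Al_dvd ω _ _ _ _ h.2 hal, decide_eq_true ⟨u, h.2, rfl⟩⟩
  · refine ⟨(⟨0, by simp [CM.QS]⟩, fun i _ => decide (M.Al ω i.1 i.2 r)), fun σ b u hu =>
      ⟨fun h => ⟨hC, ?_⟩, fun h => ?_⟩⟩
    · obtain ⟨h1, h2⟩ := h
      simp only [Nat.cast_zero, zero_dvd_iff, sub_eq_zero] at h1
      exact h1 ▸ of_decide_eq_true h2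
    · have h1 := Int.eq_zero_of_abs_lt_dvd (M.Al_dvd ω _ _ _ _ h.2 hal)
        (by rw [abs_lt]; omega)
      exact ⟨by simp [h1], decide_eq_true (sub_eq_zero.1 h1 ▸ h.2)⟩

/-- a pair of lamps on opposite sides survives `μ` active letters -/
def Jt (k : Bool) (ω : List M.Ctl) (μ : ℕ) (σ : St) (v : Cfg) (i : ℤ) : Prop :=
  ∃ j, μ ≤ M.tau k ω σ false j ∧ μ ≤ M.tau k ω σ true i ∧ j - i ≠ 0 ∧ M.cfg (j - i) = v

variable {M} {need : St → ℕ → Prop} {p : Bool → St → Cfg → ℕ}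

lemma Jt.run {k : Bool} {ω : List M.Ctl} {μ : ℕ} {σ : St} {v : Cfg} {i : ℤ}
    (h : M.Jt k ω μ σ v i) : μ ≤ M.na k ω ∧ M.Al (M.pre k ω μ) σ true i ∧
      M.RunV σ v ((M.pre k ω μ).map Prod.fst) ∧ M.Q (M.pre k ω μ) ∣ M.sm v := by
  obtain ⟨j, h1, h2, h3, rfl⟩ := h
  rw [le_tau_iff] at h1 h2
  exact ⟨h1.1, h2.2, M.run_of_pair _ _ _ _ _ h1.2 h2.2 h3,
    M.Q_dvd_sm h3 (M.Al_dvd _ _ _ _ _ h1.2 h2.2)⟩

lemma Jt.min_eq {k : Bool} {ω : List M.Ctl} {μ : ℕ} {σ : St} {v : Cfg} {i : ℤ}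
    (h : M.Jt k ω μ σ v i) (σ' : St) (b : Bool) (u : ℤ) : min (M.tau k ω σ' b u) μ =
      M.tau k (M.om ((M.pre k ω μ).map Prod.fst)) σ' b (u - i) := by
  rw [← tau_pre, M.tau_ref k b _ _ _ _ _ h.run.2.1]

lemma Nice.joint_eq (hN : M.Nice need p) {k : Bool} {ω ω' : List M.Ctl} {μ : ℕ} {σ : St} {v : Cfg}
    {i i' : ℤ} (h : M.Jt k ω μ σ v i) (h' : M.Jt k ω' μ σ v i') (hk : k = true ∨ M.zone σ = 2) :
    M.Q (M.pre k ω μ) = M.Q (M.pre k ω' μ) ∧ ((M.N : ℤ) * M.Q (M.pre k ω μ) ∣ i - i' →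
      ∀ σ' b u, min (M.tau k ω σ' b u) μ = min (M.tau k ω' σ' b u) μ) := by
  have e := hN.det_pre k ω ω' σ v μ h.run.1 h'.run.1 h.run.2.2.1 h'.run.2.2.1 hk
  refine ⟨by rw [← Q_om, e, Q_om], fun ⟨z, hz⟩ σ' b u => ?_⟩
  rw [h.min_eq, h'.min_eq, ← e, ← M.tau_shift k b _ σ' (u - i) (M.Q (M.pre k ω μ) * z)
    (by rw [Q_om]; exact dvd_mul_right _ _)]
  congr 1
  linear_combination -hz

lemma Nice.exists_joint [Fintype St] (hN : M.Nice need p) {R : ℕ} (k : Bool) (ω : List M.Ctl)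
    (gm : G0 St R) (hm : ∀ g : G0 St R, M.tg k ω g ≤ M.tg k ω gm) :
    ∃ μ, (∀ g : G0 St R, sd g ≠ sd gm → M.tg k ω g ≤ μ) ∧ μ ≤ M.tg k ω gm ∧ (μ = 0 ∨
      ∃ (σ : St) (v : M.Vec R) (i : ℤ), M.Jt k ω μ σ (M.toC v) i ∧ M.sm (M.toC v) ≤ R ∧
        μ ≤ p k σ (M.toC v)) := by
  obtain ⟨g1, b1, b2⟩ := (Finset.univ.filter fun g : G0 St R => sd g ≠ sd gm).exists_max_image
    (M.tg k ω) ⟨(gm.1, !gm.2.1, 0), by simp [sd]⟩
  simp only [Finset.mem_filter, Finset.mem_univ, true_and] at b1 b2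
  refine ⟨_, b2, hm g1, (Nat.eq_zero_or_pos _).imp_right fun h0 => ?_⟩
  obtain ⟨σ, σ', j, i, hj, hi, h1, h2⟩ : ∃ (σ σ' : St) (j i : ℤ), (0 ≤ j ∧ j ≤ R) ∧
      (0 ≤ i ∧ i ≤ R) ∧ M.tg k ω g1 ≤ M.tau k ω σ false j ∧ M.tg k ω g1 ≤ M.tau k ω σ' true i := by
    have := hm g1
    obtain ⟨s1, _ | _, u1⟩ := g1 <;> obtain ⟨s2, _ | _, u2⟩ := gm
    · simp [sd] at b1
    · exact ⟨_, _, _, _, box u1, box u2, le_rfl, this⟩
    · exact ⟨_, _, _, _, box u2, box u1, this, le_rfl⟩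
    · simp [sd] at b1
  generalize M.tg k ω g1 = μ at *
  obtain rfl : σ = σ' := by
    cases ω with
    | nil => simp [tau] at h1; omega
    | cons c ω => exact (al_of_tau (h0.trans_le h1)).1.symm.trans (al_of_tau (h0.trans_le h2)).1
  have h3 := (M.le_tau_iff _ _ _ _ _ _).1 h1
  have hn : j - i ≠ 0 := fun e => by
    obtain rfl := sub_eq_zero.1 e
    have := hN.ne k _ _ _ _ h3.2 ((M.le_tau_iff _ _ _ _ _ _).1 h2).2
    rw [M.na_pre _ _ _ h3.1] at this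
    omega
  have hR : |j - i| ≤ R := by rw [abs_le]; omega
  obtain ⟨v, hv⟩ := M.exists_vec hn hR
  have hJ : M.Jt k ω μ σ (M.toC v) i := ⟨j, h1, h2, hn, hv.symm⟩
  refine ⟨σ, v, i, hJ, ?_, ?_⟩
  · have := Int.le_abs_of_dvd hn (M.sm_dvd_of_rk fun k hk => M.rk_cfg hn hk)
    rw [hv]
    exact_mod_cast this.trans hR
  · have := hN.pot k σ _ _ (fun r hr => dif_neg (not_lt.2 hr)) hJ.run.2.2.1
    rw [List.countP_map] at this
    exact (M.na_pre _ _ _ h3.1).ge.trans this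

variable (M) in
abbrev Desc (R J : ℕ) :=
  Fin (J + 1) × St × M.Vec R × ZMod M.N × M.QS R 0 × (St × Bool → ZMod M.N → Bool)

variable (M) in
def Fits {R J : ℕ} (k : Bool) (ω : List M.Ctl) (r : Fin (R + 1)) (d : M.Desc R J) : Prop :=
  (∃ β, ∀ g : G0 St R, sd g ≠ β → M.tg k ω g ≤ d.1) ∧
  ((d.1 : ℕ) = 0 ∨ (k = true ∨ M.zone d.2.1 = 2) ∧ ∃ i ζ : ℤ, M.Jt k ω d.1 d.2.1 (M.toC d.2.2.1) i ∧
    i - (r : ℕ) = M.Q (M.pre k ω d.1) * ζ ∧ (ζ : ZMod M.N) = d.2.2.2.1) ∧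
  ∀ g : G0 St R, (((d.2.2.2.2.1 : ℕ) : ℤ) ∣ (g.2.2 : ℕ) - (r : ℕ) ∧ d.2.2.2.2.2 (g.1, g.2.1)
    ((((g.2.2 : ℕ) : ℤ) - (r : ℕ)) / (d.2.2.2.2.1 : ℕ) : ℤ) = true) ↔ d.1 + 1 ≤ M.tg k ω g

lemma Nice.fits_eq (hN : M.Nice need p) {R J : ℕ} {k : Bool} {ω ω' : List M.Ctl} {r : Fin (R + 1)}
    {d : M.Desc R J} (h : M.Fits k ω r d) (h' : M.Fits k ω' r d) (g : G0 St R) :
    min (M.tg k ω g) (d.1 + 1) = min (M.tg k ω' g) (d.1 + 1) := by
  have h1 := (h.2.2 g).symm.trans (h'.2.2 g)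
  have h2 : min (M.tg k ω g) d.1 = min (M.tg k ω' g) d.1 := by
    rcases h.2.1 with e | ⟨hk, i, ζ, a1, a2, a3⟩
    · omega
    rcases h'.2.1 with e | ⟨-, i', ζ', b1, b2, b3⟩
    · omega
    obtain ⟨c1, c2⟩ := hN.joint_eq a1 b1 hk
    obtain ⟨z, hz⟩ := (ZMod.intCast_eq_intCast_iff_dvd_sub _ _ _).1 (b3.trans a3.symm)
    rw [← c1] at b2
    exact c2 ⟨z, by linear_combination a2 - b2 + M.Q (M.pre k ω d.1) * hz⟩ _ _ _
  omega

lemma exists_fits {R J : ℕ} {k : Bool} {ω : List M.Ctl} {gm : G0 St R}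
    (hm : ∀ g : G0 St R, M.tg k ω g ≤ M.tg k ω gm) {μ : ℕ} (hJ : μ ≤ J)
    (h1 : ∀ g : G0 St R, sd g ≠ sd gm → M.tg k ω g ≤ μ) (h2 : μ ≤ M.tg k ω gm)
    (h3 : μ = 0 ∨ ∃ (σ : St) (v : M.Vec R) (i : ℤ), (k = true ∨ M.zone σ = 2) ∧
      M.Jt k ω μ σ (M.toC v) i) : ∃ d : M.Desc R J, M.Fits k ω gm.2.2 d := by
  obtain ⟨q, hq⟩ := M.pattern R (M.pre k ω (μ + 1)) (μ + 1 ≤ M.na k ω) (box gm.2.2)
    fun σ b u hu a1 a2 => ⟨gm.1, gm.2.1, (M.le_tau_iff k _ ω _ _ _).1 (by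
      refine le_trans ?_ (hm (σ, b, ⟨u.toNat, by omega⟩))
      simp only [tg, Int.toNat_of_nonneg hu.1]
      exact (M.le_tau_iff k _ ω _ _ _).2 ⟨a1, a2⟩)⟩
  have h4 := fun g : G0 St R => (hq g.1 g.2.1 _ (box g.2.2)).trans (M.le_tau_iff k _ ω _ _ _).symm
  rcases h3 with h3 | ⟨σ, v, i, a1, a2⟩
  · exact ⟨(⟨μ, by omega⟩, gm.1, 0, 0, q), ⟨_, h1⟩, Or.inl h3, h4⟩
  · obtain ⟨ζ, hζ⟩ := M.Al_dvd _ _ _ _ _ a2.run.2.1 ((M.le_tau_iff k _ ω _ _ _).1 h2).2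
    exact ⟨(⟨μ, by omega⟩, σ, v, ζ, q), ⟨_, h1⟩, Or.inr ⟨a1, i, ζ, a2, hζ, rfl⟩, h4⟩

variable (M) in
/-- the letters of the second kind that are switched on -/
def sw {R : ℕ} (ω : List M.Ctl) (x : Sq) : List (Bool × G0 St R × F3 × F3) → List (G0 St R × F3 × F3) :=
  sub sd (M.tg true ω) (M.n1 ω) x

variable (M) in
abbrev Th (R J : ℕ) := M.Desc R J × Fin (J + 2) × Vn (J + 1)

variable (M) in
def FitsT {R J : ℕ} (ω : List M.Ctl) (x : Sq) (r : Fin (R + 1)) (θ : M.Th R J) : Prop :=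
  M.Fits true ω r θ.1 ∧ (θ.2.1 : ℕ) ≤ θ.1.1 + 1 ∧
    (∀ W, M.sw (R := R) ω x W = sub sd (M.tg true ω) θ.2.1 x W) ∧ ∀ t < J + 1, x t = ext θ.2.2 t

lemma Nice.sw_eq (hN : M.Nice need p) {R J : ℕ} {ω ω' : List M.Ctl} {x x' : Sq} {r : Fin (R + 1)}
    {θ : M.Th R J} (h : M.FitsT ω x r θ) (h' : M.FitsT ω' x' r θ) :
    M.sw (R := R) ω x = M.sw ω' x' := by
  funext W
  rw [h.2.2.1, h'.2.2.1]
  have h1 := θ.2.1.2
  have h2 := h.2.1
  refine sub_congr _ (fun g => ?_) (fun t ht => ?_) W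
  · have := hN.fits_eq h.1 h'.1 g
    omega
  · rw [h.2.2.2 t (by omega), h'.2.2.2 t (by omega)]

lemma exists_ext (n : ℕ) (x : Sq) : ∃ y : Vn n, ∀ t < n, x t = ext y t :=
  ⟨fun t => x t, fun t ht => funext fun b => by simp [ext, ht]⟩

lemma Nice.exists_fits1 [Fintype St] (hN : M.Nice need p) {R J : ℕ}
    (hJ : ∀ σ (v : M.Vec R), p true σ (M.toC v) ≤ J) {ω : List M.Ctl} {gm : G0 St R}
    (hm : ∀ g : G0 St R, M.tg true ω g ≤ M.tg true ω gm) :
    ∃ d : M.Desc R J, M.Fits true ω gm.2.2 d := by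
  obtain ⟨μ, h1, h2, h3⟩ := hN.exists_joint true ω gm hm
  refine exists_fits hm ?_ h1 h2 (h3.imp_right fun ⟨σ, v, i, a, _⟩ => ⟨σ, v, i, Or.inl rfl, a⟩)
  rcases h3 with rfl | ⟨σ, v, i, -, -, a⟩
  · exact Nat.zero_le _
  · exact a.trans (hJ σ v)

lemma Nice.exists_fitsT [Fintype St] (hN : M.Nice need p) {R J : ℕ}
    (hJ : ∀ σ (v : M.Vec R), p true σ (M.toC v) ≤ J) {ω : List M.Ctl} {x : Sq}
    (hx : ¬ ∀ W, ∀ q ∈ M.sw (R := R) ω x W, q.2 = 0) {g : G0 St R} (hg : 1 ≤ M.tg false ω g) :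
    ∃ θ : M.Th R J, M.FitsT ω x g.2.2 θ := by
  obtain ⟨d, hd⟩ := hN.exists_fits1 hJ (gm := g) fun g' =>
    (tau_le_n1 _ ω _ _).trans (n1_le_tau _ ω _ _ hg)
  obtain ⟨β, hβ⟩ := hd.1
  obtain ⟨y, hy⟩ := exists_ext (J + 1) x
  have := d.1.2
  exact ⟨(d, ⟨min (M.n1 ω) (d.1 + 1), by omega⟩, y), hd, min_le_right _ _,
    (sub_red sd hβ _ x).resolve_right hx, hy⟩

variable (M p) in
abbrev Big (R : ℕ) := Σ a : St × M.Vec R, Σ n : Fin (p true a.1 (M.toC a.2) + 1),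
  Fin (M.N ^ 3 * M.sm (M.toC a.2)) × (Bool → Fin (M.N ^ 3) → Bool) × Bool × Vn n

variable (M) in
def FitsB {R : ℕ} (ω : List M.Ctl) (x : Sq) (d : M.Big p R) : Prop :=
  ∃ (μ : ℕ) (β : Bool) (i : ℤ), 1 ≤ μ ∧ μ ≤ p false d.1.1 (M.toC d.1.2) ∧ M.zone d.1.1 ≠ 2 ∧
    M.Jt false ω μ d.1.1 (M.toC d.1.2) i ∧ (∀ g : G0 St R, sd g ≠ β → M.tg false ω g ≤ μ) ∧
    M.n1 ω = d.2.1 ∧ ((M.N ^ 3 * M.sm (M.toC d.1.2) : ℕ) : ℤ) ∣ i - (d.2.2.1 : ℕ) ∧
    (∀ b y, d.2.2.2.1 b y = true ↔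
      μ + 1 ≤ M.tau false ω d.1.1 b ((d.2.2.1 : ℕ) + M.sm (M.toC d.1.2) * (y : ℕ))) ∧
    (d.2.2.2.2.1 = true ↔ μ = 1) ∧ ∀ t < (d.2.1 : ℕ), x t = ext d.2.2.2.2.2 t

lemma Jt.mov {ω : List M.Ctl} {μ : ℕ} {σ : St} {v : Cfg} {i : ℤ} (h : M.Jt false ω μ σ v i)
    (hμ : 1 ≤ μ) : M.Jt true ω (M.n1 ω) σ v i := by
  obtain ⟨j, h1, h2, h3⟩ := h
  exact ⟨j, n1_le_tau _ _ _ _ (hμ.trans h1), n1_le_tau _ _ _ _ (hμ.trans h2), h3⟩

lemma Nice.exists_fitsB (hN : M.Nice need p) {R : ℕ} {ω : List M.Ctl} (x : Sq) {μ : ℕ} {β : Bool}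
    {σ : St} {v : M.Vec R} {i : ℤ} (h1 : 1 ≤ μ) (h2 : μ ≤ p false σ (M.toC v)) (h3 : M.zone σ ≠ 2)
    (h4 : M.Jt false ω μ σ (M.toC v) i) (h5 : ∀ g : G0 St R, sd g ≠ β → M.tg false ω g ≤ μ) :
    ∃ d : M.Big p R, d.1 = (σ, v) ∧ M.FitsB ω x d := by
  classical
  have a1 := (h4.mov h1).run
  have a2 := hN.pot true σ _ _ (fun r hr => dif_neg (not_lt.2 hr)) a1.2.2.1
  rw [List.countP_map] at a2
  have a3 := (M.na_pre _ _ _ a1.1).ge.trans a2
  obtain ⟨y, hy⟩ := exists_ext (M.n1 ω) x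
  have a4 : (0 : ℤ) < (M.N ^ 3 * M.sm (M.toC v) : ℕ) := by
    exact_mod_cast Nat.mul_pos (pow_pos M.N_pos 3) (M.sm_pos _)
  have a5 := Int.emod_nonneg i a4.ne'
  have a6 := Int.emod_lt_of_pos i a4
  let i0 : Fin (M.N ^ 3 * M.sm (M.toC v)) := ⟨(i % (M.N ^ 3 * M.sm (M.toC v) : ℕ)).toNat, by omega⟩
  refine ⟨⟨(σ, v), ⟨M.n1 ω, Nat.lt_succ_of_le a3⟩, i0, fun b y => decide (μ + 1 ≤
    M.tau false ω σ b ((i0 : ℕ) + M.sm (M.toC v) * (y : ℕ))), decide (μ = 1), y⟩, rfl, μ, β, i, h1,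
    h2, h3, h4, h5, rfl, ?_, fun b y => decide_eq_true_iff, decide_eq_true_iff, hy⟩
  simp only [i0, Int.toNat_of_nonneg a5]
  exact Int.dvd_self_sub_emod

lemma Nice.sw_eqB (hN : M.Nice need p) {R : ℕ} {ω ω' : List M.Ctl} {x x' : Sq} {d : M.Big p R}
    (h : M.FitsB ω x d) (h' : M.FitsB ω' x' d) : M.sw (R := R) ω x = M.sw ω' x' := by
  obtain ⟨μ, β, i, a1, -, -, a4, -, a6, a7, -, -, a10⟩ := h
  obtain ⟨μ', β', i', b1, -, -, b4, -, b6, b7, -, -, b10⟩ := h'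
  have c1 := a4.mov a1
  have c2 := b4.mov b1
  rw [a6] at c1
  rw [b6] at c2
  funext W
  rw [sw, sw, a6, b6]
  refine sub_congr _ (fun g => (hN.joint_eq c1 c2 (Or.inl rfl)).2 ?_ _ _ _)
    (fun t ht => by rw [a10 t ht, b10 t ht]) W
  refine dvd_trans ?_ (sub_sub_sub_cancel_right i i' _ ▸ dvd_sub a7 b7)
  exact_mod_cast Nat.mul_dvd_mul (dvd_pow_self _ (by norm_num)) c1.run.2.2.2

lemma Nice.sync (hN : M.Nice need p) {ω : List M.Ctl} {μ : ℕ} {σ : St} {v : Cfg} {i : ℤ}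
    (h : M.Jt false ω μ σ v i) (h1 : 1 ≤ μ) (hz : M.zone σ ≠ 2) (σ' : St) (b : Bool) (u : ℤ) :
    (1 ≤ M.tau false ω σ' b u → σ' = σ ∧ ∀ k < M.B, rk b v (u - i) k) ∧
      ((∀ k < M.B, rk b v (u - i) k) → μ ≤ M.tau false ω σ b u) := by
  have hB : 0 < M.B := by
    obtain ⟨j, a, -⟩ := h
    cases ω with
    | nil => simp [tau] at a; omega
    | cons c ω => exact (Nat.zero_le _).trans_lt (M.reg_lt c.1)
  refine ⟨fun a => ?_, fun a => ?_⟩
  · have a1 := fun k hk => hN.rk_of b hk _ σ σ' v (u - i) h.run.2.2.1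
      (by rw [← h.min_eq]; omega) (hN.need_all σ hz k hk)
    exact ⟨(a1 0 hB).1, fun k hk => (a1 k hk).2⟩
  · have a1 := tau_of_Al false (M.Al_of_rk b _ _ _ _ h.run.2.2.1 a)
    have a2 := M.na_pre _ _ _ h.run.1
    rw [← h.min_eq, na, CM.om, List.countP_map, List.countP_map] at a1
    exact le_of_eq_of_le (a2.symm.trans a1.symm) (min_le_left _ _)

variable (M) in
def kap {R : ℕ} (d : M.Big p R) : Fin 3 → G0 St R → Prop :=
  let k0 : G0 St R → Prop := fun g => g.1 = d.1.1 ∧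
    ∀ k < M.B, rk g.2.1 (M.toC d.1.2) ((g.2.2 : ℕ) - (d.2.2.1 : ℕ)) k
  let k2 : G0 St R → Prop := fun g => g.1 = d.1.1 ∧ ∃ (y : Fin (M.N ^ 3)) (a : ℤ),
    ((g.2.2 : ℕ) : ℤ) = (d.2.2.1 : ℕ) + M.sm (M.toC d.1.2) * ((y : ℕ) + (M.N ^ 3 : ℕ) * a) ∧
      d.2.2.2.1 g.2.1 y = true
  ![k0, fun g => if d.2.2.2.2.1 then k2 g else k0 g, k2]

lemma Nice.kap_spec (hN : M.Nice need p) {R : ℕ} {ω : List M.Ctl} {x : Sq} {d : M.Big p R}
    (h : M.FitsB ω x d) : ∃ μ β, 1 ≤ μ ∧ μ ≤ p false d.1.1 (M.toC d.1.2) ∧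
      (∀ g : G0 St R, M.tg false ω g ≤ 1 ∨ μ ≤ M.tg false ω g) ∧
      (∀ g : G0 St R, sd g ≠ β → M.tg false ω g ≤ μ) ∧
      (∀ g, M.kap d 0 g ↔ 1 ≤ M.tg false ω g) ∧ (∀ g, M.kap d 1 g ↔ 2 ≤ M.tg false ω g) ∧
      ∀ g, M.kap d 2 g ↔ μ + 1 ≤ M.tg false ω g := by
  obtain ⟨μ, β, i, a1, a2, a3, a4, a5, -, ⟨z, a7⟩, a8, a9, -⟩ := h
  have s1 := hN.sync a4 a1 a3
  have e : ∀ b (u : ℤ) k, k < M.B → (rk b (M.toC d.1.2) (u - (d.2.2.1 : ℕ)) k ↔
      rk b (M.toC d.1.2) (u - i) k) := fun b u k hk => by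
    rw [← M.rk_shift (n := u - i) (d := M.sm (M.toC d.1.2) * (M.N ^ 2 * z)) (dvd_mul_right _ _) hk]
    push_cast at a7
    rw [show u - i + M.N * (M.sm (M.toC d.1.2) * (M.N ^ 2 * z)) = u - (d.2.2.1 : ℕ) by
      linear_combination -a7]
  have k0 : ∀ g : G0 St R, (M.kap d 0 g → μ ≤ M.tg false ω g) ∧
      (1 ≤ M.tg false ω g → M.kap d 0 g) := by
    rintro ⟨σ, b, u⟩
    refine ⟨fun ⟨c1, c2⟩ => ?_, fun c => ?_⟩
    · obtain rfl : σ = d.1.1 := c1
      exact (s1 d.1.1 b _).2 fun k hk => (e _ _ k hk).1 (c2 k hk)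
    · exact ⟨((s1 σ b _).1 c).1, fun k hk => (e _ _ k hk).2 (((s1 σ b _).1 c).2 k hk)⟩
  have per : ∀ b (u a : ℤ), μ + 1 ≤ M.tau false ω d.1.1 b u →
      μ + 1 ≤ M.tau false ω d.1.1 b (u + M.sm (M.toC d.1.2) * ((M.N ^ 3 : ℕ) * a)) := by
    intro b u a c
    obtain ⟨μ, rfl⟩ : ∃ m, μ = m + 1 := ⟨μ - 1, by omega⟩
    rw [le_tau_iff] at c ⊢
    obtain ⟨y, hy⟩ := (hN.Q_gap ω _ _ _ c.2).trans (Nat.mul_dvd_mul_left _ a4.run.2.2.2)
    have := M.Al_shift _ _ _ (y * a) c.2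
    have hy' := congrArg (Nat.cast : ℕ → ℤ) hy
    push_cast at hy' ⊢
    rw [show M.N * (M.Q (M.pre false ω (μ + 1 + 1)) * (y * a)) =
      M.sm (M.toC d.1.2) * ((M.N : ℤ) ^ 3 * a) by linear_combination -(M.N * a) * hy'] at this
    exact ⟨c.1, this⟩
  have k2 : ∀ g : G0 St R, M.kap d 2 g ↔ μ + 1 ≤ M.tg false ω g := by
    rintro ⟨σ, b, u⟩
    refine ⟨fun ⟨c1, y, a, c2, c3⟩ => ?_, fun c => ?_⟩
    · obtain rfl : σ = d.1.1 := c1
      have := per b _ a ((a8 b y).1 c3)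
      rw [add_assoc, ← mul_add, ← c2] at this
      exact this
    · obtain ⟨c1, c2⟩ := (k0 (σ, b, u)).2 (by omega)
      obtain rfl : σ = d.1.1 := c1
      obtain ⟨a, ha⟩ := M.sm_dvd_of_rk c2
      have hN3 : (0 : ℤ) < (M.N ^ 3 : ℕ) := by exact_mod_cast pow_pos M.N_pos 3
      have c3 := Int.emod_nonneg a hN3.ne'
      have c4 := Int.emod_lt_of_pos a hN3
      have c5 := Int.emod_add_mul_ediv a (M.N ^ 3 : ℕ)
      refine ⟨rfl, ⟨(a % (M.N ^ 3 : ℕ)).toNat, by omega⟩, a / (M.N ^ 3 : ℕ), ?_, (a8 b _).2 ?_⟩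
      · simp only [Int.toNat_of_nonneg c3, c5]
        linear_combination ha
      · have := per b _ (-(a / (M.N ^ 3 : ℕ))) c
        simp only [Int.toNat_of_nonneg c3]
        convert this using 2
        linear_combination -ha + M.sm (M.toC d.1.2) * c5
  refine ⟨μ, β, a1, a2, fun g => ?_, a5, fun g => ⟨fun c => a1.trans ((k0 g).1 c), (k0 g).2⟩,
    fun g => ?_, k2⟩
  · exact (le_or_gt _ 1).imp_right fun c => (k0 g).1 ((k0 g).2 c.le)
  · show (if d.2.2.2.2.1 then M.kap d 2 g else M.kap d 0 g) ↔ _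
    split_ifs with c
    · rw [k2, a9.1 c]
    · have := mt a9.2 c
      exact ⟨fun c => le_trans (by omega) ((k0 g).1 c), fun c => (k0 g).2 (by omega)⟩

end XM

end Pool.Agent.MP_e6aac2_al.H22

end

/-!
The self-similar group of a machine with movers and an upper bound for its Følner function.
-/

noncomputable section

namespace Pool.Agent.MP_e6aac2_al.H22

open Finset
open H99 hiding univ

namespace XM

variable {Md St : Type} (M : XM Md St)

abbrev Wd (St : Type) (R : ℕ) := List (Bool × G0 St R × F3 × F3)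

def evP {R : ℕ} (W : Wd St R) : Equiv.Perm (List M.Let) :=
  (W.map fun q => M.lamp q.1 q.2.1.2.1 q.2.1.1 q.2.2 (q.2.1.2.2 : ℕ)).prod

lemma evP_append {R : ℕ} (W W' : Wd St R) : M.evP (W ++ W') = M.evP W * M.evP W' := by simp [evP]

def boxH (R : ℕ) : Subgroup (Equiv.Perm (List M.Let)) where
  carrier := Set.range (M.evP (R := R))
  mul_mem' := by rintro _ _ ⟨W, rfl⟩ ⟨W', rfl⟩; exact ⟨_, M.evP_append W W'⟩
  one_mem' := ⟨[], rfl⟩
  inv_mem' := by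
    rintro _ ⟨W, rfl⟩
    induction W with
    | nil => exact ⟨[], by simp [evP]⟩
    | cons q W ih =>
      obtain ⟨W', h⟩ := ih
      exact ⟨W' ++ [(q.1, q.2.1, -q.2.2)], by rw [evP_append, h]; simp [evP, lamp_inv]⟩

lemma evP_spec {R : ℕ} (W : Wd St R) (w : List M.Let) : M.sig (M.evP W w) = M.sig w ∧
    M.dat true (M.evP W w) = act sd (M.tg true (w.map Prod.fst)) (mov W) (M.dat true w) ∧
    M.dat false (M.evP W w) = act sd (M.tg false (w.map Prod.fst))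
      (M.sw (w.map Prod.fst) (M.dat true w) W) (M.dat false w) := by
  induction W with
  | nil => exact ⟨rfl, rfl, rfl⟩
  | cons q W ih =>
    obtain ⟨k, g, α⟩ := q
    have e : M.evP ((k, g, α) :: W) w = M.lampF k g.2.1 g.1 α (g.2.2 : ℕ) (M.evP W w) := by
      simp [evP, lamp_apply]
    have e2 : (M.evP W w).map Prod.fst = w.map Prod.fst := by rw [← ctl_sig, ih.1, ctl_sig]
    rw [e, sig_lampF]
    refine ⟨ih.1, ?_⟩
    cases k
    · rw [dat_lamp, e2, ih.2.2, ih.2.1]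
      exact ⟨(M.dat_other false _ _ _ _ _).trans ih.2.1, rfl⟩
    · rw [dat_mov, e2, ih.2.1]
      exact ⟨rfl, (M.dat_other true _ _ _ _ _).trans ih.2.2⟩

variable [Fintype St] {M} {need : St → ℕ → Prop} {p : Bool → St → Cfg → ℕ}

open Classical in
lemma Nice.cov (hN : M.Nice need p) (R J1 J2 : ℕ) (h1 : ∀ σ (v : M.Vec R), p true σ (M.toC v) ≤ J1)
    (h2 : ∀ σ (v : M.Vec R), M.zone σ = 2 → p false σ (M.toC v) ≤ J2) :
    Cov (fun W W' : Wd St R => M.evP W = M.evP W') (Fintype.card (G0 St R) +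
      (R + 1) * Fintype.card (M.Desc R J1) * (2 * J1 + 3) ^ 2 +
      Fintype.card (G0 St R) * Fintype.card (M.Th R J1) +
      (R + 1) * Fintype.card (M.Th R J1) * Fintype.card (M.Desc R J2) * (2 * J2 + 3) ^ 2 +
      ∑ d : M.Big p R with M.zone d.1.1 ≠ 2 ∧ M.sm (M.toC d.1.2) ≤ R,
        12 * (p false d.1.1 (M.toC d.1.2) + 1)) := by
  have c0 := Cov.of_fun fun W : Wd St R => lsum (mov W)
  have c1 := Cov.desc (W := Wd St R) (univ : Finset (Fin (R + 1) × M.Desc R J1))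
    (fun ω : List M.Ctl => ∃ r, ∃ d : M.Desc R J1, M.Fits true ω r d) (fun ω d => M.Fits true ω d.1 d.2)
    (fun ω W W' => ∃ μ β, (∀ g : G0 St R, sd g ≠ β → M.tg true ω g ≤ μ) ∧ ∀ x, ∀ t < μ + 1,
      act sd (M.tg true ω) (mov W) x t = act sd (M.tg true ω) (mov W') x t)
    (fun _ => (2 * J1 + 3) ^ 2) (fun ω ⟨r, d, h⟩ => ⟨(r, d), mem_univ _, h⟩) fun d _ ω h =>
      (cov_low sd mov (M.tg true ω) (d.2.1 + 1)).mono (fun W W' a ω' h' => h'.1.elim fun β hβ =>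
        ⟨_, β, hβ, fun x t ht => by
          rw [act_congr sd (hN.fits_eq h' h) (fun _ _ => rfl) _ t ht, a x t ht,
            act_congr sd (hN.fits_eq h' h) (fun _ _ => rfl) _ t ht]⟩)
        (Nat.pow_le_pow_left (by have := d.2.1.2; omega) 2)
  have c2 := Cov.desc (W := Wd St R) (univ : Finset (G0 St R × M.Th R J1))
    (fun i : List M.Ctl × Sq × G0 St R => ∃ θ : M.Th R J1, M.FitsT i.1 i.2.1 i.2.2.2.2 θ)
    (fun i d => i.2.2 = d.1 ∧ M.FitsT i.1 i.2.1 d.1.2.2 d.2)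
    (fun i W W' => lsum (M.sw i.1 i.2.1 W) i.2.2 = lsum (M.sw i.1 i.2.1 W') i.2.2) (fun _ => 1)
    (fun i ⟨θ, h⟩ => ⟨(i.2.2, θ), mem_univ _, rfl, h⟩) fun d _ i h =>
      (Cov.of_fun (I := Unit) fun W _ => lsum (M.sw i.1 i.2.1 W) d.1).mono
        (fun W W' a j h' => by rw [h'.1, hN.sw_eq h'.2 h.2]; exact congrFun a ()) (by simp)
  let r3 : List M.Ctl × Sq → Wd St R → Wd St R → Prop := fun i W W' => ∃ μ β,
    (∀ g : G0 St R, sd g ≠ β → M.tg false i.1 g ≤ μ) ∧ ∀ x, ∀ t < μ + 1,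
      act sd (M.tg false i.1) (M.sw i.1 i.2 W) x t = act sd (M.tg false i.1) (M.sw i.1 i.2 W') x t
  have c3 := Cov.desc (univ : Finset ((Fin (R + 1) × M.Th R J1) × M.Desc R J2))
    (fun i : List M.Ctl × Sq => ∃ r, (∃ θ : M.Th R J1, M.FitsT i.1 i.2 r θ) ∧
      ∃ d : M.Desc R J2, M.Fits false i.1 r d)
    (fun i d => M.FitsT i.1 i.2 d.1.1 d.1.2 ∧ M.Fits false i.1 d.1.1 d.2) r3
    (fun _ => (2 * J2 + 3) ^ 2) (fun i ⟨r, ⟨θ, h⟩, d, h'⟩ => ⟨((r, θ), d), mem_univ _, h, h'⟩)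
    fun d _ i h => (cov_low sd (M.sw i.1 i.2) (M.tg false i.1) (d.2.1 + 1)).mono
      (fun W W' a j h' => h'.2.1.elim fun β hβ => ⟨_, β, hβ, fun x t ht => by
        rw [hN.sw_eq h'.1 h.1, act_congr sd (hN.fits_eq h'.2 h.2) (fun _ _ => rfl) _ t ht,
          a x t ht, act_congr sd (hN.fits_eq h'.2 h.2) (fun _ _ => rfl) _ t ht]⟩)
      (Nat.pow_le_pow_left (by have := d.2.1.2; omega) 2)
  have c4 := Cov.desc (univ.filter fun d : M.Big p R =>
      M.zone d.1.1 ≠ 2 ∧ M.sm (M.toC d.1.2) ≤ R)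
    (fun i : List M.Ctl × Sq => ∃ d : M.Big p R, (M.zone d.1.1 ≠ 2 ∧ M.sm (M.toC d.1.2) ≤ R) ∧
      M.FitsB i.1 i.2 d) (fun i d => M.FitsB i.1 i.2 d) r3
    (fun d => 12 * (p false d.1.1 (M.toC d.1.2) + 1))
    (fun i ⟨d, a, h⟩ => ⟨d, mem_filter.2 ⟨mem_univ _, a⟩, h⟩)
    fun d _ i h => (cov_sync sd (M.sw i.1 i.2) (M.kap d) _).mono (fun W W' a j h' => by
      obtain ⟨μ, β, k1, k2, k3, k4, k5, k6, k7⟩ := hN.kap_spec h'
      refine ⟨μ, β, k4, ?_⟩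
      rw [hN.sw_eqB h' h]
      exact a _ μ β k1 k2 k3 k4 k5 k6 k7) le_rfl
  refine ((((c0.and c1).and c2).and c3).and c4).mono ?_ (le_of_eq ?_)
  swap
  · simp only [sum_const, card_univ, smul_eq_mul, Fintype.card_prod (Fin (R + 1)),
      Fintype.card_prod (G0 St R), Fintype.card_prod (Fin (R + 1) × _), Fintype.card_fin, mul_one]
  rintro W W' ⟨⟨⟨⟨a0, a1⟩, a2⟩, a3⟩, a4⟩
  refine Equiv.ext fun w => ?_
  obtain ⟨b1, b2, b3⟩ := M.evP_spec W w
  obtain ⟨b1', b2', b3'⟩ := M.evP_spec W' w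
  refine M.ext_dat _ _ (b1.trans b1'.symm) ?_
  rw [Bool.forall_bool, b2, b2', b3, b3']
  generalize w.map Prod.fst = ω
  generalize M.dat true w = x
  rcases isEmpty_or_nonempty St with hS | ⟨⟨s0⟩⟩
  · have e : ∀ (τ : G0 St R → ℕ) W x, act sd τ W x = x := fun τ W =>
      act_triv sd W fun q _ => hS.elim q.1.1
    simp only [e, and_self]
  have hmax := fun k => univ.exists_max_image (M.tg (R := R) k ω) ⟨(s0, false, 0), mem_univ _⟩
  constructor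
  · by_cases hx : ∀ W, ∀ q ∈ M.sw (R := R) ω x W, q.2 = 0
    · rw [act_triv sd _ fun q hq => Or.inr (hx _ q hq), act_triv sd _ fun q hq => Or.inr (hx _ q hq)]
    obtain ⟨gm, -, hm⟩ := hmax false
    replace hm := fun g => hm g (mem_univ _)
    rcases Nat.eq_zero_or_pos (M.tg false ω gm) with h0 | h0
    · have e : ∀ W x, act sd (M.tg (R := R) false ω) W x = x := fun W =>
        act_triv sd W fun q _ => Or.inl (by have := hm q.1; omega)
      rw [e, e]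
    obtain ⟨μ, β, k1, k2⟩ : r3 (ω, x) W W' := by
      obtain ⟨μ, k1, k2, k3⟩ := hN.exists_joint false ω gm hm
      rcases k3 with rfl | ⟨σ, v, i, k3, k4, k5⟩
      · exact a3 _ ⟨_, hN.exists_fitsT h1 hx h0, exists_fits hm (Nat.zero_le _) k1 k2 (Or.inl rfl)⟩
      by_cases hz : M.zone σ = 2
      · exact a3 _ ⟨_, hN.exists_fitsT h1 hx h0, exists_fits hm (k5.trans (h2 σ v hz)) k1 k2
          (Or.inr ⟨σ, v, i, Or.inr hz, k3⟩)⟩
      rcases Nat.eq_zero_or_pos μ with rfl | hμ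
      · exact a3 _ ⟨_, hN.exists_fitsT h1 hx h0, exists_fits hm (Nat.zero_le _) k1 k2 (Or.inl rfl)⟩
      obtain ⟨d, e, hd⟩ := hN.exists_fitsB x hμ k5 hz k3 k1
      exact a4 _ ⟨d, by rw [e]; exact ⟨hz, k4⟩, hd⟩
    rw [act_eq_of sd k1 k2 fun g hg => a2 (ω, x, g) (hN.exists_fitsT h1 hx hg)]
  · obtain ⟨gm, -, hm⟩ := hmax true
    obtain ⟨μ, β, k1, k2⟩ := a1 ω ⟨_, hN.exists_fits1 h1 fun g => hm g (mem_univ _)⟩
    rw [act_eq_of sd k1 k2 fun g _ => congrFun a0 g]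

open Classical in
theorem Nice.card_boxH (hN : M.Nice need p) : ∃ K, ∀ R J1 J2 Y : ℕ,
    (∀ σ (v : M.Vec R), p true σ (M.toC v) ≤ J1) →
    (∀ σ (v : M.Vec R), M.zone σ = 2 → p false σ (M.toC v) ≤ J2) → J1 + 2 ≤ Y → 9 ^ (J1 + 1) ≤ Y →
    J2 + 2 ≤ Y → (Nat.log 2 R + 1) ^ M.B ≤ Y → Finite (M.boxH R) ∧ Nat.card (M.boxH R) ≤
      3 ^ (K * ((R + 1) * Y ^ 10 + ∑ a : St × M.Vec R with M.zone a.1 ≠ 2 ∧ M.sm (M.toC a.2) ≤ R,
        M.sm (M.toC a.2) * 9 ^ p true a.1 (M.toC a.2) * (p false a.1 (M.toC a.2) + 1))) := by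
  set S := Fintype.card St
  set K0 := S * M.N * 2 * (2 ^ M.N) ^ (S * 2)
  set K1 := 2 * S + 4 * K0 + 2 * S * K0 + 4 * K0 ^ 2
  set K2 := M.N ^ 3 * ((2 ^ M.N ^ 3) ^ 2 * 2) * 9 * 12
  refine ⟨K1 + K2, fun R J1 J2 Y h1 h2 y1 y2 y3 y4 => Cov.card (fun W => (⟨M.evP W, W, rfl⟩ :
    M.boxH R)) (by rintro ⟨_, W, rfl⟩; exact ⟨W, rfl⟩)
    ((hN.cov R J1 J2 h1 h2).mono (fun _ _ h => Subtype.ext h) ?_)⟩
  have d1 : ∀ J, J + 1 ≤ Y → Fintype.card (M.Desc R J) ≤ K0 * Y ^ 3 := by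
    intro J hJ
    have := (M.card_QS R 0).trans (Nat.mul_le_mul_left 2 y4)
    simp only [Fintype.card_prod, Fintype.card_fin, Fintype.card_pi, prod_const, card_univ,
      ZMod.card, Fintype.card_coe, Fintype.card_bool]
    calc _ ≤ Y * (S * (Y * (M.N * (2 * Y * (2 ^ M.N) ^ (S * 2))))) := by gcongr
      _ = _ := by ring
  have d2 : Fintype.card (M.Th R J1) ≤ K0 * Y ^ 5 := by
    have e : Fintype.card (Vn (J1 + 1)) = 9 ^ (J1 + 1) := by simp
    rw [Fintype.card_prod, Fintype.card_prod (Fin (J1 + 2)), Fintype.card_fin, e]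
    calc _ ≤ K0 * Y ^ 3 * (Y * Y) := by gcongr; exact d1 _ (by omega)
      _ = _ := by ring
  have d3 : Fintype.card (G0 St R) = 2 * S * (R + 1) := by
    simp only [Fintype.card_prod, Fintype.card_fin, Fintype.card_bool]; ring
  have hY : 1 ≤ Y := by omega
  have d4 : ∀ a b, a ≤ b → Y ^ a ≤ Y ^ b := fun a b => Nat.pow_le_pow_right hY
  have d5 : ∑ d : M.Big p R with M.zone d.1.1 ≠ 2 ∧ M.sm (M.toC d.1.2) ≤ R,
      12 * (p false d.1.1 (M.toC d.1.2) + 1) ≤ K2 *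
      ∑ a : St × M.Vec R with M.zone a.1 ≠ 2 ∧ M.sm (M.toC a.2) ≤ R,
        M.sm (M.toC a.2) * 9 ^ p true a.1 (M.toC a.2) * (p false a.1 (M.toC a.2) + 1) := by
    rw [sum_filter, sum_filter, Fintype.sum_sigma, mul_sum]
    refine sum_le_sum fun a _ => ?_
    dsimp only
    split_ifs
    · rw [sum_const, card_univ, smul_eq_mul, Fintype.card_sigma]
      simp only [Fintype.card_prod, Fintype.card_fin, Fintype.card_pi, prod_const, card_univ,
        ZMod.card, Fintype.card_bool, ← mul_sum]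
      have := (Fin.sum_univ_eq_sum_range (fun n => 9 ^ n) (p true a.1 (M.toC a.2) + 1)).trans_le
        (Nat.geomSum_lt (by norm_num) fun k => mem_range.1).le
      calc _ ≤ M.N ^ 3 * M.sm (M.toC a.2) * ((2 ^ M.N ^ 3) ^ 2 * (2 * 9 ^ (p true a.1 (M.toC a.2) + 1)))
          * (12 * (p false a.1 (M.toC a.2) + 1)) := by gcongr; exact this
        _ = _ := by ring
    · simp
  generalize ∑ a : St × M.Vec R with M.zone a.1 ≠ 2 ∧ M.sm (M.toC a.2) ≤ R,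
    M.sm (M.toC a.2) * 9 ^ p true a.1 (M.toC a.2) * (p false a.1 (M.toC a.2) + 1) = X at *
  rw [d3]
  have f1 : 2 * S * (R + 1) ≤ 2 * S * (R + 1) * Y ^ 10 := Nat.le_mul_of_pos_right _ (by positivity)
  have f2 := (d1 J1 (by omega)).trans (Nat.mul_le_mul_left K0 (d4 3 8 (by norm_num)))
  have f3 := d2.trans (Nat.mul_le_mul_left K0 (d4 5 10 (by norm_num)))
  have f4 := d1 J2 (by omega)
  have f5 : 2 * J1 + 3 ≤ 2 * Y := by omega
  have f6 : 2 * J2 + 3 ≤ 2 * Y := by omega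
  calc _ ≤ 2 * S * (R + 1) * Y ^ 10 + (R + 1) * (K0 * Y ^ 8) * (2 * Y) ^ 2 +
        2 * S * (R + 1) * (K0 * Y ^ 10) + (R + 1) * (K0 * Y ^ 5) * (K0 * Y ^ 3) * (2 * Y) ^ 2 +
        K2 * X :=
        add_le_add (add_le_add (add_le_add (add_le_add f1 (by gcongr)) (by gcongr)) (by gcongr)) d5
    _ = K1 * ((R + 1) * Y ^ 10) + K2 * X := by ring
    _ ≤ _ := by nlinarith [Nat.zero_le (K1 * X), Nat.zero_le (K2 * ((R + 1) * Y ^ 10))]

variable (M)

open Classical in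
def gens : Finset (Equiv.Perm (List M.Let)) :=
  insert (M.tr 1) (univ.image fun q : Bool × Bool × St × F3 × F3 =>
    M.lamp q.1 q.2.1 q.2.2.1 q.2.2.2 0)

lemma mem_gens {g : Equiv.Perm (List M.Let)} : g ∈ M.gens ↔
    g = M.tr 1 ∨ ∃ k b σ α, g = M.lamp k b σ α 0 := by
  simp only [gens, mem_insert, mem_image, mem_univ, true_and, eq_comm (b := g)]
  exact or_congr_right ⟨fun ⟨q, h⟩ => ⟨_, _, _, _, h⟩, fun ⟨k, b, σ, α, h⟩ => ⟨(k, b, σ, α), h⟩⟩

def grp : Subgroup (Equiv.Perm (List M.Let)) := Subgroup.closure (M.gens : Set _)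

open Classical in
def gensG : Finset M.grp := M.gens.subtype (· ∈ M.grp)

lemma mem_gensG {g : M.grp} : g ∈ M.gensG ↔ g.1 ∈ M.gens := by simp [gensG]

lemma closure_gensG : Subgroup.closure (M.gensG : Set M.grp) = ⊤ := by
  have : (M.gensG : Set M.grp) = (↑) ⁻¹' (M.gens : Set (Equiv.Perm (List M.Let))) :=
    Set.ext fun g => M.mem_gensG
  rw [this]
  exact Subgroup.closure_closure_coe_preimage

lemma tr_mem (n : ℤ) : M.tr n ∈ M.grp := by
  rw [CM.tr_zpow]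
  exact zpow_mem (Subgroup.subset_closure (M.mem_gens.2 (Or.inl rfl))) _

lemma lamp_mem (k b : Bool) (σ : St) (α : F3 × F3) (j : ℤ) : M.lamp k b σ α j ∈ M.grp := by
  rw [← zero_add j, lamp_conj]
  exact mul_mem (mul_mem (inv_mem (M.tr_mem j))
    (Subgroup.subset_closure (M.mem_gens.2 (Or.inr ⟨k, b, σ, α, rfl⟩)))) (M.tr_mem j)

lemma selfSimilar : IsSelfSimilar M.grp := by
  have h1 : ∀ n x, ∃ y, ∃ h ∈ M.grp, ∀ w, M.tr n (x :: w) = y :: h w := fun n x =>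
    ⟨_, _, M.tr_mem _, fun _ => rfl⟩
  have h2 : ∀ k b σ α j x, ∃ y, ∃ h ∈ M.grp, ∀ w, M.lamp k b σ α j (x :: w) = y :: h w := by
    intro k b σ α j x
    by_cases h : M.al σ b x.1.1 (x.1.2 + j)
    · exact ⟨_, _, M.lamp_mem _ _ _ _ _, fun w => by
        rw [lamp_apply, lampF, if_pos h, lamp_apply]⟩
    · exact ⟨_, 1, one_mem _, fun w => by rw [lamp_apply, lampF, if_neg h]; rfl⟩
  intro g hg
  induction hg using Subgroup.closure_induction'' with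
  | mem g hg =>
    rcases M.mem_gens.1 hg with rfl | ⟨k, b, σ, α, rfl⟩
    · exact h1 _
    · exact h2 _ _ _ _ _
  | inv_mem g hg =>
    rcases M.mem_gens.1 hg with rfl | ⟨k, b, σ, α, rfl⟩
    · rw [← CM.tr_neg]; exact h1 _
    · rw [lamp_inv]; exact h2 _ _ _ _ _
  | one => exact fun x => ⟨x, 1, one_mem _, fun _ => rfl⟩
  | mul g h _ _ hg hh =>
    intro x
    obtain ⟨y, h', a1, a2⟩ := hh x
    obtain ⟨z, g', b1, b2⟩ := hg y
    exact ⟨z, g' * h', mul_mem b1 a1, fun w => by simp only [Equiv.Perm.mul_apply, a2, b2]⟩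

def trG (n : ℤ) : M.grp := ⟨M.tr n, M.tr_mem n⟩

lemma folner_upper (n R : ℕ) (hR : R = 2 * M.gensG.card * n) (hfin : Finite (M.boxH R)) :
    ∃ E, IsFolner M.gensG n E ∧ E.ncard ≤ (R + 1) * Nat.card (M.boxH R) := by
  have hle : M.boxH R ≤ M.grp := by
    rintro _ ⟨W, rfl⟩
    refine list_prod_mem fun g hg => ?_
    obtain ⟨q, -, rfl⟩ := List.mem_map.1 hg
    exact M.lamp_mem _ _ _ _ _
  have e := (Subgroup.subgroupOfEquivOfLe hle).toEquiv
  have : Finite ((M.boxH R).subgroupOf M.grp) := Finite.of_equiv _ e.symm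
  obtain ⟨E, hE, hc⟩ := exists_folner_box (K := Unit) M.gensG n (fun a => M.trG (a ()))
    (fun a b => Subtype.ext (M.tr_add _ _)) ((M.boxH R).subgroupOf M.grp) (by
      intro s hs
      rcases M.mem_gens.1 (M.mem_gensG.1 hs) with h | ⟨k, b, σ, α, h⟩
      · exact Or.inl ⟨(), Subtype.ext h⟩
      · refine Or.inr fun a ha => ?_
        rw [Subgroup.mem_subgroupOf]
        simp only [Subgroup.coe_mul, Subgroup.coe_inv, h, trG]
        rw [← lamp_conj, zero_add]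
        have := ha ()
        refine ⟨[(k, (σ, b, ⟨(a ()).toNat, by omega⟩), α)], ?_⟩
        simp [evP, max_eq_left this.1])
  refine ⟨E, hE, hc.trans ?_⟩
  rw [Nat.card_congr e, ← hR]
  simp

end XM

end Pool.Agent.MP_e6aac2_al.H22

end

/-!
A lower bound for the Følner function of the group of a machine with movers.
-/

noncomputable section

namespace Pool.Agent.MP_e6aac2_al.H22

open Finset
open H99 hiding univ sd e0

def eps (τ : Bool → ℕ) : ℕ → Bool → F3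
  | 0, b => if 0 < τ b then 1 else 0
  | t + 1, b => if t + 1 < τ b then eps τ t (!b) else 0

def tv {n : ℕ} (τ : Bool → ℕ) (v : Vn n) : Sq := fun t b => ext v t b * eps τ t b

lemma eps_full (n : ℕ) : ∀ t < n, ∀ b, eps (fun _ => n) t b = 1
  | 0, h, _ => if_pos h
  | t + 1, h, b => by rw [eps, if_pos h, eps_full n t (by omega)]

lemma tv_full {n : ℕ} (v : Vn n) : tv (fun _ => n) v = ext v := by
  funext t b
  by_cases h : t < n
  · rw [tv, eps_full n t h, mul_one]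
  · rw [tv, ext_ge v (not_lt.1 h), zero_mul]

lemma tv_add {n : ℕ} (τ : Bool → ℕ) (v w : Vn n) : tv τ (v + w) = tv τ v + tv τ w := by
  funext t b
  by_cases h : t < n <;> simp [tv, ext, h, add_mul]

lemma U_tv {n : ℕ} {τ : Bool → ℕ} {b : Bool} (h : τ b ≤ n) (v : Vn n) (x : Sq) :
    U b (1, 0) (τ b) (x + tv τ v) = U b (1, 0) (τ b) x + tv τ (sh b 1 v) := by
  funext t b'
  simp only [U, tv, ext_sh, Pi.add_apply]
  by_cases hb : b' = b
  · subst hb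
    cases t with
    | zero => simp [cr]
    | succ t =>
      by_cases a : t + 1 < τ b'
      · simp [cr, eps, tv, a, a.trans_le h]; ring
      · simp [eps, a]
  · simp [hb]

lemma U_e0 {n : ℕ} {τ : Bool → ℕ} {b : Bool} (h : τ b ≤ n) (x : Sq) :
    U b (0, 1) (τ b) x = x + tv τ (e0 n b) := by
  funext t b'
  simp only [U, tv, Pi.add_apply, ext, e0]
  by_cases hb : b' = b
  · subst hb
    cases t with
    | zero =>
      by_cases a : 0 < τ b'
      · simp [cr, eps, a, a.trans_le h]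
      · simp [eps, a]
    | succ t => simp [cr]
  · simp [hb]

namespace XM

variable {Md St : Type} (M : XM Md St)

def trl : Sq → List M.Let → List M.Let
  | _, [] => []
  | e, a :: w => if M.mv a.1.1 then (a.1, a.2 + e 0) :: trl (fun t => e (t + 1)) w else a :: trl e w

lemma trl_add (w : List M.Let) : ∀ e e' : Sq, M.trl e (M.trl e' w) = M.trl (e + e') w := by
  induction w with
  | nil => intros; rfl
  | cons a w ih =>
    intro e e'
    by_cases h : M.mv a.1.1 = true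
    · simp only [trl, h, if_true, ih, Pi.add_apply, add_assoc, add_comm (e' 0)]; rfl
    · simp [trl, h, ih]

lemma trl_zero (w : List M.Let) : M.trl 0 w = w := by
  induction w with
  | nil => rfl
  | cons a w ih =>
    have : M.trl (fun _ => 0) w = w := ih
    simp [trl, ih, this]

lemma trl_spec (w : List M.Let) : ∀ e : Sq, (∀ t, M.na true (w.map Prod.fst) ≤ t → e t = 0) →
    M.sig (M.trl e w) = M.sig w ∧ M.dat true (M.trl e w) = M.dat true w + e ∧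
      M.dat false (M.trl e w) = M.dat false w := by
  induction w with
  | nil => exact fun e h => ⟨rfl, funext fun t => by simp [dat, trl, h t (Nat.zero_le _)], rfl⟩
  | cons a w ih =>
    intro e h
    simp only [List.map_cons, na_cons, fl, if_true] at h
    by_cases h1 : M.mv a.1.1 = true
    · obtain ⟨b1, b2, b3⟩ := ih (fun t => e (t + 1)) fun t ht => h _ (by simpa [h1] using ht)
      simp only [sig] at b1
      refine ⟨by simp [trl, sig, h1, b1], ?_, by simp [trl, dat, fl, h1, M.not_both h1, b3]⟩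
      simp only [trl, dat, fl, h1, if_true, b2]
      funext t
      cases t <;> rfl
    · obtain ⟨b1, b2, b3⟩ := ih e fun t ht => h _ (by simpa [h1] using ht)
      simp only [sig] at b1
      exact ⟨by simp [trl, sig, h1, b1], by simp [trl, dat, fl, h1, b2], by simp [trl, dat, h1, b3]⟩

lemma ctl_trl (w : List M.Let) : ∀ e, (M.trl e w).map Prod.fst = w.map Prod.fst := by
  induction w with
  | nil => intros; rfl
  | cons a w ih => intro e; rw [trl]; split_ifs <;> simp [ih]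

lemma dat_ge (k : Bool) (w : List M.Let) :
    ∀ t, M.na k (w.map Prod.fst) ≤ t → M.dat k w t = 0 := by
  induction w with
  | nil => intros; rfl
  | cons a w ih =>
    intro t ht
    rw [List.map_cons, na_cons] at ht
    rw [dat]
    split_ifs at ht ⊢
    · obtain ⟨t, rfl⟩ : ∃ s, t = s + 1 := ⟨t - 1, by omega⟩
      exact ih t (by omega)
    · exact ih t ht

lemma exists_dat_zero (ω : List M.Ctl) : ∃ w, w.map Prod.fst = ω ∧ ∀ k, M.dat k w = 0 := by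
  induction ω with
  | nil => exact ⟨[], rfl, fun _ => rfl⟩
  | cons c ω ih =>
    obtain ⟨w, h1, h2⟩ := ih
    refine ⟨(c, 0) :: w, by simp [h1], fun k => ?_⟩
    simp only [dat, h2]
    split_ifs
    · funext t; cases t <;> rfl
    · rfl

lemma exists_dat (ω : List M.Ctl) (h : 0 < M.na false ω) :
    ∃ w, w.map Prod.fst = ω ∧ M.dat true w = 0 ∧ M.dat false w = H99.e0 := by
  induction ω with
  | nil => simp [na] at h
  | cons c ω ih =>
    cases e : M.act c.1 with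
    | true =>
      obtain ⟨w, h1, h2⟩ := M.exists_dat_zero ω
      have e' : M.mv c.1 = false := by
        by_contra a
        simp [M.not_both (by simpa using a)] at e
      exact ⟨(c, fun b => if b then 1 else 0) :: w, by simp [h1], by simp [dat, fl, e', h2],
        by simp [dat, fl, e, h2, H99.e0]⟩
    | false =>
      obtain ⟨w, h1, h2, h3⟩ := ih (by simpa [na_cons, fl, e] using h)
      refine ⟨(c, 0) :: w, by simp [h1], ?_, by simp [dat, fl, e, h3]⟩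
      simp only [dat, h2]
      split_ifs
      · funext t; cases t <;> rfl
      · rfl

lemma conj_lamp (k b : Bool) (σ : St) (α : F3 × F3) (j n : ℤ) :
    M.tr n * M.lamp k b σ α j * (M.tr n)⁻¹ = M.lamp k b σ α (j - n) := by
  have := M.lamp_conj k b σ α (j - n) n
  rw [sub_add_cancel] at this
  rw [this]; group

/-- permutations that preserve the control word and the partition by the first data -/
def C1 : Subgroup (Equiv.Perm (List M.Let)) where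
  carrier := {g | (∀ w, (g w).map Prod.fst = w.map Prod.fst) ∧ ∀ w w', w.map Prod.fst =
    w'.map Prod.fst → (M.dat true (g w) = M.dat true (g w') ↔ M.dat true w = M.dat true w')}
  mul_mem' := by
    intro g h hg hh
    exact ⟨fun w => (hg.1 _).trans (hh.1 w), fun w w' e =>
      (hg.2 _ _ (by rw [hh.1, hh.1, e])).trans (hh.2 w w' e)⟩
  one_mem' := ⟨fun _ => rfl, fun _ _ _ => Iff.rfl⟩
  inv_mem' := by
    intro g hg
    have e : ∀ w, (g⁻¹ w).map Prod.fst = w.map Prod.fst := fun w => by rw [← hg.1]; simp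
    exact ⟨e, fun w w' h => by rw [← hg.2 _ _ (by rw [e, e, h])]; simp⟩

def Cc : Subgroup (Equiv.Perm (List M.Let)) :=
  ⨅ n : ℤ, M.C1.comap (MulAut.conj (M.tr n)).toMonoidHom

lemma mem_Cc {g : Equiv.Perm (List M.Let)} :
    g ∈ M.Cc ↔ ∀ n : ℤ, M.tr n * g * (M.tr n)⁻¹ ∈ M.C1 := Subgroup.mem_iInf

lemma lamp_mem_Cc (k b : Bool) (σ : St) (α : F3 × F3) (j : ℤ) : M.lamp k b σ α j ∈ M.Cc := by
  refine M.mem_Cc.2 fun n => ?_
  rw [conj_lamp]
  refine ⟨fun w => M.ctl_lampF _ _ _ _ _ _, fun w w' e => ?_⟩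
  rw [lamp_apply, lamp_apply]
  cases k
  · exact Iff.of_eq (congrArg₂ _ (M.dat_other false _ _ _ _ _) (M.dat_other false _ _ _ _ _))
  · rw [dat_mov, dat_mov, e]
    refine ⟨fun h => ?_, fun h => by rw [h]⟩
    have := congrArg (U b (-α) (M.tau true (w'.map Prod.fst) σ b (j - n))) h
    rwa [CM.U_add, CM.U_add, neg_add_cancel, CM.U_zero', CM.U_zero'] at this

abbrev Fib (ω : List M.Ctl) := {w : List M.Let // w.map Prod.fst = ω}

instance [Finite Md] (ω : List M.Ctl) : Finite (M.Fib ω) :=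
  ((List.finite_length_eq M.Let ω.length).subset fun w (hw : w.map Prod.fst = ω) => by
    simp [← hw]).to_subtype

def SG (ω : List M.Ctl) (q : ℕ) : Subgroup (Fin q → Equiv.Perm (M.Fib ω)) where
  carrier := {s | ∀ u w w', M.dat true (s u w).1 = M.dat true (s u w').1 ↔
    M.dat true w.1 = M.dat true w'.1}
  mul_mem' := fun hg hh u w w' => (hg u _ _).trans (hh u w w')
  one_mem' := fun _ _ _ => Iff.rfl
  inv_mem' := by
    intro g hg u w w'
    rw [← hg u]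
    simp

lemma SG_ext {ω : List M.Ctl} {q : ℕ} {s s' : M.SG ω q}
    (h : ∀ u w, M.sig (s.1 u w).1 = M.sig (s'.1 u w).1 ∧
      M.dat false (s.1 u w).1 = M.dat false (s'.1 u w).1 ∧
      M.dat true (s.1 u w).1 = M.dat true (s'.1 u w).1) : s = s' :=
  Subtype.ext (funext fun u => Equiv.ext fun w => Subtype.ext
    (M.ext_dat _ _ (h u w).1 (Bool.forall_bool.2 (h u w).2)))

def trS (ω : List M.Ctl) {q : ℕ} (τ : Fin q → Bool → ℕ) (v : Vn (M.na true ω)) : M.SG ω q :=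
  ⟨fun u => ⟨fun w => ⟨M.trl (tv (τ u) v) w.1, (M.ctl_trl _ _).trans w.2⟩,
    fun w => ⟨M.trl (-tv (τ u) v) w.1, (M.ctl_trl _ _).trans w.2⟩,
    fun w => Subtype.ext (by simp [trl_add, trl_zero]),
    fun w => Subtype.ext (by simp [trl_add, trl_zero])⟩, fun u w w' => by
      have h := fun w : M.Fib ω => (M.trl_spec w.1 (tv (τ u) v) fun t ht => funext fun b => by
        rw [w.2] at ht
        simp [tv, ext_ge v ht]).2.1
      simp only [Equiv.coe_fn_mk, h, add_left_inj]⟩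

lemma trS_spec {ω : List M.Ctl} {q : ℕ} (τ : Fin q → Bool → ℕ) (v : Vn (M.na true ω)) (u : Fin q)
    (w : M.Fib ω) : M.sig ((M.trS ω τ v).1 u w).1 = M.sig w.1 ∧
      M.dat true ((M.trS ω τ v).1 u w).1 = M.dat true w.1 + tv (τ u) v ∧
      M.dat false ((M.trS ω τ v).1 u w).1 = M.dat false w.1 :=
  M.trl_spec w.1 _ fun t ht => funext fun b => by
    rw [w.2] at ht
    simp [tv, ext_ge v ht]

variable [Fintype St]

def piH (ω : List M.Ctl) (q : ℕ) : M.Cc.comap M.grp.subtype →* M.SG ω q :=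
  MonoidHom.mk' (fun h => ⟨fun i => (M.tr (i : ℕ) * h.1.1 * (M.tr (i : ℕ))⁻¹).subtypePerm
    fun w => ((M.mem_Cc.1 h.2 (i : ℕ)).1 w).congr_left, fun i w w' =>
      (M.mem_Cc.1 h.2 (i : ℕ)).2 _ _ (w.2.trans w'.2.symm)⟩) fun g h => by
      refine Subtype.ext (funext fun i => Equiv.ext fun w => Subtype.ext ?_)
      show M.tr _ ((g.1.1 * h.1.1) _) = _
      simp

def lampL (k b : Bool) (σ : St) (α : F3 × F3) (j : ℤ) : M.Cc.comap M.grp.subtype :=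
  ⟨⟨_, M.lamp_mem k b σ α j⟩, M.lamp_mem_Cc k b σ α j⟩

lemma piH_lamp (ω : List M.Ctl) (q : ℕ) (k b : Bool) (σ : St) (α : F3 × F3) (j : ℤ) (i : Fin q)
    (w : M.Fib ω) : ((M.piH ω q (M.lampL k b σ α j)).1 i w).1 =
      M.lampF k b σ α (j - (i : ℕ)) w.1 :=
  congrArg (fun g => g w.1) (M.conj_lamp k b σ α j (i : ℕ))

lemma bd_lamp {E : Set M.grp} (hE : E.Finite) {β : ℕ} (hβ : ∀ s ∈ M.gensG, bd E s ≤ β)
    (k b : Bool) (σ : St) (α : F3 × F3) (j : ℕ) :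
    bd E (M.lampL k b σ α j).1 ≤ (2 * j + 1) * β := by
  have e : (M.lampL k b σ α j).1 = (M.trG 1 ^ j)⁻¹ * (M.lampL k b σ α 0).1 * M.trG 1 ^ j := by
    refine Subtype.ext ?_
    have := M.lamp_conj k b σ α 0 j
    rw [zero_add, CM.tr_zpow, zpow_natCast] at this
    exact this
  have h1 := bd_mul hE ((M.trG 1 ^ j)⁻¹ * (M.lampL k b σ α 0).1) (M.trG 1 ^ j)
  have h2 := bd_mul hE (M.trG 1 ^ j)⁻¹ (M.lampL k b σ α 0).1
  rw [bd_inv hE] at h2
  have h3 := (bd_pow hE (M.trG 1) j).trans (Nat.mul_le_mul_left _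
    (hβ _ (M.mem_gensG.2 (M.mem_gens.2 (Or.inl rfl)))))
  have h4 := hβ (M.lampL k b σ α 0).1 (M.mem_gensG.2 (M.mem_gens.2 (Or.inr ⟨k, b, σ, α, rfl⟩)))
  rw [e]
  nlinarith

variable {M} {need : St → ℕ → Prop} {p : Bool → St → Cfg → ℕ}

theorem Nice.folner_lower [Finite Md] (hN : M.Nice need p) {σ : St} (hσ : M.zone σ ≠ 2)
    {n0 k k' y n : ℕ} (h0 : n0 ≠ 0) (hk : M.cfg n0 0 = k) {L : List Md}
    (hr : M.RunV σ (M.cfg n0) L) (hx : 2 * (k' + 2) < L.countP M.act)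
    (hy : 32 * y ≤ 2 ^ k * 9 ^ L.countP M.mv) (hn : 2304 * (2 * (n0 + 2 ^ k) + 1) ≤ n)
    {E : Set M.grp} (hE : IsFolner M.gensG n E) : (2 ^ k') ^ y ≤ E.ncard := by
  classical
  obtain ⟨hfin, hne, hE⟩ := isFolner_iff.1 hE
  have h0' : (n0 : ℤ) ≠ 0 := by exact_mod_cast h0
  have hna : ∀ k, M.na k (M.om L) = L.countP (M.fl k) := fun k => by
    rw [na, CM.om, List.countP_map]; rfl
  rw [show L.countP M.act = M.na false (M.om L) from (hna false).symm] at hx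
  rw [show L.countP M.mv = M.na true (M.om L) from (hna true).symm] at hy
  have hal : ∀ b, M.Al (M.om L) σ b (if b then 0 else n0) := fun b =>
    M.Al_of_rk b L σ _ _ hr fun k hk => by
      cases b
      · exact M.rk_cfg h0' hk
      · exact dvd_zero _
  have hal0 : M.Al (M.om L) σ false n0 := hal false
  have hal1 : M.Al (M.om L) σ true 0 := hal true
  generalize M.om L = ω at *
  let pos : Fin (2 ^ k) → Bool → ℕ := fun u b => if b then u else n0 + u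
  have htau : ∀ κ u b, M.tau κ ω σ b (pos u b - (u : ℕ)) = M.na κ ω := fun κ u b => by
    rw [← tau_of_Al κ (hal b)]
    cases b <;> simp [pos]
  have hn1 : M.n1 ω = M.na true ω := by
    have a1 := tau_le_n1 true ω σ 0
    have a2 := n1_le_tau true ω σ 0 (by rw [tau_of_Al false hal1]; omega)
    rw [tau_of_Al true hal1] at a1 a2
    omega
  have hJ : M.Jt false ω (M.na false ω) σ (M.cfg n0) 0 :=
    ⟨n0, (tau_of_Al false hal0).ge, (tau_of_Al false hal1).ge, by simpa using h0,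
      by rw [sub_zero]⟩
  have hB : 0 < M.B := by
    cases ω with
    | nil => simp [na] at hx
    | cons c ω => exact (Nat.zero_le _).trans_lt (M.reg_lt c.1)
  have hdead : ∀ u u' b, u' ≠ u → M.tau false ω σ b (pos u b - (u' : ℕ)) = 0 := by
    intro u u' b hu
    by_contra h
    have a1 := ((hN.sync hJ (by omega) hσ σ b _).1 (Nat.one_le_iff_ne_zero.2 h)).2 0 hB
    have a2 := (M.rk_cfg h0' hB).1
    have a3 : (pr 0 : ℤ) ^ M.cfg n0 0 ∣ (u : ℕ) - (u' : ℕ) := by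
      cases b
      · have := dvd_sub a1.1 a2
        simp only [pos, Bool.false_eq_true, if_false, Nat.cast_add] at this
        rwa [show (n0 : ℤ) + (u : ℕ) - (u' : ℕ) - 0 - n0 = (u : ℕ) - (u' : ℕ) by ring] at this
      · simpa [pos] using (pow_dvd_pow _ (Nat.le_succ _)).trans a1
    rw [hk, show (pr 0 : ℤ) = 2 by simp [pr, Nat.nth_prime_zero_eq_two]] at a3
    have h1 : ((u : ℕ) : ℤ) < 2 ^ k := by exact_mod_cast u.2
    have h2 : ((u' : ℕ) : ℤ) < 2 ^ k := by exact_mod_cast u'.2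
    have := Int.eq_zero_of_abs_lt_dvd a3 (by rw [abs_lt]; omega)
    exact hu (Fin.ext (by omega))
  obtain ⟨w0, hw0, hd1, hd0⟩ := M.exists_dat ω (by omega)
  obtain ⟨t, ht, hβ⟩ := M.gensG.exists_max_image (bd E)
    ⟨M.trG 1, M.mem_gensG.2 (M.mem_gens.2 (Or.inl rfl))⟩
  let g : Fin (2 ^ k) × Bool × Fin 3 → M.Cc.comap M.grp.subtype := fun j =>
    M.lampL (j.2.2 ≠ 0) j.2.1 σ (if j.2.2 = 2 then (0, 1) else (1, 0)) (pos j.1 j.2.1)
  obtain ⟨Φ, hΦ⟩ := exists_equivariant _ (M.piH ω (2 ^ k))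
  obtain ⟨E', h1, h2, h3⟩ := layer Φ (fun j => (g j).1) (fun j => M.piH ω (2 ^ k) (g j))
    (fun j x => hΦ _ x) hfin hne 768 (2 ^ k) (by
      have a1 : ∀ j, bd E (g j).1 ≤ (2 * (n0 + 2 ^ k) + 1) * bd E t := fun j =>
        (M.bd_lamp hfin hβ _ _ _ _ _).trans (Nat.mul_le_mul_right _ (by
          have := j.1.2
          simp only [pos]
          split_ifs <;> omega))
      have a2 := sum_le_card_nsmul univ _ _ fun j _ => a1 j
      have a3 := hE t ht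
      have a4 := Nat.mul_le_mul_right (2 * bd E t) hn
      simp only [card_univ, Fintype.card_prod, Fintype.card_fin, Fintype.card_bool,
        smul_eq_mul] at a2
      calc _ ≤ 768 * (2 ^ k * (2 * 3) * ((2 * (n0 + 2 ^ k) + 1) * bd E t)) := by gcongr
        _ = 2 ^ k * (2304 * (2 * (n0 + 2 ^ k) + 1) * (2 * bd E t)) := by ring
        _ ≤ _ := Nat.mul_le_mul_left _ (a4.trans a3.le))
  let τ : Fin (2 ^ k) → Fin (2 ^ k) → Bool → ℕ := fun u u' b => M.tau true ω σ b (pos u b - (u' : ℕ))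
  have hτ : ∀ u u' b, τ u u' b ≤ M.na true ω := fun u u' b => hn1 ▸ tau_le_n1 b ω σ _
  have hmov : ∀ u b α u' (w : M.Fib ω),
      M.sig ((M.piH ω _ (M.lampL true b σ α (pos u b))).1 u' w).1 = M.sig w.1 ∧
      M.dat false ((M.piH ω _ (M.lampL true b σ α (pos u b))).1 u' w).1 = M.dat false w.1 ∧
      M.dat true ((M.piH ω _ (M.lampL true b σ α (pos u b))).1 u' w).1 =
        U b α (τ u u' b) (M.dat true w.1) := fun u b α u' w => by
    rw [piH_lamp, sig_lampF, dat_mov, w.2]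
    exact ⟨rfl, M.dat_other true _ _ _ _ _, rfl⟩
  have hlam : ∀ u b α (u' : Fin (2 ^ k)) (w : M.Fib ω),
      M.sig ((M.piH ω _ (M.lampL false b σ α (pos u b))).1 u' w).1 = M.sig w.1 ∧
      M.dat true ((M.piH ω _ (M.lampL false b σ α (pos u b))).1 u' w).1 = M.dat true w.1 ∧
      M.dat false ((M.piH ω _ (M.lampL false b σ α (pos u b))).1 u' w).1 =
        U b (if M.dat true w.1 = 0 then α else 0) (M.tau false ω σ b (pos u b - (u' : ℕ)))
          (M.dat false w.1) := fun u b α u' w => by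
    have e : (∀ t < M.n1 ω, M.dat true w.1 t = 0) ↔ M.dat true w.1 = 0 :=
      ⟨fun h => funext fun t => (lt_or_ge t _).elim (h t) fun a =>
        M.dat_ge true _ t (by rw [w.2, ← hn1]; exact a), fun h t _ => congrFun h t⟩
    rw [piH_lamp, sig_lampF, dat_lamp, w.2]
    exact ⟨rfl, M.dat_other false _ _ _ _ _, by simp only [e]⟩
  have hcube : ∀ b j, M.piH ω (2 ^ k) (M.lampL false b σ (1, 0) j) ^ 3 = 1 := fun b j => by
    rw [← map_pow, ← map_one (M.piH ω (2 ^ k))]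
    exact congrArg _ (Subtype.ext (Subtype.ext (M.lamp_cube _ _ _ _ _)))
  have := Fintype.ofFinite (M.SG ω (2 ^ k))
  refine le_trans (wreath_iso (fun u => M.trS ω (τ u)) (fun u v v' => M.SG_ext fun u' w => ?_)
    (fun u b => M.piH ω _ (M.lampL true b σ (1, 0) (pos u b))) (fun u b v => M.SG_ext fun u' w => ?_)
    (fun u => M.piH ω _ (M.lampL false false σ (1, 0) (pos u false)))
    (fun u => M.piH ω _ (M.lampL false true σ (1, 0) (pos u true))) (fun u => hcube _ _)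
    (fun u => hcube _ _) (fun u l l' a1 a2 a3 => ?_)
    (fun m (κ : Fin (2 ^ k) × Sq) (w : M.Fib ω) =>
      if M.dat true w.1 = κ.2 then M.dat false (m.1 κ.1 w).1 else 0)
    (fun u m => (u, M.dat true (m⁻¹.1 u ⟨w0, hw0⟩).1)) (fun u v m => ?_) (fun u v v' m h => ?_)
    (fun u u' m m' h => congrArg Prod.fst h) (fun u m h hh => ?_) E' h1 (le_of_eq_of_le ?_ h3) hy) h2
  · show _ = M.sig ((M.trS ω _ v).1 u' _).1 ∧ _ = M.dat false ((M.trS ω _ v).1 u' _).1 ∧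
      _ = M.dat true ((M.trS ω _ v).1 u' _).1
    simp only [trS_spec, tv_add, add_assoc, add_comm (tv _ v), and_self]
  · show M.sig ((M.piH ω _ _).1 u' _).1 = M.sig ((M.trS ω _ _).1 u' _).1 ∧
      M.dat false ((M.piH ω _ _).1 u' _).1 = M.dat false ((M.trS ω _ _).1 u' _).1 ∧
      M.dat true ((M.piH ω _ _).1 u' _).1 = M.dat true ((M.trS ω _ _).1 u' _).1
    simp only [trS_spec, hmov, U_tv (hτ u u' b), and_self]
  · have key : ∀ l : List Bool, M.dat true ((altW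
        (M.piH ω _ (M.lampL false false σ (1, 0) (pos u false)))
        (M.piH ω _ (M.lampL false true σ (1, 0) (pos u true))) l).1 u ⟨w0, hw0⟩).1 = 0 ∧
        M.dat false ((altW (M.piH ω _ (M.lampL false false σ (1, 0) (pos u false)))
        (M.piH ω _ (M.lampL false true σ (1, 0) (pos u true))) l).1 u ⟨w0, hw0⟩).1 =
        altS (M.na false ω) l := by
      intro l
      induction l with
      | nil => exact ⟨hd1, hd0⟩
      | cons ε l ih =>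
        have e : ∀ b, (M.piH ω (2 ^ k) (M.lampL false b σ (1, 0) (pos u b)))⁻¹ =
            M.piH ω _ (M.lampL false b σ (-(1, 0)) (pos u b)) := fun b => by
          rw [← map_inv]; rfl
        rw [altW, altS, ← ih.2]
        unfold gen H99.sd
        rcases Nat.mod_two_eq_zero_or_one l.length with a | a <;> cases ε <;>
          simp only [a, if_true, if_false, Bool.false_eq_true, one_ne_zero, e, Subgroup.coe_mul,
            Pi.mul_apply, Equiv.Perm.mul_apply, hlam, ih.1, htau, true_and] <;> rfl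
    exact altS_inj (M.na false ω) l l' a1 (by omega) (by rw [← (key l).2, a3, (key l').2])
  · funext κ w
    exact congrArg (fun z => if M.dat true w.1 = κ.2 then z else 0)
      (M.trS_spec (τ u) v κ.1 (m.1 κ.1 w)).2.2
  · have a1 := (m⁻¹.2 u _ _).1 (show M.dat true (m⁻¹.1 u ((M.trS ω (τ u) v)⁻¹.1 u ⟨w0, hw0⟩)).1 =
      M.dat true (m⁻¹.1 u ((M.trS ω (τ u) v')⁻¹.1 u ⟨w0, hw0⟩)).1 by
        simpa using congrArg Prod.snd h)
    have a2 := fun v => (M.trS_spec (τ u) v u ((M.trS ω (τ u) v)⁻¹.1 u ⟨w0, hw0⟩)).2.1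
    have a3 : τ u u = fun _ => M.na true ω := funext fun b => htau true u b
    simp only [Subgroup.coe_inv, Pi.inv_apply, Equiv.Perm.coe_inv, Equiv.apply_symm_apply, a3, tv_full] at a1 a2
    exact ext_inj (add_left_cancel ((a2 v).symm.trans (a1 ▸ a2 v')))
  · have key : ∀ u' w, M.sig (h.1 u' w).1 = M.sig w.1 ∧ M.dat true (h.1 u' w).1 = M.dat true w.1 ∧
        ((u' ≠ u ∨ M.dat true w.1 ≠ 0) → M.dat false (h.1 u' w).1 = M.dat false w.1) := by
      induction hh using Subgroup.closure_induction with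
      | mem x hx =>
        intro u' w
        rcases hx with rfl | rfl <;> refine ⟨(hlam _ _ _ _ _).1, (hlam _ _ _ _ _).2.1, fun a => ?_⟩ <;>
          rw [(hlam _ _ _ _ _).2.2] <;> rcases a with a | a
        · rw [hdead _ _ _ a, CM.U_zero]
        · rw [if_neg a, CM.U_zero']
        · rw [hdead _ _ _ a, CM.U_zero]
        · rw [if_neg a, CM.U_zero']
      | one => exact fun _ _ => ⟨rfl, rfl, fun _ => rfl⟩
      | mul x y _ _ hx hy =>
        intro u' w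
        obtain ⟨a1, a2, a3⟩ := hy u' w
        obtain ⟨b1, b2, b3⟩ := hx u' (y.1 u' w)
        exact ⟨b1.trans a1, b2.trans a2, fun a => (b3 (a2 ▸ a)).trans (a3 a)⟩
      | inv x _ hx =>
        intro u' w
        obtain ⟨a1, a2, a3⟩ := hx u' (x⁻¹.1 u' w)
        simp only [Subgroup.coe_inv, Pi.inv_apply, Equiv.Perm.coe_inv, Equiv.apply_symm_apply] at a1 a2 a3 ⊢
        exact ⟨a1.symm, a2.symm, fun a => (a3 (a2 ▸ a)).symm⟩
    refine ⟨fun κ hκ => funext fun w => ?_, fun e => M.SG_ext fun u' w => ?_⟩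
    · split_ifs with a
      · refine (key κ.1 (m.1 κ.1 w)).2.2 (or_iff_not_imp_left.2 fun a1 a2 => hκ ?_)
        rw [not_not] at a1
        refine Prod.ext a1 (a.symm.trans ((m.2 u _ _).1 ?_))
        simpa [← a1, hd1] using a2
      · rfl
    · have := congrFun (congrFun e (u', M.dat true (m⁻¹.1 u' w).1)) (m⁻¹.1 u' w)
      exact ⟨(key u' w).1, by simpa using this, (key u' w).2.1⟩
  · have e : ∀ u b, M.trS ω (τ u) (e0 _ b) = M.piH ω _ (M.lampL true b σ (0, 1) (pos u b)) :=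
      fun u b => M.SG_ext fun u' w => by simp only [trS_spec, hmov, U_e0 (hτ u u' b), and_self]
    simp only [e, Fintype.sum_prod_type, Fintype.sum_bool, Fin.sum_univ_three, g]
    refine congrArg _ (sum_congr rfl fun u _ => ?_)
    simp
    ring

end XM

end Pool.Agent.MP_e6aac2_al.H22

end
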