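import Pool.Agent.MP_e6aac2_al.Lamp
import Pool.Agent.MP_e6aac2_al.Mg.Coarea
import Pool.Agent.MP_e6aac2_al.Cert

-- part MP_e6aac2_al.Upper
section

/-!
The group generated by the translations and the lamps: self-similarity and the size of the
subgroup generated by the lamps in a box.
-/

noncomputable section

namespace Pool.Agent.MP_e6aac2_al

namespace Sys

variable {K Md St : Type} (M : Sys K Md St)

/-- number of active letters -/
def na (ω : List (Ctl K Md)) : ℕ := ω.countP fun c => M.act c.1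

lemma na_cons (c : Ctl K Md) (ω : List (Ctl K Md)) :
    M.na (c :: ω) = M.na ω + if M.act c.1 then 1 else 0 := by
  simp [na, List.countP_cons]

/-- state and position of a lamp after a control word -/
def st : Option St → (K → ℤ) → List (Ctl K Md) → Option (Option St × (K → ℤ))
  | σ, j, [] => some (σ, j)
  | σ, j, c :: ω => (M.st1 σ j c).bind fun p => st p.1 p.2 ω

def Closed (F : Finset St) : Prop := ∀ s ∈ F, ∀ md y p, M.δ s md y = some p → p.1 ∈ F

def IsPot (F : Finset St) (pot : St → (K → ℤ) → ℕ) : Prop :=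
  ∀ s ∈ F, ∀ md n p, M.δ s md (addc 0 n) = some p →
    pot p.1 (M.mul md * car 0 n + p.2) + (if M.act md then 1 else 0) ≤ pot s n

variable {M}

lemma st1_none {i : K → ℤ} {c : Ctl K Md} {q : Option St × (K → ℤ)} (h : M.st1 none i c = some q) :
    addc c.2 i = 0 ∧ q = (none, M.mul c.1 * car c.2 i) := by
  obtain ⟨r, hr, rfl⟩ := Option.map_eq_some_iff.1 h
  simp only [dl] at hr
  split_ifs at hr with h0
  cases hr
  exact ⟨h0, by simp⟩

lemma st1_some {s : St} {j : K → ℤ} {c : Ctl K Md} {p : Option St × (K → ℤ)}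
    (h : M.st1 (some s) j c = some p) : ∃ r, M.δ s c.1 (addc c.2 j) = some r ∧
      p = (some r.1, M.mul c.1 * car c.2 j + r.2) := by
  obtain ⟨q, hq, rfl⟩ := Option.map_eq_some_iff.1 h
  obtain ⟨r, hr, rfl⟩ := Option.map_eq_some_iff.1 hq
  exact ⟨r, hr, rfl⟩

lemma st1_mem {F : Finset St} (hF : M.Closed F) {σ : Option St} (hσ : σ ∈ F.insertNone)
    {j : K → ℤ} {c : Ctl K Md} {p : Option St × (K → ℤ)} (h : M.st1 σ j c = some p) :
    p.1 ∈ F.insertNone := by
  cases σ with
  | none => rw [(st1_none h).2]; exact Finset.none_mem_insertNone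
  | some s =>
    obtain ⟨r, hr, rfl⟩ := st1_some h
    exact Finset.some_mem_insertNone.2 (hF s (Finset.some_mem_insertNone.1 hσ) _ _ _ hr)

lemma na_le_pot {F : Finset St} (hF : M.Closed F) {pot : St → (K → ℤ) → ℕ} (hp : M.IsPot F pot)
    (ω : List (Ctl K Md)) : ∀ s ∈ F, ∀ j i : K → ℤ, M.st (some s) j ω ≠ none →
      M.st none i ω ≠ none → M.na ω ≤ pot s (j - i) := by
  induction ω with
  | nil => intros; exact Nat.zero_le _
  | cons c ω ih =>
    intro s hs j i h1 h2
    cases hp1 : M.st1 (some s) j c with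
    | none => simp [st, hp1] at h1
    | some p =>
      cases hq1 : M.st1 none i c with
      | none => simp [st, hq1] at h2
      | some q =>
        obtain ⟨r, hr, rfl⟩ := st1_some hp1
        obtain ⟨h0, rfl⟩ := st1_none hq1
        simp only [st, hp1, hq1, Option.bind_some] at h1 h2
        have e1 : addc c.2 j = addc 0 (j - i) := by rw [← h0, addc_addc, sub_add_cancel]
        have e2 : car c.2 j = car 0 (j - i) + car c.2 i := by rw [← h0, car_add, sub_add_cancel]
        have h3 := ih _ (hF s hs _ _ _ hr) _ _ h1 h2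
        rw [e1] at hr
        have h4 := hp s hs _ _ _ hr
        have e3 : M.mul c.1 * car c.2 j + r.2 - M.mul c.1 * car c.2 i =
          M.mul c.1 * car 0 (j - i) + r.2 := by rw [e2]; ring
        rw [e3] at h3
        rw [na_cons]
        omega

variable (M)

def Side (b : Bool) : Subgroup (Equiv.Perm (List (Let K Md))) :=
  Subgroup.closure {g | ∃ σ α j, Option.isNone σ = b ∧ g = M.lamp σ α j}

lemma side_comm (b : Bool) {g h : Equiv.Perm (List (Let K Md))} (hg : g ∈ M.Side b)
    (hh : h ∈ M.Side b) : Commute g h := by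
  induction hg, hh using Subgroup.closure_induction₂ with
  | mem x y hx hy =>
    obtain ⟨σ, α, j, h1, rfl⟩ := hx
    obtain ⟨τ, β, i, h2, rfl⟩ := hy
    exact M.lamp_commute _ _ _ _ (h1.trans h2.symm)
  | one_left => exact Commute.one_left _
  | one_right => exact Commute.one_right _
  | mul_left _ _ _ _ _ _ h1 h2 => exact h1.mul_left h2
  | mul_right _ _ _ _ _ _ h1 h2 => exact h1.mul_right h2
  | inv_left _ _ _ _ h => exact h.inv_left
  | inv_right _ _ _ _ h => exact h.inv_right

lemma side_cube (b : Bool) {g : Equiv.Perm (List (Let K Md))} (hg : g ∈ M.Side b) : g ^ 3 = 1 := by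
  induction hg using Subgroup.closure_induction with
  | mem x hx => obtain ⟨σ, α, j, -, rfl⟩ := hx; exact M.lamp_cube _ _ _
  | one => simp
  | mul x y hx hy h1 h2 => rw [(M.side_comm b hx hy).mul_pow, h1, h2, mul_one]
  | inv x _ h => rw [inv_pow, h, inv_one]

def sig (w : List (Let K Md)) : List (Let K Md) :=
  w.map fun a => (a.1, if M.act a.1.1 then 0 else a.2)

lemma sig_lamp (w : List (Let K Md)) : ∀ σ α j, M.sig (M.lamp σ α j w) = M.sig w := by
  induction w with
  | nil => intros; rfl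
  | cons a w ih =>
    intro σ α j
    obtain ⟨c, v⟩ := a
    cases h : M.st1 σ j c with
    | none => rw [lamp_apply, M.lampF_none h]
    | some p =>
      rw [lamp_apply, M.lampF_some h]
      have := ih p.1 (M.n c.1 σ.isNone α v) p.2
      simp only [sig, List.map_cons, lamp_apply] at this ⊢
      rw [this]
      congr 2
      unfold o
      cases M.act c.1 <;> simp

lemma ctl_sig (w : List (Let K Md)) : (M.sig w).map Prod.fst = w.map Prod.fst := by
  simp [sig]

lemma fib_card (w : List (Let K Md)) : ∃ T : Finset (List (Let K Md)),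
    T.card ≤ 9 ^ M.na (w.map Prod.fst) ∧ ∀ w', M.sig w' = M.sig w → w' ∈ T := by
  classical
  induction w with
  | nil => exact ⟨{[]}, by simp [na], fun w' h => by simpa [sig] using h⟩
  | cons a w ih =>
    obtain ⟨T, hT, h⟩ := ih
    refine ⟨Finset.image₂ List.cons
      (if M.act a.1.1 then Finset.univ.image fun v => (a.1, v) else {a}) T, ?_, fun w' hw' => ?_⟩
    · refine (Finset.card_image₂_le _ _ _).trans ?_
      rw [List.map_cons, na_cons, pow_add, mul_comm]
      refine Nat.mul_le_mul hT ?_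
      split_ifs
      · exact Finset.card_image_le.trans (by simp)
      · simp
    · cases w' with
      | nil => simp [sig] at hw'
      | cons a' w' =>
        simp only [sig, List.map_cons, List.cons.injEq, Prod.mk.injEq] at hw'
        refine Finset.mem_image₂_of_mem ?_ (h w' hw'.2)
        obtain ⟨⟨h1, h2⟩, -⟩ := hw'
        rw [h1] at h2
        split_ifs at h2 ⊢
        · exact Finset.mem_image.2 ⟨a'.2, Finset.mem_univ _, by rw [← h1]⟩
        · exact Finset.mem_singleton.2 (Prod.ext h1 h2)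

def Sec (b : Bool) (ω : List (Ctl K Md)) (g : Equiv.Perm (List (Let K Md))) : Prop :=
  ∀ u : List (Let K Md), u.map Prod.fst = ω → (g u).map Prod.fst = ω ∧
    ∃ h ∈ M.Side b, ∀ w, g (u ++ w) = g u ++ h w

lemma sec_lamp (b : Bool) (ω : List (Ctl K Md)) : ∀ σ α j,
    (M.st σ j ω = none ∨ σ.isNone = b) → M.Sec b ω (M.lamp σ α j) := by
  induction ω with
  | nil =>
    intro σ α j h u hu
    obtain rfl := List.map_eq_nil_iff.1 hu
    exact ⟨rfl, _, Subgroup.subset_closure ⟨σ, α, j, h.resolve_left (by simp [st]), rfl⟩,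
      fun _ => rfl⟩
  | cons c ω ih =>
    intro σ α j h u hu
    refine ⟨by rw [← M.ctl_sig, sig_lamp, ctl_sig, hu], ?_⟩
    obtain ⟨⟨c', v⟩, u, rfl, rfl, hu'⟩ := List.map_eq_cons_iff.1 hu
    cases h1 : M.st1 σ j c' with
    | none =>
      exact ⟨1, one_mem _, fun w => by
        simp only [lamp_apply, List.cons_append, M.lampF_none h1, Equiv.Perm.coe_one, id]⟩
    | some p =>
      obtain ⟨-, g, hg, hw⟩ := ih p.1 (M.n c'.1 σ.isNone α v) p.2
        (by simpa only [st, h1, Option.bind_some, M.st1_side h1] using h) u hu'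
      refine ⟨g, hg, fun w => ?_⟩
      simp only [lamp_apply, List.cons_append, M.lampF_some h1] at hw ⊢
      rw [hw]

lemma exists_split (l : List (Let K Md)) : ∀ m, m ≤ M.na (l.map Prod.fst) →
    ∃ u w, l = u ++ w ∧ M.na (u.map Prod.fst) = m := by
  induction l with
  | nil => intro m hm; exact ⟨[], [], rfl, by simpa [na, eq_comm] using hm⟩
  | cons a l ih =>
    intro m hm
    rcases Nat.eq_zero_or_pos m with rfl | h0
    · exact ⟨[], _, rfl, rfl⟩
    · rw [List.map_cons, na_cons] at hm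
      obtain ⟨u, w, rfl, h⟩ := ih (m - if M.act a.1.1 then 1 else 0) (by omega)
      refine ⟨a :: u, w, rfl, ?_⟩
      rw [List.map_cons, na_cons, h]
      split_ifs <;> omega

section Box

variable [Fintype K] [DecidableEq K]

open Classical in
def boxGens (F : Finset St) (R : ℕ) : Finset (Equiv.Perm (List (Let K Md))) :=
  (F.insertNone ×ˢ (Finset.univ : Finset (Dat × (K → Fin (R + 1))))).image
    fun p => M.lamp p.1 p.2.1 fun k => ((p.2.2 k : ℕ) : ℤ)

def boxH (F : Finset St) (R : ℕ) : Subgroup (Equiv.Perm (List (Let K Md))) :=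
  Subgroup.closure (M.boxGens F R : Set _)

lemma boxH_induction {F : Finset St} {R : ℕ} {P : Equiv.Perm (List (Let K Md)) → Prop}
    (h1 : P 1) (hm : ∀ g h, P g → P h → P (g * h))
    (hl : ∀ σ ∈ F.insertNone, ∀ α (j : K → ℤ), (∀ k, 0 ≤ j k ∧ j k ≤ R) → P (M.lamp σ α j))
    {g : Equiv.Perm (List (Let K Md))} (hg : g ∈ M.boxH F R) : P g := by
  have key : ∀ x ∈ M.boxGens F R, P x ∧ P x⁻¹ := by
    intro x hx
    simp only [boxGens, Finset.mem_image, Finset.mem_product] at hx
    obtain ⟨p, ⟨hp, -⟩, rfl⟩ := hx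
    have hb : ∀ k, 0 ≤ ((p.2.2 k : ℕ) : ℤ) ∧ ((p.2.2 k : ℕ) : ℤ) ≤ R := fun k =>
      ⟨by positivity, by exact_mod_cast Nat.lt_succ_iff.1 (p.2.2 k).2⟩
    exact ⟨hl _ hp _ _ hb, by rw [lamp_inv]; exact hl _ hp _ _ hb⟩
  induction hg using Subgroup.closure_induction'' with
  | mem x hx => exact (key x hx).1
  | inv_mem x hx => exact (key x hx).2
  | one => exact h1
  | mul x y _ _ hx hy => exact hm x y hx hy

lemma lamp_mem_boxH {F : Finset St} {R : ℕ} {σ : Option St} (hσ : σ ∈ F.insertNone) (α : Dat)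
    {j : K → ℤ} (hj : ∀ k, 0 ≤ j k ∧ j k ≤ R) : M.lamp σ α j ∈ M.boxH F R := by
  refine Subgroup.subset_closure ?_
  simp only [boxGens, Finset.coe_image]
  refine ⟨(σ, α, fun k => ⟨(j k).toNat, by have := hj k; omega⟩), by simpa using hσ, ?_⟩
  dsimp only
  congr 1
  funext k
  have := hj k
  omega

lemma card_boxH {F : Finset St} (hF : M.Closed F) {pot : St → (K → ℤ) → ℕ} (hp : M.IsPot F pot)
    (R Φ : ℕ) (hΦ : ∀ s ∈ F, ∀ n : K → ℤ, (∀ k, |n k| ≤ R) → pot s n ≤ Φ) :
    Finite (M.boxH F R) ∧ ∃ I r, r ≤ (F.card + 1) * (9 * (R + 1) ^ Fintype.card K) ∧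
      I ≤ (9 ^ (Φ + 1)).factorial ^ ((9 ^ (Φ + 1)).factorial ^ r) ∧
      Nat.card (M.boxH F R) ≤ I * 3 ^ (I * r) := by
  classical
  have hfg : Group.FG (M.boxH F R) := Group.closure_finset_fg _
  have hrank : Group.rank (M.boxH F R) ≤ (F.card + 1) * (9 * (R + 1) ^ Fintype.card K) := by
    refine (Subgroup.rank_closure_finset_le_card _).trans (Finset.card_image_le.trans ?_)
    simp
  have hsig : ∀ g ∈ M.boxH F R, ∀ w, M.sig (g w) = M.sig w := fun g hg =>
    M.boxH_induction (P := fun g => ∀ w, M.sig (g w) = M.sig w) (fun _ => rfl)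
      (fun g h hg hh w => by rw [Equiv.Perm.mul_apply, hg, hh])
      (fun σ _ α j _ w => M.sig_lamp w σ α j) hg
  obtain ⟨N, hN1, hN2, hN3⟩ := index_le_of_orbits (Γ := M.boxH F R)
    {w : List (Let K Md) | M.na (w.map Prod.fst) ≤ Φ + 1} (9 ^ (Φ + 1)) (by
      intro w hw
      obtain ⟨T, hT1, hT2⟩ := M.fib_card w
      have hsub : MulAction.orbit (M.boxH F R) w ⊆ T := by
        rintro _ ⟨g, rfl⟩
        exact hT2 _ (hsig g g.2 w)
      refine ⟨T.finite_toSet.subset hsub, (Set.ncard_le_ncard hsub T.finite_toSet).trans ?_⟩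
      rw [Set.ncard_coe_finset]
      exact hT1.trans (Nat.pow_le_pow_right (by norm_num) hw))
  have hsec : ∀ w : List (Let K Md), ∃ u w' b, w = u ++ w' ∧
      ∀ g ∈ N, ∃ h ∈ M.Side b, ∀ x, (x = w' ∨ Φ + 1 ≤ M.na (w.map Prod.fst)) →
        g.1 (u ++ x) = u ++ h x := by
    intro w
    by_cases hw : M.na (w.map Prod.fst) ≤ Φ
    · refine ⟨[], w, true, rfl, fun g hg => ⟨1, one_mem _, ?_⟩⟩
      rintro x (rfl | h)
      · exact hN1 g hg x (hw.trans (Nat.le_succ _))
      · omega
    obtain ⟨u, w', rfl, hu⟩ := M.exists_split w (Φ + 1) (by omega)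
    obtain ⟨b, hb⟩ : ∃ b, ∀ σ ∈ F.insertNone, ∀ j : K → ℤ, (∀ k, 0 ≤ j k ∧ j k ≤ R) →
        M.st σ j (u.map Prod.fst) = none ∨ σ.isNone = b := by
      by_cases h : ∃ i : K → ℤ, (∀ k, 0 ≤ i k ∧ i k ≤ R) ∧ M.st none i (u.map Prod.fst) ≠ none
      · obtain ⟨i, hi, h⟩ := h
        refine ⟨true, fun σ hσ j hj => ?_⟩
        cases σ with
        | none => exact Or.inr rfl
        | some s =>
          refine Or.inl (by_contra fun h' => ?_)
          have hs := Finset.some_mem_insertNone.1 hσ
          have h1 := na_le_pot hF hp _ s hs j i h' h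
          have h2 := hΦ s hs (j - i) fun k => by
            have := hi k; have := hj k; rw [Pi.sub_apply, abs_le]; omega
          omega
      · push Not at h
        refine ⟨false, fun σ hσ j hj => ?_⟩
        cases σ with
        | none => exact Or.inl (h j hj)
        | some s => exact Or.inr rfl
    refine ⟨u, w', b, rfl, fun g hg => ?_⟩
    have h1 : M.Sec b (u.map Prod.fst) g.1 := by
      refine M.boxH_induction (fun u hu => ⟨hu, 1, one_mem _, fun _ => rfl⟩)
        (fun g h hg hh u hu => ?_) (fun σ hσ α j hj => M.sec_lamp b _ σ α j (hb σ hσ j hj)) g.2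
      obtain ⟨a1, h', a2, a3⟩ := hh u hu
      obtain ⟨b1, g', b2, b3⟩ := hg _ a1
      exact ⟨b1, g' * h', mul_mem b2 a2, fun w => by simp only [Equiv.Perm.mul_apply, a3, b3]⟩
    obtain ⟨-, h, hh, hx⟩ := h1 u rfl
    refine ⟨h, hh, fun x _ => ?_⟩
    rw [hx, show g.1 u = u from hN1 g hg u hu.le]
  obtain ⟨hfin, hcard⟩ := card_le_of_abelian N hN2 (by
    intro a ha c hc
    refine Subtype.ext (Equiv.ext fun w => ?_)
    by_cases hw : M.na (w.map Prod.fst) ≤ Φ
    · have hw' := hw.trans (Nat.le_succ _)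
      exact (hN1 _ (mul_mem ha hc) w hw').trans (hN1 _ (mul_mem hc ha) w hw').symm
    obtain ⟨u, w', b, rfl, h⟩ := hsec w
    obtain ⟨a', ha', h1⟩ := h a ha
    obtain ⟨c', hc', h2⟩ := h c hc
    have hw' : Φ + 1 ≤ M.na ((u ++ w').map Prod.fst) := by omega
    simp only [Subgroup.coe_mul, Equiv.Perm.mul_apply, h1 _ (Or.inr hw'), h2 _ (Or.inr hw')]
    rw [← Equiv.Perm.mul_apply, M.side_comm b ha' hc', Equiv.Perm.mul_apply]) (by
    intro a ha
    refine Subtype.ext (Equiv.ext fun w => ?_)
    by_cases hw : M.na (w.map Prod.fst) ≤ Φ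
    · exact hN1 _ (pow_mem ha 3) w (hw.trans (Nat.le_succ _))
    obtain ⟨u, w', b, rfl, h⟩ := hsec w
    obtain ⟨a', ha', h1⟩ := h a ha
    have hw' : Φ + 1 ≤ M.na ((u ++ w').map Prod.fst) := by omega
    have h3 := congrArg (fun g => g w') (M.side_cube b ha')
    simp only [pow_succ, pow_zero, one_mul, Subgroup.coe_mul, Equiv.Perm.mul_apply,
      h1 _ (Or.inr hw'), Subgroup.coe_one, Equiv.Perm.coe_one, id] at h3 ⊢
    rw [h3])
  exact ⟨hfin, _, _, hrank, hN3, hcard⟩

end Box

end Sys

end Pool.Agent.MP_e6aac2_al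

end
end

-- part MP_e6aac2_al.Group
section

/-!
The self-similar group of a system, with upper and lower bounds for its Følner function.
-/

noncomputable section

namespace Pool.Agent.MP_e6aac2_al

section Data

def UF (b : Bool) : Dat → List Dat → List Dat
  | _, [] => []
  | α, v :: x => out b α v :: UF b (nx b α v) x

def Inv (b : Bool) : ℕ → List Dat → Prop
  | _, [] => False
  | 0, v :: x => (if b then v.1 else v.2) ≠ 0 ∧ ∀ y ∈ x, y = 0
  | d + 1, _ :: x => Inv b d x

lemma UF_length (b : Bool) (x : List Dat) : ∀ α, (UF b α x).length = x.length := by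
  induction x with
  | nil => intro; rfl
  | cons v x ih => intro α; simp [UF, ih]

lemma UF_zeros (b : Bool) (x : List Dat) (hx : ∀ y ∈ x, y = 0) (l : ZMod 3) :
    ∀ y ∈ UF b (l, 0) x, y = 0 := by
  induction x with
  | nil => simp [UF]
  | cons v x ih =>
    obtain rfl := hx v (by simp)
    have : nx b (l, 0) 0 = (l, 0) := by cases b <;> simp [nx]
    simp only [UF, this, List.mem_cons, forall_eq_or_imp]
    exact ⟨by cases b <;> simp [out], ih fun y hy => hx y (by simp [hy])⟩

lemma Inv.step {b : Bool} {l : ZMod 3} (hl : l ≠ 0) : ∀ (d : ℕ) (x : List Dat) (μ : ZMod 3),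
    Inv b d x → d + 1 < x.length → Inv (!b) (d + 1) (UF b (l, μ) x)
  | _, [], _, h, _ => by simp [Inv] at h
  | 0, [_], _, _, h => by simp at h
  | 0, v :: v' :: x, μ, h, _ => by
    obtain rfl := h.2 v' (by simp)
    have h1 : nx b (nx b (l, μ) v) 0 = (l, 0) := by cases b <;> simp [nx]
    simp only [UF, Inv, h1]
    refine ⟨?_, UF_zeros b x (fun y hy => h.2 y (by simp [hy])) l⟩
    have := h.1
    cases b <;> simp_all [out, nx]
  | d + 1, v :: x, μ, h, hlen => by
    simp only [UF, Inv]
    exact Inv.step hl d x _ h (by simpa using hlen)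

lemma Inv.exists_ne {b : Bool} : ∀ {d : ℕ} {x : List Dat}, Inv b d x → ∃ y ∈ x, y ≠ 0
  | _, [], h => by simp [Inv] at h
  | 0, v :: _, h => ⟨v, by simp, by rintro rfl; cases b <;> exact h.1 rfl⟩
  | _ + 1, _ :: x, h => by
    obtain ⟨y, hy, h0⟩ := Inv.exists_ne (x := x) h
    exact ⟨y, by simp [hy], h0⟩

lemma Inv.unique {b b' : Bool} : ∀ {d d' : ℕ} {x : List Dat}, Inv b d x → Inv b' d' x → d = d'
  | _, _, [], h, _ => by simp [Inv] at h
  | 0, 0, _, _, _ => rfl
  | 0, _ + 1, _ :: x, h, h' => by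
    obtain ⟨y, hy, h0⟩ := Inv.exists_ne (x := x) h'
    exact absurd (h.2 y hy) h0
  | _ + 1, 0, _ :: x, h, h' => by
    obtain ⟨y, hy, h0⟩ := Inv.exists_ne (x := x) h
    exact absurd (h'.2 y hy) h0
  | _ + 1, _ + 1, _ :: x, h, h' => by rw [Inv.unique (x := x) h h']

end Data

namespace Sys

variable {K Md St : Type} (M : Sys K Md St)

/-- a run of the machine along a list of modes -/
def Run : St → (K → ℤ) → List Md → Prop
  | _, _, [] => True
  | s, n, md :: l => ∃ p, M.δ s md (addc 0 n) = some p ∧ Run p.1 (M.mul md * car 0 n + p.2) l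

def dat (w : List (Let K Md)) : List Dat := (w.filter fun a => M.act a.1.1).map Prod.snd

lemma dat_cons (c : Ctl K Md) (v : Dat) (w : List (Let K Md)) :
    M.dat ((c, v) :: w) = if M.act c.1 then v :: M.dat w else M.dat w := by
  unfold dat
  cases h : M.act c.1 <;> simp [h]

lemma dat_step (c : Ctl K Md) (b : Bool) (α v : Dat) (w w' : List (Let K Md))
    (h : M.dat w' = UF b (M.n c.1 b α v) (M.dat w)) :
    M.dat ((c, M.o c.1 b α v) :: w') = UF b α (M.dat ((c, v) :: w)) := by
  rw [dat_cons, dat_cons, h]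
  unfold o n
  cases M.act c.1 <;> simp [UF]

lemma dat_lamp_some (l : List Md) : ∀ (s : St) (n : K → ℤ) (α : Dat) (w : List (Let K Md)),
    M.Run s n l → w.map Prod.fst = l.map (fun md => (md, 0)) →
      M.dat (M.lamp (some s) α n w) = UF false α (M.dat w) := by
  induction l with
  | nil => intro s n α w _ hw; obtain rfl := List.map_eq_nil_iff.1 hw; rfl
  | cons md l ih =>
    rintro s n α w ⟨p, hp, hr⟩ hw
    obtain ⟨⟨c, v⟩, w, rfl, rfl, hw'⟩ := List.map_eq_cons_iff.1 hw
    have h1 : M.st1 (some s) n (md, 0) = some (some p.1, M.mul md * car 0 n + p.2) := by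
      simp only [st1, dl, hp, Option.map_some]
    rw [lamp_apply, M.lampF_some h1]
    exact M.dat_step _ _ _ _ _ _ (ih _ _ _ _ hr hw')

lemma dat_lamp_none (l : List Md) : ∀ (α : Dat) (w : List (Let K Md)),
    w.map Prod.fst = l.map (fun md => (md, 0)) →
      M.dat (M.lamp none α 0 w) = UF true α (M.dat w) := by
  induction l with
  | nil => intro α w hw; obtain rfl := List.map_eq_nil_iff.1 hw; rfl
  | cons md l ih =>
    intro α w hw
    obtain ⟨⟨c, v⟩, w, rfl, rfl, hw'⟩ := List.map_eq_cons_iff.1 hw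
    have h1 : M.st1 none 0 (md, 0) = some (none, 0) := by
      simp [st1, dl, addc_zero, car_zero]
    rw [lamp_apply, M.lampF_some h1]
    exact M.dat_step _ _ _ _ _ _ (ih _ _ hw')

lemma exists_dat (l : List Md) : ∀ x : List Dat, x.length = l.countP M.act →
    ∃ w : List (Let K Md), w.map Prod.fst = l.map (fun md => (md, 0)) ∧ M.dat w = x := by
  induction l with
  | nil => intro x hx; exact ⟨[], rfl, (List.length_eq_zero_iff.1 hx).symm⟩
  | cons md l ih =>
    intro x hx
    cases h : M.act md with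
    | false =>
      obtain ⟨w, h1, h2⟩ := ih x (by simpa [List.countP_cons, h] using hx)
      exact ⟨((md, 0), 0) :: w, by simp [h1], by simp [dat_cons, h, h2]⟩
    | true =>
      cases x with
      | nil => simp [h] at hx
      | cons v x =>
        obtain ⟨w, h1, h2⟩ := ih x (by simpa [List.countP_cons, h] using hx)
        exact ⟨((md, 0), v) :: w, by simp [h1], by simp [dat_cons, h, h2]⟩

lemma ctl_lamp (σ : Option St) (α : Dat) (j : K → ℤ) (w : List (Let K Md)) :
    (M.lamp σ α j w).map Prod.fst = w.map Prod.fst := by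
  rw [← M.ctl_sig, sig_lamp, ctl_sig]

lemma tr_zsmul (k : ℤ) (n : K → ℤ) : M.tr (k • n) = M.tr n ^ k := by
  induction k using Int.induction_on with
  | zero => simp [tr_zero]
  | succ i ih => rw [add_smul, tr_add, ih, one_smul, zpow_add_one]
  | pred i ih => rw [sub_smul, sub_eq_add_neg, tr_add, ih, one_smul, tr_neg, zpow_sub_one]

variable [Fintype K] [DecidableEq K] (F : Finset St)

open Classical in
def gens : Finset (Equiv.Perm (List (Let K Md))) :=
  (Finset.univ.image fun k => M.tr (Pi.single k 1)) ∪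
    (F.insertNone ×ˢ (Finset.univ : Finset Dat)).image fun p => M.lamp p.1 p.2 0

lemma mem_gens {g : Equiv.Perm (List (Let K Md))} : g ∈ M.gens F ↔
    (∃ k, g = M.tr (Pi.single k 1)) ∨ ∃ σ ∈ F.insertNone, ∃ α, g = M.lamp σ α 0 := by
  simp only [gens, Finset.mem_union, Finset.mem_image, Finset.mem_univ, true_and,
    Finset.mem_product, and_true, eq_comm (b := g)]
  refine or_congr_right ⟨?_, ?_⟩
  · rintro ⟨⟨σ, α⟩, h1, h2⟩; exact ⟨σ, h1, α, h2⟩
  · rintro ⟨σ, h1, α, h2⟩; exact ⟨(σ, α), h1, h2⟩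

def grp : Subgroup (Equiv.Perm (List (Let K Md))) := Subgroup.closure (M.gens F : Set _)

open Classical in
def gensG : Finset (M.grp F) := (M.gens F).subtype (· ∈ M.grp F)

lemma mem_gensG {g : M.grp F} : g ∈ M.gensG F ↔ g.1 ∈ M.gens F := by
  simp [gensG]

lemma closure_gensG : Subgroup.closure (M.gensG F : Set (M.grp F)) = ⊤ := by
  have : (M.gensG F : Set (M.grp F)) = (↑) ⁻¹' (M.gens F : Set (Equiv.Perm (List (Let K Md)))) :=
    Set.ext fun g => M.mem_gensG F
  rw [this]
  exact Subgroup.closure_closure_coe_preimage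

omit [Fintype K] in
lemma tr_single (k : K) (a : ℤ) : M.tr (Pi.single k a) = M.tr (Pi.single k 1) ^ a := by
  rw [← tr_zsmul, ← Pi.single_smul', smul_eq_mul, mul_one]

lemma tr_mem (n : K → ℤ) : M.tr n ∈ M.grp F := by
  induction n using Pi.single_induction with
  | zero => rw [tr_zero]; exact one_mem _
  | add f g hf hg => rw [tr_add]; exact mul_mem hf hg
  | single k a =>
    rw [tr_single]
    exact zpow_mem (Subgroup.subset_closure ((M.mem_gens F).2 (Or.inl ⟨k, rfl⟩))) _

lemma lamp_mem {σ : Option St} (hσ : σ ∈ F.insertNone) (α : Dat) (j : K → ℤ) :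
    M.lamp σ α j ∈ M.grp F := by
  rw [← zero_add j, lamp_conj]
  exact mul_mem (mul_mem (inv_mem (M.tr_mem F j))
    (Subgroup.subset_closure ((M.mem_gens F).2 (Or.inr ⟨σ, hσ, α, rfl⟩)))) (M.tr_mem F j)

lemma selfSimilar (hF : M.Closed F) : IsSelfSimilar (M.grp F) := by
  have h1 : ∀ n x, ∃ y, ∃ h ∈ M.grp F, ∀ w, M.tr n (x :: w) = y :: h w := fun n x =>
    ⟨_, _, M.tr_mem F _, fun _ => rfl⟩
  have h2 : ∀ σ ∈ F.insertNone, ∀ α j x, ∃ y, ∃ h ∈ M.grp F, ∀ w,
      M.lamp σ α j (x :: w) = y :: h w := by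
    rintro σ hσ α j ⟨c, v⟩
    cases h : M.st1 σ j c with
    | none => exact ⟨_, 1, one_mem _, fun w => M.lampF_none h α v w⟩
    | some p => exact ⟨_, _, M.lamp_mem F (st1_mem hF hσ h) _ _, fun w => M.lampF_some h α v w⟩
  intro g hg
  induction hg using Subgroup.closure_induction'' with
  | mem g hg =>
    rcases (M.mem_gens F).1 hg with ⟨k, rfl⟩ | ⟨σ, hσ, α, rfl⟩
    · exact h1 _
    · exact h2 σ hσ _ _
  | inv_mem g hg =>
    rcases (M.mem_gens F).1 hg with ⟨k, rfl⟩ | ⟨σ, hσ, α, rfl⟩
    · rw [← tr_neg]; exact h1 _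
    · rw [lamp_inv]; exact h2 σ hσ _ _
  | one => exact fun x => ⟨x, 1, one_mem _, fun _ => rfl⟩
  | mul g h _ _ hg hh =>
    intro x
    obtain ⟨y, h', a1, a2⟩ := hh x
    obtain ⟨z, g', b1, b2⟩ := hg y
    exact ⟨z, g' * h', mul_mem b1 a1, fun w => by simp only [Equiv.Perm.mul_apply, a2, b2]⟩

def trG (n : K → ℤ) : M.grp F := ⟨M.tr n, M.tr_mem F n⟩

lemma trG_add (a b : K → ℤ) : M.trG F (a + b) = M.trG F a * M.trG F b :=
  Subtype.ext (M.tr_add a b)

lemma folner_upper (hF : M.Closed F) {pot : St → (K → ℤ) → ℕ} (hp : M.IsPot F pot) (n Φ R : ℕ)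
    (hR : R = 2 * (M.gensG F).card * n)
    (hΦ : ∀ s ∈ F, ∀ a : K → ℤ, (∀ k, |a k| ≤ R) → pot s a ≤ Φ) :
    ∃ E, IsFolner (M.gensG F) n E ∧ ∃ I r, r ≤ (F.card + 1) * (9 * (R + 1) ^ Fintype.card K) ∧
      I ≤ (9 ^ (Φ + 1)).factorial ^ ((9 ^ (Φ + 1)).factorial ^ r) ∧
      E.ncard ≤ (R + 1) ^ Fintype.card K * (I * 3 ^ (I * r)) := by
  obtain ⟨hfin, I, r, h1, h2, h3⟩ := M.card_boxH hF hp R Φ hΦ
  have hle : M.boxH F R ≤ M.grp F := fun g hg =>
    M.boxH_induction (P := fun g => g ∈ M.grp F) (one_mem _) (fun _ _ => mul_mem)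
      (fun σ hσ α j _ => M.lamp_mem F hσ α j) hg
  have e := (Subgroup.subgroupOfEquivOfLe hle).toEquiv
  have : Finite ((M.boxH F R).subgroupOf (M.grp F)) := Finite.of_equiv _ e.symm
  obtain ⟨E, hE, hc⟩ := exists_folner_box (M.gensG F) n (M.trG F) (M.trG_add F)
    ((M.boxH F R).subgroupOf (M.grp F)) (by
      intro s hs
      rcases (M.mem_gens F).1 ((M.mem_gensG F).1 hs) with ⟨k, h⟩ | ⟨σ, hσ, α, h⟩
      · exact Or.inl ⟨k, Subtype.ext h⟩
      · refine Or.inr fun a ha => ?_
        rw [Subgroup.mem_subgroupOf]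
        simp only [Subgroup.coe_mul, Subgroup.coe_inv, h, trG]
        rw [← lamp_conj, zero_add]
        exact M.lamp_mem_boxH hσ α (hR ▸ ha))
  refine ⟨E, hE, I, r, h1, h2, hc.trans ?_⟩
  rw [Nat.card_congr e, ← hR]
  exact Nat.mul_le_mul_left _ h3

lemma bd_trG {E : Set (M.grp F)} (hE : E.Finite) {β : ℕ} (hβ : ∀ s ∈ M.gensG F, bd E s ≤ β)
    (n : K → ℤ) : bd E (M.trG F n) ≤ (∑ k, (n k).natAbs) * β := by
  have key : ∀ s : Finset K, bd E (M.trG F (∑ k ∈ s, Pi.single k (n k))) ≤
      (∑ k ∈ s, (n k).natAbs) * β := by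
    intro s
    induction s using Finset.induction_on with
    | empty =>
      have : M.trG F 0 = 1 := Subtype.ext M.tr_zero
      simp [this, bd_one]
    | insert k s hk ih =>
      rw [Finset.sum_insert hk, Finset.sum_insert hk, trG_add, add_mul]
      refine (bd_mul hE _ _).trans (add_le_add ?_ ih)
      have : M.trG F (Pi.single k (n k)) = M.trG F (Pi.single k 1) ^ n k :=
        Subtype.ext (M.tr_single k _)
      rw [this]
      exact (bd_zpow hE _ _).trans (Nat.mul_le_mul_left _
        (hβ _ ((M.mem_gensG F).2 ((M.mem_gens F).2 (Or.inl ⟨k, rfl⟩)))))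
  simpa only [Finset.univ_sum_single] using key Finset.univ

lemma folner_lower {s : St} (hs : s ∈ F) {n : K → ℤ} {L : List Md} (hr : M.Run s n L) {l N : ℕ}
    (hl : 2 * l + 2 < L.countP M.act) (hN : 2 * (∑ k, (n k).natAbs) + 2 ≤ N)
    {E : Set (M.grp F)} (hE : IsFolner (M.gensG F) N E) : l < E.ncard := by
  obtain ⟨hfin, -, hE⟩ := isFolner_iff.1 hE
  have hs' : some s ∈ F.insertNone := Finset.some_mem_insertNone.2 hs
  let a : M.grp F := ⟨_, M.lamp_mem F hs' (1, 0) n⟩
  let a0 : M.grp F := ⟨_, M.lamp_mem F hs' (1, 0) 0⟩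
  let b : M.grp F := ⟨_, M.lamp_mem F Finset.none_mem_insertNone (1, 0) 0⟩
  have ha0 : a0 ∈ M.gensG F := (M.mem_gensG F).2 ((M.mem_gens F).2 (Or.inr ⟨_, hs', _, rfl⟩))
  have hb : b ∈ M.gensG F :=
    (M.mem_gensG F).2 ((M.mem_gens F).2 (Or.inr ⟨_, Finset.none_mem_insertNone, _, rfl⟩))
  obtain ⟨m, hm⟩ : ∃ m, L.countP M.act = m + 1 := ⟨L.countP M.act - 1, by omega⟩
  obtain ⟨w0, hw0, hd0⟩ := M.exists_dat L ((0, 1) :: List.replicate m 0) (by simp [hm])
  let P : Bool → ℕ → List (Let K Md) → Prop := fun c d w =>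
    w.map Prod.fst = L.map (fun md => (md, 0)) ∧ (M.dat w).length = m + 1 ∧ Inv c d (M.dat w)
  have h0 : P false 0 w0 := by
    refine ⟨hw0, by simp [hd0], ?_⟩
    rw [hd0]
    exact ⟨by simp, fun y hy => List.eq_of_mem_replicate hy⟩
  have hA : ∀ u, (u = a ∨ u = a⁻¹) → ∀ d w, P false d w → d < m → P true (d + 1) (u.1 w) := by
    have : ∀ l : ZMod 3, l ≠ 0 → ∀ μ d w, P false d w → d < m →
        P true (d + 1) (M.lamp (some s) (l, μ) n w) := by
      intro l hl μ d w ⟨h1, h2, h3⟩ hd
      have h4 := M.dat_lamp_some L s n (l, μ) w hr h1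
      exact ⟨by rw [ctl_lamp, h1], by rw [h4, UF_length, h2],
        h4 ▸ Inv.step hl d _ μ h3 (by omega)⟩
    rintro u (rfl | rfl)
    · exact this 1 one_ne_zero 0
    · exact this (-1) (by decide) (-0)
  have hB : ∀ u, (u = b ∨ u = b⁻¹) → ∀ d w, P true d w → d < m → P false (d + 1) (u.1 w) := by
    have : ∀ l : ZMod 3, l ≠ 0 → ∀ μ d w, P true d w → d < m →
        P false (d + 1) (M.lamp none (l, μ) 0 w) := by
      intro l hl μ d w ⟨h1, h2, h3⟩ hd
      have h4 := M.dat_lamp_none L (l, μ) w h1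
      exact ⟨by rw [ctl_lamp, h1], by rw [h4, UF_length, h2],
        h4 ▸ Inv.step hl d _ μ h3 (by omega)⟩
    rintro u (rfl | rfl)
    · exact this 1 one_ne_zero 0
    · exact this (-1) (by decide) (-0)
  have hAlt : ∀ k g, Alt a b k g → 2 * k ≤ m → P false (2 * k) (g.1 w0) := by
    intro k g h
    induction h with
    | zero => exact fun _ => h0
    | @succ k _ _ _ _ hu hv ih =>
      intro hk
      exact hB _ hv (2 * k + 1) _ (hA _ hu (2 * k) _ (ih (by omega)) (by omega)) (by omega)
  have ha1 := hA a (Or.inl rfl) _ _ h0 (by omega)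
  have hb1 := hB b (Or.inl rfl) _ _ ha1 (by omega)
  by_contra hcon
  have hiso := isoperimetric (a := a) (b := b) (Subtype.ext (M.lamp_cube _ _ _))
    (Subtype.ext (M.lamp_cube _ _ _))
    (fun h => by rw [h] at ha1; exact absurd (ha1.2.2.unique h0.2.2) (by omega))
    (fun h => by rw [h] at hb1; exact absurd (hb1.2.2.unique ha1.2.2) (by omega)) (l := l)
    (fun k g hk1 hk2 h hg => by
      have := hAlt k g h (by omega)
      rw [hg] at this
      exact absurd (this.2.2.unique h0.2.2) (by omega)) hfin (not_lt.1 hcon)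
  obtain ⟨t, ht, hβ⟩ := (M.gensG F).exists_max_image (bd E) ⟨b, hb⟩
  have e : a = (M.trG F n)⁻¹ * a0 * M.trG F n :=
    Subtype.ext ((congrArg _ (zero_add n).symm).trans (M.lamp_conj (some s) (1, 0) 0 n))
  have h1 := bd_mul hfin ((M.trG F n)⁻¹ * a0) (M.trG F n)
  have h2 := bd_mul hfin (M.trG F n)⁻¹ a0
  rw [bd_inv hfin] at h2
  rw [← e] at h1
  have h3 := M.bd_trG F hfin hβ n
  have h4 := hβ _ ha0
  have h5 := hβ _ hb
  have h6 := hE t ht
  have h7 := Nat.mul_le_mul_right (2 * bd E t) hN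
  nlinarith

end Sys

end Pool.Agent.MP_e6aac2_al

end
end

-- part MP_e6aac2_al.Machine
section

/-!
Nondeterministic stack machines as systems: a stack is an integer written in balanced base five.
-/

noncomputable section

namespace Pool.Agent.MP_e6aac2_al

open Turing.PartrecToTM2 (Γ')

def dig : Γ' → ℤ
  | .consₗ => 1
  | .cons => 2
  | .bit0 => -2
  | .bit1 => -1

def topZ (r : ℤ) : Option Γ' :=
  if r = 0 then none else if r = 1 then some .consₗ else if r = 2 then some .cons
    else if r = 3 then some .bit0 else some .bit1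

def decode (n : ℤ) : List Γ' :=
  if n % 5 = 0 then [] else (topZ (n % 5)).getD default :: decode ((n + 2) / 5)
termination_by n.natAbs
decreasing_by omega

lemma decode_zero {n : ℤ} (h : n % 5 = 0) : decode n = [] := by rw [decode, if_pos h]

lemma decode_ne {n : ℤ} (h : n % 5 ≠ 0) :
    decode n = (topZ (n % 5)).getD default :: decode ((n + 2) / 5) := by rw [decode, if_neg h]

lemma head_decode (n : ℤ) : (decode n).head? = topZ (n % 5) := by
  by_cases h : n % 5 = 0
  · rw [decode_zero h, h]; rfl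
  · rw [decode_ne h, List.head?_cons]
    unfold topZ
    split_ifs <;> simp_all

lemma decode_push (n : ℤ) (γ : Γ') : decode (5 * n + dig γ) = γ :: decode n := by
  cases γ
  all_goals
    rw [decode_ne (by simp only [dig]; omega)]
    simp only [dig]
    congr 1
    · rw [Int.mul_add_emod_self_left]; rfl
    · congr 1; omega

lemma decode_len (n : ℤ) : decode n = [] ∨ 5 ^ (decode n).length + 5 ≤ 10 * n.natAbs := by
  induction n using decode.induct with
  | case1 n h => exact Or.inl (decode_zero h)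
  | case2 n h ih =>
    right
    rw [decode_ne h, List.length_cons, pow_succ]
    rcases ih with ih | ih
    · rw [ih]; simp; omega
    · omega

lemma decode_len' (n : ℤ) : 5 ^ (decode n).length ≤ 10 * n.natAbs + 1 := by
  rcases decode_len n with h | h
  · rw [h]; simp
  · omega

def enc : List Γ' → ℤ
  | [] => 0
  | γ :: l => 5 * enc l + dig γ

lemma decode_enc (l : List Γ') : decode (enc l) = l := by
  induction l with
  | nil => exact decode_zero rfl
  | cons γ l ih => rw [enc, decode_push, ih]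

lemma enc_le (l : List Γ') : 2 * (enc l).natAbs + 1 ≤ 5 ^ l.length := by
  induction l with
  | nil => simp [enc]
  | cons γ l ih =>
    rw [enc, List.length_cons, pow_succ]
    cases γ <;> simp only [dig] <;> omega

inductive Op
  | keep
  | pop
  | push (γ : Γ')

def Op.app : Op → List Γ' → List Γ'
  | keep, l => l
  | pop, l => l.tail
  | push γ, l => γ :: l

def Op.mu : Op → Fin 5 → Fin 3
  | keep, _ => 1
  | pop, y => if y = 0 then 1 else 0
  | push _, _ => 2

def Op.cc : Op → Fin 5 → ℤ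
  | keep, y => (y : ℕ)
  | pop, y => if 3 ≤ (y : ℕ) then 1 else 0
  | push γ, y => 5 * ((y : ℕ) : ℤ) + dig γ

lemma decode_op (op : Op) (n : ℤ) (y : Fin 5) (hy : ((y : ℕ) : ℤ) = n % 5) :
    decode (5 ^ (op.mu y : ℕ) * (n / 5) + op.cc y) = op.app (decode n) := by
  cases op with
  | keep =>
    simp only [Op.mu, Op.cc, Op.app, Fin.val_one, pow_one]
    congr 1; omega
  | pop =>
    simp only [Op.mu, Op.cc, Op.app]
    by_cases h : y = 0
    · subst h
      rw [decode_zero (n := n) hy.symm, decode_zero (by simp)]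
      rfl
    · have h1 : (y : ℕ) ≠ 0 := fun h' => h (Fin.ext h')
      rw [decode_ne (n := n) (by omega), if_neg h, List.tail_cons]
      congr 1
      simp only [Fin.val_zero, pow_zero]
      split_ifs <;> omega
  | push γ =>
    simp only [Op.mu, Op.cc, Op.app, Fin.val_two]
    rw [← decode_push]
    congr 1; omega

structure LM (K St : Type) where
  step : St → (K → Option Γ') → Bool → Option (St × (K → Op) × Bool)

namespace LM

variable {K St : Type} (A : LM K St)

def heads (L : K → List Γ') : K → Option Γ' := fun k => (L k).head?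

def apps (o : K → Op) (L : K → List Γ') : K → List Γ' := fun k => (o k).app (L k)

open Classical in
def sys : Sys K ((K → Fin 3) × Bool × Bool) St where
  mul md k := 5 ^ (md.1 k : ℕ)
  act md := md.2.2
  δ s md y := (A.step s (fun k => topZ (y k : ℕ)) md.2.1).bind fun p =>
    if md.1 = (fun k => (p.2.1 k).mu (y k)) ∧ md.2.2 = p.2.2
      then some (p.1, fun k => (p.2.1 k).cc (y k)) else none

lemma addc_val (n : K → ℤ) (k : K) : ((addc 0 n k : ℕ) : ℤ) = n k % 5 := by
  simp only [addc, Pi.zero_apply, Fin.val_zero]; omega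

lemma tops_eq (n : K → ℤ) :
    (fun k => topZ (addc 0 n k : ℕ)) = heads fun k => decode (n k) := by
  funext k; rw [addc_val, heads, head_decode]

lemma decode_next (o : K → Op) (n : K → ℤ) :
    (fun k => decode (((fun k => (5 : ℤ) ^ ((o k).mu (addc 0 n k) : ℕ)) * car 0 n +
      fun k => (o k).cc (addc 0 n k)) k)) = apps o fun k => decode (n k) := by
  funext k
  simp only [apps, Pi.add_apply, Pi.mul_apply, car, Pi.zero_apply, Fin.val_zero, Nat.cast_zero,
    zero_add]
  exact decode_op _ _ _ (addc_val n k)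

lemma closed {F : Finset St} (h : ∀ s ∈ F, ∀ T br p, A.step s T br = some p → p.1 ∈ F) :
    A.sys.Closed F := by
  intro s hs md y p hp
  obtain ⟨q, hq, hp⟩ := Option.bind_eq_some_iff.1 hp
  split_ifs at hp
  cases hp
  exact h s hs _ _ _ hq

lemma isPot {F : Finset St} {pot : St → (K → List Γ') → ℕ}
    (h : ∀ s ∈ F, ∀ L br p, A.step s (heads L) br = some p →
      pot p.1 (apps p.2.1 L) + (if p.2.2 then 1 else 0) ≤ pot s L) :
    A.sys.IsPot F fun s n => pot s fun k => decode (n k) := by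
  rintro s hs ⟨μ, br, ac⟩ n p hp
  obtain ⟨q, hq, hp⟩ := Option.bind_eq_some_iff.1 hp
  split_ifs at hp with hc
  cases hp
  obtain ⟨rfl, rfl⟩ := hc
  rw [tops_eq] at hq
  have := h s hs _ _ _ hq
  rw [← decode_next] at this
  exact this

inductive Runs : St → (K → List Γ') → ℕ → Prop
  | nil (s : St) (L : K → List Γ') : Runs s L 0
  | step {s : St} {L : K → List Γ'} (br : Bool) {p : St × (K → Op) × Bool} {m : ℕ} :
      A.step s (heads L) br = some p → Runs p.1 (apps p.2.1 L) m →
        Runs s L (m + if p.2.2 then 1 else 0)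

lemma Runs.run {s : St} {L : K → List Γ'} {m : ℕ} (h : A.Runs s L m) :
    ∀ n : K → ℤ, (fun k => decode (n k)) = L →
      ∃ l, A.sys.Run s n l ∧ l.countP A.sys.act = m := by
  induction h with
  | nil => exact fun n _ => ⟨[], trivial, rfl⟩
  | @step s L br p m h1 _ ih =>
    rintro n rfl
    obtain ⟨l, hl, hm⟩ := ih _ (decode_next p.2.1 n)
    refine ⟨(fun k => (p.2.1 k).mu (addc 0 n k), br, p.2.2) :: l,
      ⟨(p.1, fun k => (p.2.1 k).cc (addc 0 n k)), ?_, hl⟩, ?_⟩
    · simp only [sys, tops_eq, h1, Option.bind_some, and_self, if_true]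
    · rw [List.countP_cons, hm]; rfl

end LM

end Pool.Agent.MP_e6aac2_al

end
end

-- part MP_e6aac2_al.TM
section

/-!
The machine that guesses a number `m`, checks `m ≤ φ s` by running a program, and then counts down
from `m`.
-/

noncomputable section

namespace Pool.Agent.MP_e6aac2_al

open Turing Turing.PartrecToTM2 Function

abbrev Stm := TM2.Stmt (fun _ : K' => Γ') Λ' (Option Γ')

inductive Stk
  | w (k : K')
  | out
  | sz
  | cnt
  deriving DecidableEq

instance : Fintype Stk :=
  ⟨{.w .main, .w .rev, .w .aux, .w .stack, .out, .sz, .cnt}, by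
    intro x
    rcases x with (_ | _ | _ | _) | _ | _ | _ <;> simp⟩

inductive Ph
  | G
  | P
  | Q
  | D
  | R (q : Stm) (v : Option Γ')

def one (k : Stk) (o : Op) : Stk → Op := update (fun _ => Op.keep) k o

def opsP : Stk → Op
  | .w .main => .push .bit1
  | .out => .pop
  | .cnt => .push .bit1
  | _ => .keep

def opsQ : Stk → Op
  | .w .main => .push .bit1
  | .sz => .pop
  | _ => .keep

def mic : Stm → Option Γ' → (Stk → Option Γ') → Ph × (Stk → Op) × Bool
  | .push k f q, v, _ => (.R q v, one (.w k) (.push (f v)), false)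
  | .peek k f q, v, T => (.R q (f v (T (.w k))), fun _ => .keep, false)
  | .pop k f q, v, T => (.R q (f v (T (.w k))), one (.w k) .pop, false)
  | .load a q, v, _ => (.R q (a v), fun _ => .keep, false)
  | .branch f q1 q2, v, _ => (.R (cond (f v) q1 q2) v, fun _ => .keep, false)
  | .goto f, v, _ => (.R (tr (f v)) v, fun _ => .keep, false)
  | .halt, _, _ => (.D, fun _ => .keep, false)

open Classical in
def mstep (l0 : Λ') : Ph → (Stk → Option Γ') → Bool → Option (Ph × (Stk → Op) × Bool)
  | .G, _, true => some (.G, one .out (.push .bit1), false)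
  | .G, T, false => if (∀ k, T (.w k) = none) ∧ T .cnt = none
      then some (.P, one (.w .main) (.push .cons), false) else none
  | .P, T, _ => if T .out = none then some (.Q, one (.w .main) (.push .cons), false)
      else some (.P, opsP, false)
  | .Q, T, _ => if T .sz = none then some (.R (tr l0) none, fun _ => .keep, false)
      else some (.Q, opsQ, false)
  | .D, T, _ => if T .cnt = none then none else some (.D, one .cnt .pop, true)
  | .R q v, T, _ => some (mic q v T)

def mach (l0 : Λ') : LM Stk Ph := ⟨mstep l0⟩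

def W (L : Stk → List Γ') : K' → List Γ' := fun k => L (.w k)

def Halts (q : Stm) (v : Option Γ') (S : K' → List Γ') : Prop :=
  (StateTransition.eval (TM2.step tr) (TM2.stepAux q v S)).Dom

def ones (m : ℕ) : List Γ' := List.replicate m .bit1

def HQ (l0 : Λ') (s : ℕ) (S : K' → List Γ') : Prop :=
  Halts (tr l0) none (update S .main (ones s ++ S .main))

def HP (l0 : Λ') (s m : ℕ) (S : K' → List Γ') : Prop :=
  HQ l0 s (update S .main (.cons :: (ones m ++ S .main)))

open Classical in
def gate (p : Prop) (n : ℕ) : ℕ := if p then n else 0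

lemma gate_pos {p : Prop} (h : p) (n : ℕ) : gate p n = n := if_pos h

lemma gate_neg {p : Prop} (h : ¬ p) (n : ℕ) : gate p n = 0 := if_neg h

lemma gate_le (p : Prop) (n : ℕ) : gate p n ≤ n := by unfold gate; split_ifs <;> simp

def pot (l0 : Λ') (φ : ℕ → ℕ) : Ph → (Stk → List Γ') → ℕ
  | .G, L => φ (L .sz).length
  | .P, L => gate (HP l0 (L .sz).length (L .out).length (W L))
      ((L .cnt).length + (L .out).length)
  | .Q, L => gate (HQ l0 (L .sz).length (W L)) (L .cnt).length
  | .D, L => (L .cnt).length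
  | .R q v, L => gate (Halts q v (W L)) (L .cnt).length

lemma apps_keep (L : Stk → List Γ') : LM.apps (fun _ => .keep) L = L := rfl

lemma apps_one (k : Stk) (o : Op) (L : Stk → List Γ') :
    LM.apps (one k o) L = update L k (o.app (L k)) := by
  funext j
  by_cases h : j = k
  · subst h; simp [LM.apps, one]
  · simp [LM.apps, one, h, Op.app]

lemma W_update (L : Stk → List Γ') (k : K') (x : List Γ') :
    W (update L (.w k) x) = update (W L) k x := by
  funext j
  by_cases h : j = k
  · subst h; simp [W]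
  · simp [W, h]

lemma W_opsP (L : Stk → List Γ') :
    W (LM.apps opsP L) = update (W L) .main (.bit1 :: L (.w .main)) := by
  funext j; cases j <;> simp [W, LM.apps, opsP, Op.app]

lemma W_opsQ (L : Stk → List Γ') :
    W (LM.apps opsQ L) = update (W L) .main (.bit1 :: L (.w .main)) := by
  funext j; cases j <;> simp [W, LM.apps, opsQ, Op.app]

lemma ones_succ (m : ℕ) (l : List Γ') : ones m ++ .bit1 :: l = ones (m + 1) ++ l := by
  simp [ones, List.replicate_succ']

lemma halts_goto (f : Option Γ' → Λ') (v : Option Γ') (S : K' → List Γ') :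
    Halts (.goto f) v S ↔ Halts (tr (f v)) v S := by
  unfold Halts
  rw [StateTransition.reaches_eval (a := TM2.stepAux (.goto f) v S)
    (b := TM2.stepAux (tr (f v)) v S) (Relation.ReflTransGen.single rfl)]

lemma halts_halt (v : Option Γ') (S : K' → List Γ') : Halts .halt v S :=
  Part.dom_iff_mem.2 ⟨_, StateTransition.mem_eval.2 ⟨Relation.ReflTransGen.refl, rfl⟩⟩

lemma pot_mic (l0 : Λ') (φ : ℕ → ℕ) (q : Stm) (v : Option Γ') (L : Stk → List Γ') :
    pot l0 φ (mic q v (LM.heads L)).1 (LM.apps (mic q v (LM.heads L)).2.1 L) =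
      pot l0 φ (.R q v) L ∧ (mic q v (LM.heads L)).2.2 = false := by
  cases q with
  | push k f q => exact ⟨by simp only [mic, pot, apps_one, W_update]; rfl, rfl⟩
  | peek k f q => exact ⟨rfl, rfl⟩
  | pop k f q => exact ⟨by simp only [mic, pot, apps_one, W_update]; rfl, rfl⟩
  | load a q => exact ⟨rfl, rfl⟩
  | branch f q1 q2 =>
    refine ⟨?_, rfl⟩
    simp only [mic, pot, apps_keep, Halts, TM2.stepAux]
    cases f v <;> rfl
  | goto f => exact ⟨by simp only [mic, pot, apps_keep, halts_goto], rfl⟩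
  | halt => exact ⟨by simp only [mic, pot, apps_keep, gate_pos (halts_halt _ _)], rfl⟩

lemma heads_none {L : Stk → List Γ'} {k : Stk} : LM.heads L k = none ↔ L k = [] := by
  simp [LM.heads]

lemma pot_step_eq (l0 : Λ') (φ : ℕ → ℕ) {s : Ph} (hs : s ≠ .G) {L : Stk → List Γ'} {br : Bool}
    {p : Ph × (Stk → Op) × Bool} (h : mstep l0 s (LM.heads L) br = some p) :
    pot l0 φ p.1 (LM.apps p.2.1 L) + (if p.2.2 then 1 else 0) = pot l0 φ s L := by
  cases s with
  | G => exact absurd rfl hs
  | P =>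
    simp only [mstep, heads_none] at h
    split_ifs at h with h0
    · cases h
      simp [pot, apps_one, W_update, h0, HP, ones, Op.app, W]
    · cases h
      obtain ⟨γ, l, hl⟩ := List.exists_cons_of_ne_nil h0
      have e1 : LM.apps opsP L .out = l := by simp [LM.apps, opsP, Op.app, hl]
      have e2 : LM.apps opsP L .cnt = .bit1 :: L .cnt := rfl
      have e3 : LM.apps opsP L .sz = L .sz := rfl
      simp only [pot, W_opsP, e1, e2, e3, hl, HP, update_idem, update_self, ones_succ,
        List.length_cons, Bool.false_eq_true, if_false, add_zero]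
      congr 1
      omega
  | Q =>
    simp only [mstep, heads_none] at h
    split_ifs at h with h0
    · cases h
      simp [pot, apps_keep, h0, HQ, ones]
    · cases h
      obtain ⟨γ, l, hl⟩ := List.exists_cons_of_ne_nil h0
      have e1 : LM.apps opsQ L .sz = l := by simp [LM.apps, opsQ, Op.app, hl]
      have e2 : LM.apps opsQ L .cnt = L .cnt := rfl
      simp only [pot, W_opsQ, e1, e2, hl, HQ, update_idem, update_self, ones_succ,
        List.length_cons, Bool.false_eq_true, if_false, add_zero]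
      rfl
  | D =>
    simp only [mstep, heads_none] at h
    split_ifs at h with h0
    cases h
    obtain ⟨γ, l, hl⟩ := List.exists_cons_of_ne_nil h0
    simp [pot, apps_one, Op.app, hl]
  | R q v =>
    cases h
    obtain ⟨h1, h2⟩ := pot_mic l0 φ q v L
    rw [h1, h2]; rfl

def Accepts (l0 : Λ') (φ : ℕ → ℕ) : Prop :=
  ∀ s m, HP l0 s m (K'.elim [.cons] [] [] []) ↔ m ≤ φ s

lemma W_clean {L : Stk → List Γ'} (h : ∀ k, L (.w k) = []) :
    update (W L) .main (.cons :: L (.w .main)) = K'.elim [.cons] [] [] [] := by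
  funext k; cases k <;> simp [W, h, K'.elim]

lemma pot_step {l0 : Λ'} {φ : ℕ → ℕ} (hφ : Accepts l0 φ) (s : Ph) (L : Stk → List Γ') (br : Bool)
    (p : Ph × (Stk → Op) × Bool) (h : mstep l0 s (LM.heads L) br = some p) :
    pot l0 φ p.1 (LM.apps p.2.1 L) + (if p.2.2 then 1 else 0) ≤ pot l0 φ s L := by
  by_cases hs : s = .G
  · subst hs
    cases br with
    | true => cases h; simp [pot, apps_one]
    | false =>
      simp only [mstep] at h
      split_ifs at h with h0
      cases h
      simp only [heads_none] at h0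
      simp only [pot, apps_one, W_update, Op.app, W_clean h0.1, hφ _ _]
      simp only [ne_eq, reduceCtorEq, not_false_eq_true, update_of_ne, h0.2]
      unfold gate
      split_ifs <;> simp_all
  · exact (pot_step_eq l0 φ hs h).le

lemma pot_le (l0 : Λ') (φ : ℕ → ℕ) (s : Ph) (L : Stk → List Γ') :
    pot l0 φ s L ≤ φ (L .sz).length + (L .cnt).length + (L .out).length := by
  cases s <;> simp only [pot] <;> first | omega | exact (gate_le _ _).trans (by omega)

lemma runs_back (l0 : Λ') (φ : ℕ → ℕ) {s : Ph} (hs : s ≠ .G) {L : Stk → List Γ'}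
    {p : Ph × (Stk → Op) × Bool} (h : mstep l0 s (LM.heads L) false = some p)
    (hr : (mach l0).Runs p.1 (LM.apps p.2.1 L) (pot l0 φ p.1 (LM.apps p.2.1 L))) :
    (mach l0).Runs s L (pot l0 φ s L) := by
  rw [← pot_step_eq l0 φ hs h]
  exact LM.Runs.step false h hr

lemma runs_D (l0 : Λ') (φ : ℕ → ℕ) (n : ℕ) : ∀ L : Stk → List Γ', (L .cnt).length = n →
    (mach l0).Runs .D L (pot l0 φ .D L) := by
  induction n with
  | zero => intro L h; simp only [pot, h]; exact LM.Runs.nil _ _
  | succ n ih =>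
    intro L h
    have h0 : L .cnt ≠ [] := by intro h0; simp [h0] at h
    refine runs_back l0 φ (p := (.D, one .cnt .pop, true)) (by simp)
      (by simp [mstep, heads_none, h0]) (ih _ ?_)
    simp [apps_one, Op.app, h]

lemma runs_R (l0 : Λ') (φ : ℕ → ℕ) (q : Stm) (v : Option Γ') (L : Stk → List Γ') :
    (mach l0).Runs (.R q v) L (pot l0 φ (.R q v) L) := by
  by_cases h : Halts q v (W L)
  swap
  · simp only [pot, gate_neg h]; exact LM.Runs.nil _ _
  obtain ⟨b, hb⟩ := Part.dom_iff_mem.1 h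
  refine StateTransition.evalInduction (C := fun c => ∀ q v L, TM2.stepAux q v (W L) = c →
    (mach l0).Runs (.R q v) L (pot l0 φ (.R q v) L)) hb ?_ q v L rfl
  intro c _ IH q
  induction q with
  | push k f q ih =>
    intro v L h
    exact runs_back l0 φ (by simp) rfl (ih _ _ (by simp only [mic, apps_one, W_update]; exact h))
  | peek k f q ih => intro v L h; exact runs_back l0 φ (by simp) rfl (ih _ _ h)
  | pop k f q ih =>
    intro v L h
    exact runs_back l0 φ (by simp) rfl (ih _ _ (by simp only [mic, apps_one, W_update]; exact h))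
  | load a q ih => intro v L h; exact runs_back l0 φ (by simp) rfl (ih _ _ h)
  | branch f q1 q2 ih1 ih2 =>
    intro v L h
    refine runs_back l0 φ (by simp) rfl ?_
    simp only [mic, TM2.stepAux] at h ⊢
    cases hf : f v <;> rw [hf] at h
    · exact ih2 _ _ h
    · exact ih1 _ _ h
  | goto f =>
    intro v L h
    subst h
    exact runs_back l0 φ (by simp) rfl (IH _ rfl _ _ _ rfl)
  | halt => intro v L _; exact runs_back l0 φ (by simp) rfl (runs_D l0 φ _ _ rfl)

lemma runs_Q (l0 : Λ') (φ : ℕ → ℕ) (n : ℕ) : ∀ L : Stk → List Γ', (L .sz).length = n →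
    (mach l0).Runs .Q L (pot l0 φ .Q L) := by
  induction n with
  | zero =>
    intro L h
    exact runs_back l0 φ (p := (.R (tr l0) none, fun _ => .keep, false)) (by simp)
      (by simp [mstep, heads_none, List.length_eq_zero_iff.1 h]) (runs_R l0 φ _ _ _)
  | succ n ih =>
    intro L h
    have h0 : L .sz ≠ [] := by intro h0; simp [h0] at h
    refine runs_back l0 φ (p := (.Q, opsQ, false)) (by simp)
      (by simp [mstep, heads_none, h0]) (ih _ ?_)
    simp [LM.apps, opsQ, Op.app, h]

lemma runs_P (l0 : Λ') (φ : ℕ → ℕ) (n : ℕ) : ∀ L : Stk → List Γ', (L .out).length = n →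
    (mach l0).Runs .P L (pot l0 φ .P L) := by
  induction n with
  | zero =>
    intro L h
    exact runs_back l0 φ (p := (.Q, one (.w .main) (.push .cons), false)) (by simp)
      (by simp [mstep, heads_none, List.length_eq_zero_iff.1 h]) (runs_Q l0 φ _ _ rfl)
  | succ n ih =>
    intro L h
    have h0 : L .out ≠ [] := by intro h0; simp [h0] at h
    refine runs_back l0 φ (p := (.P, opsP, false)) (by simp)
      (by simp [mstep, heads_none, h0]) (ih _ ?_)
    simp [LM.apps, opsP, Op.app, h]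

lemma runs_G {l0 : Λ'} {φ : ℕ → ℕ} (hφ : Accepts l0 φ) (j : ℕ) : ∀ L : Stk → List Γ',
    (∀ k, L (.w k) = []) → L .cnt = [] → (L .out).length + j ≤ φ (L .sz).length →
      (mach l0).Runs .G L ((L .out).length + j) := by
  induction j with
  | zero =>
    intro L h1 h2 h3
    have h4 := runs_P l0 φ _ (LM.apps (one (.w .main) (.push .cons)) L) rfl
    have h5 := LM.Runs.step (A := mach l0) (s := .G) (L := L) false
      (p := (.P, one (.w .main) (.push .cons), false))
      (by simp [mach, mstep, heads_none, h1, h2]) h4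
    simp only [pot, apps_one, W_update, Op.app, W_clean h1, hφ _ _] at h5
    simpa [h2, gate_pos (show (L .out).length ≤ φ (L .sz).length from h3)] using h5
  | succ j ih =>
    intro L h1 h2 h3
    have h4 := ih (LM.apps (one .out (.push .bit1)) L) (by simpa [apps_one] using h1)
      (by simpa [apps_one] using h2) (by simp [apps_one, Op.app]; omega)
    have h5 := LM.Runs.step (A := mach l0) (s := .G) (L := L) true
      (p := (.G, one .out (.push .bit1), false)) rfl h4
    simpa [apps_one, Op.app, add_assoc, add_comm 1 j] using h5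

open Classical in
def states (S : Finset Λ') : Finset Ph :=
  {.G, .P, .Q, .D} ∪ ((TM2.stmts tr S).eraseNone ×ˢ (Finset.univ : Finset (Option Γ'))).image
    fun p => .R p.1 p.2

lemma R_mem_states {S : Finset Λ'} {q : Stm} {v : Option Γ'} :
    Ph.R q v ∈ states S ↔ some q ∈ TM2.stmts tr S := by
  simp [states]

lemma mem_stmts_aux (M : Λ' → Stm) {S : Finset Λ'} {l : Λ'} (h : l ∈ S) :
    some (M l) ∈ TM2.stmts M S := by
  simp only [TM2.stmts, Finset.some_mem_insertNone, Finset.mem_biUnion]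
  exact ⟨l, h, TM2.stmts₁_self⟩

lemma tr_mem_stmts {S : Finset Λ'} {l : Λ'} (h : l ∈ S) :
    (some (tr l) : Option Stm) ∈ TM2.stmts tr S := mem_stmts_aux tr h

lemma states_closed (c : ToPartrec.Code) : ∀ s ∈ states (codeSupp c .halt), ∀ T br p,
    mstep (trNormal c .halt) s T br = some p → p.1 ∈ states (codeSupp c .halt) := by
  have hS := tr_supports c .halt
  intro s hs T br p h
  cases s with
  | G =>
    cases br with
    | true => cases h; exact hs
    | false =>
      simp only [mstep] at h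
      split_ifs at h
      cases h; simp [states]
  | P => simp only [mstep] at h; split_ifs at h <;> cases h <;> simp [states]
  | Q =>
    simp only [mstep] at h
    split_ifs at h <;> cases h
    · exact R_mem_states.2 (tr_mem_stmts hS.1)
    · exact hs
  | D => simp only [mstep] at h; split_ifs at h; cases h; exact hs
  | R q v =>
    cases h
    rw [R_mem_states] at hs
    cases q with
    | push k f q | peek k f q | pop k f q | load a q =>
      exact R_mem_states.2 (TM2.stmts_trans (by simp [TM2.stmts₁, TM2.stmts₁_self]) hs)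
    | branch f q1 q2 =>
      refine R_mem_states.2 (TM2.stmts_trans ?_ hs)
      cases f v <;> simp [TM2.stmts₁, TM2.stmts₁_self]
    | goto f =>
      exact R_mem_states.2 (tr_mem_stmts
        (@TM2.stmts_supportsStmt _ _ _ _ ⟨trNormal c .halt⟩ _ _ _ hS hs v))
    | halt => simp [mic, states]

lemma trNat_ones (s : ℕ) : trNat (2 ^ s - 1) = ones s := by
  induction s with
  | zero => simp [ones]
  | succ s ih =>
    have h1 : ((2 ^ (s + 1) - 1 : ℕ) : Num) = ((2 ^ s - 1 : ℕ) : Num).bit1 := by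
      rw [← Num.to_nat_inj, Num.cast_bit1, Num.to_of_nat, Num.to_of_nat]
      have := Nat.one_le_two_pow (n := s)
      omega
    unfold trNat at ih ⊢
    rw [h1, ones, List.replicate_succ, ← ones, ← ih]
    cases ((2 ^ s - 1 : ℕ) : Num) <;> rfl

lemma exists_accepts {g : ℕ → ℕ} (hg : LowerSemicomputable g) :
    ∃ c : ToPartrec.Code, Accepts (trNormal c .halt) fun s => 2 * g (5 ^ s) + 3 := by
  have hpow : Primrec₂ fun a b : ℕ => a ^ b := Primrec₂.unpaired'.1 Nat.Primrec.pow
  let lg : ℕ → ℕ := fun a => (a + 1).findGreatest fun i => 2 ^ i ≤ a + 1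
  have hlg : Primrec lg := Primrec.nat_findGreatest Primrec.succ
    (Primrec.nat_le.comp (hpow.comp (Primrec.const 2) Primrec.snd) (Primrec.succ.comp Primrec.fst))
  have hlg' : ∀ s, lg (2 ^ s - 1) = s := by
    intro s
    have h1 : 2 ^ s - 1 + 1 = 2 ^ s := Nat.sub_add_cancel Nat.one_le_two_pow
    simp only [lg, h1]
    rw [Nat.findGreatest_eq_iff]
    exact ⟨Nat.lt_two_pow_self.le, fun _ => le_rfl, fun n hn _ =>
      not_le.2 (Nat.pow_lt_pow_right (by norm_num) hn)⟩
  have h1 : Primrec fun v : List.Vector ℕ 2 => (5 ^ lg v.head, (lg v.tail.head - 2) / 2) :=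
    (hpow.comp (Primrec.const 5) (hlg.comp Primrec.vector_head)).pair
      (Primrec.nat_div.comp (Primrec.nat_sub.comp
        (hlg.comp (Primrec.vector_head.comp Primrec.vector_tail)) (Primrec.const 2))
        (Primrec.const 2))
  have h2 := (Partrec.comp hg h1.to_comp).map (Computable.const (0 : ℕ)).to₂
  obtain ⟨c, hc⟩ := ToPartrec.Code.exists_code (Nat.Partrec'.of_part h2)
  refine ⟨c, fun s m => ?_⟩
  have h3 := hc ⟨[2 ^ s - 1, 2 ^ m - 1], rfl⟩
  have h4 := tr_eval c [2 ^ s - 1, 2 ^ m - 1]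
  rw [StateTransition.reaches_eval (f := TM2.step tr) (a := init c [2 ^ s - 1, 2 ^ m - 1])
    (Relation.ReflTransGen.single rfl), h3] at h4
  have h5 : HP (trNormal c .halt) s m (K'.elim [.cons] [] [] []) ↔
      (lg (2 ^ m - 1) - 2) / 2 ≤ g (5 ^ lg (2 ^ s - 1)) := by
    simp only [HP, HQ, Halts, K'.elim_main, K'.elim_update_main]
    simp only [trList, trNat_ones] at h4
    rw [h4]
    exact ⟨fun h => h.1, fun h => ⟨h, trivial⟩⟩
  rw [h5, hlg', hlg']
  dsimp only
  omega

end Pool.Agent.MP_e6aac2_al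

end
end

-- part MP_e6aac2_al.Realise
section

/-!
Every monotone lower semicomputable function is the Følner function of a self-similar amenable
group up to an iterated exponential.
-/

noncomputable section

namespace Pool.Agent.MP_e6aac2_al

open Turing Turing.PartrecToTM2

def Dom (k : ℕ) (h u : ℕ → ℕ) : Prop :=
  ∃ C, 0 < C ∧ ∀ n, 1 ≤ n → u n ≤ (fun x => 2 ^ x)^[k] (h (C * n))

lemma tow_mono (k : ℕ) : Monotone (fun x : ℕ => 2 ^ x)^[k] :=
  Monotone.iterate (fun _ _ h => Nat.pow_le_pow_right (by norm_num) h) k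

lemma tow_le_tow {j k : ℕ} (h : j ≤ k) (x : ℕ) :
    (fun x : ℕ => 2 ^ x)^[j] x ≤ (fun x : ℕ => 2 ^ x)^[k] x :=
  Function.monotone_iterate_of_id_le (fun _ => Nat.lt_two_pow_self.le) h x

namespace Dom

variable {h u v : ℕ → ℕ} {k k' : ℕ}

lemma of_le (hv : Dom k h v) (huv : ∀ n, 1 ≤ n → u n ≤ v n) : Dom k h u := by
  obtain ⟨C, hC, H⟩ := hv
  exact ⟨C, hC, fun n hn => (huv n hn).trans (H n hn)⟩

lemma mono (hu : Dom k h u) (hk : k ≤ k') : Dom k' h u := by
  obtain ⟨C, hC, H⟩ := hu
  exact ⟨C, hC, fun n hn => (H n hn).trans (tow_le_tow hk _)⟩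

lemma self : Dom 0 h h := ⟨1, one_pos, fun n _ => by simp⟩

lemma two_pow (hu : Dom k h u) : Dom (k + 1) h fun n => 2 ^ u n := by
  obtain ⟨C, hC, H⟩ := hu
  refine ⟨C, hC, fun n hn => ?_⟩
  rw [Function.iterate_succ_apply']
  exact Nat.pow_le_pow_right (by norm_num) (H n hn)

lemma tow (hu : Dom k h u) (j : ℕ) : Dom (k + j) h fun n => (fun x : ℕ => 2 ^ x)^[j] (u n) := by
  induction j with
  | zero => exact hu
  | succ j ih => simpa only [Function.iterate_succ_apply', add_assoc] using ih.two_pow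

lemma comp (hu : Dom k h u) {c : ℕ} (hc : 0 < c) : Dom k h fun n => u (c * n) := by
  obtain ⟨C, hC, H⟩ := hu
  exact ⟨C * c, mul_pos hC hc, fun n hn => by
    rw [mul_assoc]; exact H _ (mul_pos hc hn)⟩

lemma sup (hm : Monotone h) (hu : Dom k h u) (hv : Dom k' h v) :
    Dom (max k k') h fun n => max (u n) (v n) := by
  obtain ⟨C, hC, H⟩ := hu.mono (le_max_left k k')
  obtain ⟨C', hC', H'⟩ := hv.mono (le_max_right k k')
  refine ⟨C + C', by omega, fun n hn => max_le ?_ ?_⟩
  · exact (H n hn).trans (tow_mono _ (hm (by nlinarith)))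
  · exact (H' n hn).trans (tow_mono _ (hm (by nlinarith)))

lemma add (hm : Monotone h) (hu : Dom k h u) (hv : Dom k' h v) :
    Dom (max k k' + 1) h fun n => u n + v n := by
  refine (hu.sup hm hv).two_pow.of_le fun n _ => ?_
  have h1 : ∀ y : ℕ, 2 * y ≤ 2 ^ y := by
    intro y
    cases y with
    | zero => simp
    | succ y => have := Nat.lt_two_pow_self (n := y); rw [pow_succ]; omega
  have := h1 (max (u n) (v n))
  omega

lemma mul (hm : Monotone h) (hu : Dom k h u) (hv : Dom k' h v) :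
    Dom (max k k' + 2) h fun n => u n * v n := by
  refine (hu.add hm hv).two_pow.of_le fun n _ => ?_
  rw [pow_add]
  exact Nat.mul_le_mul Nat.lt_two_pow_self.le Nat.lt_two_pow_self.le

lemma pow (hm : Monotone h) (hu : Dom k h u) (hv : Dom k' h v) :
    Dom (max k k' + 3) h fun n => u n ^ v n := by
  refine (hu.mul hm hv).two_pow.of_le fun n _ => ?_
  rw [pow_mul]
  exact Nat.pow_le_pow_left Nat.lt_two_pow_self.le _

lemma fact (hm : Monotone h) (hu : Dom k h u) : Dom (max k k + 3) h fun n => (u n).factorial :=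
  (hu.pow hm hu).of_le fun _ _ => Nat.factorial_le_pow _

lemma const (hid : Dom k h id) (c : ℕ) : Dom k h fun _ => c :=
  (hid.comp (c := c + 1) (by omega)).of_le fun n hn => by simp only [id]; nlinarith

end Dom

lemma Preceq.trans {f g h : ℕ → ℕ} (h1 : Preceq f g) (h2 : Preceq g h) : Preceq f h := by
  obtain ⟨C, hC, H⟩ := h1
  obtain ⟨C', hC', H'⟩ := h2
  refine ⟨C' * C, mul_pos hC' hC, fun n hn => (H n hn).trans ?_⟩
  rw [mul_comm C' C, mul_assoc, mul_comm C C', mul_assoc C' C n]
  exact Nat.mul_le_mul_left _ (H' _ (mul_pos hC hn))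

lemma Preceq.refl (f : ℕ → ℕ) : Preceq f f := ⟨1, one_pos, fun n _ => by simp⟩

theorem realise {g : ℕ → ℕ} (hm : Monotone g) (hg : LowerSemicomputable g) :
    ∃ F, IsSelfSimilarFolnerType F ∧ Preceq g F ∧ Dom 29 (fun n => g n + n) F := by
  obtain ⟨c, hc⟩ := exists_accepts hg
  let M := (mach (trNormal c .halt)).sys
  let Fs := states (codeSupp c .halt)
  have hF : M.Closed Fs := LM.closed _ (states_closed c)
  have hp := LM.isPot (mach (trNormal c .halt)) (F := Fs) fun s _ => pot_step hc s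
  let S := M.gensG Fs
  let R : ℕ → ℕ := fun n => 2 * S.card * n
  let Φ : ℕ → ℕ := fun n => 2 * g (10 * R n + 1) + 3 + (10 * R n + 1) + (10 * R n + 1)
  have hup := fun n => M.folner_upper Fs hF hp n (Φ n) (R n) rfl (by
    intro s _ a ha
    have h1 : ∀ k, 5 ^ (decode (a k)).length ≤ 10 * R n + 1 := fun k => by
      have := decode_len' (a k)
      have := abs_le.1 (ha k)
      omega
    have h2 : ∀ k, (decode (a k)).length ≤ 10 * R n + 1 := fun k =>
      (Nat.lt_pow_self (by norm_num)).le.trans (h1 k)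
    refine (pot_le _ _ _ _).trans ?_
    have := hm (h1 .sz)
    have := h2 .cnt
    have := h2 .out
    simp only [Φ]
    omega)
  have hex : ∀ n, ∃ E, IsFolner S n E := fun n => ⟨_, (hup n).choose_spec.1⟩
  refine ⟨folner S, ⟨_, inferInstance, M.grp Fs, S, M.selfSimilar Fs hF, M.closure_gensG Fs, hex,
    Preceq.refl _, Preceq.refl _⟩, ⟨6, by norm_num, fun N hN => ?_⟩, ?_⟩
  · obtain ⟨E, hE, hc'⟩ := folner_spec (hex (6 * N))
    let s := Nat.log 5 N + 1
    have h1 : N < 5 ^ s := Nat.lt_pow_succ_log_self (by norm_num) N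
    have h2 : 5 ^ s ≤ 5 * N := by
      have := Nat.pow_log_le_self 5 (show N ≠ 0 by omega)
      rw [pow_succ]; omega
    let L : Stk → List Γ' := Function.update (fun _ => []) .sz (ones s)
    have h3 := runs_G hc (2 * g (5 ^ s) + 3) L (by simp [L]) (by simp [L]) (by simp [L, ones])
    obtain ⟨l, hl, hlen⟩ := h3.run _ (fun k => enc (L k)) (funext fun k => decode_enc _)
    have h4 : ∑ k, (enc (L k)).natAbs = (enc (ones s)).natAbs := by
      rw [Finset.sum_eq_single Stk.sz (fun k _ hk => by simp [L, hk, enc]) (by simp)]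
      simp [L]
    have h5 := enc_le (ones s)
    rw [show (ones s).length = s by simp [ones]] at h5
    have h6 := M.folner_lower Fs (s := .G) (by simp [Fs, states]) hl (l := g (5 ^ s))
      (N := 6 * N) (by rw [hlen]; omega) (by rw [h4]; omega) hE
    have := hm h1.le
    omega
  · set h : ℕ → ℕ := fun n => g n + n with hh
    have hmh : Monotone h := fun a b hab => add_le_add (hm hab) hab
    have hid : Dom 0 h id := Dom.self.of_le fun n _ => Nat.le_add_left _ _
    have hc := Dom.const hid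
    have hR : Dom 2 h R := (hc _).mul hmh hid
    have hR1 : Dom 5 h fun n => 10 * R n + 1 := ((hc _).mul hmh hR).add hmh (hc 1)
    have hg1 : Dom 0 h fun n => g (10 * R n + 1) :=
      (Dom.self.comp (c := 20 * S.card + 1) (by omega)).of_le fun n hn =>
        (hm (by simp only [R]; nlinarith)).trans (Nat.le_add_right _ _)
    have hΦ : Dom 7 h Φ := ((((hc 2).mul hmh hg1).add hmh (hc 3)).add hmh hR1).add hmh hR1
    have hB := (hR.add hmh (hc 1)).pow hmh (hc (Fintype.card Stk))
    have hr := (hc (Fs.card + 1)).mul hmh ((hc 9).mul hmh hB)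
    have hD := ((hc 9).pow hmh (hΦ.add hmh (hc 1))).fact hmh
    have hI := hD.pow hmh (hD.pow hmh hr)
    refine (hB.mul hmh (hI.mul hmh ((hc 3).pow hmh (hI.mul hmh hr)))).of_le fun n _ => ?_
    obtain ⟨E, hE, I, r, h1, h2, h3⟩ := hup n
    have h4 := h2.trans (Nat.pow_le_pow_right (Nat.factorial_pos _)
      (Nat.pow_le_pow_right (Nat.factorial_pos _) h1))
    exact (folner_le hE).trans (h3.trans (Nat.mul_le_mul_left _ (Nat.mul_le_mul h4
      (Nat.pow_le_pow_right (by norm_num) (Nat.mul_le_mul h4 h1)))))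

lemma fast_tow {f : ℕ → ℕ} {c : ℕ} (hc : 0 < c) (hf : ∀ n, 1 ≤ n → 2 ^ f n ≤ f (c * n)) (k : ℕ) :
    ∀ n, 1 ≤ n → (fun x : ℕ => 2 ^ x)^[k] (f n) ≤ f (c ^ k * n) := by
  induction k with
  | zero => simp
  | succ k ih =>
    intro n hn
    rw [Function.iterate_succ_apply', pow_succ', mul_assoc]
    exact (Nat.pow_le_pow_right (by norm_num) (ih n hn)).trans (hf _ (mul_pos (pow_pos hc _) hn))

lemma fast_id {f : ℕ → ℕ} (hm : Monotone f) {c : ℕ} (hc : 0 < c)
    (hf : ∀ n, 1 ≤ n → 2 ^ f n ≤ f (c * n)) : Dom 2 f id := by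
  have hc2 : 1 < c := by
    by_contra h
    obtain rfl : c = 1 := by omega
    have := hf 1 le_rfl
    have := Nat.lt_two_pow_self (n := f 1)
    simp only [mul_one] at *
    omega
  have h1 : ∀ k, k ≤ f (c ^ k) := by
    intro k
    induction k with
    | zero => exact Nat.zero_le _
    | succ k ih =>
      have := hf (c ^ k) (pow_pos hc _)
      have := Nat.lt_two_pow_self (n := f (c ^ k))
      rw [pow_succ']; omega
  refine ⟨c ^ (c + 1), by positivity, fun n hn => ?_⟩
  have h2 := Nat.lt_pow_succ_log_self hc2 n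
  have h3 := Nat.pow_log_le_self c (show n ≠ 0 by omega)
  set k := Nat.log c n
  have h4 : c + 1 + k ≤ f (c ^ (c + 1) * n) :=
    (h1 _).trans (hm (by rw [pow_add]; exact Nat.mul_le_mul_left _ h3))
  refine le_trans ?_ (tow_mono 2 h4)
  show n ≤ 2 ^ 2 ^ (c + 1 + k)
  refine h2.le.trans ((Nat.pow_le_pow_left Nat.lt_two_pow_self.le _).trans ?_)
  rw [← pow_mul, add_assoc, pow_add, add_comm 1 k]
  exact Nat.pow_le_pow_right (by norm_num)
    (Nat.mul_le_mul Nat.lt_two_pow_self.le Nat.lt_two_pow_self.le)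

theorem realise_fast {f g : ℕ → ℕ} (hf : Monotone f) {c : ℕ} (hc : 0 < c)
    (hfast : ∀ n, 1 ≤ n → 2 ^ f n ≤ f (c * n)) (hm : Monotone g) (hg : LowerSemicomputable g)
    (hfg : SameGrowth f g) : IsSelfSimilarFolnerType f := by
  obtain ⟨F, ⟨X, hX, G, S, h1, h2, h3, h4⟩, h5, C, hC, h6⟩ := realise hm hg
  have hid := fast_id hf hc hfast
  obtain ⟨C', hC', h7⟩ := hfg.2
  have hg' : Dom 4 f g := ((Dom.const hid C').mul hf (Dom.self.comp hC')).of_le h7
  obtain ⟨C'', hC'', h8⟩ := (((hg'.add hf hid).comp hC).tow 29).of_le h6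
  generalize max 4 2 + 1 + 29 = k' at h8
  have h9 : Preceq F f := by
    refine ⟨c ^ k' * C'', by positivity, fun n hn => (h8 n hn).trans ?_⟩
    refine (fast_tow hc hfast k' _ (mul_pos hC'' hn)).trans ?_
    rw [← mul_assoc]
    exact Nat.le_mul_of_pos_left _ (by positivity)
  exact ⟨X, hX, G, S, h1, h2, h3, (hfg.1.trans h5).trans h4.1, h4.2.trans h9⟩

end Pool.Agent.MP_e6aac2_al

end
end

-- part MP_e6aac2_al.Nec
section

/-!
The Følner function of a finitely generated amenable self-similar group has the growth type of a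
monotone lower semicomputable function.
-/

noncomputable section

namespace Pool.Agent.MP_e6aac2_al

section Words

variable {M : Type} [Group M] {r : ℕ} (e : Fin r → M)

def val (a : Fin r × Bool) : M := if a.2 then e a.1 else (e a.1)⁻¹

def ev (u : List (Fin r × Bool)) : M := (u.map (val e)).prod

lemma ev_cons (a : Fin r × Bool) (u : List (Fin r × Bool)) : ev e (a :: u) = val e a * ev e u := by
  simp [ev]

lemma ev_append (u v : List (Fin r × Bool)) : ev e (u ++ v) = ev e u * ev e v := by simp [ev]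

lemma ev_winv (u : List (Fin r × Bool)) : ev e (winv u) = (ev e u)⁻¹ := by
  induction u with
  | nil => simp [winv, ev]
  | cons a u ih =>
    have : winv (a :: u) = winv u ++ [(a.1, !a.2)] := by simp [winv]
    rw [this, ev_append, ih, ev_cons, ev_cons, mul_inv_rev]
    obtain ⟨a, b⟩ := a
    cases b <;> simp [val, ev]

lemma walk_cons {l N i j : ℕ} {q : (Fin r × Bool) × ℕ} {p : List ((Fin r × Bool) × ℕ)} :
    walk l N i (q :: p) = some j ↔ ∃ k, walk l N i p = some k ∧ Edge l N q.1 k q.2 ∧ q.2 = j := by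
  simp only [walk, List.foldr_cons, Option.bind_eq_some_iff]
  refine exists_congr fun k => and_congr_right fun _ => ?_
  split_ifs with h <;> simp [h]

lemma walk_sound {l N : ℕ} {φ : ℕ → M} (h : ∀ a i j, Edge l N a i j → φ j = val e a * φ i) (i : ℕ)
    (p : List ((Fin r × Bool) × ℕ)) :
    ∀ j, walk l N i p = some j → φ j = ev e (p.map Prod.fst) * φ i := by
  induction p with
  | nil => intro j hj; cases hj; simp [ev]
  | cons q p ih =>
    intro j hj
    obtain ⟨k, h1, h2, rfl⟩ := walk_cons.1 hj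
    rw [h _ _ _ h2, ih k h1, List.map_cons, ev_cons, mul_assoc]

lemma exists_potential {l N : ℕ} (h : ∀ i p p', walk l N i p = walk l N i p' →
    walk l N i p ≠ none → ev e (p.map Prod.fst) = ev e (p'.map Prod.fst)) :
    ∃ φ : ℕ → M, ∀ (a : Fin r) i j, i < l → j < l → Dv l N a i = j → φ j = e a * φ i := by
  classical
  have h0 : ∀ j, ∃ i, ∃ p : List ((Fin r × Bool) × ℕ), walk l N i p = some j := fun j => ⟨j, [], rfl⟩
  refine ⟨fun j => ev e ((Nat.find_spec (h0 j)).choose.map Prod.fst), fun a i j hi hj hD => ?_⟩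
  have e1 : Edge l N (a, true) i j := ⟨hi, hj, Or.inl ⟨rfl, hD⟩⟩
  have e2 : Edge l N (a, false) j i := ⟨hj, hi, Or.inr ⟨rfl, hD⟩⟩
  have h1 : Nat.find (h0 i) = Nat.find (h0 j) := by
    refine Nat.find_congr' fun {n} => ⟨fun ⟨p, hp⟩ => ⟨((a, true), j) :: p, ?_⟩,
      fun ⟨p, hp⟩ => ⟨((a, false), i) :: p, ?_⟩⟩
    · exact walk_cons.2 ⟨_, hp, e1, rfl⟩
    · exact walk_cons.2 ⟨_, hp, e2, rfl⟩
  have h2 := (Nat.find_spec (h0 i)).choose_spec
  have h3 := (Nat.find_spec (h0 j)).choose_spec
  have h4 : walk l N (Nat.find (h0 j)) (((a, true), j) :: (Nat.find_spec (h0 i)).choose) = some j :=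
    walk_cons.2 ⟨_, h1 ▸ h2, e1, rfl⟩
  have h5 := h _ _ _ (h3.trans h4.symm) (by rw [h3]; simp)
  rw [List.map_cons, ev_cons] at h5
  exact h5

end Words

section Act

variable {X : Type} {G : Subgroup (Equiv.Perm (List X))} {r : ℕ} {e : Fin r → G}
  {y : Fin r × Bool → X → X} {sec : Fin r × Bool → X → List (Fin r × Bool)}

lemma stp_spec (h : ∀ a x w, (val e a).1 (x :: w) = y a x :: (ev e (sec a x)).1 w)
    (u : List (Fin r × Bool)) (x : X) (w : List X) :
    (ev e u).1 (x :: w) = (stp y sec u x).1 :: (ev e (stp y sec u x).2).1 w := by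
  induction u with
  | nil => rfl
  | cons a u ih =>
    rw [ev_cons, Subgroup.coe_mul, Equiv.Perm.mul_apply, ih, h]
    simp only [stp, List.foldr_cons, ev_append, Subgroup.coe_mul, Equiv.Perm.mul_apply]

lemma ev_eq_one_iff (_hG : IsSelfSimilar G)
    (h : ∀ a x w, (val e a).1 (x :: w) = y a x :: (ev e (sec a x)).1 w)
    (u : List (Fin r × Bool)) : ev e u = 1 ↔ ∀ v x, (stp y sec (secw y sec u v) x).1 = x := by
  constructor
  · intro hu v
    induction v generalizing u with
    | nil =>
      intro x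
      have := stp_spec h u x []
      rw [hu] at this
      exact (List.cons.inj this).1.symm
    | cons z v ih =>
      refine ih (stp y sec u z).2 (Subtype.ext (Equiv.ext fun w => ?_))
      have := stp_spec h u z w
      rw [hu] at this
      exact (List.cons.inj this).2.symm
  · intro hu
    refine Subtype.ext (Equiv.ext fun w => ?_)
    induction w generalizing u with
    | nil =>
      obtain ⟨z, hz⟩ := (ev e u).1.surjective []
      cases z with
      | nil => exact hz
      | cons x w => rw [stp_spec h] at hz; cases hz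
    | cons x w ih =>
      rw [stp_spec h, ih (stp y sec u x).2 fun v => hu (x :: v)]
      exact congrArg (· :: w) (hu [] x)

lemma cert_of_folner (hG : IsSelfSimilar G)
    (h : ∀ a x w, (val e a).1 (x :: w) = y a x :: (ev e (sec a x)).1 w) {S : Finset G}
    (he : ∀ a, e a ∈ S) {n : ℕ} {E : Set G} (hE : IsFolner S n E) : Cert y sec n E.ncard := by
  classical
  obtain ⟨hfin, hne, hE⟩ := isFolner_iff.1 hE
  set l := E.ncard with hl
  have hl0 : 0 < l := (Set.ncard_pos hfin).2 hne
  have : Finite E := hfin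
  let c : E ≃ Fin l := Finite.equivFinOfCardEq (Nat.card_coe_set_eq E)
  let φ : ℕ → G := fun i => if hi : i < l then c.symm ⟨i, hi⟩ else 1
  have hφ : ∀ i < l, φ i ∈ E := fun i hi => by simp [φ, hi]
  have hinj : ∀ i < l, ∀ j < l, φ i = φ j → i = j := fun i hi j hj h => by
    simp only [φ, hi, hj, dif_pos] at h
    simpa using c.symm.injective (Subtype.ext h)
  have hD : ∀ a i : ℕ, ∃ j < l + 1, ∀ ha : a < r, (e ⟨a, ha⟩ * φ i ∈ E → j < l ∧
      φ j = e ⟨a, ha⟩ * φ i) ∧ (e ⟨a, ha⟩ * φ i ∉ E → j = l) := by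
    intro a i
    by_cases h1 : ∃ ha : a < r, e ⟨a, ha⟩ * φ i ∈ E
    · obtain ⟨ha, h1⟩ := h1
      exact ⟨c ⟨_, h1⟩, by omega, fun _ => ⟨fun _ => ⟨(c _).2, by simp [φ]⟩, fun h => absurd h1 h⟩⟩
    · exact ⟨l, by omega, fun ha => ⟨fun h => absurd ⟨ha, h⟩ h1, fun _ => rfl⟩⟩
  choose D hD1 hD2 using hD
  obtain ⟨N, hN1, hN2⟩ := exists_digits (l + 1) (r * l) (fun k => D (k / l) (k % l)) fun _ => hD1 _ _
  have hDv : ∀ a < r, ∀ i < l, Dv l N a i = D a i := by
    intro a ha i hi
    rw [Dv, hN2 _ (by nlinarith), mul_comm, Nat.mul_add_div hl0, Nat.mul_add_mod,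
      Nat.div_eq_of_lt hi, Nat.mod_eq_of_lt hi, add_zero]
  have hD3 : ∀ a (ha : a < r), ∀ i < l, Dv l N a i ≠ l → φ (Dv l N a i) = e ⟨a, ha⟩ * φ i := by
    intro a ha i hi hne
    rw [hDv a ha i hi] at hne ⊢
    exact ((hD2 a i ha).1 (by_contra fun h => hne ((hD2 a i ha).2 h))).2
  refine ⟨hl0, N, hN1, ⟨fun a ha i hi j hj => ?_, fun a ha => ?_⟩, ?_⟩
  · by_contra hcon
    push Not at hcon
    obtain ⟨h1, h2, h3⟩ := hcon
    have h4 := hD3 a ha i hi h2
    rw [h1, hD3 a ha j hj (h1 ▸ h2)] at h4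
    exact h3 (hinj _ hi _ hj (mul_left_cancel h4).symm)
  · refine lt_of_le_of_lt (Nat.mul_le_mul_left _ (Nat.mul_le_mul_left _ ?_)) (hE _ (he ⟨a, ha⟩))
    change ((Finset.range l).filter fun i => Dv l N a i = l).card ≤ _
    rw [← Set.ncard_coe_finset]
    refine Set.ncard_le_ncard_of_injOn (fun i => e ⟨a, ha⟩ * φ i) (fun i hi => ?_)
      (fun i hi j hj hij => ?_) (hfin.image _).sdiff
    · simp only [Finset.coe_filter, Finset.mem_range, Set.mem_ofPred_eq] at hi
      refine ⟨⟨_, hφ i hi.1, rfl⟩, fun hm => ?_⟩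
      have := ((hD2 a i ha).1 hm).1
      rw [hDv a ha i hi.1] at hi
      omega
    · simp only [Finset.coe_filter, Finset.mem_range, Set.mem_ofPred_eq] at hi hj
      exact hinj _ hi.1 _ hj.1 (mul_left_cancel hij)
  · rintro ⟨i, ⟨p, p'⟩, v, x⟩ ⟨h1, h2, h3⟩
    have hedge : ∀ a i j, Edge l N a i j → φ j = val e a * φ i := by
      rintro ⟨a, b⟩ i j ⟨hi, hj, ⟨rfl, h⟩ | ⟨rfl, h⟩⟩
      · have := hD3 a a.2 i hi (by dsimp only at h; omega)
        rw [h] at this
        exact this
      · have := hD3 a a.2 j hj (by dsimp only at h; omega)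
        rw [h] at this
        simp [val, this]
    obtain ⟨j, hj⟩ := Option.ne_none_iff_exists'.1 h2
    have h4 := walk_sound e hedge i p j hj
    have h5 := walk_sound e hedge i p' j (h1 ▸ hj)
    refine h3 ((ev_eq_one_iff hG h _).1 ?_ v x)
    rw [ev_append, ev_winv, mul_right_cancel (h4.symm.trans h5), inv_mul_cancel]

lemma folner_of_cert (hG : IsSelfSimilar G)
    (h : ∀ a x w, (val e a).1 (x :: w) = y a x :: (ev e (sec a x)).1 w) {S : Finset G}
    (he : ∀ s ∈ S, ∃ a, e a = s) {n l : ℕ} (hc : Cert y sec (S.card * n) l) :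
    ∃ E, IsFolner S n E ∧ E.ncard ≤ l := by
  obtain ⟨hl0, N, -, ⟨h1, h2⟩, h3⟩ := hc
  obtain ⟨φ, hφ⟩ := exists_potential e (l := l) (N := N) fun i p p' e1 e2 => by
    rw [← inv_mul_eq_one, ← ev_winv, ← ev_append, ev_eq_one_iff hG h]
    exact fun v x => by_contra fun e3 => h3 (i, (p, p'), v, x) ⟨e1, e2, e3⟩
  have : Nonempty (Fin l) := ⟨⟨0, hl0⟩⟩
  have hlt : ∀ a i, Dv l N a i ≠ l → Dv l N a i < l := fun a i hne =>
    lt_of_le_of_ne (Nat.lt_succ_iff.1 (Nat.mod_lt _ (Nat.succ_pos _))) hne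
  simpa using exists_folner_of_approx (I := Fin l) S n (fun i => φ i) fun s hs => by
    obtain ⟨a, rfl⟩ := he s hs
    refine ⟨fun i => if hi : Dv l N a i < l then ⟨_, hi⟩ else i,
      Finset.univ.filter fun i => Dv l N a i = l, fun i hi j hj hij => ?_, fun i hi => ?_, ?_⟩
    · simp only [Finset.coe_filter, Finset.mem_univ, true_and, Set.mem_compl_iff,
        Set.mem_ofPred_eq] at hi hj
      simp only [hlt _ _ hi, hlt _ _ hj, dif_pos, Fin.mk.injEq] at hij
      rcases h1 a a.2 i i.2 j j.2 with h | h | h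
      · exact absurd hij h
      · exact absurd h hi
      · exact Fin.ext h
    · simp only [Finset.mem_filter, Finset.mem_univ, true_and] at hi
      simp only [hlt _ _ hi, dif_pos]
      exact hφ a i _ i.2 (hlt _ _ hi) rfl
    · rw [Fintype.card_fin]
      refine lt_of_le_of_lt (Nat.mul_le_mul_left _ (Nat.mul_le_mul_left _ ?_)) (h2 a a.2)
      change _ ≤ ((Finset.range l).filter fun i => Dv l N a i = l).card
      refine Finset.card_le_card_of_injOn (fun i => (i : ℕ)) (fun i hi => ?_)
        fun i _ j _ => Fin.ext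
      simpa using hi

end Act

theorem necessary {f : ℕ → ℕ} (hf : IsSelfSimilarFolnerType f) :
    ∃ g, Monotone g ∧ LowerSemicomputable g ∧ SameGrowth f g := by
  obtain ⟨X, hX, G, S, hG, hS, hex, hf⟩ := hf
  let _ : Primcodable X := Primcodable.ofEquiv _ (Finite.equivFin X)
  let e : Fin S.card → G := fun a => S.equivFin.symm a
  have he : ∀ s ∈ S, ∃ a, e a = s := fun s hs => ⟨S.equivFin ⟨s, hs⟩, by simp [e]⟩
  have hsurj : ∀ g : G, ∃ u, ev e u = g := by
    intro g
    have hg : g ∈ Subgroup.closure (S : Set G) := hS ▸ Subgroup.mem_top g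
    induction hg using Subgroup.closure_induction with
    | mem s hs => obtain ⟨a, rfl⟩ := he s hs; exact ⟨[(a, true)], by simp [ev, val]⟩
    | one => exact ⟨[], rfl⟩
    | mul _ _ _ _ h1 h2 =>
      obtain ⟨u, rfl⟩ := h1
      obtain ⟨v, rfl⟩ := h2
      exact ⟨u ++ v, ev_append e u v⟩
    | inv _ _ h1 => obtain ⟨u, rfl⟩ := h1; exact ⟨winv u, ev_winv e u⟩
  have h0 : ∀ a x, ∃ y u, ∀ w, (val e a).1 (x :: w) = y :: (ev e u).1 w := by
    intro a x
    obtain ⟨y, g, hg, h⟩ := hG _ (val e a).2 x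
    obtain ⟨u, hu⟩ := hsurj ⟨g, hg⟩
    exact ⟨y, u, by rw [hu]; exact h⟩
  choose y sec h using h0
  have h1 : ∀ n, Cert y sec n (folner S n) := fun n => by
    obtain ⟨E, hE, hc⟩ := folner_spec (hex n)
    exact hc ▸ cert_of_folner hG h (fun a => (S.equivFin.symm a).2) hE
  have h2 : ∀ n, Cert y sec n (sInf {l | Cert y sec n l}) := fun n =>
    Nat.sInf_mem (s := {l | Cert y sec n l}) ⟨_, h1 n⟩
  refine ⟨fun n => sInf {l | Cert y sec n l}, fun a b hab => Nat.sInf_le ((h2 b).mono y sec hab),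
    lsc_cert y sec fun n => ⟨_, h1 n⟩, hf.1.trans ⟨S.card + 1, by omega, fun n _ => ?_⟩,
    Preceq.trans ⟨1, one_pos, fun n _ => ?_⟩ hf.2⟩
  · obtain ⟨E, hE, hc⟩ := folner_of_cert hG h he (n := n)
      ((h2 ((S.card + 1) * n)).mono y sec (by nlinarith))
    exact ((folner_le hE).trans hc).trans (Nat.le_mul_of_pos_left _ (by omega))
  · simpa using Nat.sInf_le (h1 n)

end Pool.Agent.MP_e6aac2_al

end
end
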