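import Pool.Agent.MP_e6aac2_al.Mg.H99_Mach
import Pool.Agent.MP_e6aac2_al.Mg.Nec
import Pool.Agent.MP_e6aac2_al.Mg.H22_Lower

-- part MP_e6aac2_al.H99.Final
section

/-!
Realisation of lower semicomputable functions as Følner functions of self-similar groups.
-/

noncomputable section

namespace Pool.Agent.MP_e6aac2_al.H99

open Finset

lemma exists_witness {g : ℕ → ℕ} (hg : LowerSemicomputable g) :
    ∃ F : (ℕ × ℕ) × ℕ → ℕ, Primrec F ∧ ∀ n k, k ≤ g n ↔ ∃ w, F ((n, k), w) ≠ 0 := by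
  obtain ⟨c, hc⟩ := Nat.Partrec.Code.exists_code.1 hg
  refine ⟨fun p => Encodable.encode (Nat.Partrec.Code.evaln p.2 c (Encodable.encode p.1)),
    Primrec.encode.comp (Nat.Partrec.Code.primrec_evaln.comp
      ((Primrec.snd.pair (Primrec.const c)).pair (Primrec.encode.comp Primrec.fst))),
    fun n k => ?_⟩
  have h1 : k ≤ g n ↔ ∃ x, x ∈ c.eval (Encodable.encode (n, k)) := by
    rw [hc]
    simp only [Encodable.encodek, Part.coe_some, Part.bind_some]
    simp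
  simp only [h1, Nat.Partrec.Code.evaln_complete]
  rw [exists_comm]
  refine exists_congr fun w => ?_
  cases Nat.Partrec.Code.evaln w c (Encodable.encode (n, k)) <;> simp

theorem exists_group {φ : ℕ → ℕ} {F : (ℕ × ℕ) × ℕ → ℕ} (hF : Primrec F)
    (hφ : ∀ s m, m ≤ φ s ↔ ∃ w, F ((s, m), w) ≠ 0) :
    ∃ G : ℕ → ℕ, IsSelfSimilarFolnerType G ∧
      (∀ s n, 32 * 2 ^ s ≤ n → 2 ^ ((φ s + 1) * 2 ^ s) ≤ G n) ∧
      ∃ D d c, 0 < c ∧ ∀ n, G n ≤ 2 ^ (D * ∑ s ∈ range (Nat.log 2 (c * n) + 1), (c * n + 1) *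
        (Nat.log 2 (c * n) - s + 1) ^ d * (φ s + Nat.log 2 (c * n) + 1)) := by
  obtain ⟨Md, St, _, M, need, pot, hG, hp, hn, hW, hR⟩ := exists_machine
    (ψ := fun s => 4 * φ s + 5)
    (f := fun v => F ((v.head, (v.tail.head - 2) / 4), v.tail.tail.head))
    (hF.comp ((Primrec.vector_head.pair (Primrec.nat_div.comp (Primrec.nat_sub.comp
      (Primrec.vector_head.comp Primrec.vector_tail) (Primrec.const 2)) (Primrec.const 4))).pair
      (Primrec.vector_head.comp (Primrec.vector_tail.comp Primrec.vector_tail))))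
    (fun s m => by
      simp only [List.Vector.head_cons, List.Vector.tail_cons, ← hφ]
      omega)
  have hc := fun R => CM.card_boxH hG hp _ R _ (hW R)
  have hup := fun n => M.folner_upper n _ rfl (hc _).1
  have hex : ∀ n, ∃ E, IsFolner M.gensG n E := fun n => ⟨_, (hup n).choose_spec.1⟩
  refine ⟨folner M.gensG, ⟨_, inferInstance, M.grp, M.gensG, M.selfSimilar, M.closure_gensG, hex,
    Preceq.refl _, Preceq.refl _⟩, fun s n hn' => ?_,
    1 + 2 * (M.F.card + 768 * ((2 ^ M.N) ^ M.F.card) ^ 3), M.B * 3, 2 * M.gensG.card,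
    ?_, fun n => ?_⟩
  · obtain ⟨E, hE, e⟩ := folner_spec (hex n)
    obtain ⟨L, h1, h2⟩ := hR s
    have h3 := CM.folner_lower hG hn h1 (k := (φ s + 1) * 2) (by rw [h2]; omega) hn' hE
    rw [← pow_mul, mul_right_comm, pow_mul, e] at h3
    exact (Nat.pow_le_pow_iff_left (by norm_num)).1 h3
  · exact Nat.mul_pos (by norm_num) (card_pos.2 ⟨M.trG 1, M.mem_gensG.2 (M.mem_gens.2 (Or.inl rfl))⟩)
  · obtain ⟨E, hE, h1⟩ := hup n
    have h2 := (hc (2 * M.gensG.card * n)).2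
    generalize 2 * M.gensG.card * n = R at *
    generalize Nat.log 2 R = l at *
    generalize (2 ^ M.N) ^ M.F.card = K at *
    set T := ∑ s ∈ range (l + 1), (R + 1) * (l - s + 1) ^ (M.B * 3) * (φ s + l + 1) with hT
    have h3 : R + 1 ≤ T := by
      refine le_trans ?_ (single_le_sum (f := fun s => (R + 1) * (l - s + 1) ^ (M.B * 3) *
        (φ s + l + 1)) (fun _ _ => Nat.zero_le _) (mem_range.2 (Nat.succ_pos l)))
      rw [mul_assoc]
      exact Nat.le_mul_of_pos_right _ (by positivity)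
    have h4 : ∑ s ∈ range (l + 1), (R + 1) * (2 * (l - s + 1) ^ M.B * K) ^ 3 *
        (4 * φ s + 5 + (2 * l + 1) + 2) ≤ 64 * K ^ 3 * T := by
      rw [hT, mul_sum]
      refine sum_le_sum fun s _ => ?_
      refine le_of_le_of_eq (Nat.mul_le_mul_left _
        (show _ ≤ 8 * (φ s + l + 1) by omega)) ?_
      rw [pow_mul]; ring
    refine (folner_le hE).trans (h1.trans ?_)
    rw [add_mul 1, one_mul, pow_add, mul_assoc 2, pow_mul]
    refine Nat.mul_le_mul (h3.trans Nat.lt_two_pow_self.le) (h2.trans ?_)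
    refine (Nat.pow_le_pow_left (by norm_num) _).trans (Nat.pow_le_pow_right (by norm_num) ?_)
    have := Nat.mul_le_mul_left M.F.card h3
    nlinarith

lemma sum_le_of_mul (T : ℕ → ℕ) (X n : ℕ) (h : ∀ u < n, T u * ((u + 1) * (u + 2)) ≤ X) :
    ∑ u ∈ range n, T u ≤ X := by
  have key : ∀ m ≤ n, (m + 1) * ∑ u ∈ range m, T u ≤ m * X := by
    intro m
    induction m with
    | zero => simp
    | succ m ih =>
      intro hm
      have h1 := Nat.mul_le_mul_left (m + 2) (ih (by omega))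
      have h2 := h m (by omega)
      rw [sum_range_succ]
      refine Nat.le_of_mul_le_mul_left (c := m + 1) ?_ (by omega)
      nlinarith
  have := key n le_rfl
  refine Nat.le_of_mul_le_mul_left (c := n + 1) ?_ (by omega)
  nlinarith

lemma exists_poly_le (d : ℕ) {e : ℕ} (he : 0 < e) : ∃ D, ∀ u, (u + 2) ^ d ≤ D * 2 ^ (u / e) := by
  obtain ⟨C, hC⟩ := (tendsto_pow_const_div_const_pow_of_one_lt d (r := 2) (by norm_num)).bddAbove_range
  refine ⟨(e + 1) ^ d * (2 * ⌈C⌉₊), fun u => ?_⟩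
  have h1 : u + 2 ≤ (e + 1) * (u / e + 1) := by
    have := Nat.lt_mul_div_succ u he
    nlinarith [Nat.zero_le (u / e)]
  have h2 := (hC ⟨u / e + 1, rfl⟩).trans (Nat.le_ceil C)
  rw [div_le_iff₀ (by positivity)] at h2
  have h3 : (u / e + 1) ^ d ≤ ⌈C⌉₊ * 2 ^ (u / e + 1) := by exact_mod_cast h2
  refine (Nat.pow_le_pow_left h1 d).trans ?_
  rw [mul_pow, mul_assoc]
  refine Nat.mul_le_mul_left _ (h3.trans_eq ?_)
  ring

lemma witness_log {g : ℕ → ℕ} (hg : LowerSemicomputable g) : ∃ F : (ℕ × ℕ) × ℕ → ℕ, Primrec F ∧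
    ∀ s m, m ≤ Nat.log 2 (g (2 ^ s)) / 2 ^ s ↔ ∃ w, F ((s, m), w) ≠ 0 := by
  obtain ⟨F, hF, h⟩ := exists_witness hg
  have h1 : Primrec fun p : (ℕ × ℕ) × ℕ => 2 ^ p.1.1 :=
    pr_pow.comp (Primrec.const 2) (Primrec.fst.comp Primrec.fst)
  refine ⟨fun p => if p.1.2 = 0 then 1 else F ((2 ^ p.1.1, 2 ^ (p.1.2 * 2 ^ p.1.1)), p.2),
    Primrec.ite (Primrec.eq.comp (Primrec.snd.comp Primrec.fst) (Primrec.const 0)) (Primrec.const 1)
      (hF.comp ((h1.pair (pr_pow.comp (Primrec.const 2)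
        (Primrec.nat_mul.comp (Primrec.snd.comp Primrec.fst) h1))).pair Primrec.snd)),
    fun s m => ?_⟩
  by_cases hm : m = 0
  · simp [hm]
  · simp only [hm, if_false, ← h]
    rw [Nat.le_div_iff_mul_le (by positivity)]
    by_cases h0 : g (2 ^ s) = 0
    · simp [h0, hm]
    · exact Nat.le_log_iff_pow_le (by norm_num) h0

theorem realise_regular {f g : ℕ → ℕ} (hf : Monotone f) (h2 : ∃ n, 2 ≤ f n) {c : ℕ} (hc : 0 < c)
    (hreg : ∀ n, 1 ≤ n → f n ^ (2 * c) ≤ f (c * n)) (hm : Monotone g) (hg : LowerSemicomputable g)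
    (hfg : SameGrowth f g) : IsSelfSimilarFolnerType f := by
  obtain ⟨F, hF, hφ⟩ := witness_log hg
  obtain ⟨G, ⟨X, hX, H, S, a1, a2, a3, a4⟩, hlow, D, d, c0, hc0, hup⟩ := exists_group hF hφ
  have hgG : Preceq g G := by
    refine ⟨64, by norm_num, fun n hn => ?_⟩
    have h1 := Nat.lt_pow_succ_log_self (b := 2) (by norm_num) n
    have h2 := Nat.pow_log_le_self 2 (show n ≠ 0 by omega)
    have h3 := hlow (Nat.log 2 n + 1) (64 * n) (by rw [pow_succ]; omega)
    have h4 := Nat.lt_pow_succ_log_self (b := 2) (by norm_num) (g (2 ^ (Nat.log 2 n + 1)))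
    have h5 := Nat.lt_mul_div_succ (Nat.log 2 (g (2 ^ (Nat.log 2 n + 1))))
      (show 0 < 2 ^ (Nat.log 2 n + 1) by positivity)
    have h6 := (hm h1.le).trans (h4.le.trans ((Nat.pow_le_pow_right (by norm_num)
      (Nat.succ_le_of_lt (h5.trans_eq (mul_comm _ _)))).trans h3))
    omega
  suffices h : Preceq G f from
    ⟨X, hX, H, S, a1, a2, a3, (hfg.1.trans hgG).trans a4.1, a4.2.trans h⟩
  obtain ⟨C, hC, hgf⟩ := hfg.2
  obtain ⟨n0, hn0⟩ := h2
  let l : ℕ → ℕ := fun n => Nat.log 2 (f n)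
  have hl : Monotone l := fun a b h => Nat.log_mono_right (hf h)
  have hl1 : ∀ n, n0 ≤ n → 1 ≤ l n := fun n hn =>
    Nat.le_log_of_pow_le (by norm_num) (hn0.trans (hf hn))
  have r1 : ∀ n, 1 ≤ n → 2 * c * l n ≤ l (c * n) := by
    intro n hn
    by_cases h0 : f n = 0
    · simp [l, h0]
    · refine Nat.le_log_of_pow_le (by norm_num) (le_trans ?_ (hreg n hn))
      rw [mul_comm, pow_mul]
      exact Nat.pow_le_pow_left (Nat.pow_log_le_self 2 h0) _
  have hc2 : 2 ≤ c := by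
    by_contra h
    obtain rfl : c = 1 := by omega
    have := r1 (n0 + 1) (by omega)
    have := hl1 (n0 + 1) (by omega)
    simp only [one_mul] at *
    omega
  obtain ⟨e, he, r2⟩ : ∃ e, 0 < e ∧ ∀ n, 1 ≤ n → 2 ^ (e + 1) * l n ≤ l (2 ^ e * n) := by
    refine ⟨Nat.log 2 (c * c) + 1, by omega, fun n hn => ?_⟩
    have h1 := Nat.lt_pow_succ_log_self (b := 2) (by norm_num) (c * c)
    have h2 := Nat.pow_log_le_self 2 (show c * c ≠ 0 by positivity)
    have h3 := (Nat.mul_le_mul_left (2 * c) (r1 n hn)).trans (r1 (c * n) (Nat.mul_pos hc hn))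
    refine le_trans ?_ (h3.trans (hl ?_))
    · rw [← mul_assoc]
      exact Nat.mul_le_mul_right _ (by rw [pow_succ, pow_succ]; nlinarith)
    · rw [← mul_assoc]
      exact Nat.mul_le_mul_right _ h1.le
  have r3 : ∀ k n, 1 ≤ n → 2 ^ ((e + 1) * k) * l n ≤ l (2 ^ (e * k) * n) := by
    intro k n hn
    induction k with
    | zero => simp
    | succ k ih =>
      have := (Nat.mul_le_mul_left (2 ^ (e + 1)) ih).trans (r2 _ (Nat.mul_pos (by positivity) hn))
      refine le_of_eq_of_le (by ring) (this.trans_eq (congrArg l (by ring)))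
  have r4 : ∀ u n, 1 ≤ n → 2 ^ u * 2 ^ (u / e) * l n ≤ 2 ^ e * l (2 ^ u * n) := by
    intro u n hn
    have h1 := Nat.lt_mul_div_succ u he
    have h2 := Nat.mul_div_le u e
    have h3 := (r3 (u / e) n hn).trans
      (hl (Nat.mul_le_mul_right n (Nat.pow_le_pow_right (by norm_num) h2)))
    refine le_trans ?_ (Nat.mul_le_mul_left _ h3)
    rw [← mul_assoc, ← pow_add, ← pow_add]
    exact Nat.mul_le_mul_right _ (Nat.pow_le_pow_right (by norm_num) (by nlinarith))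
  obtain ⟨D1, hD1⟩ := exists_poly_le (d + 3) he
  let m0 := (n0 + 1) * C
  have hm0 : n0 + 1 ≤ m0 := Nat.le_mul_of_pos_right _ hC
  have r5 : ∀ s, 2 ^ s * (Nat.log 2 (g (2 ^ s)) / 2 ^ s) ≤ (C + 2) * l (2 ^ s * m0) := by
    intro s
    have h1 := hgf (2 ^ s) Nat.one_le_two_pow
    have h2 := Nat.lt_pow_succ_log_self (b := 2) (by norm_num) (f (C * 2 ^ s))
    have h3 : g (2 ^ s) ≤ 2 ^ (C + (l (C * 2 ^ s) + 1)) := by
      rw [pow_add]; exact h1.trans (Nat.mul_le_mul Nat.lt_two_pow_self.le h2.le)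
    have h4 := (Nat.log_mono_right (b := 2) h3).trans_eq (Nat.log_pow (by norm_num) _)
    have h5 := hl (show C * 2 ^ s ≤ 2 ^ s * m0 by
      rw [mul_comm]; exact Nat.mul_le_mul_left _ (Nat.le_mul_of_pos_left _ (by omega)))
    have h6 := hl1 (2 ^ s * m0) ((Nat.le_succ _).trans
      (hm0.trans (Nat.le_mul_of_pos_left _ (by positivity))))
    have h7 := Nat.mul_div_le (Nat.log 2 (g (2 ^ s))) (2 ^ s)
    nlinarith
  let D3 := D * (2 * D1 * 2 ^ e * (C + 3))
  refine ⟨2 ^ (e * D3) * c0 * m0, Nat.mul_pos (by positivity) (by omega), fun n hn => ?_⟩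
  have b1 := Nat.lt_pow_succ_log_self (b := 2) (by norm_num) (c0 * n)
  have b2 := Nat.pow_log_le_self 2 (show c0 * n ≠ 0 by positivity)
  have b3 := hup n
  set lam := Nat.log 2 (c0 * n) with hlam
  rw [← sum_range_reflect] at b3
  have b4 := sum_le_of_mul (fun u => (c0 * n + 1) * (lam - (lam + 1 - 1 - u) + 1) ^ d *
      (Nat.log 2 (g (2 ^ (lam + 1 - 1 - u))) / 2 ^ (lam + 1 - 1 - u) + lam + 1))
      (2 * D1 * 2 ^ e * (C + 3) * l (2 ^ lam * m0)) (lam + 1) (by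
    intro u hu
    obtain ⟨s, hs⟩ : ∃ s, lam = u + s := ⟨lam - u, by omega⟩
    rw [show lam + 1 - 1 - u = s by omega, show lam - s = u by omega]
    have k1 := r5 s
    generalize Nat.log 2 (g (2 ^ s)) / 2 ^ s = p at *
    have k2 : (u + 1) ^ d * ((u + 1) * (u + 2)) ≤ (u + 2) ^ (d + 2) := by
      rw [pow_add, pow_two]; gcongr <;> omega
    have k3 : (u + 2) ^ (d + 2) ≤ D1 * 2 ^ (u / e) :=
      (Nat.pow_le_pow_right (by omega) (by omega)).trans (hD1 u)
    have k4 : (u + 2) ^ (d + 2) * (lam + 1) ≤ D1 * 2 ^ (lam / e) := by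
      refine le_trans ?_ (hD1 lam)
      rw [pow_succ _ (d + 2)]; gcongr <;> omega
    have k5 := r4 u (2 ^ s * m0) (Nat.mul_pos (by positivity) (by omega))
    have k6 := (Nat.le_mul_of_pos_right _ (hl1 m0 (by omega))).trans (r4 lam m0 (by omega))
    rw [← mul_assoc (2 ^ u), ← pow_add 2 u s, ← hs] at k5
    have k7 : 2 ^ lam = 2 ^ u * 2 ^ s := by rw [hs, pow_add]
    calc (c0 * n + 1) * (u + 1) ^ d * (p + lam + 1) * ((u + 1) * (u + 2))
        = (c0 * n + 1) * (p + lam + 1) * ((u + 1) ^ d * ((u + 1) * (u + 2))) := by ring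
      _ ≤ 2 ^ (lam + 1) * (p + lam + 1) * (u + 2) ^ (d + 2) := by gcongr; exact b1
      _ = 2 * 2 ^ u * (2 ^ s * p) * (u + 2) ^ (d + 2) +
          2 * 2 ^ lam * ((u + 2) ^ (d + 2) * (lam + 1)) := by rw [pow_succ 2 lam, k7]; ring
      _ ≤ 2 * 2 ^ u * ((C + 2) * l (2 ^ s * m0)) * (D1 * 2 ^ (u / e)) +
          2 * 2 ^ lam * (D1 * 2 ^ (lam / e)) := by gcongr
      _ = 2 * D1 * (C + 2) * (2 ^ u * 2 ^ (u / e) * l (2 ^ s * m0)) +
          2 * D1 * (2 ^ lam * 2 ^ (lam / e)) := by ring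
      _ ≤ 2 * D1 * (C + 2) * (2 ^ e * l (2 ^ lam * m0)) +
          2 * D1 * (2 ^ e * l (2 ^ lam * m0)) := by gcongr
      _ = _ := by ring)
  have b5 := r3 D3 (2 ^ lam * m0) (Nat.mul_pos (by positivity) (by omega))
  have b6 : D3 ≤ 2 ^ ((e + 1) * D3) :=
    Nat.lt_two_pow_self.le.trans (Nat.pow_le_pow_right (by norm_num) (by nlinarith))
  have b7 : 2 ^ (e * D3) * (2 ^ lam * m0) ≤ 2 ^ (e * D3) * c0 * m0 * n := by
    calc _ ≤ 2 ^ (e * D3) * (c0 * n * m0) := by gcongr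
      _ = _ := by ring
  have b8 : n0 ≤ 2 ^ (e * D3) * c0 * m0 * n := by
    refine le_trans ?_ b7
    exact (Nat.le_succ _).trans (hm0.trans ((Nat.le_mul_of_pos_left _ (by positivity)).trans
      (Nat.le_mul_of_pos_left _ (by positivity))))
  refine b3.trans (le_trans ?_ (Nat.le_mul_of_pos_left _ (Nat.mul_pos (by positivity) (by omega))))
  refine le_trans (Nat.pow_le_pow_right (by norm_num) ?_)
    (Nat.pow_log_le_self 2 (by have := hn0.trans (hf b8); omega))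
  refine (Nat.mul_le_mul_left D b4).trans (le_trans ?_ (b5.trans (hl b7)))
  rw [← mul_assoc]
  exact Nat.mul_le_mul_right _ b6

theorem realise_eventually {f g : ℕ → ℕ} (hf : Monotone f) (h2 : ∃ n, 2 ≤ f n) {c N : ℕ}
    (hc : 0 < c) (hreg : ∀ n, N ≤ n → f n ^ (2 * c) ≤ f (c * n)) (hm : Monotone g)
    (hg : LowerSemicomputable g) (hfg : SameGrowth f g) : IsSelfSimilarFolnerType f := by
  have hle : ∀ n, n ≤ (N + 1) * n := fun n => Nat.le_mul_of_pos_left _ (by omega)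
  have h1 : Preceq f fun n => f ((N + 1) * n) :=
    ⟨1, one_pos, fun n _ => by simpa using hf (hle n)⟩
  have h3 : Preceq (fun n => f ((N + 1) * n)) f :=
    ⟨N + 1, by omega, fun n _ => hle _⟩
  obtain ⟨X, hX, H, S, a1, a2, a3, a4⟩ := realise_regular (f := fun n => f ((N + 1) * n))
    (fun a b h => hf (Nat.mul_le_mul_left _ h)) (h2.imp fun n h => h.trans (hf (hle n))) hc
    (fun n hn => by rw [mul_left_comm]; exact hreg _ (by nlinarith)) hm hg
    ⟨h3.trans hfg.1, hfg.2.trans h1⟩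
  exact ⟨X, hX, H, S, a1, a2, a3, h1.trans a4.1, a4.2.trans h3⟩

theorem realise_polylog {l : ℕ → ℕ} (hm : Monotone l) (hl : LowerSemicomputable l) :
    ∃ (G : ℕ → ℕ) (d : ℕ), IsSelfSimilarFolnerType G ∧ Preceq (fun n => 2 ^ (n * (l n + 1))) G ∧
      Preceq G fun n => 2 ^ (n * (l n + 1) * (Nat.log 2 n + 1) ^ d) := by
  obtain ⟨F, hF, h⟩ := exists_witness hl
  obtain ⟨G, a1, hlow, D, d, c, hc, hup⟩ := exists_group (φ := fun s => l (2 ^ s))
    (F := fun p => F ((2 ^ p.1.1, p.1.2), p.2))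
    (hF.comp (((pr_pow.comp (Primrec.const 2) (Primrec.fst.comp Primrec.fst)).pair
      (Primrec.snd.comp Primrec.fst)).pair Primrec.snd)) fun s m => h _ _
  refine ⟨G, d + 2, a1, ⟨64, by norm_num, fun n hn => ?_⟩,
    ⟨(2 * D + 1) * c, by positivity, fun n hn => ?_⟩⟩
  · have h1 := Nat.lt_pow_succ_log_self (b := 2) (by norm_num) n
    have h2 := Nat.pow_log_le_self 2 (show n ≠ 0 by omega)
    have h3 := hlow (Nat.log 2 n + 1) (64 * n) (by rw [pow_succ]; omega)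
    have h4 := hm h1.le
    have h5 : 2 ^ (n * (l n + 1)) ≤ G (64 * n) :=
      (Nat.pow_le_pow_right (by norm_num) (by rw [mul_comm]; gcongr)).trans h3
    dsimp only
    omega
  · refine (hup n).trans (le_trans (Nat.pow_le_pow_right (by norm_num) ?_)
      (Nat.le_mul_of_pos_left _ (by positivity)))
    have b2 := Nat.pow_log_le_self 2 (show c * n ≠ 0 by positivity)
    have b3 : c * n ≤ (2 * D + 1) * c * n := by
      rw [mul_assoc]; exact Nat.le_mul_of_pos_left _ (by omega)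
    have b4 := Nat.log_mono_right (b := 2) b3
    have b5 := hm b3
    have b6 : 1 ≤ c * n := Nat.mul_pos hc hn
    set lam := Nat.log 2 (c * n)
    have b7 : ∑ s ∈ range (lam + 1), (c * n + 1) * (lam - s + 1) ^ d * (l (2 ^ s) + lam + 1) ≤
        ∑ _s ∈ range (lam + 1), (2 * (c * n)) * (lam + 1) ^ d * ((l (c * n) + 1) * (lam + 1)) := by
      refine sum_le_sum fun s hs => ?_
      have := hm ((Nat.pow_le_pow_right (by norm_num)
        (Nat.lt_succ_iff.1 (mem_range.1 hs))).trans b2)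
      gcongr
      · omega
      · omega
      · nlinarith
    rw [sum_const, card_range, smul_eq_mul] at b7
    calc _ ≤ D * ((lam + 1) * (2 * (c * n) * (lam + 1) ^ d * ((l (c * n) + 1) * (lam + 1)))) :=
          Nat.mul_le_mul_left _ b7
      _ = 2 * D * c * n * (l (c * n) + 1) * (lam + 1) ^ (d + 2) := by ring
      _ ≤ _ := by gcongr; omega

end Pool.Agent.MP_e6aac2_al.H99

end
end

-- part MP_e6aac2_al.H22.Final
section

/-!
The machine that doubles a counter, guesses a number, checks it and counts it down.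
-/

noncomputable section

namespace Pool.Agent.MP_e6aac2_al.H22

open Function
open H99 hiding univ sd e0

lemma XM.pot_of_step {Md St : Type} (M : XM Md St) (k : Bool) (q : St → Cfg → ℕ)
    (h : ∀ md v, (∀ r, M.B ≤ r → v r = 0) → (M.ins md).okC v →
      q (M.tgt md) ((M.ins md).stp v) + (if M.fl k md then 1 else 0) ≤ q (M.src md) v)
    (L : List Md) : ∀ s v, (∀ r, M.B ≤ r → v r = 0) → M.RunV s v L → L.countP (M.fl k) ≤ q s v := by
  induction L with
  | nil => intros; exact Nat.zero_le _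
  | cons md L ih =>
    rintro s v hv ⟨rfl, h1, h2⟩
    rw [List.countP_cons]
    refine le_trans (Nat.add_le_add_right (ih _ _ (fun r hr => ?_) h2) _) (h md v hv h1)
    have := M.reg_lt md
    cases e : M.ins md <;> simp only [e, Ins.reg, Ins.stp] at this ⊢
    · rw [update_of_ne (by omega), hv r hr]
    · rw [update_of_ne (by omega), hv r hr]
    · exact hv r hr
    · exact hv r hr

inductive Ps
  | S0 | S1 | S2 | S3 | S4 | S5 | S6 | A | Z (j : ℕ) | C | C1 | C2 | V (c : List Prog) | D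

def nx (P : Prog) (B : ℕ) : Ps → Bool → Ins × Ps
  | .S0, true => (.dec 3, .S1)
  | .S0, false => (.zero 5, .A)
  | .S1, _ => (.dec 0, .S2)
  | .S2, _ => (.inc 4, .S3)
  | .S3, _ => (.inc 4, .S4)
  | .S4, true => (.dec 3, .S1)
  | .S4, false => (.zero 3, .S5)
  | .S5, true => (.dec 4, .S6)
  | .S5, false => (.zero 4, .S0)
  | .S6, _ => (.inc 3, .S5)
  | .A, true => (.inc 5, .A)
  | .A, false => (.nop, .Z 0)
  | .Z j, _ => if B ≤ j then (.nop, .C) else if j = 0 ∨ j = 3 ∨ j = 5 then (.nop, .Z (j + 1))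
      else (.zero j, .Z (j + 1))
  | .C, true => (.dec 5, .C1)
  | .C, false => (.zero 5, .V [P])
  | .C1, _ => (.inc 1, .C2)
  | .C2, _ => (.inc 6, .C)
  | .V [], _ => (.dec 1, .D)
  | .V (.skip :: r), _ => (.nop, .V r)
  | .V (.inc k :: r), _ => (.inc (rho k), .V r)
  | .V (.seq p q :: r), _ => (.nop, .V (p :: q :: r))
  | .V (.whl k p :: r), true => (.dec (rho k), .V (p :: .whl k p :: r))
  | .V (.whl k _ :: r), false => (.zero (rho k), .V r)
  | .D, _ => (.zero 2, .V [])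

def two : Ps → Prop
  | .S0 | .S4 | .S5 | .A | .C | .V (.whl _ _ :: _) => True
  | _ => False

def zn : Ps → ℕ
  | .S0 | .S1 | .S2 | .S3 | .S4 | .S5 | .S6 => 0
  | .A => 1
  | _ => 2

def mvb : Ps → Bool → Bool
  | .S5, false => true
  | _, _ => false

def acb : Ps → Bool
  | .D => true
  | _ => false

lemma mvb_iff {s : Ps} {b : Bool} (h : mvb s b = true) : s = .S5 ∧ b = false := by
  cases s <;> cases b <;> simp_all [mvb]

lemma acb_iff {s : Ps} (h : acb s = true) : s = .D := by cases s <;> simp_all [acb]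

lemma conts_cl (P : Prog) (B : ℕ) (b : Bool) (p : Prog) (r : List Prog) {c : List Prog}
    (hc : c ∈ conts p r) : (nx P B (.V c) b).1.reg < p.bnd + 2 ∧
      ∃ c', (nx P B (.V c) b).2 = .V c' ∧ (c' ∈ conts p r ∨ c' = r) := by
  obtain ⟨h1, c', h2, h3⟩ := conts_closed P B b p r c hc
  rcases c with _ | ⟨_ | _ | _ | _, _⟩ <;> cases b <;> simp only [nxt, reduceCtorEq] at h1 h2 <;>
    exact ⟨h1, c', congrArg _ (Ph.V.inj h2), h3⟩

def sts (P : Prog) (B : ℕ) : List Ps :=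
  [.S0, .S1, .S2, .S3, .S4, .S5, .S6, .A, .C, .C1, .C2, .V [], .D] ++ (conts P []).map .V ++
    (List.range (B + 1)).map .Z

variable {P : Prog} {B : ℕ}

lemma sts_cl (hB : P.bnd + 2 ≤ B ∧ 7 ≤ B) (b : Bool) :
    ∀ s ∈ sts P B, (nx P B s b).1.reg < B ∧ (nx P B s b).2 ∈ sts P B := by
  intro s hs
  simp only [sts, List.mem_append, List.mem_map, List.mem_range] at hs
  rcases hs with (hs | ⟨c, hc, rfl⟩) | ⟨j, hj, rfl⟩
  · have := self_mem_conts P []
    simp only [List.mem_cons, List.not_mem_nil, or_false] at hs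
    rcases hs with rfl | rfl | rfl | rfl | rfl | rfl | rfl | rfl | rfl | rfl | rfl | rfl | rfl <;>
      cases b <;> simp [nx, Ins.reg, sts, this] <;> omega
  · obtain ⟨h1, c', h2, h3⟩ := conts_cl P B b P [] hc
    refine ⟨by omega, ?_⟩
    rw [h2]
    rcases h3 with h3 | rfl <;> simp [sts, *]
  · simp only [nx]
    split_ifs <;> simp [Ins.reg, sts] <;> omega

abbrev Sta (P : Prog) (B : ℕ) := {s // s ∈ sts P B}

abbrev Mo (P : Prog) (B : ℕ) := {q : Sta P B × Bool // q.2 = true ∨ two q.1.1}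

instance (P : Prog) (B : ℕ) : Finite (Sta P B) := List.finite_toSet (sts P B)

lemma zn_mono (s : Ps) (b : Bool) : zn s ≤ zn (nx P B s b).2 := by
  cases s with
  | V c => rcases c with _ | ⟨_ | _ | _ | _, _⟩ <;> cases b <;> simp [nx, zn]
  | Z j => simp only [nx]; split_ifs <;> simp [zn]
  | _ => cases b <;> simp [nx, zn]

def xm (hB : P.bnd + 2 ≤ B ∧ 7 ≤ B) : XM (Mo P B) (Sta P B) where
  B := B
  ins md := (nx P B md.1.1 md.1.2).1
  act md := acb md.1.1
  src md := md.1.1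
  tgt md := ⟨_, (sts_cl hB md.1.2 _ md.1.1.2).2⟩
  s0 := ⟨.S0, by simp [sts]⟩
  reg_lt md := (sts_cl hB md.1.2 _ md.1.1.2).1
  mv md := mvb md.1.1 md.1.2
  zone s := zn s
  z_le s := by rcases s with ⟨s, _⟩; cases s <;> simp [zn]
  z_mono md := zn_mono _ _
  z_mv md h := by obtain ⟨h1, h2⟩ := mvb_iff h; simp [h1, h2, nx, zn]
  z_act md h := by simp [acb_iff h, zn]

def tst : Prog → ℕ → Prop
  | .seq p q, k => tst p k ∨ tst q k
  | .whl j _, k => k = rho j
  | _, _ => False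

def nd (B : ℕ) : Ps → ℕ → Prop
  | .Z j, k => (j ≤ k ∧ k < B) ∨ k = 0 ∨ k = 3 ∨ k = 5
  | .C, k | .C1, k | .C2, k => k = 0 ∨ k = 3 ∨ k = 5
  | .V c, k => ∃ p ∈ c, tst p k
  | .D, _ => False
  | _, k => k < B

lemma nd_step (h0 : tst P 0) (h3 : tst P 3) (s : Ps) (b : Bool) (k : ℕ) (h : nd B s k) :
    nd B (nx P B s b).2 k ∨ (nx P B s b).1 = .zero k := by
  cases s with
  | V c => rcases c with _ | ⟨_ | _ | _ | _, _⟩ <;> cases b <;> simp [nx, nd, tst, eq_comm (b := k)] at h ⊢ <;>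
      first | exact h.symm | tauto
  | Z j => simp only [nx]; split_ifs <;> simp [nd] at h ⊢ <;> omega
  | C => rcases h with rfl | rfl | rfl <;> cases b <;> simp [nx, nd, h0, h3]
  | _ => cases b <;> simp_all [nx, nd]

def sz (κ W : ℕ) : ℕ := if W = 0 then 1 else Nat.size (κ / W)

def off : Ps → ℕ
  | .S1 | .S3 | .S6 => 1
  | .S2 => 2
  | _ => 0

def wt : Ps → Cfg → ℕ
  | .S1, v | .S2, v => 2 * v 3 + v 4 + 2
  | .S3, v => 2 * v 3 + v 4 + 1
  | .S5, v => v 3 + v 4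
  | .S6, v => v 3 + v 4 + 1
  | _, v => 2 * v 3 + v 4

def p1 : Ps → Cfg → ℕ
  | .S0, v => Nat.size ((v 0 + v 3 + v 4) / (2 * v 3 + v 4))
  | s, v => if zn s = 0 then sz (v 0 + v 3 + v 4 + off s) (wt s v) else 0

lemma size_half {κ s : ℕ} (h : s ≤ κ) : Nat.size (κ / (2 * s)) + 1 ≤ sz κ s := by
  unfold sz
  split_ifs with h0
  · simp [h0]
  · rw [mul_comm, ← Nat.div_div_eq_div_mul]
    have h1 : 0 < κ / s := Nat.div_pos h (by omega)
    obtain ⟨m, hm⟩ := Nat.exists_eq_succ_of_ne_zero (Nat.size_pos.2 h1).ne'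
    have := Nat.lt_size_self (κ / s)
    rw [hm] at this ⊢
    exact Nat.succ_le_succ (Nat.size_le.2 (by rw [pow_succ] at this; omega))

lemma p1_step (s : Ps) (b : Bool) (v : Cfg) (h : (nx P B s b).1.okC v) :
    p1 (nx P B s b).2 ((nx P B s b).1.stp v) + (if mvb s b then 1 else 0) ≤ p1 s v := by
  cases s with
  | V c => rcases c with _ | ⟨_ | _ | _ | _, _⟩ <;> cases b <;> simp [nx, p1, zn, mvb]
  | Z j => simp only [nx]; split_ifs <;> simp_all [p1, zn, mvb]
  | S0 =>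
    cases b <;> simp [nx, p1, zn, mvb, off, wt, Ins.stp, Ins.okC, sz] at h ⊢
    exact le_of_eq (by congr 2 <;> omega)
  | S5 =>
    cases b <;> simp [nx, p1, zn, mvb, off, wt, Ins.stp, Ins.okC] at h ⊢
    · rw [h]; exact size_half (by omega)
    · exact le_of_eq (by congr 1 <;> omega)
  | _ =>
    cases b <;> simp [nx, p1, zn, mvb, off, wt, Ins.stp, Ins.okC] at h ⊢ <;>
      exact le_of_eq (by congr 1 <;> omega)

lemma size_bd {κ W a : ℕ} (h1 : a ≤ W) (h2 : a ≤ κ) :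
    2 ^ Nat.size (κ / W) * (a + 1) ≤ 4 * (κ + 1) := by
  rcases Nat.eq_zero_or_pos (κ / W) with h | h
  · rw [h]; simp; omega
  · obtain ⟨m, hm⟩ := Nat.exists_eq_succ_of_ne_zero (Nat.size_pos.2 h).ne'
    have a1 : 2 ^ m ≤ κ / W := Nat.lt_size.1 (by omega)
    have a2 := Nat.div_mul_le_self κ W
    have a3 : 0 < W := Nat.pos_of_ne_zero (by rintro rfl; simp at h)
    rw [hm, pow_succ]
    nlinarith

lemma p1_bd (s : Ps) (v : Cfg) (hs : zn s = 0) :
    2 ^ p1 s v * (v 3 + v 4 + 1) ≤ 4 * (v 0 + v 3 + v 4 + off s + 1) := by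
  have : 2 ^ sz (v 0 + v 3 + v 4 + off s) (wt s v) * (v 3 + v 4 + 1) ≤
      4 * (v 0 + v 3 + v 4 + off s + 1) := by
    have h : v 3 + v 4 ≤ wt s v := by cases s <;> simp only [wt] <;> omega
    unfold sz
    split_ifs
    · omega
    · exact size_bd h (by omega)
  cases s with
  | S0 => exact size_bd (by omega) (by omega)
  | _ => simpa [p1, hs] using this

def gd (a : ℕ) (v : Cfg) : Prop := ∀ i, i ≠ 0 → i ≠ 3 → i ≠ a → v i = 0

def cp (v : Cfg) (a : ℕ) : Cfg := update (update (view v) 4 (v 6 + v 5 + a)) 3 0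

open Classical in
def p2 (P : Prog) (B : ℕ) (ψ : ℕ → ℕ) : Ps → Cfg → ℕ
  | .A, v => if gd 5 v then ψ (v 0 + v 3) else 0
  | .Z j, v => if (∀ i, j ≤ i → i < B → i ≠ 0 → i ≠ 3 → i ≠ 5 → v i = 0) ∧ ∃ w, Ev P (cp v 0) w
      then v 1 + v 5 else 0
  | .C, v => if ∃ w, Ev P (cp v 0) w then v 1 + v 5 else 0
  | .C1, v => if ∃ w, Ev P (cp v 1) w then v 1 + v 5 + 1 else 0
  | .C2, v => if ∃ w, Ev P (cp v 1) w then v 1 + v 5 else 0
  | .V c, v => if ∃ w, EvL c (view v) w then v 1 else 0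
  | .D, v => v 1 + 1
  | s, v => if gd 4 v then ψ (v 0 + v 3 + v 4 + off s) else 0

lemma ite_le {p q : Prop} {_ : Decidable p} {_ : Decidable q} {a b : ℕ} (h : p → q ∧ a ≤ b) :
    (if p then a else 0) ≤ if q then b else 0 := by
  split_ifs with h1 h2
  · exact (h h1).2
  · exact absurd (h h1).1 h2
  · exact Nat.zero_le _
  · exact le_rfl

lemma gd_update {a k x : ℕ} {v : Cfg} (hk : k = 0 ∨ k = 3 ∨ k = a) (h : gd a (update v k x)) :
    gd a v := fun i h1 h2 h3 => by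
  rw [← h i h1 h2 h3, update_of_ne (by omega)]

lemma cp_eq {v v' : Cfg} {a a' : ℕ} (h : ∀ i, i ≠ 1 → i ≠ 5 → i ≠ 6 → v i = v' i)
    (h' : v 6 + v 5 + a = v' 6 + v' 5 + a') : cp v a = cp v' a' := by
  funext j
  simp only [cp, update_apply, h', view]
  split_ifs
  · rfl
  · rfl
  · refine h _ (rho_ne1 j).symm ?_ ?_ <;> unfold rho <;> split_ifs <;> omega

lemma p2_step {ψ : ℕ → ℕ} (hP : ∀ u w, (∀ j, j ≠ 0 → j ≠ 1 → j ≠ 4 → u j = 0) → Ev P u w →
    u 4 ≤ ψ (u 0 + u 1)) (s : Ps) (b : Bool) (v : Cfg) (hv : ∀ r, B ≤ r → v r = 0)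
    (h : (nx P B s b).1.okC v) : p2 P B ψ (nx P B s b).2 ((nx P B s b).1.stp v) +
      (if acb s then 1 else 0) ≤ p2 P B ψ s v := by
  cases s with
  | V c =>
    rcases c with _ | ⟨_ | k | ⟨p, q⟩ | ⟨k, p⟩, r⟩
    · have : ∃ w, EvL [] (view v) w := ⟨_, .nil _⟩
      simp [nx, p2, Ins.stp, Ins.okC, this, acb] at h ⊢
      omega
    · exact ite_le fun ⟨w, h⟩ => ⟨⟨w, .cons (.skip _) h⟩, le_rfl⟩
    · exact ite_le fun ⟨w, h⟩ => ⟨⟨w, .cons (.inc _ _) (view_update v k _ ▸ h)⟩,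
        (update_of_ne (rho_ne1 k) _ _).le⟩
    · refine ite_le fun ⟨w, h⟩ => ⟨⟨w, ?_⟩, le_rfl⟩
      cases h with
      | cons h1 h2 =>
        cases h2 with
        | cons h2 h3 => exact .cons (.seq h1 h2) h3
    · cases b
      · exact ite_le fun ⟨w, h'⟩ => ⟨⟨w, .cons (.whl0 _ h) h'⟩, le_rfl⟩
      · refine ite_le fun ⟨w, h'⟩ => ⟨⟨w, ?_⟩, (update_of_ne (rho_ne1 k) _ _).le⟩
        cases h' with
        | cons h1 h2 =>
          cases h2 with
          | cons h2 h3 => exact .cons (.whl1 h (view_update v k _ ▸ h1) h2) h3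
  | Z j =>
    simp only [nx] at h ⊢
    split_ifs at h ⊢ with a1 a2 <;> try simp [acb] at *
    · exact ite_le fun h => ⟨⟨fun i _ _ => by omega, h⟩, le_rfl⟩
    · exact ite_le fun h => ⟨⟨fun i _ _ _ _ _ => h.1 i (by omega) ‹_› ‹_› ‹_› ‹_›, h.2⟩, le_rfl⟩
    · refine ite_le fun h' => ⟨⟨fun i hi _ _ _ _ => ?_, h'.2⟩, le_rfl⟩
      rcases hi.eq_or_lt with rfl | hi
      · exact h
      · exact h'.1 i hi ‹_› ‹_› ‹_› ‹_›
  | D => exact Nat.add_le_add_right (by simp only [nx, p2]; split_ifs <;> simp [Ins.stp]) 1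
  | A =>
    cases b
    · refine ite_le fun ⟨h1, w, h2⟩ => ?_
      have h3 : gd 5 v := fun i _ _ _ => (lt_or_ge i B).elim
        (fun a => h1 i (Nat.zero_le _) a ‹_› ‹_› ‹_›) (hv i)
      have := hP _ w (fun j a1 a2 a3 => ?_) h2
      · refine ⟨h3, ?_⟩
        simpa [nx, cp, view, rho, Ins.stp, h3 6, h3 1] using this
      · simp only [cp, update_apply, a3, if_false, view, rho, a1]
        split_ifs
        · rfl
        · exact h3 _ (by omega) (by omega) (by omega)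
    · exact ite_le fun h => ⟨gd_update (by simp) h, by simp [nx, Ins.stp]⟩
  | C =>
    cases b
    · refine ite_le fun ⟨w, h'⟩ => ⟨?_, Nat.le_add_right _ _⟩
      cases h' with
      | cons h1 h2 =>
        refine ⟨_, h1.cast (funext fun j => ?_) rfl⟩
        simp only [nx, Ins.okC] at h
        simp only [nx, cp, update_apply, view, Ins.stp]
        split_ifs <;> simp [*, rho]
    · simp only [nx, Ins.okC] at h
      exact ite_le fun ⟨w, h'⟩ => ⟨⟨w, h'.cast (cp_eq (fun i _ a _ => update_of_ne a _ _)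
        (by simp [nx, Ins.stp]; omega)) rfl⟩, by simp [nx, Ins.stp]; omega⟩
  | C1 => exact ite_le fun ⟨w, h'⟩ => ⟨⟨w, h'.cast (cp_eq (fun i a _ _ => update_of_ne a _ _)
        (by simp [nx, Ins.stp])) rfl⟩, by simp [nx, Ins.stp]; omega⟩
  | C2 => exact ite_le fun ⟨w, h'⟩ => ⟨⟨w, h'.cast (cp_eq (fun i _ _ a => update_of_ne a _ _)
        (by simp [nx, Ins.stp]; omega)) rfl⟩, by simp [nx, Ins.stp]⟩
  | S0 =>
    cases b <;> simp only [nx, Ins.okC] at h
    · refine ite_le fun h' => ⟨fun i _ _ _ => ?_, ?_⟩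
      · by_cases a : i = 5
        · exact a ▸ h
        · exact h' i ‹_› ‹_› a
      · simp [nx, off, show v 4 = 0 from h' 4 (by simp) (by simp) (by simp), Ins.stp]
    · exact ite_le fun h' => ⟨gd_update (by simp) h', le_of_eq (congrArg ψ
        (by simp [nx, Ins.stp, off]; omega))⟩
  | _ =>
    cases b <;> simp only [nx, Ins.okC] at h <;> first
      | exact le_rfl
      | exact ite_le fun h' => ⟨gd_update (by simp) h', le_of_eq (congrArg ψ
          (by simp [nx, Ins.stp, off]; omega))⟩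

lemma nx_det {s : Ps} (hs : two s) {v : Cfg} (h1 : zn (nx P B s false).2 = zn s)
    (h2 : (nx P B s true).1.okC v) (h3 : (nx P B s false).1.okC v) : False := by
  cases s with
  | V c => rcases c with _ | ⟨_ | _ | _ | _, _⟩ <;> first | exact hs | exact h2 h3
  | _ => first | exact hs | exact h2 h3 | simp [nx, zn] at h1

lemma nice (hB : P.bnd + 2 ≤ B ∧ 7 ≤ B) (h0 : tst P 0) (h3 : tst P 3) {ψ : ℕ → ℕ}
    (hP : ∀ u w, (∀ j, j ≠ 0 → j ≠ 1 → j ≠ 4 → u j = 0) → Ev P u w → u 4 ≤ ψ (u 0 + u 1)) :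
    (xm hB).Nice (fun s => nd B s) fun k s => if k then p1 s else p2 P B ψ s := by
  refine ⟨?_, ?_, ?_, ?_, ?_, fun md => nd_step h0 h3 _ _, fun k s v L => ?_⟩
  · rintro (_ | _) ⟨⟨⟨s, _⟩, b⟩, _⟩ h
    · obtain rfl := acb_iff h
      exact ⟨2, rfl⟩
    · obtain ⟨rfl, rfl⟩ := mvb_iff h
      exact ⟨4, rfl⟩
  · rintro ⟨⟨s, _ | _⟩, a⟩ ⟨⟨s', _ | _⟩, a'⟩ v rfl h1 h2 h3 h4
    · rfl
    · exact (nx_det (by simpa using a) h1 h4 h3).elim
    · exact (nx_det (by simpa using a') h2 h3 h4).elim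
    · rfl
  · rintro ⟨⟨⟨s, _⟩, b⟩, _⟩ ⟨⟨s', b'⟩, _⟩ ⟨⟨s'', b''⟩, _⟩ h rfl rfl
    obtain rfl := acb_iff h
    exact Or.inr rfl
  · rintro ⟨s, _⟩ h k hk
    cases s <;> first | exact hk | exact absurd rfl h
  · rintro ⟨⟨⟨s, _⟩, b⟩, _⟩ h k
    obtain rfl := acb_iff h
    exact id
  · cases k
    · exact (xm hB).pot_of_step false (fun s => p2 P B ψ s)
        (fun md v hv => p2_step hP md.1.1 md.1.2 v hv) L s v
    · exact (xm hB).pot_of_step true (fun s => p1 s) (fun md v _ => p1_step _ _ v) L s v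

inductive RunC (P : Prog) (B : ℕ) : Ps → Cfg → ℕ → ℕ → Prop
  | nil (s : Ps) (v : Cfg) : RunC P B s v 0 0
  | step (s : Ps) (b : Bool) {v v' : Cfg} {m n : ℕ} : (b = true ∨ two s) → (nx P B s b).1.okC v →
      (nx P B s b).1.stp v = v' → RunC P B (nx P B s b).2 v' m n →
        RunC P B s v (m + if mvb s b then 1 else 0) (n + if acb s then 1 else 0)

lemma RunC.run (hB : P.bnd + 2 ≤ B ∧ 7 ≤ B) {s : Ps} {v : Cfg} {m n : ℕ} (h : RunC P B s v m n) :
    ∀ hs : s ∈ sts P B, ∃ L, (xm hB).RunV ⟨s, hs⟩ v L ∧ L.countP (xm hB).mv = m ∧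
      L.countP (xm hB).act = n := by
  induction h with
  | nil => exact fun _ => ⟨[], trivial, rfl, rfl⟩
  | step s b hb h1 h2 _ ih =>
    intro hs
    obtain ⟨L, h5, h6, h7⟩ := ih (sts_cl hB b s hs).2
    exact ⟨⟨(⟨s, hs⟩, b), hb⟩ :: L, ⟨rfl, h1, h2 ▸ h5⟩, by rw [List.countP_cons, h6]; rfl,
      by rw [List.countP_cons, h7]; rfl⟩

def cf (e x s t y z : ℕ) : Cfg := fun i =>
  if i = 0 then e else if i = 1 then x else if i = 3 then s else if i = 4 then t else
    if i = 5 then y else if i = 6 then z else 0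

lemma cf_upd (e x s t y z a : ℕ) : update (cf e x s t y z) 0 a = cf a x s t y z ∧
    update (cf e x s t y z) 1 a = cf e a s t y z ∧ update (cf e x s t y z) 3 a = cf e x a t y z ∧
    update (cf e x s t y z) 4 a = cf e x s a y z ∧ update (cf e x s t y z) 5 a = cf e x s t a z ∧
    update (cf e x s t y z) 6 a = cf e x s t y a := by
  refine ⟨?_, ?_, ?_, ?_, ?_, ?_⟩ <;> funext i <;> simp only [update_apply, cf] <;>
    split_ifs <;> first | rfl | omega

section Runs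

variable {m n : ℕ}

lemma run5 {e : ℕ} (t : ℕ) : ∀ s, RunC P B .S0 (cf e 0 (s + t) 0 0 0) m n →
    RunC P B .S5 (cf e 0 s t 0 0) (m + 1) n := by
  induction t with
  | zero => exact fun s h => .step .S5 false (Or.inr trivial) rfl rfl h
  | succ t ih =>
    exact fun s h => .step .S5 true (Or.inl rfl) t.succ_ne_zero (cf_upd ..).2.2.2.1
      (.step .S6 true (Or.inl rfl) trivial (cf_upd ..).2.2.1 (ih _ (by rwa [add_right_comm])))

lemma run1 {e s t : ℕ} (h : RunC P B .S4 (cf e 0 s (t + 2) 0 0) m n) :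
    RunC P B .S1 (cf (e + 1) 0 s t 0 0) m n :=
  .step .S1 true (Or.inl rfl) e.succ_ne_zero (cf_upd ..).1 (.step .S2 true (Or.inl rfl) trivial
    (cf_upd ..).2.2.2.1 (.step .S3 true (Or.inl rfl) trivial (cf_upd ..).2.2.2.1 h))

lemma run4 {e : ℕ} (s : ℕ) : ∀ t, RunC P B .S5 (cf e 0 0 (t + 2 * s) 0 0) m n →
    RunC P B .S4 (cf (e + s) 0 s t 0 0) m n := by
  induction s with
  | zero => exact fun t h => .step .S4 false (Or.inr trivial) rfl rfl h
  | succ s ih =>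
    exact fun t h => .step .S4 true (Or.inl rfl) s.succ_ne_zero (cf_upd ..).2.2.1
      (run1 (ih _ (by rwa [add_right_comm])))

lemma run0 {e : ℕ} (j : ℕ) : ∀ s e', e' + (s + 1) = e + 2 ^ j * (s + 1) →
    RunC P B .S0 (cf e 0 (2 ^ j * (s + 1)) 0 0 0) m n →
      RunC P B .S0 (cf e' 0 (s + 1) 0 0 0) (m + j) n := by
  induction j with
  | zero =>
    intro s e' h1 h
    rw [pow_zero, one_mul] at h1 h
    rwa [add_right_cancel h1]
  | succ j ih =>
    intro s e' h1 h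
    rw [pow_succ, mul_assoc] at h1 h
    have := Nat.le_mul_of_pos_left (2 * (s + 1)) (Nat.two_pow_pos j)
    obtain ⟨e', rfl⟩ : ∃ a, e' = a + s + 1 := ⟨e' - s - 1, by omega⟩
    refine .step .S0 true (Or.inl rfl) s.succ_ne_zero (cf_upd ..).2.2.1 (run1 (run4 _ _ (run5 _ _ ?_)))
    rw [show 0 + (0 + 2 + 2 * s) = 2 * s + 1 + 1 by omega]
    exact ih _ _ (by rw [← show 2 * (s + 1) = 2 * s + 1 + 1 from rfl]; omega) h

lemma runA {e s : ℕ} (a : ℕ) : ∀ y, RunC P B (.Z 0) (cf e 0 s 0 (y + a) 0) m n →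
    RunC P B .A (cf e 0 s 0 y 0) m n := by
  induction a with
  | zero => exact fun y h => .step .A false (Or.inr trivial) trivial rfl h
  | succ a ih =>
    exact fun y h => .step .A true (Or.inl rfl) trivial (cf_upd ..).2.2.2.2.1
      (ih _ (by rwa [add_right_comm]))

lemma runZ {e s y : ℕ} (h : RunC P B .C (cf e 0 s 0 y 0) m n) (d : ℕ) :
    ∀ j, B ≤ j + d → RunC P B (.Z j) (cf e 0 s 0 y 0) m n := by
  induction d using Nat.strong_induction_on with
  | _ d ih =>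
    intro j hj
    have := @RunC.step P B (.Z j) true (cf e 0 s 0 y 0) (cf e 0 s 0 y 0) m n (Or.inl rfl)
    simp only [nx] at this
    split_ifs at this with a1 a2 <;> try simp [mvb, acb] at *
    · exact this trivial rfl h
    · exact this trivial rfl (ih (d - 1) (by omega) _ (by omega))
    · exact this (by simp [Ins.okC, cf, *]) rfl (ih (d - 1) (by omega) _ (by omega))

lemma runC {e s : ℕ} (y : ℕ) : ∀ x z, RunC P B (.V [P]) (cf e (x + y) s 0 0 (z + y)) m n →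
    RunC P B .C (cf e x s 0 y z) m n := by
  induction y with
  | zero => exact fun x z h => .step .C false (Or.inr trivial) rfl rfl h
  | succ y ih =>
    exact fun x z h => .step .C true (Or.inl rfl) y.succ_ne_zero (cf_upd ..).2.2.2.2.1
      (.step .C1 true (Or.inl rfl) trivial (cf_upd ..).2.1 (.step .C2 true (Or.inl rfl) trivial
        (cf_upd ..).2.2.2.2.2 (ih _ _ (by rwa [add_right_comm, add_right_comm _ 1]))))

lemma runD (c : ℕ) : ∀ v : Cfg, v 1 = c → v 2 = 0 → RunC P B (.V []) v 0 c := by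
  induction c with
  | zero => exact fun v _ _ => .nil _ _
  | succ c ih =>
    exact fun v h1 h2 => .step (.V []) true (Or.inl rfl) (by simp [nx, Ins.okC, h1]) rfl
      (.step .D true (Or.inl rfl) h2 rfl (ih _ (by simp [nx, Ins.stp, h1]) h2))

lemma runV {p : Prog} {u u' : Cfg} (h : Ev p u u') : ∀ (r : List Prog) (v : Cfg),
    view v = u → (∀ v', view v' = u' → v' 1 = v 1 → v' 2 = v 2 → RunC P B (.V r) v' m n) →
      RunC P B (.V (p :: r)) v m n := by
  induction h with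
  | skip => exact fun r v h1 h2 => .step (.V _) true (Or.inl rfl) trivial rfl (h2 v h1 rfl rfl)
  | inc k =>
    rintro r v rfl h2
    exact .step (.V _) true (Or.inl rfl) trivial rfl (h2 _ (view_update v k _)
      (update_of_ne (rho_ne1 k) _ _) (update_of_ne (rho_ne2 k) _ _))
  | seq _ _ ih1 ih2 =>
    intro r v h1 h2
    exact .step (.V _) true (Or.inl rfl) trivial rfl (ih1 _ v h1 fun v' a1 a2 a3 =>
      ih2 _ v' a1 fun v'' b1 b2 b3 => h2 v'' b1 (b2.trans a2) (b3.trans a3))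
  | whl0 p h0 =>
    rintro r v rfl h2
    exact .step (.V _) false (Or.inr trivial) h0 rfl (h2 v rfl rfl rfl)
  | @whl1 k p _ _ _ h0 _ _ ih1 ih2 =>
    rintro r v rfl h2
    exact .step (.V _) true (Or.inl rfl) h0 rfl (ih1 _ _ (view_update v k _) fun v' a1 a2 a3 =>
      ih2 _ v' a1 fun v'' b1 b2 b3 => h2 v'' b1
        ((b2.trans a2).trans (update_of_ne (rho_ne1 k) _ _))
        ((b3.trans a3).trans (update_of_ne (rho_ne2 k) _ _)))

end Runs

lemma whl_inv {k : ℕ} {p : Prog} (I : Cfg → Prop) (h : ∀ u, I u → u k ≠ 0 ∧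
    ∀ v, Ev p (update u k (u k - 1)) v → I v) {q : Prog} {u w : Cfg} (hw : Ev q u w) :
    q = .whl k p → ¬ I u := by
  induction hw with
  | whl0 _ h0 => rintro ⟨⟩ hI; exact (h _ hI).1 h0
  | whl1 _ h1 _ _ ih => rintro ⟨⟩ hI; exact ih rfl ((h _ hI).2 _ h1)
  | _ => rintro ⟨⟩

lemma bnd_incs (c : ℕ) : (incs (List.replicate c 5)).bnd ≤ 6 := by
  induction c with
  | zero => simp [incs, Prog.bnd]
  | succ c ih => simp only [List.replicate, incs, Prog.bnd]; omega

lemma exists_prog {f : List.Vector ℕ 5 → ℕ} (hf : Primrec f) (hf1 : ∀ v, f v ≤ 1) :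
    ∃ B, ∀ c, ∃ P : Prog, (P.bnd + 2 ≤ B ∧ 7 ≤ B) ∧ tst P 0 ∧ tst P 3 ∧
      ∀ u : Cfg, (∀ j, j ≠ 0 → j ≠ 1 → j ≠ 4 → u j = 0) →
        ((∃ w, Ev P u w) ↔ ∃ w, f (c ::ᵥ u 0 ::ᵥ u 1 ::ᵥ u 4 ::ᵥ w ::ᵥ .nil) = 0) := by
  obtain ⟨Q, hQ⟩ := comp_of_primrec (Nat.Primrec'.of_prim hf) ![5, 0, 1, 4, 6] 7 8
    (by decide) (by decide) (by decide)
  replace hQ : ∀ v : Cfg, (∀ k, 8 ≤ k → v k = 0) →
      Ev Q v (update v 7 (v 7 + f (v 5 ::ᵥ v 0 ::ᵥ v 1 ::ᵥ v 4 ::ᵥ v 6 ::ᵥ .nil))) := hQ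
  refine ⟨Q.bnd + 10, fun c => ⟨.seq (incs (List.replicate c 5)) (.seq (.inc 7)
    (.seq (.whl 7 (.seq Q (.inc 6))) (.seq (.whl 0 .skip) (.whl 1 .skip)))), ?_,
    by simp [tst, rho], by simp [tst, rho], fun u hu => ?_⟩⟩
  · have := bnd_incs c
    simp only [Prog.bnd]
    omega
  let W : ℕ → ℕ → Cfg := fun j a => update (update (update u 5 c) 6 j) 7 a
  have h1 : ∀ j, Ev (.seq Q (.inc 6)) (update (W j 1) 7 (W j 1 7 - 1))
      (W (j + 1) (f (c ::ᵥ u 0 ::ᵥ u 1 ::ᵥ u 4 ::ᵥ j ::ᵥ .nil))) := fun j => by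
    refine ((hQ _ fun k hk => ?_).seq (.inc _ _)).cast rfl (funext fun k => ?_)
    · simp only [W, update_apply]
      split_ifs <;> first | omega | exact hu k (by omega) (by omega) (by omega)
    · by_cases a : k = 6 <;> by_cases a' : k = 7 <;> simp [W, update_apply, a, a']
  have h2 : update (fun k => u k + (List.replicate c 5).count k) 7
      (u 7 + (List.replicate c 5).count 7 + 1) = W 0 1 := funext fun k => by
    have := hu k
    have := hu 7
    simp only [W, update_apply, List.count_replicate, beq_iff_eq]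
    split_ifs <;> omega
  constructor
  · rintro ⟨w, hw⟩
    by_contra! h
    cases hw with | seq a1 a2 =>
    obtain rfl := (ev_incs _ u).det a1
    cases a2 with | seq a2 a3 =>
    cases a2
    cases a3 with | seq a3 a4 =>
    refine whl_inv (fun v => ∃ j, v = W j 1) ?_ a3 rfl ⟨0, h2⟩
    rintro _ ⟨j, rfl⟩
    refine ⟨by simp [W], fun v hv => ⟨j + 1, ?_⟩⟩
    rw [← (h1 j).det hv, le_antisymm (hf1 _) (Nat.pos_of_ne_zero (h j))]
  · intro h
    classical
    refine ⟨_, (ev_incs _ u).seq ((Ev.inc _ _).seq (((whl_iter 7 _ (Nat.find h + 1)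
      (fun j => W j (if j ≤ Nat.find h then 1 else 0)) (by simp [W]) fun j hj => ?_).cast
      (by simpa using h2.symm) rfl).seq ((ev_clr _ _).seq (ev_clr _ _))))⟩
    rw [if_pos (by omega)]
    refine ⟨by simp [W], (h1 j).cast rfl (congrArg _ ?_)⟩
    split_ifs with a
    · exact le_antisymm (hf1 _) (Nat.pos_of_ne_zero (Nat.find_min h a))
    · rw [show j = Nat.find h by omega]; exact Nat.find_spec h

open Classical in
lemma zn_cases (P : Prog) (B : ℕ) (ψ : ℕ → ℕ) (s : Ps) : off s ≤ 2 ∧ ((zn s = 0 ∧ ∀ v,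
    p2 P B ψ s v = if gd 4 v then ψ (v 0 + v 3 + v 4 + off s) else 0) ∨
    (∀ v, p1 s v = 0) ∧ (s = .A ∨ zn s = 2 ∧ ∀ v, p2 P B ψ s v ≤ v 1 + v 5 + 1)) := by
  cases s <;> simp [zn, p1, p2, off] <;> intro v <;> first | omega | (split_ifs <;> omega)

lemma cfg_start {Md St : Type} (M : CM Md St) (h : 7 ≤ M.B) (k : ℕ) :
    M.cfg (2 ^ k * pr 3 : ℕ) = cf k 0 1 0 0 0 := by
  funext i
  rw [CM.cfg, Int.natAbs_natCast, show 2 ^ k = pr 0 ^ k by simp [pr, Nat.nth_prime_zero_eq_two],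
    Nat.factorization_mul (pow_pos (pr_prime 0).pos _).ne' (pr_prime 3).ne_zero,
    (pr_prime 0).factorization_pow, (pr_prime 3).factorization]
  simp only [Finsupp.add_apply, Finsupp.single_apply, pr_inj.eq_iff, cf]
  split_ifs <;> omega

theorem exists_machine {f : List.Vector ℕ 5 → ℕ} (hf : Primrec f) (hf1 : ∀ v, f v ≤ 1) :
    ∃ B, ∀ (c : ℕ) (ψ : ℕ → ℕ),
      (∀ e s m, m ≤ ψ (e + s) ↔ ∃ w, f (c ::ᵥ e ::ᵥ s ::ᵥ m ::ᵥ w ::ᵥ .nil) = 0) →
      ∃ (Md St : Type) (_ : Finite Md) (_ : Fintype St) (M : XM Md St) (need : St → ℕ → Prop)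
        (p : Bool → St → Cfg → ℕ), M.B = B ∧ M.Nice need p ∧
        (∀ σ v, 2 ^ p true σ v ≤ 4 * (v 0 + v 3 + v 4 + 3)) ∧
        (∀ σ v, M.zone σ = 2 → p false σ v ≤ v 1 + v 5 + 1) ∧
        (∀ σ, M.zone σ ≠ 2 → ∃ i < B, ∃ j < B, ∃ l < B, i ≠ j ∧ i ≠ l ∧ j ≠ l ∧ ∀ v,
          p false σ v = 0 ∨ (∀ r, r ≠ i → r ≠ j → r ≠ l → v r = 0) ∧ ∃ κ ≤ v i + v j + v l + 2,
            p false σ v = ψ κ ∧ 2 ^ p true σ v * (v j + v l + 1) ≤ 4 * (κ + 1)) ∧
        ∀ k, M.cfg (2 ^ k * pr 3 : ℕ) 0 = k ∧ ∃ σ L, M.zone σ ≠ 2 ∧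
          M.RunV σ (M.cfg (2 ^ k * pr 3 : ℕ)) L ∧ L.countP M.mv = Nat.log 2 (k + 1) ∧
          L.countP M.act = ψ (k + 1) := by
  obtain ⟨B, hB⟩ := exists_prog hf hf1
  refine ⟨B, fun c ψ hψ => ?_⟩
  obtain ⟨P, hB, h0, h3, hP⟩ := hB c
  refine ⟨_, _, inferInstance, Fintype.ofFinite _, xm hB, _, _, rfl, nice hB h0 h3
    fun u w hu h => (hψ _ _ _).2 ((hP u hu).1 ⟨w, h⟩), fun σ v => ?_, fun σ v h => ?_,
    fun σ h => ?_, fun k => ?_⟩
  · obtain ⟨a, ⟨h, -⟩ | ⟨h, -⟩⟩ := zn_cases P B ψ σ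
    · exact le_trans (Nat.le_mul_of_pos_right _ (by omega)) ((p1_bd _ v h).trans (by omega))
    · simp only [if_true, h]; omega
  · obtain ⟨-, ⟨a, -⟩ | ⟨-, a | a⟩⟩ := zn_cases P B ψ σ
    · exact absurd (a.symm.trans h) (by simp)
    · exact absurd ((congrArg zn a).symm.trans h) (by simp [zn])
    · exact a.2 v
  · obtain ⟨a0, ⟨a, a'⟩ | ⟨a', a | a⟩⟩ := zn_cases P B ψ σ
    · refine ⟨0, by omega, 3, by omega, 4, by omega, by simp, by simp, by simp, fun v => ?_⟩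
      by_cases g : gd 4 v
      · exact Or.inr ⟨g, v 0 + v 3 + v 4 + off σ, by omega, (a' v).trans (if_pos g), p1_bd _ v a⟩
      · exact Or.inl ((a' v).trans (if_neg g))
    · refine ⟨5, by omega, 0, by omega, 3, by omega, by simp, by simp, by simp, fun v => ?_⟩
      simp only [if_true, a', Bool.false_eq_true, if_false]
      rw [a]
      by_cases g : gd 5 v
      · exact Or.inr ⟨fun r a b c => g r b c a, v 0 + v 3, by omega, if_pos g, by omega⟩
      · exact Or.inl (if_neg g)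
    · exact absurd a.1 h
  · rw [cfg_start _ hB.2]
    refine ⟨rfl, ⟨.S0, by simp [sts]⟩, ?_⟩
    have a1 := Nat.pow_log_le_self 2 (Nat.succ_ne_zero k)
    generalize Nat.log 2 (k + 1) = j at *
    obtain ⟨e, he⟩ := Nat.exists_eq_add_of_le' a1
    obtain ⟨w, hw⟩ := (hP (view (cf e (0 + ψ (k + 1)) (2 ^ j * (0 + 1)) 0 0 (0 + ψ (k + 1))))
      fun i _ _ _ => by simp only [view, rho, cf]; split_ifs <;> first | contradiction | omega).2
        ((hψ _ _ _).1 (by simp [view, rho, cf, ← he]))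
    obtain ⟨L, h⟩ := (run0 (e := e) j 0 k (by omega) (.step .S0 false (Or.inr trivial) rfl rfl
      (runA (ψ (k + 1)) _ (runZ (by rw [zero_add (ψ _)]; exact runC _ _ _ (runV hw _ _ rfl fun v a b c =>
        runD (ψ (k + 1)) _ (by simpa [cf] using b) c)) B 0 (by omega))))).run hB (by simp [sts])
    exact ⟨L, by simp [xm, zn], by simpa [mvb, acb] using h⟩

end Pool.Agent.MP_e6aac2_al.H22

end

/-!
Exact realisation of the functions `2 ^ (n l(n))` with `l` nondecreasing and above a fixed power of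
the logarithm.
-/

noncomputable section

namespace Pool.Agent.MP_e6aac2_al.H22

open Finset
open H99 hiding univ sd e0

lemma exists_universal : ∃ f : List.Vector ℕ 5 → ℕ, Primrec f ∧ (∀ v, f v ≤ 1) ∧
    ∀ ψ, LowerSemicomputable ψ → ∃ c, ∀ e s m,
      m ≤ ψ (e + s) ↔ ∃ w, f (c ::ᵥ e ::ᵥ s ::ᵥ m ::ᵥ w ::ᵥ .nil) = 0 := by
  have h := fun i : Fin 5 => (Primrec.vector_get (α := ℕ) (n := 5)).comp Primrec.id (Primrec.const i)
  refine ⟨fun v => if (Nat.Partrec.Code.evaln (v.get 4) (Denumerable.ofNat _ (v.get 0))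
    (Encodable.encode (v.get 1 + v.get 2, v.get 3))).isSome then 0 else 1,
    Primrec.ite (Primrec.eq.comp (Primrec.option_isSome.comp (Nat.Partrec.Code.primrec_evaln.comp
      (((h 4).pair ((Primrec.ofNat _).comp (h 0))).pair (Primrec.encode.comp
        ((Primrec.nat_add.comp (h 1) (h 2)).pair (h 3)))))) (Primrec.const true))
      (Primrec.const 0) (Primrec.const 1), fun v => by dsimp only; split_ifs <;> omega,
    fun ψ hψ => ?_⟩
  obtain ⟨c, hc⟩ := Nat.Partrec.Code.exists_code.1 hψ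
  refine ⟨Encodable.encode c, fun e s m => ?_⟩
  have h1 : m ≤ ψ (e + s) ↔ ∃ x, x ∈ c.eval (Encodable.encode (e + s, m)) := by
    rw [hc]
    simp only [Encodable.encodek, Part.coe_some, Part.bind_some]
    simp
  simp only [h1, Nat.Partrec.Code.evaln_complete]
  rw [exists_comm]
  refine exists_congr fun w => ?_
  show _ ↔ (if (Nat.Partrec.Code.evaln w (Denumerable.ofNat _ (Encodable.encode c))
    (Encodable.encode (e + s, m))).isSome then 0 else 1) = 0
  rw [Denumerable.ofNat_encode]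
  cases Nat.Partrec.Code.evaln w c (Encodable.encode (e + s, m)) <;> simp

lemma lsc_psi {φ : ℕ → ℕ} {F : (ℕ × ℕ) × ℕ → ℕ} (hF : Primrec F)
    (hφ : ∀ s m, m ≤ φ s ↔ ∃ w, F ((s, m), w) ≠ 0) :
    LowerSemicomputable fun κ => 2 * (φ κ / 9 ^ Nat.log 2 κ) + 7 := by
  have h1 : Primrec fun q : (ℕ × ℕ) × ℕ × ℕ => q.2.1 := Primrec.fst.comp Primrec.snd
  have h2 : Primrec fun q : (ℕ × ℕ) × ℕ × ℕ => q.1.1 := Primrec.fst.comp Primrec.fst
  refine (re_of_exists (p := fun (p : ℕ × ℕ) (w : ℕ × ℕ) => p.1 < 2 ^ (w.1 + 1) ∧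
    F ((p.1, (p.2 - 6) / 2 * 9 ^ w.1), w.2) ≠ 0) (PrimrecPred.and (Primrec.nat_lt.comp h2
      (pr_pow.comp (Primrec.const 2) (Primrec.succ.comp h1))) (Primrec.eq.comp (hF.comp
      ((h2.pair (Primrec.nat_mul.comp (Primrec.nat_div.comp (Primrec.nat_sub.comp
      (Primrec.snd.comp Primrec.fst) (Primrec.const 6)) (Primrec.const 2))
      (pr_pow.comp (Primrec.const 9) h1))).pair (Primrec.snd.comp Primrec.snd)))
      (Primrec.const 0)).not)).of_eq fun p => ?_
  rw [show p.2 ≤ 2 * (φ p.1 / 9 ^ Nat.log 2 p.1) + 7 ↔ (p.2 - 6) / 2 ≤ φ p.1 / 9 ^ Nat.log 2 p.1 by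
    omega, Nat.le_div_iff_mul_le (by positivity)]
  simp only [Prod.exists, exists_and_left, ← hφ]
  refine ⟨fun ⟨j, a, b⟩ => le_trans (Nat.mul_le_mul_left _ (Nat.pow_le_pow_right (by norm_num) ?_)) b,
    fun a => ⟨_, Nat.lt_pow_succ_log_self (by norm_num) _, a⟩⟩
  exact Nat.le_of_lt_succ (Nat.log_lt_of_lt_pow' (by omega) a)

lemma sum3 {α : Type} (A : Finset α) (a b c H : α → ℕ) {q R X : ℕ} (hq : 2 ≤ q) (r : ℕ → ℕ → ℕ)
    (hinj : ∀ x ∈ A, ∀ y ∈ A, a x = a y → b x = b y → c x = c y → x = y)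
    (hw : ∀ x ∈ A, q ^ a x * r (b x) (c x) ≤ R) (hH : ∀ x ∈ A, H x * (b x + c x + 1) ^ 3 ≤ X) :
    ∑ x ∈ A, q ^ a x * r (b x) (c x) * H x ≤ 2 * (q * R * X) := by
  have geo : ∀ u b0, ∑ x ∈ A with b x + c x = u ∧ b x = b0, q ^ a x * r (b x) (c x) ≤ q * R := by
    intro u b0
    rcases (A.filter fun x => b x + c x = u ∧ b x = b0).eq_empty_or_nonempty with h | h
    · rw [h]; simp
    obtain ⟨y, hy, hm⟩ := exists_max_image _ a h
    rw [mem_filter] at hy
    rw [sum_congr rfl (g := fun x => q ^ a x * r (b y) (c y)) fun x hx => by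
      rw [mem_filter] at hx
      rw [show b x = b y by omega, show c x = c y by omega], ← sum_mul,
      ← sum_image (f := fun k => q ^ k) fun x hx z hz e => by
        simp only [coe_filter, Set.mem_ofPred_eq] at hx hz
        exact hinj x hx.1 z hz.1 e (by omega) (by omega)]
    refine (Nat.mul_le_mul_right _ (Nat.geomSum_lt (n := a y + 1) hq fun k hk => ?_).le).trans ?_
    · obtain ⟨x, hx, rfl⟩ := mem_image.1 hk
      exact Nat.lt_succ_of_le (hm x hx)
    · rw [pow_succ', mul_assoc]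
      exact Nat.mul_le_mul_left _ (hw y hy.1)
  rw [← sum_fiberwise_of_maps_to (t := range (A.sup (fun x => b x + c x) + 1))
    (g := fun x => b x + c x) fun x hx => mem_range.2 (Nat.lt_succ_of_le (le_sup (f := fun x => b x + c x) hx))]
  refine sum_le_of_mul _ _ _ fun u _ => ?_
  have h1 : ∑ x ∈ A with b x + c x = u, q ^ a x * r (b x) (c x) ≤ (u + 1) * (q * R) := by
    rw [← sum_fiberwise_of_maps_to (t := range (u + 1)) (g := b) fun x hx =>
      mem_range.2 (by have := (mem_filter.1 hx).2; omega)]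
    simp only [filter_filter]
    simpa using sum_le_card_nsmul (range (u + 1)) _ _ fun b0 _ => geo u b0
  have h2 : (∑ x ∈ A with b x + c x = u, q ^ a x * r (b x) (c x) * H x) * (u + 1) ^ 3 ≤
      (u + 1) * (q * R) * X := by
    refine le_trans ?_ (Nat.mul_le_mul_right X h1)
    rw [sum_mul, sum_mul]
    refine sum_le_sum fun x hx => ?_
    rw [mem_filter] at hx
    rw [mul_assoc, ← hx.2]
    exact Nat.mul_le_mul_left _ (hH x hx.1)
  generalize ∑ x ∈ A with b x + c x = u, q ^ a x * r (b x) (c x) * H x = T at *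
  refine Nat.le_of_mul_le_mul_left (c := u + 1) ?_ (by omega)
  calc _ ≤ (u + 1) * (T * ((u + 1) * (2 * (u + 1)))) := by gcongr; omega
    _ = 2 * (T * (u + 1) ^ 3) := by ring
    _ ≤ 2 * ((u + 1) * (q * R) * X) := by gcongr
    _ = _ := by ring

lemma XM.sm_eq {Md St : Type} (M : XM Md St) {i j l : ℕ} (hi : i < M.B) (hj : j < M.B)
    (hl : l < M.B) (h1 : i ≠ j) (h2 : i ≠ l) (h3 : j ≠ l) {v : Cfg}
    (hv : ∀ r, r ≠ i → r ≠ j → r ≠ l → v r = 0) :
    M.sm v = pr i ^ v i * (pr j ^ v j * pr l ^ v l) := by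
  rw [XM.sm, ← prod_subset (s₁ := {i, j, l}) (by simp [insert_subset_iff, *])
    fun r _ hr => by simp only [mem_insert, mem_singleton, not_or] at hr; simp [hv r hr.1 hr.2.1 hr.2.2],
    prod_insert (by simp [*]), prod_pair h3]

lemma arith {p m κ L : ℕ} (h : 2 ^ p * (m + 1) ≤ 4 * (κ + 1)) :
    9 ^ p * (L / 9 ^ Nat.log 2 κ) * (m + 1) ^ 3 ≤ 729 * L := by
  have h1 : 2 ^ p * (m + 1) ≤ 2 ^ (Nat.log 2 κ + 3) := by
    have := Nat.lt_pow_succ_log_self (b := 2) (by norm_num) κ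
    rw [pow_add] at *
    omega
  obtain ⟨d, hd⟩ := Nat.exists_eq_add_of_le ((Nat.pow_le_pow_iff_right (by norm_num)).1
    ((Nat.le_mul_of_pos_right _ m.succ_pos).trans h1))
  rw [hd, pow_add] at h1
  have h2 : (m + 1) ^ 3 ≤ 9 ^ d := by
    refine (Nat.pow_le_pow_left (Nat.le_of_mul_le_mul_left h1 (by positivity)) 3).trans ?_
    rw [← pow_mul, mul_comm, pow_mul]
    exact Nat.pow_le_pow_left (by norm_num) _
  calc _ ≤ 9 ^ p * (L / 9 ^ Nat.log 2 κ) * 9 ^ d := by gcongr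
    _ = 729 * (L / 9 ^ Nat.log 2 κ * 9 ^ Nat.log 2 κ) := by
      rw [mul_right_comm, ← pow_add, ← hd]; ring
    _ ≤ _ := Nat.mul_le_mul_left _ (Nat.div_mul_le_self _ _)

theorem exists_group : ∃ D, ∀ (φ : ℕ → ℕ) (F : (ℕ × ℕ) × ℕ → ℕ), Primrec F →
    (∀ s m, m ≤ φ s ↔ ∃ w, F ((s, m), w) ≠ 0) → ∃ G : ℕ → ℕ, IsSelfSimilarFolnerType G ∧
      (∀ k n, 39168 * 2 ^ (k + 5) ≤ n → 2 ^ ((φ (k + 6) + 1) * 2 ^ k) ≤ G n) ∧
      ∃ E c, 0 < c ∧ ∀ n L, (∀ κ ≤ Nat.log 2 (c * n) + 2, φ κ ≤ L) →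
        G n ≤ 2 ^ (E * ((c * n + 1) * ((Nat.log 2 (c * n) + 1) ^ D + L))) := by
  classical
  obtain ⟨f, hf, hf1, hc⟩ := exists_universal
  obtain ⟨B, hB⟩ := exists_machine hf hf1
  refine ⟨(B + 4) * 10, fun φ F hF hφ => ?_⟩
  obtain ⟨c, hc⟩ := hc _ (lsc_psi hF hφ)
  obtain ⟨Md, St, _, _, M, need, p, rfl, hN, h1, h2, h3, h4⟩ :=
    hB c (fun κ => 2 * (φ κ / 9 ^ Nat.log 2 κ) + 7) hc
  obtain ⟨K, hK⟩ := hN.card_boxH
  have hv : ∀ R (v : M.Vec R) k, M.toC v k ≤ Nat.log 2 R := fun R v k => by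
    unfold XM.toC
    split_ifs
    · exact Nat.le_of_lt_succ (v _).2
    · exact Nat.zero_le _
  have hJ : ∀ R σ (v : M.Vec R), p true σ (M.toC v) ≤ Nat.log 2 (12 * (Nat.log 2 R + 1)) :=
    fun R σ v => Nat.le_log_of_pow_le (by norm_num) ((h1 σ _).trans (by
      have := hv R v 0; have := hv R v 3; have := hv R v 4; omega))
  have hY : ∀ a, 9 ^ (Nat.log 2 (12 * (a + 1)) + 1) ≤ 186624 * (a + 1) ^ (M.B + 4) := fun a => by
    have := Nat.pow_log_le_self 2 (show 12 * (a + 1) ≠ 0 by omega)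
    calc _ ≤ (2 ^ 4) ^ Nat.log 2 (12 * (a + 1)) * 9 := by rw [pow_succ]; gcongr; norm_num
      _ = (2 ^ Nat.log 2 (12 * (a + 1))) ^ 4 * 9 := by rw [← pow_mul, ← pow_mul, mul_comm 4]
      _ ≤ (12 * (a + 1)) ^ 4 * 9 := by gcongr
      _ = 186624 * (a + 1) ^ 4 := by ring
      _ ≤ _ := by gcongr <;> omega
  have hY' : ∀ a, a + 1 ≤ (a + 1) ^ (M.B + 4) := fun a => Nat.le_self_pow (by omega) _
  have hY'' : ∀ a, (a + 1) ^ M.B ≤ 186624 * (a + 1) ^ (M.B + 4) := fun a =>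
    (Nat.pow_le_pow_right (by omega) (Nat.le_add_right _ 4)).trans (by omega)
  replace hK := fun R => hK R _ (2 * Nat.log 2 R + 1) _ (hJ R) (fun σ v h => (h2 σ _ h).trans (by
    have := hv R v 1; have := hv R v 5; omega)) (by
      have := hY' (Nat.log 2 R); have := Nat.log_le_self 2 (12 * (Nat.log 2 R + 1)); omega) (hY _)
    (by have := hY' (Nat.log 2 R); omega) (hY'' _)
  have hup := fun n => M.folner_upper n _ rfl (hK _).1
  have hex : ∀ n, ∃ E, IsFolner M.gensG n E := fun n => ⟨_, (hup n).choose_spec.1⟩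
  refine ⟨folner M.gensG, ⟨_, inferInstance, M.grp, M.gensG, M.selfSimilar, M.closure_gensG, hex,
    Preceq.refl _, Preceq.refl _⟩, fun k n hn => ?_,
    1 + 2 * (K * ((1 + 9 * Fintype.card St) * 186624 ^ 10 + Fintype.card St * (2916 * M.N))),
    2 * M.gensG.card, ?_, fun n L hL => ?_⟩
  · obtain ⟨E, hE, e⟩ := folner_spec (hex n)
    obtain ⟨a0, σ, L, a1, a2, a3, a4⟩ := h4 (k + 5)
    have a5 := hN.folner_lower (k' := φ (k + 6) / 9 ^ Nat.log 2 (k + 6) + 1)
      (y := 2 ^ k * 9 ^ Nat.log 2 (k + 6)) a1 (Nat.mul_pos (by positivity) (pr_prime 3).pos).ne' a0 a2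
      (by rw [a4]; exact Nat.lt_succ_self _) (by rw [a3]; exact le_of_eq (by ring))
      (by
        rw [show pr 3 = 7 from Nat.nth_prime_three_eq_seven]
        have := Nat.one_le_two_pow (n := k + 5)
        omega) hE
    rw [← pow_mul, e] at a5
    refine le_trans (Nat.pow_le_pow_right (by norm_num) ?_) a5
    rw [mul_left_comm, mul_comm, mul_comm (_ + 1)]
    exact Nat.mul_le_mul_left _ (Nat.lt_mul_div_succ _ (by positivity))
  · exact Nat.mul_pos (by norm_num) (card_pos.2 ⟨M.trG 1, M.mem_gensG.2 (M.mem_gens.2 (Or.inl rfl))⟩)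
  obtain ⟨E, hE, b1⟩ := hup n
  have b2 := (hK (2 * M.gensG.card * n)).2
  generalize 2 * M.gensG.card * n = R at *
  have b3 : ∀ σ, ∑ v : M.Vec R, (if M.zone σ ≠ 2 ∧ M.sm (M.toC v) ≤ R then M.sm (M.toC v) *
      (9 ^ p true σ (M.toC v) * ((p false σ (M.toC v) - 7) / 2)) else 0) ≤
        2 * (M.N * R * (729 * L)) := by
    intro σ
    by_cases hz : M.zone σ = 2
    · simp [hz]
    obtain ⟨i, hi, j, hj, l, hl, d1, d2, d3, h⟩ := h3 σ hz
    let A := univ.filter fun v : M.Vec R => M.sm (M.toC v) ≤ R ∧ p false σ (M.toC v) ≠ 0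
    have hA : ∀ v ∈ A, _ := fun v a => (h (M.toC v)).resolve_left (mem_filter.1 a).2.2
    have hA' : ∀ v ∈ A, _ := fun v a => M.sm_eq hi hj hl d1 d2 d3 (hA v a).1
    have hA'' : ∀ v ∈ A, _ := fun v a => (hA' v a).ge.trans (mem_filter.1 a).2.1
    refine le_trans (le_of_eq ?_) ((sum3 A (M.toC · i) (M.toC · j) (M.toC · l)
      (fun v => 9 ^ p true σ (M.toC v) * ((p false σ (M.toC v) - 7) / 2)) (pr_prime i).two_le
      (fun b c => pr j ^ b * pr l ^ c) (fun x hx y hy e1 e2 e3 => funext fun r => Fin.ext ?_) hA''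
      (X := 729 * L) fun v a => ?_).trans ?_)
    · rw [← sum_congr rfl fun v a => congrArg (· * _) (hA' v a), sum_filter]
      refine sum_congr rfl fun v _ => ?_
      by_cases a : p false σ (M.toC v) = 0 <;> simp [a, hz]
    · have e : ∀ v : M.Vec R, M.toC v r = v r := fun v => dif_pos r.2
      rw [← e, ← e]
      by_cases c1 : r = i
      · exact c1 ▸ e1
      by_cases c2 : r = j
      · exact c2 ▸ e2
      by_cases c3 : r = l
      · exact c3 ▸ e3
      rw [(hA x hx).1 r c1 c2 c3, (hA y hy).1 r c1 c2 c3]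
    · obtain ⟨-, κ, c1, c2, c3⟩ := hA v a
      rw [c2, Nat.add_sub_cancel, Nat.mul_div_cancel_left _ two_pos]
      refine (arith c3).trans (Nat.mul_le_mul_left _ (hL κ (c1.trans (Nat.add_le_add_right
        (Nat.le_log_of_pow_le (by norm_num) (le_trans ?_ (hA'' v a))) 2))))
      rw [add_assoc, pow_add, pow_add]
      gcongr <;> exact (pr_prime _).two_le
    · have := Nat.le_of_dvd M.N_pos (Int.natCast_dvd_natCast.1 (M.pr_dvd hi))
      gcongr
  have b4 := hY (Nat.log 2 R)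
  have b5 := hY'' (Nat.log 2 R)
  have b6 := hY' (Nat.log 2 R)
  have b7 : ∑ a : St × M.Vec R with M.zone a.1 ≠ 2 ∧ M.sm (M.toC a.2) ≤ R,
      M.sm (M.toC a.2) * 9 ^ p true a.1 (M.toC a.2) * (p false a.1 (M.toC a.2) + 1) ≤
      Fintype.card St * ((Nat.log 2 R + 1) ^ M.B * (9 * (R * 9 ^ (Nat.log 2 (12 *
        (Nat.log 2 R + 1)) + 1))) + 2 * (2 * (M.N * R * (729 * L)))) := by
    rw [sum_filter, Fintype.sum_prod_type]
    refine (sum_le_card_nsmul _ _ _ fun σ _ => ?_).trans_eq (smul_eq_mul _ _)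
    refine le_trans ?_ (Nat.add_le_add_left (Nat.mul_le_mul_left 2 (b3 σ)) _)
    rw [show (Nat.log 2 R + 1) ^ M.B = #(univ : Finset (M.Vec R)) by simp, ← smul_eq_mul,
      ← sum_const, mul_sum, ← sum_add_distrib]
    refine sum_le_sum fun v _ => ?_
    dsimp only
    split_ifs with a
    · calc _ ≤ M.sm (M.toC v) * 9 ^ p true σ (M.toC v) * (9 + 2 * ((p false σ (M.toC v) - 7) / 2)) :=
            Nat.mul_le_mul_left _ (by omega)
        _ = 9 * (M.sm (M.toC v) * 9 ^ p true σ (M.toC v)) + 2 * (M.sm (M.toC v) *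
            (9 ^ p true σ (M.toC v) * ((p false σ (M.toC v) - 7) / 2))) := by ring
        _ ≤ _ := by gcongr; exacts [a.2, by norm_num, (hJ R σ v).trans (Nat.le_succ _)]
    · exact Nat.zero_le _
  rw [pow_mul (Nat.log 2 R + 1)]
  generalize (Nat.log 2 R + 1) ^ (M.B + 4) = Y at *
  have b8 : 1 ≤ Y ^ 10 := Nat.one_le_pow _ _ (by omega)
  have b9 : (186624 * Y) ^ 2 ≤ (186624 * Y) ^ 10 := Nat.pow_le_pow_right (by omega) (by norm_num)
  refine (folner_le hE).trans (b1.trans ?_)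
  rw [add_mul 1, one_mul, pow_add, mul_assoc 2, pow_mul 2 2]
  refine Nat.mul_le_mul ((Nat.le_mul_of_pos_right _ (show 0 < Y ^ 10 + L by omega)).trans
    Nat.lt_two_pow_self.le) (b2.trans ((Nat.pow_le_pow_left (show 3 ≤ 2 ^ 2 by norm_num) _).trans
      (Nat.pow_le_pow_right (by norm_num) ?_)))
  rw [mul_assoc]
  refine Nat.mul_le_mul_left _ ((Nat.add_le_add_left b7 _).trans ?_)
  calc _ ≤ (R + 1) * (186624 * Y) ^ 10 + Fintype.card St * (186624 * Y * (9 * ((R + 1) *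
        (186624 * Y))) + 2 * (2 * (M.N * (R + 1) * (729 * L)))) := by gcongr <;> omega
    _ = (R + 1) * (186624 * Y) ^ 10 + 9 * Fintype.card St * (R + 1) * (186624 * Y) ^ 2 +
        Fintype.card St * (2916 * M.N) * ((R + 1) * L) := by ring
    _ ≤ (R + 1) * (186624 * Y) ^ 10 + 9 * Fintype.card St * (R + 1) * (186624 * Y) ^ 10 +
        Fintype.card St * (2916 * M.N) * ((R + 1) * L) := by gcongr
    _ = (1 + 9 * Fintype.card St) * 186624 ^ 10 * ((R + 1) * Y ^ 10) +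
        Fintype.card St * (2916 * M.N) * ((R + 1) * L) := by ring
    _ ≤ _ := by rw [add_mul _ (_ * (2916 * M.N))]; gcongr <;> omega

theorem realise : ∃ D, ∀ l : ℕ → ℕ, Monotone l → (∃ N, ∀ n, N ≤ n → Nat.log 2 n ^ D ≤ l n) →
    ∀ g, Monotone g → LowerSemicomputable g → SameGrowth (fun n => 2 ^ (n * l n)) g →
      ∃ G, IsSelfSimilarFolnerType G ∧ SameGrowth (fun n => 2 ^ (n * l n)) G := by
  obtain ⟨D, hD⟩ := exists_group
  refine ⟨D, fun l hl ⟨N, hN⟩ g hm hg ⟨⟨C, hC, h1⟩, C', hC', h2⟩ => ?_⟩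
  obtain ⟨F, hF, hφ⟩ := witness_log hg
  obtain ⟨G, hG, hlow, E, c, hc, hup⟩ := hD _ F hF hφ
  have hN1 : ∀ n, N + 2 ≤ n → 1 ≤ l n := fun n hn => le_trans (Nat.one_le_pow _ _
    (Nat.log_pos (by norm_num) (by omega))) (hN n (by omega))
  refine ⟨G, hG, ⟨39168 * (32 * (C * ((64 + C) * (N + 2)))), by positivity, fun n hn => ?_⟩,
    ⟨(E + 1) * (2 * c * (2 * C' + 1)) * (4 * C' * (N + 2)), by positivity, fun n hn => ?_⟩⟩
  · have a1 := h1 ((64 + C) * ((N + 2) * n)) (Nat.succ_le_of_lt (by positivity))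
    have a0 : n ≤ (N + 2) * n := Nat.le_mul_of_pos_left _ (by omega)
    have a2 := hN1 ((N + 2) * n) (Nat.le_mul_of_pos_right _ hn)
    have a3 := hl (Nat.le_mul_of_pos_left ((N + 2) * n) (show 0 < 64 + C by omega))
    have a4 : C * (2 ^ (n * l n)) ^ 64 ≤
        2 ^ ((64 + C) * ((N + 2) * n) * l ((64 + C) * ((N + 2) * n))) := by
      have := hl a0
      calc _ ≤ 2 ^ C * (2 ^ (n * l n)) ^ 64 := by gcongr; exact Nat.lt_two_pow_self.le
        _ = 2 ^ (64 * (n * l n) + C * (1 * 1)) := by ring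
        _ ≤ 2 ^ (64 * ((N + 2) * n * l ((N + 2) * n)) + C * ((N + 2) * n * l ((N + 2) * n))) := by
          gcongr <;> omega
        _ ≤ _ := Nat.pow_le_pow_right (by norm_num) (by rw [← add_mul, mul_assoc _ (_ * n)]; gcongr)
    have a5 := Nat.le_of_mul_le_mul_left (a4.trans a1) hC
    have a6 : 0 < C * ((64 + C) * ((N + 2) * n)) := by positivity
    refine le_trans ?_ (Nat.le_mul_of_pos_left _ (by positivity))
    rw [show 39168 * (32 * (C * ((64 + C) * (N + 2)))) * n =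
      39168 * (32 * (C * ((64 + C) * ((N + 2) * n)))) by ring]
    generalize C * ((64 + C) * ((N + 2) * n)) = m at *
    have b1 := Nat.lt_pow_succ_log_self (b := 2) (by norm_num) m
    have b2 := Nat.pow_log_le_self 2 a6.ne'
    refine le_trans ?_ (hlow (Nat.log 2 m) _ (by rw [pow_add]; omega))
    refine (Nat.pow_le_pow_iff_left (show 64 ≠ 0 by norm_num)).1 (a5.trans ((hm (b1.le.trans
      (Nat.pow_le_pow_right (by norm_num) (show _ ≤ Nat.log 2 m + 6 by omega)))).trans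
      ((Nat.lt_pow_succ_log_self (b := 2) (by norm_num) _).le.trans ?_)))
    rw [← pow_mul, mul_assoc, show 2 ^ Nat.log 2 m * 64 = 2 ^ (Nat.log 2 m + 6) by ring, mul_comm]
    exact Nat.pow_le_pow_right (by norm_num) (Nat.lt_mul_div_succ _ (by positivity))
  · have a0 : 0 < c * n := by positivity
    have b1 := Nat.lt_pow_succ_log_self (b := 2) (by norm_num) (c * n)
    have b2 := Nat.pow_log_le_self 2 a0.ne'
    set m := (E + 1) * (2 * c * (2 * C' + 1)) * (4 * C' * (N + 2)) * n with hm'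
    have a1 : 4 * C' * (N + 2) * (c * n) ≤ m := by
      calc _ = 1 * (1 * c * 1) * (4 * C' * (N + 2)) * n := by ring
        _ ≤ _ := by rw [hm']; gcongr <;> omega
    have a2 : N + 2 ≤ m := le_trans ((Nat.le_mul_of_pos_left _ (by omega)).trans
      (Nat.le_mul_of_pos_right _ a0)) a1
    have a3 := hN1 m a2
    refine (hup n (2 * C' * l m) fun κ hκ => ?_).trans (le_trans (Nat.pow_le_pow_right (by norm_num) ?_)
      (Nat.le_mul_of_pos_left _ (by positivity)))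
    · have a4 : C' * 2 ^ κ ≤ m := by
        refine le_trans ?_ a1
        calc _ ≤ C' * (2 ^ Nat.log 2 (c * n) * 2 ^ 2) := by rw [← pow_add]; gcongr; norm_num
          _ ≤ C' * (c * n * 2 ^ 2) * (N + 2) := by
            refine le_trans ?_ (Nat.le_mul_of_pos_right _ (by omega)); gcongr
          _ = _ := by ring
      have a5 : g (2 ^ κ) ≤ 2 ^ (2 ^ κ * (2 * C' * l m)) := by
        have := hl a4
        have := Nat.one_le_two_pow (n := κ)
        calc _ ≤ C' * 2 ^ (C' * 2 ^ κ * l (C' * 2 ^ κ)) := h2 _ this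
          _ ≤ 2 ^ (C' * 1 * 1) * 2 ^ (C' * 2 ^ κ * l m) := by
            gcongr
            · simpa using Nat.lt_two_pow_self.le
            · norm_num
          _ ≤ 2 ^ (C' * 2 ^ κ * l m) * 2 ^ (C' * 2 ^ κ * l m) := by gcongr; norm_num
          _ = _ := by ring
      exact Nat.div_le_of_le_mul ((Nat.log_mono_right a5).trans_eq (Nat.log_pow (by norm_num) _))
    · have a4 : (Nat.log 2 (c * n) + 1) ^ D ≤ l m := by
        refine le_trans (Nat.pow_le_pow_left (Nat.le_log_of_pow_le (by norm_num) ?_) _)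
          (hN m (by omega))
        refine le_trans ?_ a1
        rw [pow_succ, mul_comm]
        gcongr
        nlinarith
      calc _ ≤ (E + 1) * ((2 * (c * n)) * (l m + 2 * C' * l m)) := by gcongr <;> omega
        _ = (E + 1) * (2 * c * (2 * C' + 1)) * 1 * n * l m := by ring
        _ ≤ _ := Nat.mul_le_mul_right _ (by rw [hm']; gcongr; exact Nat.succ_le_of_lt (by positivity))

end Pool.Agent.MP_e6aac2_al.H22

end

end
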