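import Pool.Agent.MP_e6aac2_al.Mg.H99_Iso

/-!
An isoperimetric inequality for groups mapping onto direct products.
-/

namespace Pool.Agent.MP_e6aac2_al.H99

open Finset

section Layer

variable {G M J : Type} [Group G] [Group M] [Fintype J]

lemma layer (Φ : G → M) (s : J → G) (t : J → M) (h : ∀ j g, Φ (s j * g) = t j * Φ g)
    {E : Set G} (hE : E.Finite) (hne : E.Nonempty) (A B : ℕ)
    (hb : A * ∑ j, bd E (s j) ≤ B * E.ncard) :
    ∃ E' : Finset M, E'.Nonempty ∧ #E' ≤ E.ncard ∧ A * ∑ j, bd (E' : Set M) (t j) ≤ B * #E' := by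
  classical
  lift E to Finset G using hE
  rw [Set.ncard_coe_finset] at hb ⊢
  rw [coe_nonempty] at hne
  set N := #E with hN
  let μ : M → ℕ := fun x => #{i ∈ E | Φ i = x}
  let T : Finset M := E.image Φ
  let L : ℕ → Finset M := fun r => T.filter fun x => r < μ x
  have hμ : ∀ x, μ x ≤ N := fun x => card_filter_le _ _
  have h1 : ∑ r ∈ range N, #(L r) = N := by
    simp only [L, card_filter]
    rw [sum_comm]
    have : ∀ x ∈ T, (∑ r ∈ range N, if r < μ x then 1 else 0) = μ x := by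
      intro x _
      rw [← card_filter]
      have : (range N).filter (fun r => r < μ x) = range (μ x) := by
        ext r; have := hμ x; simp only [mem_filter, mem_range]; omega
      rw [this, card_range]
    rw [sum_congr rfl this, hN]
    exact (card_eq_sum_card_image Φ E).symm
  have h2 : ∀ j, ∑ r ∈ range N, bd (L r : Set M) (t j) ≤ bd (E : Set G) (s j) := by
    intro j
    let B : Finset G := E.filter fun i => s j * i ∉ E
    have hB : #B = bd (E : Set G) (s j) := by
      rw [bd, ← Set.ncard_coe_finset, ← ncard_image_mul _ (s j)]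
      congr 1
      ext x
      simp only [B, coe_filter, Set.mem_image, Set.mem_ofPred_eq, Set.mem_sdiff, mem_coe]
      constructor
      · rintro ⟨y, ⟨h1, h2⟩, rfl⟩; exact ⟨⟨y, h1, rfl⟩, h2⟩
      · rintro ⟨⟨y, h1, rfl⟩, h2⟩; exact ⟨y, ⟨h1, h2⟩, rfl⟩
    have h3 : ∀ r, bd (L r : Set M) (t j) ≤ #{x ∈ T | μ (t j * x) ≤ r ∧ r < μ x} := by
      intro r
      rw [← Set.ncard_coe_finset, ← ncard_image_mul _ (t j)]
      refine Set.ncard_le_ncard ?_ ((finite_toSet _).image _)
      rintro _ ⟨⟨x, hx, rfl⟩, hn⟩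
      simp only [L, coe_filter, Set.mem_ofPred_eq, not_and, not_lt] at hx hn
      refine ⟨x, ?_, rfl⟩
      simp only [coe_filter, Set.mem_ofPred_eq]
      refine ⟨hx.1, ?_, hx.2⟩
      by_cases hT : t j * x ∈ T
      · exact hn hT
      · have : μ (t j * x) = 0 := by
          simp only [μ, card_eq_zero, filter_eq_empty_iff]
          exact fun i hi hi' => hT (mem_image.2 ⟨i, hi, hi'⟩)
        omega
    refine (sum_le_sum fun r _ => h3 r).trans ?_
    simp only [card_filter]
    rw [sum_comm, ← hB, card_eq_sum_card_fiberwise (f := Φ) (s := B) (t := T)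
      fun i hi => mem_coe.2 (mem_image.2 ⟨i, (mem_filter.1 hi).1, rfl⟩)]
    refine sum_le_sum fun x _ => ?_
    rw [← card_filter]
    have h4 : #{r ∈ range N | μ (t j * x) ≤ r ∧ r < μ x} ≤ μ x - μ (t j * x) := by
      rw [← Nat.card_Ico]
      exact card_le_card fun r hr => mem_Ico.2 (mem_filter.1 hr).2
    have h5 : #{i ∈ E | Φ i = x ∧ s j * i ∈ E} ≤ μ (t j * x) := by
      refine card_le_card_of_injOn (fun i => s j * i) (fun i hi => ?_)
        fun i _ i' _ => mul_left_cancel
      simp only [coe_filter, Set.mem_ofPred_eq] at hi ⊢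
      exact ⟨hi.2.2, by rw [h, hi.2.1]⟩
    have h6 : μ x ≤ #{i ∈ E | Φ i = x ∧ s j * i ∈ E} + #{i ∈ B | Φ i = x} := by
      refine (card_le_card fun i hi => ?_).trans (card_union_le _ _)
      simp only [B, mem_filter, mem_union] at hi ⊢
      tauto
    omega
  by_contra hcon
  push Not at hcon
  have hL : ∀ r, #(L r) ≤ N := fun r => (card_filter_le _ _).trans card_image_le
  have h7 : ∑ r ∈ range N, B * #(L r) < ∑ r ∈ range N, A * ∑ j, bd (L r : Set M) (t j) := by
    refine sum_lt_sum (fun r _ => ?_) ⟨0, mem_range.2 hne.card_pos, hcon _ ?_ (hL 0)⟩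
    · rcases (L r).eq_empty_or_nonempty with h0 | h0
      · simp [h0]
      · exact (hcon _ h0 (hL r)).le
    · obtain ⟨i, hi⟩ := hne
      refine ⟨Φ i, mem_filter.2 ⟨mem_image_of_mem _ hi, card_pos.2 ⟨i, ?_⟩⟩⟩
      simp [hi]
  rw [← mul_sum, ← mul_sum, h1, sum_comm] at h7
  have h8 := Nat.mul_le_mul_left A (sum_le_sum fun j (_ : j ∈ univ) => h2 j)
  omega

end Layer

section Entropy

variable {I Y : Type} [Fintype I] [DecidableEq I] [DecidableEq Y]

/-- points of `E` agreeing with `x` outside `J` -/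
def cl (E : Finset (I → Y)) (J : Finset I) (x : I → Y) : Finset (I → Y) :=
  E.filter fun y => ∀ i ∉ J, y i = x i

lemma mem_cl {E : Finset (I → Y)} {J : Finset I} {x y : I → Y} :
    y ∈ cl E J x ↔ y ∈ E ∧ ∀ i ∉ J, y i = x i := mem_filter

lemma cl_eq {E : Finset (I → Y)} {J : Finset I} {x y : I → Y} (h : ∀ i ∉ J, y i = x i) :
    cl E J y = cl E J x := by
  ext z
  simp only [mem_cl]
  exact and_congr_right fun _ => forall₂_congr fun i hi => by rw [h i hi]

lemma cl_pos {E : Finset (I → Y)} (J : Finset I) {x : I → Y} (hx : x ∈ E) :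
    (0 : ℝ) < #(cl E J x) :=
  Nat.cast_pos.2 (card_pos.2 ⟨x, mem_cl.2 ⟨hx, fun _ _ => rfl⟩⟩)

lemma ent_step (E : Finset (I → Y)) {J : Finset I} {i : I} (hi : i ∉ J) :
    ∑ x ∈ E, (Real.log #(cl E J x) + Real.log #(cl E {i} x)) ≤
      ∑ x ∈ E, Real.log #(cl E (insert i J) x) := by
  have h1 : ∀ x ∈ E, Real.log #(cl E J x) + Real.log #(cl E {i} x) -
      Real.log #(cl E (insert i J) x) ≤
      (#(cl E J x) * #(cl E {i} x) : ℝ) / #(cl E (insert i J) x) - 1 := by
    intro x hx
    have a := cl_pos J hx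
    have b := cl_pos {i} hx
    have c := cl_pos (insert i J) hx
    rw [← Real.log_mul a.ne' b.ne', ← Real.log_div (by positivity) c.ne']
    exact Real.log_le_sub_one_of_pos (by positivity)
  have h2 : ∑ x ∈ E, (#(cl E J x) * #(cl E {i} x) : ℝ) / #(cl E (insert i J) x) ≤ #E := by
    let f : (I → Y) × (I → Y) → ℝ := fun p => 1 / #(cl E (insert i J) p.1)
    have e1 : ∑ x ∈ E, (#(cl E J x) * #(cl E {i} x) : ℝ) / #(cl E (insert i J) x) =
        ∑ q ∈ E.sigma fun x => cl E J x ×ˢ cl E {i} x, f q.2 := by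
      rw [sum_sigma]
      refine sum_congr rfl fun x _ => ?_
      rw [sum_congr rfl (g := fun _ => 1 / (#(cl E (insert i J) x) : ℝ))]
      · simp [div_eq_mul_inv]
      · intro p hp
        simp only [f]
        rw [cl_eq fun k hk => (mem_cl.1 (mem_product.1 hp).1).2 k
          fun h => hk (mem_insert_of_mem h)]
    have e2 : (#E : ℝ) = ∑ q ∈ E.sigma fun y => cl E (insert i J) y, f (q.1, q.2) := by
      rw [sum_sigma, card_eq_sum_ones, Nat.cast_sum]
      refine sum_congr rfl fun y hy => ?_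
      have := cl_pos (insert i J) hy
      simp only [f, sum_const, nsmul_eq_mul]
      field_simp
      simp
    rw [e1, e2]
    let e : (Σ _ : I → Y, (I → Y) × (I → Y)) → (Σ _ : I → Y, I → Y) := fun q => ⟨q.2.1, q.2.2⟩
    have hinj : Set.InjOn e ↑(E.sigma fun x => cl E J x ×ˢ cl E {i} x) := by
      rintro ⟨x, y, z⟩ hp ⟨x', y', z'⟩ hq h
      simp only [coe_sigma, Set.mem_sigma_iff, mem_coe, mem_product, mem_cl] at hp hq
      simp only [e, Sigma.mk.injEq, heq_eq_eq] at h
      obtain ⟨rfl, rfl⟩ := h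
      have : x = x' := by
        funext k
        by_cases hk : k = i
        · subst hk; rw [← hp.2.1.2 k hi, hq.2.1.2 k hi]
        · rw [← hp.2.2.2 k (by simpa using hk), hq.2.2.2 k (by simpa using hk)]
      rw [this]
    classical
    have e3 := sum_image (f := fun q : Σ _ : I → Y, I → Y => f (q.1, q.2)) hinj
    refine le_of_eq_of_le e3.symm
      (sum_le_sum_of_subset_of_nonneg ?_ fun _ _ _ => by simp only [f]; positivity)
    intro q hq
    obtain ⟨⟨x, y, z⟩, hp, rfl⟩ := mem_image.1 hq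
    simp only [e, mem_sigma, mem_product, mem_cl] at hp ⊢
    refine ⟨hp.2.1.1, hp.2.2.1, fun k hk => ?_⟩
    rw [mem_insert, not_or] at hk
    rw [hp.2.2.2 k (by simpa using hk.1), hp.2.1.2 k hk.2]
  have h3 := sum_le_sum h1
  rw [sum_sub_distrib, sum_sub_distrib] at h3
  simp only [sum_const, nsmul_eq_mul, mul_one] at h3
  linarith

lemma ent (E : Finset (I → Y)) (J : Finset I) :
    ∑ x ∈ E, ∑ i ∈ J, Real.log #(cl E {i} x) ≤ ∑ x ∈ E, Real.log #(cl E J x) := by
  induction J using Finset.induction_on with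
  | empty => exact sum_le_sum fun x _ => by simpa using Real.log_natCast_nonneg _
  | insert i J hi ih =>
    refine le_trans ?_ (ent_step E hi)
    simp only [sum_insert hi, sum_add_distrib]
    linarith

end Entropy

section Prod

variable {I Γ : Type} [Fintype I] [DecidableEq I] [Group Γ]

lemma small_fibres [DecidableEq Γ] (E : Finset (I → Γ)) (i : I) (a b : Γ) (V : ℕ)
    (hiso : ∀ S : Set Γ, S.Finite → S.ncard < V → S.ncard ≤ 4 * (bd S a + bd S b)) :
    #{x ∈ E | #(cl E {i} x) < V} ≤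
      4 * (bd (E : Set (I → Γ)) (Pi.mulSingle i a) + bd (E : Set (I → Γ)) (Pi.mulSingle i b)) := by
  set F := {x ∈ E | #(cl E {i} x) < V} with hF
  let key : (I → Γ) → (I → Γ) := fun x => Function.update x i 1
  let T := F.image key
  let fib : (I → Γ) → Finset Γ := fun c => (cl E {i} c).image fun x => x i
  have hinj : ∀ c, Set.InjOn (fun x : I → Γ => x i) (cl E {i} c) := by
    intro c x hx y hy h
    funext k
    by_cases hk : k = i
    · subst hk; exact h
    · rw [(mem_cl.1 hx).2 k (by simpa using hk), (mem_cl.1 hy).2 k (by simpa using hk)]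
  have hkey : ∀ x c, c ∈ T → (key x = c ↔ ∀ k ∉ ({i} : Finset I), x k = c k) := by
    intro x c hc
    obtain ⟨y, -, rfl⟩ := mem_image.1 hc
    constructor
    · intro h k hk
      rw [← h]; simp only [key]; rw [Function.update_of_ne (by simpa using hk)]
    · intro h
      funext k
      by_cases hk : k = i
      · subst hk; simp [key]
      · rw [← h k (by simpa using hk)]; simp [key, hk]
  have hsmall : ∀ c ∈ T, #(cl E {i} c) < V := by
    intro c hc
    obtain ⟨y, hy, h⟩ := mem_image.1 hc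
    rw [← cl_eq ((hkey y c hc).1 h)]
    exact (mem_filter.1 hy).2
  have h1 : #F ≤ ∑ c ∈ T, #(fib c) := by
    rw [card_eq_sum_card_image key F]
    refine sum_le_sum fun c hc => ?_
    rw [card_image_of_injOn (hinj c)]
    refine card_le_card fun x hx => ?_
    rw [mem_filter] at hx
    exact mem_cl.2 ⟨(mem_filter.1 hx.1).1, (hkey x c hc).1 hx.2⟩
  have h2 : ∀ g : Γ, ∑ c ∈ T, bd (fib c : Set Γ) g ≤ bd (E : Set (I → Γ)) (Pi.mulSingle i g) := by
    intro g
    let B : Finset (I → Γ) := E.filter fun x => Pi.mulSingle i g * x ∉ E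
    have hB : #B = bd (E : Set (I → Γ)) (Pi.mulSingle i g) := by
      rw [bd, ← Set.ncard_coe_finset, ← ncard_image_mul _ (Pi.mulSingle i g)]
      congr 1
      ext x
      simp only [B, coe_filter, Set.mem_image, Set.mem_ofPred_eq, Set.mem_sdiff, mem_coe]
      constructor
      · rintro ⟨y, ⟨h1, h2⟩, rfl⟩; exact ⟨⟨y, h1, rfl⟩, h2⟩
      · rintro ⟨⟨y, h1, rfl⟩, h2⟩; exact ⟨y, ⟨h1, h2⟩, rfl⟩
    rw [← hB]
    refine le_trans (sum_le_sum fun c hc => ?_) ((sum_card_fiberwise_eq_card_filter B T key).trans_le (card_filter_le _ _))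
    rw [bd, ← Set.ncard_coe_finset]
    refine le_trans (Set.ncard_le_ncard (t := (fun x : I → Γ => g * x i) '' ↑{x ∈ B | key x = c})
      ?_ ((finite_toSet _).image _)) (Set.ncard_image_le (finite_toSet _))
    rintro _ ⟨⟨_, hγ, rfl⟩, hn⟩
    obtain ⟨x, hx, rfl⟩ := mem_image.1 hγ
    obtain ⟨hx1, hx2⟩ := mem_cl.1 hx
    refine ⟨x, mem_coe.2 (mem_filter.2 ⟨mem_filter.2 ⟨hx1, fun h => hn ?_⟩, (hkey x c hc).2 hx2⟩),
      rfl⟩
    refine mem_coe.2 (mem_image.2 ⟨_, mem_cl.2 ⟨h, fun k hk => ?_⟩, by simp⟩)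
    rw [Pi.mul_apply, Pi.mulSingle_eq_of_ne (by simpa using hk), one_mul, hx2 k hk]
  have h3 : ∑ c ∈ T, #(fib c) ≤ ∑ c ∈ T, 4 * (bd (fib c : Set Γ) a + bd (fib c : Set Γ) b) := by
    refine sum_le_sum fun c hc => ?_
    rw [← Set.ncard_coe_finset]
    refine hiso _ (finite_toSet _) ?_
    rw [Set.ncard_coe_finset]
    exact card_image_le.trans_lt (hsmall c hc)
  rw [← mul_sum, sum_add_distrib] at h3
  have := h2 a
  have := h2 b
  omega

lemma exists_equivariant {G H : Type} [Group G] [Group H] (L : Subgroup G) (π : L →* H) :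
    ∃ Φ : G → H, ∀ (l : L) (g : G), Φ (l * g) = π l * Φ g := by
  let r : G → G := fun g => (Quotient.mk (QuotientGroup.rightRel L) g).out
  have hr : ∀ g, g * (r g)⁻¹ ∈ L := fun g =>
    QuotientGroup.rightRel_apply.1 (Quotient.exact (Quotient.out_eq
      (Quotient.mk (QuotientGroup.rightRel L) g)))
  have hr' : ∀ (l : L) g, r (l * g) = r g := fun l g =>
    congrArg Quotient.out (Quotient.sound (QuotientGroup.rightRel_apply.2 (by simp)))
  refine ⟨fun g => π ⟨_, hr g⟩, fun l g => ?_⟩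
  rw [← map_mul]
  refine congrArg π (Subtype.ext ?_)
  show l * g * (r (l * g))⁻¹ = l * (g * (r g)⁻¹)
  rw [hr', mul_assoc]

theorem prod_iso {G : Type} [Group G] (L : Subgroup G) (π : L →* (I → Γ)) (a b : I → L) (a0 b0 : Γ)
    (ha : ∀ i, π (a i) = Pi.mulSingle i a0) (hb : ∀ i, π (b i) = Pi.mulSingle i b0) {V : ℕ}
    (hV : 0 < V) (hiso : ∀ S : Set Γ, S.Finite → S.ncard < V → S.ncard ≤ 4 * (bd S a0 + bd S b0))
    {E : Set G} (hE : E.Finite) (hne : E.Nonempty)
    (hbd : ∀ i, 8 * (bd E (a i) + bd E (b i)) ≤ E.ncard) :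
    V ^ Fintype.card I ≤ E.ncard ^ 2 := by
  classical
  obtain ⟨Φ, hΦ⟩ := exists_equivariant L π
  obtain ⟨E', h1, h2, h3⟩ := layer (J := I ⊕ I) Φ (fun j => (Sum.elim a b j : L))
    (fun j => π (Sum.elim a b j)) (fun j g => hΦ _ g) hE hne 8 (Fintype.card I) (by
      rw [Fintype.sum_sum_type, ← sum_add_distrib, mul_sum]
      exact (sum_le_sum fun i _ => hbd i).trans (by simp))
  rw [Fintype.sum_sum_type, ← sum_add_distrib, mul_sum] at h3
  simp only [Sum.elim_inl, Sum.elim_inr, ha, hb] at h3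
  have hlV : 0 ≤ Real.log V := Real.log_natCast_nonneg _
  have h4 : ∀ i, (#E' - 4 * (bd (E' : Set (I → Γ)) (Pi.mulSingle i a0) +
      bd (E' : Set (I → Γ)) (Pi.mulSingle i b0)) : ℝ) * Real.log V ≤
      ∑ x ∈ E', Real.log #(cl E' {i} x) := by
    intro i
    have k1 := small_fibres E' i a0 b0 V hiso
    have k2 := card_filter_add_card_filter_not (s := E') fun x => #(cl E' {i} x) < V
    have k3 : (#{x ∈ E' | ¬ #(cl E' {i} x) < V} : ℝ) * Real.log V ≤
        ∑ x ∈ E', Real.log #(cl E' {i} x) := by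
      rw [← nsmul_eq_mul, ← sum_const, sum_filter]
      refine sum_le_sum fun x _ => ?_
      split_ifs with h
      · exact Real.log_natCast_nonneg _
      · exact Real.log_le_log (by exact_mod_cast hV) (by exact_mod_cast not_lt.1 h)
    refine le_trans (mul_le_mul_of_nonneg_right ?_ hlV) k3
    have k4 : #E' ≤ #{x ∈ E' | ¬ #(cl E' {i} x) < V} + 4 * (bd (E' : Set (I → Γ))
      (Pi.mulSingle i a0) + bd (E' : Set (I → Γ)) (Pi.mulSingle i b0)) := by omega
    have k5 := (Nat.cast_le (α := ℝ)).2 k4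
    push_cast at k5
    linarith
  have h5 := sum_le_sum fun i (_ : i ∈ univ) => h4 i
  have h6 := ent E' univ
  have h7 : ∀ x, cl E' univ x = E' := fun x => by ext y; simp [mem_cl]
  simp only [h7, sum_const, nsmul_eq_mul] at h6
  rw [sum_comm] at h6
  rw [← sum_mul, sum_sub_distrib, sum_const, card_univ, nsmul_eq_mul] at h5
  have h8 := (Nat.cast_le (α := ℝ)).2 h3
  push_cast at h8
  have h9 : ∑ i, (4 : ℝ) * (bd (E' : Set (I → Γ)) (Pi.mulSingle i a0) +
      bd (E' : Set (I → Γ)) (Pi.mulSingle i b0)) ≤ Fintype.card I * #E' / 2 := by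
    rw [le_div_iff₀ (by norm_num), sum_mul]
    refine le_of_eq_of_le (sum_congr rfl fun i _ => by ring) h8
  have hE0 : (0 : ℝ) < #E' := by exact_mod_cast h1.card_pos
  have h10 : Real.log ((V : ℝ) ^ Fintype.card I) ≤ Real.log ((#E' : ℝ) ^ 2) := by
    rw [Real.log_pow, Real.log_pow]
    refine le_of_mul_le_mul_left ?_ hE0
    have := mul_le_mul_of_nonneg_right h9 hlV
    push_cast
    nlinarith
  have h11 := (Real.log_le_log_iff (by positivity) (by positivity)).1 h10
  exact le_trans (by exact_mod_cast h11) (Nat.pow_le_pow_left h2 2)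

end Prod

end Pool.Agent.MP_e6aac2_al.H99
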