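import Pool.Agent.MP_e6aac2_al.H99.Sys
import Pool.Agent.MP_e6aac2_al.Mg.Coarea
import Pool.Agent.MP_e6aac2_al.Mg.H99_Prod
import Mathlib

-- part MP_e6aac2_al.H99.Sync
section

/-!
Which lamps survive on a control word: periodicity, synchronisation and potentials.
-/

noncomputable section

namespace Pool.Agent.MP_e6aac2_al.H99

namespace CM

variable {Md St : Type} (M : CM Md St)

def Al : List M.Ctl → Option St → ℤ → Prop
  | [], _, _ => True
  | c :: ω, σ, j => M.al σ c.1 (c.2 + j) ∧ Al ω (M.ns σ c.1) (M.np c.1 (c.2 + j))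

def pre : List M.Ctl → ℕ → List M.Ctl
  | [], _ => []
  | _ :: _, 0 => []
  | c :: ω, t + 1 => c :: pre ω (if M.act c.1 then t else t + 1)

def na (ω : List M.Ctl) : ℕ := ω.countP fun c => M.act c.1

lemma na_cons (c : M.Ctl) (ω : List M.Ctl) :
    M.na (c :: ω) = M.na ω + if M.act c.1 then 1 else 0 := by
  simp [na, List.countP_cons]

lemma tau_pos {c : M.Ctl} {σ : Option St} {j : ℤ} (h : M.al σ c.1 (c.2 + j)) (ω : List M.Ctl) :
    M.tau (c :: ω) σ j = M.tau ω (M.ns σ c.1) (M.np c.1 (c.2 + j)) + if M.act c.1 then 1 else 0 := by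
  rw [tau, if_pos h]

lemma tau_neg {c : M.Ctl} {σ : Option St} {j : ℤ} (h : ¬ M.al σ c.1 (c.2 + j)) (ω : List M.Ctl) :
    M.tau (c :: ω) σ j = 0 := by
  rw [tau, if_neg h]

lemma al_of_tau {c : M.Ctl} {ω : List M.Ctl} {σ : Option St} {j : ℤ}
    (h : 1 ≤ M.tau (c :: ω) σ j) : M.al σ c.1 (c.2 + j) := by
  by_contra h'
  rw [M.tau_neg h'] at h
  omega

lemma le_tau_iff (ω : List M.Ctl) : ∀ (t : ℕ) (σ : Option St) (j : ℤ),
    t ≤ M.tau ω σ j ↔ t ≤ M.na ω ∧ M.Al (M.pre ω t) σ j := by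
  induction ω with
  | nil => intro t σ j; simp [tau, na, pre, Al]
  | cons c ω ih =>
    intro t σ j
    cases t with
    | zero => simp [pre, Al]
    | succ t =>
      rw [pre, Al, na_cons]
      by_cases h : M.al σ c.1 (c.2 + j)
      · rw [M.tau_pos h]
        have := ih (if M.act c.1 then t else t + 1) (M.ns σ c.1) (M.np c.1 (c.2 + j))
        revert this
        cases M.act c.1 <;> simp [h]
      · simp [M.tau_neg h, h]

def Q : List M.Ctl → ℕ
  | [] => 1
  | c :: ω => M.N * Q ω / Nat.gcd (M.N * Q ω) (M.mul c.1)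

lemma Q_dvd_pow (ω : List M.Ctl) : M.Q ω ∣ M.N ^ ω.length := by
  induction ω with
  | nil => simp [Q]
  | cons c ω ih =>
    rw [List.length_cons, pow_succ']
    exact (Nat.div_dvd_of_dvd (Nat.gcd_dvd_left _ _)).trans (Nat.mul_dvd_mul_left _ ih)

lemma Q_pos (ω : List M.Ctl) : 0 < M.Q ω :=
  Nat.pos_of_dvd_of_pos (M.Q_dvd_pow ω) (pow_pos M.N_pos _)

lemma Q_spec (c : M.Ctl) (ω : List M.Ctl) (d : ℤ) :
    (M.Q (c :: ω) : ℤ) ∣ d ↔ (M.N : ℤ) * M.Q ω ∣ d * M.mul c.1 := by
  have hg : 0 < Nat.gcd (M.N * M.Q ω) (M.mul c.1) := Nat.gcd_pos_of_pos_right _ (M.mul_pos _)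
  obtain ⟨a, m, hc, h1, h2⟩ := Nat.exists_coprime (M.N * M.Q ω) (M.mul c.1)
  have e : M.Q (c :: ω) = a := by
    rw [Q]
    exact Nat.div_eq_of_eq_mul_left hg h1
  generalize Nat.gcd (M.N * M.Q ω) (M.mul c.1) = g at *
  rw [e, ← Nat.cast_mul, h1, h2]
  push_cast
  rw [← mul_assoc, mul_dvd_mul_iff_right (by exact_mod_cast hg.ne')]
  exact ⟨fun h => h.mul_right _, (Nat.isCoprime_iff_coprime.2 hc).dvd_of_dvd_mul_right⟩

lemma np_sub {σ σ' : Option St} {c : M.Ctl} {u u' : ℤ} (h : M.al σ c.1 (c.2 + u))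
    (h' : M.al σ' c.1 (c.2 + u')) :
    (u - u') * M.mul c.1 = M.N * (M.np c.1 (c.2 + u) - M.np c.1 (c.2 + u')) := by
  rw [mul_sub, ← M.al_np h, ← M.al_np h']; ring

lemma Al_dvd (ω : List M.Ctl) : ∀ (σ σ' : Option St) (u u' : ℤ), M.Al ω σ u → M.Al ω σ' u' →
    (M.Q ω : ℤ) ∣ u - u' := by
  induction ω with
  | nil => intros; simp [Q]
  | cons c ω ih =>
    intro σ σ' u u' h h'
    rw [Q_spec, M.np_sub h.1 h'.1]
    exact mul_dvd_mul_left _ (ih _ _ _ _ h.2 h'.2)

lemma Al_shift (ω : List M.Ctl) : ∀ (σ : Option St) (u z : ℤ), M.Al ω σ u →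
    M.Al ω σ (u + M.N * (M.Q ω * z)) := by
  induction ω with
  | nil => intros; trivial
  | cons c ω ih =>
    intro σ u z h
    refine ⟨M.al_of_dvd (by simp) h.1, ?_⟩
    obtain ⟨y, hy⟩ := (M.Q_spec c ω _).1 dvd_rfl
    rw [← add_assoc, np_add, ← mul_assoc, mul_comm (M.mul c.1 : ℤ), hy, mul_assoc, mul_assoc]
    exact ih _ _ _ h.2

structure Good (need : St → ℕ → Prop) : Prop where
  act_src : ∀ md, M.act md = true → ∀ k, ¬ need (M.src md) k
  act_tgt : ∀ md, M.act md = true → ∀ k < M.B, need (M.tgt md) k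
  step : ∀ md, M.act md = false → ∀ k, need (M.src md) k → need (M.tgt md) k ∨ M.ins md = .zero k

variable {M}

lemma not_dvd_of_zero {md : Md} {k : ℕ} {y : ℤ} (h : M.ins md = .zero k) (hy : M.ok md y) :
    ¬ (pr k : ℤ) ∣ y := by
  simpa only [ok, h] using hy

lemma dvd_iff_sub {k : ℕ} (hk : k < M.B) {x i : ℤ} (h : (M.N : ℤ) ∣ x + i) (j : ℤ) :
    (pr k : ℤ) ∣ x + j ↔ (pr k : ℤ) ∣ j - i := by
  rw [show x + j = x + i + (j - i) by ring]
  exact dvd_add_right ((M.pr_dvd hk).trans h)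

lemma main_div {need : St → ℕ → Prop} (hG : M.Good need) {z : ℕ} (ω : List M.Ctl) :
    ∀ (s : St) (j i d : ℤ) (t : ℕ), 1 ≤ M.tau ω (some s) j → 1 ≤ M.tau ω none i → need s z →
      (M.Q (M.pre ω (t + 1)) : ℤ) ∣ d →
        emultiplicity (pr z : ℤ) (j - i) ≤ emultiplicity (pr z : ℤ) d := by
  induction ω with
  | nil => intro s j i d t h; simp [tau] at h
  | cons c ω ih =>
    intro s j i d t h1 h2 hn hd
    have a1 := M.al_of_tau h1
    have a2 := M.al_of_tau h2
    obtain rfl := a1.1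
    have hact : M.act c.1 = false := by
      by_contra h
      exact hG.act_src _ (by simpa using h) _ hn
    rcases hG.step _ hact _ hn with h | h
    · rw [M.tau_pos a1] at h1
      rw [M.tau_pos a2] at h2
      simp only [pre, hact, Bool.false_eq_true, if_false, add_zero] at h1 h2 hd
      obtain ⟨y, hy⟩ := (M.Q_spec _ _ _).1 hd
      have h3 := ih _ _ _ _ t h1 h2 h (dvd_mul_right _ y)
      have h4 := congrArg (emultiplicity (pr z : ℤ)) (M.np_sub a1 a2)
      have h5 := congrArg (emultiplicity (pr z : ℤ)) hy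
      rw [mul_assoc] at h5
      rw [emultiplicity_mul (pr_primeZ z), emultiplicity_mul (pr_primeZ z)] at h4 h5
      have h6 : emultiplicity (pr z : ℤ) (M.mul c.1) ≠ ⊤ := by
        rw [Int.natCast_emultiplicity, ← finiteMultiplicity_iff_emultiplicity_ne_top]
        exact Nat.finiteMultiplicity_iff.2 ⟨(pr_prime z).ne_one, M.mul_pos _⟩
      rw [← ENat.add_le_add_iff_right h6, h4, h5]
      exact add_le_add_right h3 _
    · have hz : z < M.B := by simpa [h, Ins.reg] using M.reg_lt c.1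
      rw [emultiplicity_eq_zero.2 fun h' =>
        not_dvd_of_zero h a1.2 ((dvd_iff_sub hz a2 j).2 h')]
      exact zero_le

def Rel (b : Bool) (k : ℕ) (n d : ℤ) : Prop :=
  ∃ n0 d0 : ℤ, ¬ (pr k : ℤ) ∣ n0 ∧ ((pr k : ℤ) ∣ d0 ↔ b = true) ∧ d * n0 = n * d0

lemma Rel.step {b : Bool} {k : ℕ} {n d n1 d1 m : ℤ} (h : Rel b k n d) (h1 : n * m = M.N * n1)
    (h2 : d * m = M.N * d1) : Rel b k n1 d1 := by
  obtain ⟨n0, d0, a1, a2, a3⟩ := h
  refine ⟨n0, d0, a1, a2, mul_left_cancel₀ M.N_ne ?_⟩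
  rw [← mul_assoc, ← mul_assoc, ← h1, ← h2]
  linear_combination m * a3

lemma sync2 (ω : List M.Ctl) : ∀ (s : St) (j i : ℤ) (σ : Option St) (u : ℤ),
    (σ = none ∨ σ = some s) → (∀ k < M.B, Rel σ.isNone k (j - i) (u - i)) →
      min (M.tau ω (some s) j) (M.tau ω none i) ≤ M.tau ω σ u := by
  induction ω with
  | nil => intros; simp [tau]
  | cons c ω ih =>
    intro s j i σ u hσ hR
    by_cases a1 : M.al (some s) c.1 (c.2 + j)
    swap
    · simp [M.tau_neg a1]
    by_cases a2 : M.al none c.1 (c.2 + i)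
    swap
    · simp [M.tau_neg a2]
    have a3 : M.al σ c.1 (c.2 + u) := by
      rcases hσ with rfl | rfl
      · refine M.N_dvd fun k hk => (dvd_iff_sub hk a2 u).2 ?_
        obtain ⟨n0, d0, b1, b2, b3⟩ := hR k hk
        exact ((pr_primeZ k).dvd_or_dvd (b3 ▸ (b2.2 rfl).mul_left _)).resolve_right b1
      · refine ⟨a1.1, M.ok_congr (fun k hk => ?_) a1.2⟩
        obtain ⟨n0, d0, b1, b2, b3⟩ := hR k hk
        rw [dvd_iff_sub hk a2, dvd_iff_sub hk a2]
        exact ⟨fun h => ((pr_primeZ k).dvd_or_dvd (b3 ▸ h.mul_right d0)).resolve_right b1,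
          fun h => ((pr_primeZ k).dvd_or_dvd (b3 ▸ h.mul_right n0)).resolve_right
            (by simpa using b2)⟩
    rw [M.tau_pos a1, M.tau_pos a2, M.tau_pos a3, min_add_add_right]
    refine Nat.add_le_add_right (ih (M.tgt c.1) _ _ _ _ ?_ fun k hk => ?_) _
    · rcases hσ with rfl | rfl
      · exact Or.inl rfl
      · exact Or.inr rfl
    · rw [ns_isNone]
      exact (hR k hk).step (M.np_sub a1 a2) (M.np_sub a3 a2)

lemma sync1 {need : St → ℕ → Prop} (hG : M.Good need) (ω : List M.Ctl) :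
    ∀ (s : St) (j i : ℤ) (σ : Option St) (u : ℤ) (t : ℕ), (σ = none ∨ σ = some s) →
      (∀ k < M.B, Rel σ.isNone k (j - i) (u - i) ∨ need s k ∨ t = 1) → t ≤ 1 →
        t + 1 ≤ M.tau ω σ u → min (M.tau ω (some s) j) (M.tau ω none i) ≤ M.tau ω σ u := by
  induction ω with
  | nil => intros; simp [tau]
  | cons c ω ih =>
    intro s j i σ u t hσ hR ht h
    by_cases a1 : M.al (some s) c.1 (c.2 + j)
    swap
    · simp [M.tau_neg a1]
    by_cases a2 : M.al none c.1 (c.2 + i)
    swap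
    · simp [M.tau_neg a2]
    have a3 : M.al σ c.1 (c.2 + u) := M.al_of_tau (le_trans (by omega) h)
    obtain rfl := a1.1
    have hσ' : M.ns σ c.1 = none ∨ M.ns σ c.1 = some (M.tgt c.1) := by
      rcases hσ with rfl | rfl
      · exact Or.inl rfl
      · exact Or.inr rfl
    cases hact : M.act c.1 with
    | true =>
      rcases Nat.le_one_iff_eq_zero_or_eq_one.1 ht with rfl | rfl
      · exact sync2 _ _ _ _ _ _ hσ fun k hk =>
          (hR k hk).resolve_right (not_or.2 ⟨hG.act_src _ hact k, by omega⟩)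
      · rw [M.tau_pos a3] at h
        rw [M.tau_pos a1, M.tau_pos a2, M.tau_pos a3, min_add_add_right]
        refine Nat.add_le_add_right (ih (M.tgt c.1) _ _ _ _ 0 hσ'
          (fun k hk => Or.inr (Or.inl (hG.act_tgt _ hact k hk))) (by omega) ?_) _
        simpa [hact] using h
    | false =>
      rw [M.tau_pos a3] at h
      rw [M.tau_pos a1, M.tau_pos a2, M.tau_pos a3, min_add_add_right]
      refine Nat.add_le_add_right (ih (M.tgt c.1) _ _ _ _ t hσ' (fun k hk => ?_) ht ?_) _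
      · rw [ns_isNone]
        have hs := fun h : Rel σ.isNone k (j - i) (u - i) =>
          h.step (M.np_sub a1 a2) (M.np_sub a3 a2)
        rcases hR k hk with h1 | h1 | h1
        · exact Or.inl (hs h1)
        · rcases hG.step _ hact _ h1 with h2 | h2
          · exact Or.inr (Or.inl h2)
          · refine Or.inl (hs ⟨j - i, u - i, fun h3 => not_dvd_of_zero h2 a1.2
              ((dvd_iff_sub hk a2 j).2 h3), ?_, mul_comm _ _⟩)
            rw [← dvd_iff_sub hk a2]
            rcases hσ with rfl | rfl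
            · simpa using (M.pr_dvd hk).trans a3
            · simpa using not_dvd_of_zero h2 a3.2
        · exact Or.inr (Or.inr h1)
      · simpa [hact] using h

lemma sync {need : St → ℕ → Prop} (hG : M.Good need) (ω : List M.Ctl) (s : St) (j i : ℤ)
    (σ : Option St) (u : ℤ) (h : 2 ≤ M.tau ω σ u) :
    min (M.tau ω (some s) j) (M.tau ω none i) ≤ M.tau ω σ u := by
  by_cases hσ : σ = none ∨ σ = some s
  · exact sync1 hG ω s j i σ u 1 hσ (fun _ _ => Or.inr (Or.inr rfl)) le_rfl h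
  · cases ω with
    | nil => simp [tau]
    | cons c ω =>
      have a3 : M.al σ c.1 (c.2 + u) := M.al_of_tau (le_trans (by omega) h)
      cases σ with
      | none => simp at hσ
      | some s' =>
        rw [M.tau_neg (σ := some s) fun a1 => hσ (Or.inr (by rw [← a1.1, ← a3.1]))]
        simp

variable (M) in
def IsPot (pot : St → ℤ → ℕ) : Prop :=
  ∀ md n n', M.ok md n → n * M.mul md = M.N * n' →
    pot (M.tgt md) n' + (if M.act md then 1 else 0) ≤ pot (M.src md) n

lemma min_le_pot {pot : St → ℤ → ℕ} (hp : M.IsPot pot) (ω : List M.Ctl) : ∀ (s : St) (j i : ℤ),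
    min (M.tau ω (some s) j) (M.tau ω none i) ≤ pot s (j - i) := by
  induction ω with
  | nil => intros; simp [tau]
  | cons c ω ih =>
    intro s j i
    by_cases a1 : M.al (some s) c.1 (c.2 + j)
    swap
    · simp [M.tau_neg a1]
    by_cases a2 : M.al none c.1 (c.2 + i)
    swap
    · simp [M.tau_neg a2]
    rw [M.tau_pos a1, M.tau_pos a2, min_add_add_right, ← a1.1]
    exact (Nat.add_le_add_right (ih (M.tgt c.1) _ _) _).trans (hp _ _ _
      (M.ok_congr (fun k hk => dvd_iff_sub hk a2 j) a1.2) (M.np_sub a1 a2))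

end CM

end Pool.Agent.MP_e6aac2_al.H99

end
end

-- part MP_e6aac2_al.H99.Upper
section

/-!
The self-similar group of a counter machine and an upper bound for its Følner function.
-/

noncomputable section

namespace Pool.Agent.MP_e6aac2_al.H99

namespace CM

variable {Md St : Type} (M : CM Md St)

instance : NeZero M.N := ⟨M.N_pos.ne'⟩

open Classical in
def QS (R s : ℕ) : Finset ℕ :=
  insert 0 ((Finset.Icc 1 R).filter fun q => (∃ t, q ∣ M.N ^ t) ∧ 2 ^ s ∣ q)

lemma card_QS (R s : ℕ) : (M.QS R s).card ≤ 2 * (Nat.log 2 R - s + 1) ^ M.B := by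
  classical
  have h1 : ((Finset.Icc 1 R).filter fun q => (∃ t, q ∣ M.N ^ t) ∧ 2 ^ s ∣ q).card ≤
      (Fintype.piFinset fun _ : Fin M.B => Finset.range (Nat.log 2 R - s + 1)).card := by
    refine Finset.card_le_card_of_injOn (fun q k => (q / 2 ^ s).factorization (pr k))
      (fun q hq => ?_) fun q hq q' hq' h => ?_
    · simp only [Finset.coe_filter, Finset.mem_Icc, Set.mem_ofPred_eq] at hq
      obtain ⟨⟨a1, a2⟩, -, y, rfl⟩ := hq
      simp only [Fintype.coe_piFinset, Finset.coe_range, Set.mem_pi, Set.mem_univ, Set.mem_Iio,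
        forall_const]
      intro k
      rw [Nat.mul_div_cancel_left _ (by positivity)]
      have hy : y ≠ 0 := by rintro rfl; simp at a1
      have b1 := Nat.le_of_dvd (Nat.pos_of_ne_zero hy) (Nat.ordProj_dvd y (pr k))
      have b2 := Nat.pow_le_pow_left (pr_prime k).two_le (y.factorization (pr k))
      have b3 : 2 ^ (s + y.factorization (pr k)) ≤ R := by
        rw [pow_add]; exact (Nat.mul_le_mul_left _ (b2.trans b1)).trans a2
      have := Nat.le_log_of_pow_le (by norm_num) b3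
      omega
    · simp only [Finset.coe_filter, Finset.mem_Icc, Set.mem_ofPred_eq] at hq hq'
      obtain ⟨⟨a1, -⟩, ⟨t, ht⟩, y, rfl⟩ := hq
      obtain ⟨⟨a1', -⟩, ⟨t', ht'⟩, y', rfl⟩ := hq'
      simp only [Nat.mul_div_cancel_left _ (show 0 < 2 ^ s by positivity)] at h
      congr 1
      refine Nat.eq_of_factorization_eq (by rintro rfl; simp at a1) (by rintro rfl; simp at a1')
        fun p => ?_
      by_cases hp : ∃ k < M.B, pr k = p
      · obtain ⟨k, hk, rfl⟩ := hp
        exact congrFun h ⟨k, hk⟩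
      · have key : ∀ y t, 2 ^ s * y ∣ M.N ^ t → y.factorization p = 0 := by
          intro y t ht
          by_contra h0
          have p1 := Nat.prime_of_mem_primeFactors (Finsupp.mem_support_iff.2 h0)
          have p2 := p1.dvd_of_dvd_pow ((Nat.dvd_of_factorization_pos h0).trans
            ((dvd_mul_left _ _).trans ht))
          obtain ⟨k, hk, p3⟩ := (Prime.dvd_finsetProd_iff p1.prime _).1 p2
          exact hp ⟨k, Finset.mem_range.1 hk,
            ((Nat.prime_dvd_prime_iff_eq p1 (pr_prime k)).1 p3).symm⟩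
        rw [key y t ht, key y' t' ht']
  rw [Fintype.card_piFinset] at h1
  simp only [Finset.card_range, Finset.prod_const, Finset.card_univ, Fintype.card_fin] at h1
  have h2 : 0 < (Nat.log 2 R - s + 1) ^ M.B := by positivity
  exact (Finset.card_insert_le _ _).trans (by omega)

lemma pattern {ι : Type} (σ : ι → Option St) (R s : ℕ) (ω : List M.Ctl) (C : Prop) {r : ℤ}
    (hr : 0 ≤ r ∧ r ≤ R)
    (href : ∀ i (u : ℤ), 0 ≤ u ∧ u ≤ R → C → M.Al ω (σ i) u → ∃ σ', C ∧ M.Al ω σ' r)
    (hs : 2 ^ s ∣ M.Q ω) : ∃ p : M.QS R s × (ι → ZMod M.N → Bool), ∀ i (u : ℤ), 0 ≤ u ∧ u ≤ R →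
      ((((p.1 : ℕ) : ℤ) ∣ u - r ∧ p.2 i ((u - r) / (p.1 : ℕ) : ℤ) = true) ↔
        C ∧ M.Al ω (σ i) u) := by
  classical
  by_cases hex : ∃ σ', C ∧ M.Al ω σ' r
  swap
  · exact ⟨(⟨0, by simp [QS]⟩, fun _ _ => false), fun i u hu =>
      ⟨fun h => by simp at h, fun h => absurd (href i u hu h.1 h.2) hex⟩⟩
  obtain ⟨σ', hC, hal⟩ := hex
  by_cases hQ : M.Q ω ≤ R
  · refine ⟨(⟨M.Q ω, ?_⟩, fun i y => decide (∃ u', M.Al ω (σ i) u' ∧
      (((u' - r) / M.Q ω : ℤ) : ZMod M.N) = y)), fun i u _ => ⟨fun h => ⟨hC, ?_⟩, fun h => ?_⟩⟩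
    · simp only [QS, Finset.mem_insert, Finset.mem_filter, Finset.mem_Icc]
      exact Or.inr ⟨⟨M.Q_pos ω, hQ⟩, ⟨_, M.Q_dvd_pow ω⟩, hs⟩
    · obtain ⟨⟨a, ha⟩, h2⟩ := h
      obtain ⟨u', h3, h4⟩ := of_decide_eq_true h2
      obtain ⟨a', ha'⟩ := M.Al_dvd ω _ _ _ _ h3 hal
      have hQ0 : (M.Q ω : ℤ) ≠ 0 := by exact_mod_cast (M.Q_pos ω).ne'
      dsimp only at ha h4
      rw [ha, ha', Int.mul_ediv_cancel_left _ hQ0, Int.mul_ediv_cancel_left _ hQ0,
        ZMod.intCast_eq_intCast_iff_dvd_sub] at h4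
      obtain ⟨z, hz⟩ := h4
      have := M.Al_shift ω _ _ z h3
      rwa [show u' + M.N * (M.Q ω * z) = u by linear_combination ha' - ha - M.Q ω * hz] at this
    · exact ⟨M.Al_dvd ω _ _ _ _ h.2 hal, decide_eq_true ⟨u, h.2, rfl⟩⟩
  · refine ⟨(⟨0, by simp [QS]⟩, fun i _ => decide (M.Al ω (σ i) r)), fun i u hu =>
      ⟨fun h => ⟨hC, ?_⟩, fun h => ?_⟩⟩
    · obtain ⟨h1, h2⟩ := h
      simp only [Nat.cast_zero, zero_dvd_iff, sub_eq_zero] at h1
      exact h1 ▸ of_decide_eq_true h2
    · have h1 := Int.eq_zero_of_abs_lt_dvd (M.Al_dvd ω _ _ _ _ h.2 hal)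
        (by rw [abs_lt]; omega)
      exact ⟨by simp [h1], decide_eq_true (sub_eq_zero.1 h1 ▸ h.2)⟩

variable [Fintype Md]

open Classical in
def F : Finset (Option St) :=
  insert none (insert (some M.s0) (Finset.univ.image fun md => some (M.tgt md)))

lemma none_mem : none ∈ M.F := by simp [F]

lemma s0_mem : some M.s0 ∈ M.F := by simp [F]

lemma ns_mem (σ : Option St) (md : Md) : M.ns σ md ∈ M.F := by
  cases σ <;> simp [F, ns]

abbrev Gn (R : ℕ) := M.F × Fin (R + 1)

def evP {R : ℕ} (W : List (M.Gn R × F3 × F3)) : Equiv.Perm (List M.Let) :=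
  (W.map fun q => M.lamp q.1.1 q.2 (q.1.2 : ℕ)).prod

lemma evP_append {R : ℕ} (W W' : List (M.Gn R × F3 × F3)) :
    M.evP (W ++ W') = M.evP W * M.evP W' := by simp [evP]

def boxH (R : ℕ) : Subgroup (Equiv.Perm (List M.Let)) where
  carrier := Set.range (M.evP (R := R))
  mul_mem' := by rintro _ _ ⟨W, rfl⟩ ⟨W', rfl⟩; exact ⟨_, M.evP_append W W'⟩
  one_mem' := ⟨[], rfl⟩
  inv_mem' := by
    rintro _ ⟨W, rfl⟩
    induction W with
    | nil => exact ⟨[], by simp [evP]⟩
    | cons q W ih =>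
      obtain ⟨W', h⟩ := ih
      exact ⟨W' ++ [(q.1, -q.2)], by rw [evP_append, h]; simp [evP, lamp_inv]⟩

lemma evP_spec {R : ℕ} (W : List (M.Gn R × F3 × F3)) (w : List M.Let) :
    M.sig (M.evP W w) = M.sig w ∧ M.dat (M.evP W w) = H99.act (fun g : M.Gn R => g.1.1.isNone)
      (fun g => M.tau (w.map Prod.fst) g.1 (g.2 : ℕ)) W (M.dat w) := by
  induction W with
  | nil => exact ⟨rfl, rfl⟩
  | cons q W ih =>
    have e : M.evP (q :: W) w = M.lampF q.1.1 q.2 (q.1.2 : ℕ) (M.evP W w) := by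
      simp [evP, lamp_apply]
    rw [e, sig_lampF, dat_lampF, ← ctl_sig, ih.1, ctl_sig, ih.2]
    exact ⟨rfl, rfl⟩

variable {M}

lemma card_boxH {need : St → ℕ → Prop} (hG : M.Good need) {pot : St → ℤ → ℕ} (hp : M.IsPot pot)
    (φ : ℕ → ℕ) (R J : ℕ) (hW : ∀ s (n : ℤ), |n| ≤ R → pot s n ≤ J ∨
      (need s 0 ∧ ∃ a : ℕ, emultiplicity 2 n = a ∧ pot s n ≤ φ a + J)) :
    Finite (M.boxH R) ∧ Nat.card (M.boxH R) ≤ 3 ^ (M.F.card * (R + 1) +
      12 * ∑ s ∈ Finset.range (Nat.log 2 R + 1), (R + 1) *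
        (2 * (Nat.log 2 R - s + 1) ^ M.B * (2 ^ M.N) ^ M.F.card) ^ 3 * (φ s + J + 2)) := by
  classical
  let P := Σ s : Fin (Nat.log 2 R + 1), Fin (R + 1) × (Fin 3 → M.QS R s × (M.F → ZMod M.N → Bool))
  have h := card_le_of_types (H := M.boxH R) (P := P) (fun g : M.Gn R => g.1.1.isNone)
    (fun (ω : List M.Ctl) g => M.tau ω g.1 (g.2 : ℕ)) (fun W => ⟨M.evP W, W, rfl⟩)
    (by rintro ⟨_, W, rfl⟩; exact ⟨W, rfl⟩)
    (fun W W' h => Subtype.ext (Equiv.ext fun w => M.ext_sig_dat _ _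
      ((M.evP_spec W w).1.trans (M.evP_spec W' w).1.symm)
      ((M.evP_spec W w).2.trans ((congrFun (h _) _).trans (M.evP_spec W' w).2.symm))))
    (fun p i g => (((p.2.2 i).1 : ℕ) : ℤ) ∣ (g.2 : ℕ) - (p.2.1 : ℕ) ∧
      (p.2.2 i).2 g.1 ((((g.2 : ℕ) : ℤ) - (p.2.1 : ℕ)) / ((p.2.2 i).1 : ℕ) : ℤ) = true)
    (fun p => φ p.1 + J + 1) ?_
  · refine ⟨h.1, h.2.trans (Nat.pow_le_pow_right (by norm_num) (add_le_add (by simp) ?_))⟩
    refine Nat.mul_le_mul_left _ ?_
    rw [Fintype.sum_sigma, Finset.sum_range]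
    refine Finset.sum_le_sum fun s _ => ?_
    simp only [Finset.sum_const, Finset.card_univ, Fintype.card_prod, Fintype.card_fin,
      Fintype.card_pi, Finset.prod_const, Fintype.card_coe, Fintype.card_bool, ZMod.card,
      smul_eq_mul]
    have := M.card_QS R s
    gcongr
  intro ω
  have hbox : ∀ g : M.Gn R, 0 ≤ ((g.2 : ℕ) : ℤ) ∧ ((g.2 : ℕ) : ℤ) ≤ R := fun g =>
    ⟨by positivity, by exact_mod_cast Nat.lt_succ_iff.1 g.2.2⟩
  obtain ⟨gm, -, hgm⟩ := Finset.univ.exists_max_image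
    (fun g : M.Gn R => M.tau ω g.1 (g.2 : ℕ)) ⟨(⟨none, M.none_mem⟩, 0), Finset.mem_univ _⟩
  have main : ∃ (s : Fin (Nat.log 2 R + 1)) (μ : ℕ), 1 ≤ μ ∧ μ ≤ φ s + J + 1 ∧
      (∀ g : M.Gn R, M.tau ω g.1 (g.2 : ℕ) ≤ 1 ∨ μ ≤ M.tau ω g.1 (g.2 : ℕ)) ∧
      (∀ g : M.Gn R, g.1.1.isNone ≠ gm.1.1.isNone → M.tau ω g.1 (g.2 : ℕ) ≤ μ) ∧
      ∀ t, 2 ^ (s : ℕ) ∣ M.Q (M.pre ω (t + 1)) := by
    by_cases h1 : ∀ g : M.Gn R, g.1.1.isNone ≠ gm.1.1.isNone → M.tau ω g.1 (g.2 : ℕ) ≤ 1
    · exact ⟨0, 1, le_rfl, by omega, fun g => by omega, h1, fun _ => by simp⟩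
    push Not at h1
    obtain ⟨g0, a1, a2⟩ := h1
    obtain ⟨g1, b1, b2⟩ := (Finset.univ.filter fun g : M.Gn R =>
      g.1.1.isNone ≠ gm.1.1.isNone).exists_max_image (fun g => M.tau ω g.1 (g.2 : ℕ))
      ⟨g0, by simpa using a1⟩
    simp only [Finset.mem_filter, Finset.mem_univ, true_and] at b1 b2
    have b3 := b2 g0 a1
    have b4 := hgm g1 (Finset.mem_univ _)
    obtain ⟨s', j, i, hj, hi, hm⟩ : ∃ (s' : St) (j i : ℤ), (0 ≤ j ∧ j ≤ R) ∧ (0 ≤ i ∧ i ≤ R) ∧
        min (M.tau ω (some s') j) (M.tau ω none i) = M.tau ω g1.1 (g1.2 : ℕ) := by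
      have c1 := hbox g1
      have c2 := hbox gm
      obtain ⟨⟨_ | s1, _⟩, u1⟩ := g1 <;> obtain ⟨⟨_ | s2, _⟩, u2⟩ := gm
      · simp at b1
      · exact ⟨_, _, _, c2, c1, min_eq_right b4⟩
      · exact ⟨_, _, _, c1, c2, min_eq_left b4⟩
      · simp at b1
    have c1 : ∀ g : M.Gn R, M.tau ω g.1 (g.2 : ℕ) ≤ 1 ∨
        M.tau ω g1.1 (g1.2 : ℕ) ≤ M.tau ω g.1 (g.2 : ℕ) := fun g =>
      (le_or_gt _ 1).imp_right fun h => hm ▸ sync hG ω s' j i _ _ h
    have c2 := min_le_pot hp ω s' j i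
    rcases hW s' (j - i) (by rw [abs_le]; omega) with c3 | ⟨c3, a, c4, c5⟩
    · exact ⟨0, _, by omega, by omega, c1, b2, fun _ => by simp⟩
    · have d1 : (2 : ℤ) ^ a ∣ j - i := pow_dvd_of_le_emultiplicity c4.ge
      have d2 : j - i ≠ 0 := fun h => by simp [h] at c4
      have d3 : 2 ^ a ≤ R := by
        have := Int.le_abs_of_dvd d2 d1
        have : |j - i| ≤ R := by rw [abs_le]; omega
        exact_mod_cast (show (2 : ℤ) ^ a ≤ R by omega)
      refine ⟨⟨a, Nat.lt_succ_of_le (Nat.le_log_of_pow_le (by norm_num) d3)⟩, _, by omega,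
        by dsimp only; omega, c1, b2, fun t => ?_⟩
      have d4 := main_div hG ω s' j i _ t (by omega) (by omega) c3 dvd_rfl
      rw [show (pr 0 : ℤ) = 2 by simp [pr, Nat.nth_prime_zero_eq_two], c4] at d4
      exact_mod_cast pow_dvd_of_le_emultiplicity d4
  obtain ⟨s, μ, m1, m2, m3, m4, m5⟩ := main
  have pat := fun t => M.pattern (fun σ : M.F => σ.1) R s (M.pre ω (t + 1)) (t + 1 ≤ M.na ω)
    (hbox gm) (fun σ u hu h1 h2 => ⟨gm.1, (M.le_tau_iff ω _ _ _).1 (by
      refine le_trans ?_ (hgm (σ, ⟨u.toNat, by omega⟩) (Finset.mem_univ _))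
      simp only [Int.toNat_of_nonneg hu.1]
      exact (M.le_tau_iff ω _ _ _).2 ⟨h1, h2⟩)⟩) (m5 t)
  choose q hq using pat
  exact ⟨⟨s, gm.2, ![q 0, q 1, q μ]⟩, μ, gm.1.1.isNone, m1, m2, m3, m4,
    fun g => (hq 0 g.1 _ (hbox g)).trans (M.le_tau_iff ω _ _ _).symm,
    fun g => (hq 1 g.1 _ (hbox g)).trans (M.le_tau_iff ω _ _ _).symm,
    fun g => (hq μ g.1 _ (hbox g)).trans (M.le_tau_iff ω _ _ _).symm⟩

variable (M)

open Classical in
def gens : Finset (Equiv.Perm (List M.Let)) :=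
  insert (M.tr 1) ((M.F ×ˢ (Finset.univ : Finset (F3 × F3))).image fun p => M.lamp p.1 p.2 0)

lemma mem_gens {g : Equiv.Perm (List M.Let)} : g ∈ M.gens ↔
    g = M.tr 1 ∨ ∃ σ ∈ M.F, ∃ α, g = M.lamp σ α 0 := by
  simp only [gens, Finset.mem_insert, Finset.mem_image, Finset.mem_univ,
    Finset.mem_product, and_true, eq_comm (b := g)]
  refine or_congr_right ⟨?_, ?_⟩
  · rintro ⟨⟨σ, α⟩, h1, h2⟩; exact ⟨σ, h1, α, h2⟩
  · rintro ⟨σ, h1, α, h2⟩; exact ⟨(σ, α), h1, h2⟩

def grp : Subgroup (Equiv.Perm (List M.Let)) := Subgroup.closure (M.gens : Set _)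

open Classical in
def gensG : Finset M.grp := M.gens.subtype (· ∈ M.grp)

lemma mem_gensG {g : M.grp} : g ∈ M.gensG ↔ g.1 ∈ M.gens := by simp [gensG]

lemma closure_gensG : Subgroup.closure (M.gensG : Set M.grp) = ⊤ := by
  have : (M.gensG : Set M.grp) = (↑) ⁻¹' (M.gens : Set (Equiv.Perm (List M.Let))) :=
    Set.ext fun g => M.mem_gensG
  rw [this]
  exact Subgroup.closure_closure_coe_preimage

lemma tr_mem (n : ℤ) : M.tr n ∈ M.grp := by
  rw [tr_zpow]
  exact zpow_mem (Subgroup.subset_closure (M.mem_gens.2 (Or.inl rfl))) _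

lemma lamp_mem {σ : Option St} (hσ : σ ∈ M.F) (α : F3 × F3) (j : ℤ) : M.lamp σ α j ∈ M.grp := by
  rw [← zero_add j, lamp_conj]
  exact mul_mem (mul_mem (inv_mem (M.tr_mem j))
    (Subgroup.subset_closure (M.mem_gens.2 (Or.inr ⟨σ, hσ, α, rfl⟩)))) (M.tr_mem j)

lemma selfSimilar : IsSelfSimilar M.grp := by
  have h1 : ∀ n x, ∃ y, ∃ h ∈ M.grp, ∀ w, M.tr n (x :: w) = y :: h w := fun n x =>
    ⟨_, _, M.tr_mem _, fun _ => rfl⟩
  have h2 : ∀ σ α j x, ∃ y, ∃ h ∈ M.grp, ∀ w, M.lamp σ α j (x :: w) = y :: h w := by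
    intro σ α j x
    by_cases h : M.al σ x.1.1 (x.1.2 + j)
    · exact ⟨_, _, M.lamp_mem (M.ns_mem σ x.1.1) _ _, fun w => by
        rw [lamp_apply, lampF, if_pos h, lamp_apply]⟩
    · exact ⟨_, 1, one_mem _, fun w => by rw [lamp_apply, lampF, if_neg h]; rfl⟩
  intro g hg
  induction hg using Subgroup.closure_induction'' with
  | mem g hg =>
    rcases M.mem_gens.1 hg with rfl | ⟨σ, -, α, rfl⟩
    · exact h1 _
    · exact h2 σ _ _
  | inv_mem g hg =>
    rcases M.mem_gens.1 hg with rfl | ⟨σ, -, α, rfl⟩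
    · rw [← tr_neg]; exact h1 _
    · rw [lamp_inv]; exact h2 σ _ _
  | one => exact fun x => ⟨x, 1, one_mem _, fun _ => rfl⟩
  | mul g h _ _ hg hh =>
    intro x
    obtain ⟨y, h', a1, a2⟩ := hh x
    obtain ⟨z, g', b1, b2⟩ := hg y
    exact ⟨z, g' * h', mul_mem b1 a1, fun w => by simp only [Equiv.Perm.mul_apply, a2, b2]⟩

def trG (n : ℤ) : M.grp := ⟨M.tr n, M.tr_mem n⟩

lemma folner_upper (n R : ℕ) (hR : R = 2 * M.gensG.card * n) (hfin : Finite (M.boxH R)) :
    ∃ E, IsFolner M.gensG n E ∧ E.ncard ≤ (R + 1) * Nat.card (M.boxH R) := by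
  have hle : M.boxH R ≤ M.grp := by
    rintro _ ⟨W, rfl⟩
    refine list_prod_mem fun g hg => ?_
    obtain ⟨q, -, rfl⟩ := List.mem_map.1 hg
    exact M.lamp_mem q.1.1.2 _ _
  have e := (Subgroup.subgroupOfEquivOfLe hle).toEquiv
  have : Finite ((M.boxH R).subgroupOf M.grp) := Finite.of_equiv _ e.symm
  obtain ⟨E, hE, hc⟩ := exists_folner_box (K := Unit) M.gensG n (fun a => M.trG (a ()))
    (fun a b => Subtype.ext (M.tr_add _ _)) ((M.boxH R).subgroupOf M.grp) (by
      intro s hs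
      rcases M.mem_gens.1 (M.mem_gensG.1 hs) with h | ⟨σ, hσ, α, h⟩
      · exact Or.inl ⟨(), Subtype.ext h⟩
      · refine Or.inr fun a ha => ?_
        rw [Subgroup.mem_subgroupOf]
        simp only [Subgroup.coe_mul, Subgroup.coe_inv, h, trG]
        rw [← lamp_conj, zero_add]
        have := ha ()
        refine ⟨[((⟨σ, hσ⟩, ⟨(a ()).toNat, by omega⟩), α)], ?_⟩
        simp [evP, max_eq_left this.1])
  refine ⟨E, hE, hc.trans ?_⟩
  rw [Nat.card_congr e, ← hR]
  simp

end CM

end Pool.Agent.MP_e6aac2_al.H99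

end
end

-- part MP_e6aac2_al.H99.Lower
section

/-!
A lower bound for the Følner function of the group of a counter machine.
-/

noncomputable section

namespace Pool.Agent.MP_e6aac2_al.H99

def e0 : Sq := CM.scons (fun b => if b then 1 else 0) 0

def sd (j : ℕ) : Bool := decide (j % 2 = 1)

lemma sd_succ (j : ℕ) : sd (j + 1) = !sd j := by
  unfold sd
  rcases Nat.mod_two_eq_zero_or_one j with h | h <;> simp [h, Nat.add_mod]

def altS (m : ℕ) : List Bool → Sq
  | [] => e0
  | ε :: l => U (sd l.length) (if ε then (1, 0) else -(1, 0)) m (altS m l)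

lemma altS_inv (m : ℕ) (l : List Bool) (hl : l.length < m) :
    altS m l l.length (!sd l.length) ≠ 0 ∧ ∀ t, l.length < t → ∀ b, altS m l t b = 0 := by
  induction l with
  | nil =>
    refine ⟨by simp [altS, e0, CM.scons, sd], fun t ht b => ?_⟩
    obtain ⟨t, rfl⟩ : ∃ s, t = s + 1 := ⟨t - 1, by simp at ht; omega⟩
    rfl
  | cons ε l ih =>
    rw [List.length_cons] at hl ⊢
    obtain ⟨h1, h2⟩ := ih (by omega)
    constructor
    · simp only [altS, U, sd_succ, Bool.not_not, hl, and_self, if_true, cr,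
        h2 _ (Nat.lt_succ_self _), zero_add]
      cases ε <;> simpa using h1
    · intro t ht b
      obtain ⟨t, rfl⟩ : ∃ s, t = s + 1 := ⟨t - 1, by omega⟩
      simp [altS, U, cr, h2 (t + 1) (by omega), h2 t (by omega)]

lemma altS_inj (m : ℕ) (l : List Bool) : ∀ l' : List Bool, l.length = l'.length → l.length < m →
    altS m l = altS m l' → l = l' := by
  induction l with
  | nil => intro l' h _ _; exact (List.length_eq_zero_iff.1 h.symm).symm
  | cons ε l ih =>
    intro l' h hl he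
    cases l' with
    | nil => simp at h
    | cons ε' l' =>
      simp only [List.length_cons, add_left_inj] at h hl
      obtain ⟨h1, h2⟩ := altS_inv m l (by omega)
      obtain ⟨-, h4⟩ := altS_inv m l' (by omega)
      simp only [altS, ← h] at he h4
      have h5 := congrFun (congrFun he l.length) (!sd l.length)
      have h6 := congrFun (congrFun he (l.length + 1)) (sd l.length)
      simp only [U, Bool.not_eq_self, false_and, if_false, add_zero] at h5
      simp only [U, hl, and_self, if_true, cr, h2 _ (Nat.lt_succ_self _),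
        h4 _ (Nat.lt_succ_self _), zero_add, ← h5] at h6
      have h7 := mul_right_cancel₀ h1 h6
      obtain rfl : ε = ε' := by
        revert h7
        cases ε <;> cases ε' <;> simp <;> decide
      have h8 := congrArg (U (sd l.length) (-(if ε then (1, 0) else -(1, 0))) m) he
      rw [CM.U_add, CM.U_add, neg_add_cancel, CM.U_zero', CM.U_zero'] at h8
      rw [ih l' h (by omega) h8]

namespace CM

variable {Md St : Type} (M : CM Md St)

def Run : St → ℤ → List Md → Prop
  | _, _, [] => True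
  | s, n, md :: L => M.src md = s ∧ M.ok md n ∧ Run (M.tgt md) (M.np md n) L

def om (L : List Md) : List M.Ctl := L.map fun md => (md, 0)

lemma tau_run (L : List Md) : ∀ s n, M.Run s n L → M.tau (M.om L) (some s) n = L.countP M.act := by
  induction L with
  | nil => intros; rfl
  | cons md L ih =>
    intro s n h
    have e : ((0 : Fin M.N) : ℕ) + n = n := by simp
    rw [om, List.map_cons, M.tau_pos (by rw [e]; exact ⟨h.1, h.2.1⟩), e, List.countP_cons]
    exact congrArg (· + _) (ih _ _ h.2.2)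

lemma tau_ref (L : List Md) : M.tau (M.om L) none 0 = L.countP M.act := by
  induction L with
  | nil => rfl
  | cons md L ih =>
    rw [om, List.map_cons, M.tau_pos (by simp [al]), List.countP_cons]
    simpa [np, ns, om] using ih

lemma exists_dat_zero (ω : List M.Ctl) : ∃ w, w.map Prod.fst = ω ∧ M.dat w = 0 := by
  induction ω with
  | nil => exact ⟨[], rfl, rfl⟩
  | cons c ω ih =>
    obtain ⟨w, h1, h2⟩ := ih
    refine ⟨(c, 0) :: w, by simp [h1], ?_⟩
    simp only [dat, h2]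
    split_ifs
    · funext t; cases t <;> rfl
    · rfl

lemma exists_dat (L : List Md) (h : 0 < L.countP M.act) :
    ∃ w, w.map Prod.fst = M.om L ∧ M.dat w = e0 := by
  induction L with
  | nil => simp at h
  | cons md L ih =>
    cases e : M.act md with
    | true =>
      obtain ⟨w, h1, h2⟩ := M.exists_dat_zero (M.om L)
      exact ⟨((md, 0), fun b => if b then 1 else 0) :: w, by simp [h1, om],
        by simp [dat, e, h2, e0]⟩
    | false =>
      obtain ⟨w, h1, h2⟩ := ih (by simpa [List.countP_cons, e] using h)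
      exact ⟨((md, 0), 0) :: w, by simp [h1, om], by simp [dat, e, h2]⟩

lemma conj_lamp (σ : Option St) (α : F3 × F3) (j n : ℤ) :
    M.tr n * M.lamp σ α j * (M.tr n)⁻¹ = M.lamp σ α (j - n) := by
  have := M.lamp_conj σ α (j - n) n
  rw [sub_add_cancel] at this
  rw [this]; group

/-- permutations all of whose translates preserve the control word -/
def Cc : Subgroup (Equiv.Perm (List M.Let)) where
  carrier := {g | ∀ (n : ℤ) w, ((M.tr n * g * (M.tr n)⁻¹) w).map Prod.fst = w.map Prod.fst}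
  mul_mem' := by
    intro g h hg hh n w
    rw [← hh n w, ← hg n ((M.tr n * h * (M.tr n)⁻¹) w)]
    simp
  one_mem' := by intro n w; simp
  inv_mem' := by
    intro g hg n w
    rw [← hg n]
    simp

lemma lamp_mem_Cc (σ : Option St) (α : F3 × F3) (j : ℤ) : M.lamp σ α j ∈ M.Cc := by
  intro n w
  rw [conj_lamp, lamp_apply, ctl_lampF]

def lampS (ω : List M.Ctl) (σ : Option St) (α : F3 × F3) (j : ℤ) :
    Equiv.Perm {w : List M.Let // w.map Prod.fst = ω} :=
  (M.lamp σ α j).subtypePerm fun w => by rw [lamp_apply, ctl_lampF]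

lemma lampS_cube (ω : List M.Ctl) (σ : Option St) (α : F3 × F3) (j : ℤ) :
    M.lampS ω σ α j ^ 3 = 1 := by
  rw [lampS, Equiv.Perm.subtypePerm_pow]
  ext w
  simp [lamp_cube]

lemma lampS_dead {ω : List M.Ctl} {σ : Option St} (α : F3 × F3) {j : ℤ} (h : M.tau ω σ j = 0) :
    M.lampS ω σ α j = 1 :=
  Equiv.ext fun w => Subtype.ext (M.ext_sig_dat _ _ (M.sig_lampF _ _ _ _)
    ((M.dat_lampF _ _ _ _).trans (by rw [w.2, h, U_zero]; rfl)))

lemma dat_altW {L : List Md} {s : St} {n : ℤ} (h : M.Run s n L)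
    (w : {w : List M.Let // w.map Prod.fst = M.om L}) (hw : M.dat w.1 = e0) (l : List Bool) :
    M.dat (altW (M.lampS _ (some s) (1, 0) n) (M.lampS _ none (1, 0) 0) l w).1 =
      altS (L.countP M.act) l := by
  induction l with
  | nil => exact hw
  | cons ε l ih =>
    rw [altW, altS, ← ih, Equiv.Perm.mul_apply]
    generalize altW (M.lampS _ (some s) (1, 0) n) (M.lampS _ none (1, 0) 0) l w = w'
    have h1 := fun α => M.dat_lampF w'.1 (some s) α n
    have h2 := fun α => M.dat_lampF w'.1 none α 0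
    rw [w'.2] at h1 h2
    rw [M.tau_run L s n h] at h1
    rw [M.tau_ref L] at h2
    unfold gen sd
    rcases Nat.mod_two_eq_zero_or_one l.length with e | e <;> cases ε <;>
      simp only [e, if_true, if_false, Bool.false_eq_true, one_ne_zero]
    · exact h1 _
    · exact h1 _
    · exact h2 _
    · exact h2 _

variable [Fintype Md]

def piH (ω : List M.Ctl) (q : ℕ) : M.Cc.comap M.grp.subtype →*
    (Fin q → Equiv.Perm {w : List M.Let // w.map Prod.fst = ω}) :=
  MonoidHom.mk' (fun h i => (M.tr (i : ℕ) * h.1.1 * (M.tr (i : ℕ))⁻¹).subtypePerm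
    fun w => (h.2 (i : ℕ) w).congr_left) fun g h => by
      funext i
      refine Equiv.ext fun w => Subtype.ext ?_
      show M.tr _ ((g.1.1 * h.1.1) _) = _
      simp

lemma piH_lamp (ω : List M.Ctl) (q : ℕ) {σ : Option St} (hσ : σ ∈ M.F) (α : F3 × F3) (j : ℤ)
    (i : Fin q) : M.piH ω q ⟨⟨_, M.lamp_mem hσ α j⟩, M.lamp_mem_Cc σ α j⟩ i =
      M.lampS ω σ α (j - (i : ℕ)) :=
  Equiv.ext fun w => Subtype.ext (congrArg (fun g => g w.1) (M.conj_lamp σ α j (i : ℕ)))

lemma bd_lamp {E : Set M.grp} (hE : E.Finite) {β : ℕ} (hβ : ∀ s ∈ M.gensG, bd E s ≤ β)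
    {σ : Option St} (hσ : σ ∈ M.F) (α : F3 × F3) (j : ℕ) :
    bd E ⟨_, M.lamp_mem hσ α j⟩ ≤ (2 * j + 1) * β := by
  have e : (⟨_, M.lamp_mem hσ α j⟩ : M.grp) =
      (M.trG 1 ^ j)⁻¹ * ⟨_, M.lamp_mem hσ α 0⟩ * M.trG 1 ^ j := by
    refine Subtype.ext ?_
    have := M.lamp_conj σ α 0 j
    rw [zero_add, tr_zpow, zpow_natCast] at this
    exact this
  have h1 := bd_mul hE ((M.trG 1 ^ j)⁻¹ * ⟨_, M.lamp_mem hσ α 0⟩) (M.trG 1 ^ j)
  have h2 := bd_mul hE (M.trG 1 ^ j)⁻¹ ⟨_, M.lamp_mem hσ α 0⟩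
  rw [bd_inv hE] at h2
  have h3 := (bd_pow hE (M.trG 1) j).trans (Nat.mul_le_mul_left _
    (hβ _ (M.mem_gensG.2 (M.mem_gens.2 (Or.inl rfl)))))
  have h4 := hβ ⟨_, M.lamp_mem hσ α 0⟩ (M.mem_gensG.2 (M.mem_gens.2 (Or.inr ⟨σ, hσ, α, rfl⟩)))
  rw [e]
  nlinarith

variable {M}

theorem folner_lower {need : St → ℕ → Prop} (hG : M.Good need) (hn : need M.s0 0) {s k n : ℕ}
    {L : List Md} (hr : M.Run M.s0 (2 ^ s) L) (hk : 2 * k < L.countP M.act) (hN : 32 * 2 ^ s ≤ n)
    {E : Set M.grp} (hE : IsFolner M.gensG n E) : (2 ^ k) ^ 2 ^ s ≤ E.ncard ^ 2 := by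
  obtain ⟨hfin, hne, hE⟩ := isFolner_iff.1 hE
  have hdead : ∀ σ (u : ℤ), ¬ (2 : ℤ) ^ s ∣ u → M.tau (M.om L) σ u = 0 := by
    intro σ u hu
    by_contra h
    have h1 := (M.le_tau_iff (M.om L) 1 σ u).1 (by omega)
    have h2 : 1 ≤ M.tau (M.om L) none 0 := by rw [tau_ref]; omega
    have h3 := main_div hG (M.om L) M.s0 (2 ^ s) 0 (u - 0) 0 (by rw [M.tau_run L _ _ hr]; omega)
      h2 hn (M.Al_dvd _ _ _ _ _ h1.2 ((M.le_tau_iff (M.om L) 1 none 0).1 h2).2)
    rw [show (pr 0 : ℤ) = 2 by simp [pr, Nat.nth_prime_zero_eq_two], sub_zero, sub_zero] at h3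
    exact hu (pow_dvd_of_le_emultiplicity ((le_emultiplicity_of_pow_dvd dvd_rfl).trans h3))
  have hnd : ∀ i i' : Fin (2 ^ s), i' ≠ i → ¬ (2 : ℤ) ^ s ∣ ((i : ℕ) : ℤ) - (i' : ℕ) := by
    intro i i' hi h
    have h1 : ((i : ℕ) : ℤ) < 2 ^ s := by exact_mod_cast i.2
    have h2 : ((i' : ℕ) : ℤ) < 2 ^ s := by exact_mod_cast i'.2
    have := Int.eq_zero_of_abs_lt_dvd h (by rw [abs_lt]; omega)
    exact hi (Fin.ext (by omega))
  obtain ⟨w0, hw0, hd0⟩ := M.exists_dat L (by omega)
  obtain ⟨t, ht, hβ⟩ := M.gensG.exists_max_image (bd E)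
    ⟨M.trG 1, M.mem_gensG.2 (M.mem_gens.2 (Or.inl rfl))⟩
  have h := prod_iso _ (M.piH (M.om L) (2 ^ s))
    (fun i => ⟨⟨_, M.lamp_mem M.s0_mem (1, 0) ((2 ^ s + i : ℕ) : ℤ)⟩, M.lamp_mem_Cc _ _ _⟩)
    (fun i => ⟨⟨_, M.lamp_mem M.none_mem (1, 0) (i : ℕ)⟩, M.lamp_mem_Cc _ _ _⟩)
    (M.lampS _ (some M.s0) (1, 0) (2 ^ s)) (M.lampS _ none (1, 0) 0) (V := 2 ^ k) ?_ ?_
    (by positivity) (fun S h1 h2 => iso_exp (M.lampS_cube _ _ _ _) (M.lampS_cube _ _ _ _)
      (fun l l' a1 a2 a3 => altS_inj (L.countP M.act) l l' a1 (by omega) (by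
        rw [← M.dat_altW hr ⟨w0, hw0⟩ hd0, a3, M.dat_altW hr ⟨w0, hw0⟩ hd0])) h1 h2) hfin hne ?_
  · simpa using h
  · intro i
    funext i'
    rw [M.piH_lamp _ _ M.s0_mem]
    by_cases hi : i' = i
    · subst hi; simp
    · rw [Pi.mulSingle_eq_of_ne hi]
      refine M.lampS_dead _ (hdead _ _ fun h => hnd i i' hi ?_)
      push_cast at h
      rwa [add_sub_assoc, dvd_add_right dvd_rfl] at h
  · intro i
    funext i'
    rw [M.piH_lamp _ _ M.none_mem]
    by_cases hi : i' = i
    · subst hi; simp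
    · rw [Pi.mulSingle_eq_of_ne hi]
      exact M.lampS_dead _ (hdead _ _ (hnd i i' hi))
  · intro i
    have h1 := M.bd_lamp hfin hβ M.s0_mem (1, 0) (2 ^ s + i)
    have h2 := M.bd_lamp hfin hβ M.none_mem (1, 0) i
    have h3 := hE t ht
    have h4 := i.2
    have h5 := Nat.mul_le_mul_right (2 * bd E t) hN
    have h6 := Nat.mul_le_mul_right (bd E t) (show (i : ℕ) + 1 ≤ 2 ^ s from h4)
    dsimp only
    nlinarith

end CM

end Pool.Agent.MP_e6aac2_al.H99

end
end

-- part MP_e6aac2_al.H99.Prog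
section

/-!
Counter programs compute all primitive recursive functions.
-/

namespace Pool.Agent.MP_e6aac2_al.H99

open Function

inductive Prog
  | skip
  | inc (k : ℕ)
  | seq (p q : Prog)
  | whl (k : ℕ) (p : Prog)

abbrev Cfg := ℕ → ℕ

inductive Ev : Prog → Cfg → Cfg → Prop
  | skip (v : Cfg) : Ev .skip v v
  | inc (k : ℕ) (v : Cfg) : Ev (.inc k) v (update v k (v k + 1))
  | seq {p q : Prog} {u v w : Cfg} : Ev p u v → Ev q v w → Ev (.seq p q) u w
  | whl0 {k : ℕ} (p : Prog) {v : Cfg} : v k = 0 → Ev (.whl k p) v v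
  | whl1 {k : ℕ} {p : Prog} {u v w : Cfg} : u k ≠ 0 → Ev p (update u k (u k - 1)) v →
      Ev (.whl k p) v w → Ev (.whl k p) u w

lemma Ev.det {p : Prog} {u v : Cfg} (h : Ev p u v) : ∀ {v'}, Ev p u v' → v = v' := by
  induction h with
  | skip => intro _ h; cases h; rfl
  | inc => intro _ h; cases h; rfl
  | seq _ _ ih1 ih2 =>
    intro _ h
    cases h with
    | seq h1 h2 => obtain rfl := ih1 h1; exact ih2 h2
  | whl0 _ h0 =>
    intro _ h
    cases h with
    | whl0 => rfl
    | whl1 h1 => exact absurd h0 h1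
  | whl1 h0 _ _ ih1 ih2 =>
    intro _ h
    cases h with
    | whl0 _ h1 => exact absurd h1 h0
    | whl1 _ h1 h2 => obtain rfl := ih1 h1; exact ih2 h2

lemma Ev.cast {p : Prog} {u v u' v' : Cfg} (h : Ev p u v) (h1 : u = u') (h2 : v = v') :
    Ev p u' v' := h1 ▸ h2 ▸ h

lemma whl_iter (k : ℕ) (p : Prog) (n : ℕ) : ∀ w : ℕ → Cfg, w n k = 0 →
    (∀ j < n, w j k ≠ 0 ∧ Ev p (update (w j) k (w j k - 1)) (w (j + 1))) →
      Ev (.whl k p) (w 0) (w n) := by
  induction n with
  | zero => exact fun w h _ => .whl0 p h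
  | succ n ih =>
    intro w h0 h
    exact .whl1 (h 0 (by omega)).1 (h 0 (by omega)).2
      (ih (fun j => w (j + 1)) h0 fun j hj => h (j + 1) (by omega))

def incs : List ℕ → Prog
  | [] => .skip
  | k :: l => .seq (.inc k) (incs l)

lemma ev_incs (l : List ℕ) : ∀ v : Cfg, Ev (incs l) v fun k => v k + l.count k := by
  induction l with
  | nil => exact fun v => .skip v
  | cons a l ih =>
    intro v
    refine ((Ev.inc a v).seq (ih _)).cast rfl (funext fun k => ?_)
    simp only [update_apply, List.count_cons, beq_iff_eq]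
    split_ifs <;> subst_vars <;> omega

lemma ev_drain {a : ℕ} {l : List ℕ} (ha : a ∉ l) (v : Cfg) :
    Ev (.whl a (incs l)) v fun k => if k = a then 0 else v k + l.count k * v a := by
  refine (whl_iter a (incs l) (v a)
    (fun j k => if k = a then v a - j else v k + l.count k * j) (by simp) fun j hj =>
      ⟨by simp; omega, (ev_incs l _).cast rfl (funext fun k => ?_)⟩).cast ?_ ?_
  · by_cases hk : k = a
    · subst hk; simp [List.count_eq_zero_of_not_mem ha]; omega
    · simp [hk]; ring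
  · funext k; split_ifs <;> simp_all
  · funext k; simp

lemma ev_clr (a : ℕ) (v : Cfg) : Ev (.whl a .skip) v (update v a 0) :=
  (ev_drain (l := []) (by simp) v).cast rfl (funext fun k => by simp [update_apply])

def mv (a b : ℕ) : Prog := .whl a (incs [b])

lemma ev_mv {a b : ℕ} (h : a ≠ b) (v : Cfg) :
    Ev (mv a b) v (update (update v b (v b + v a)) a 0) := by
  refine (ev_drain (l := [b]) (by simpa using h) v).cast rfl (funext fun k => ?_)
  simp only [update_apply, List.count_cons, beq_iff_eq, List.count_nil]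
  split_ifs <;> subst_vars <;> omega

def copy (a o t : ℕ) : Prog := .seq (.whl a (incs [o, t])) (mv t a)

lemma ev_copy {a o t : ℕ} (h1 : a ≠ o) (h2 : a ≠ t) (h3 : o ≠ t) {v : Cfg} (hv : v t = 0) :
    Ev (copy a o t) v (update v o (v o + v a)) := by
  refine ((ev_drain (l := [o, t]) (by simp [h1, h2]) v).seq (ev_mv h2.symm _)).cast rfl
    (funext fun k => ?_)
  simp only [update_apply, List.count_cons, beq_iff_eq, List.count_nil]
  split_ifs <;> subst_vars <;> omega

def clrs (a : ℕ) : ℕ → Prog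
  | 0 => .skip
  | n + 1 => .seq (clrs a n) (.whl (a + n) .skip)

lemma ev_clrs (a n : ℕ) (v : Cfg) :
    Ev (clrs a n) v fun k => if a ≤ k ∧ k < a + n then 0 else v k := by
  induction n with
  | zero => exact (Ev.skip v).cast rfl (funext fun k => by rw [if_neg (by omega)])
  | succ n ih =>
    refine (ih.seq (ev_clr _ _)).cast rfl (funext fun k => ?_)
    simp only [update_apply]
    split_ifs <;> first | rfl | omega

def Comp (n : ℕ) (f : List.Vector ℕ n → ℕ) : Prop :=
  ∀ (inp : Fin n → ℕ) (o b : ℕ), (∀ i, inp i < b) → o < b → (∀ i, inp i ≠ o) →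
    ∃ P, ∀ v : Cfg, (∀ k, b ≤ k → v k = 0) →
      Ev P v (update v o (v o + f (List.Vector.ofFn fun i => v (inp i))))

theorem comp_of_primrec {n : ℕ} {f : List.Vector ℕ n → ℕ} (hf : Nat.Primrec' f) : Comp n f := by
  induction hf with
  | zero => exact fun inp o b _ _ _ => ⟨.skip, fun v _ => (Ev.skip v).cast rfl (by simp)⟩
  | succ =>
    intro inp o b h1 h2 h3
    refine ⟨.seq (copy (inp 0) o b) (.inc o), fun v hv =>
      ((ev_copy (h3 0) (h1 0).ne h2.ne (hv b le_rfl)).seq (.inc _ _)).cast rfl ?_⟩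
    simp [add_assoc]
  | get i =>
    intro inp o b h1 h2 h3
    exact ⟨copy (inp i) o b, fun v hv =>
      (ev_copy (h3 i) (h1 i).ne h2.ne (hv b le_rfl)).cast rfl (by simp)⟩
  | @comp m n f g _ _ hf hg =>
    intro inp o b h1 h2 h3
    let G : Cfg → ℕ → ℕ := fun v i =>
      if h : i < n then g ⟨i, h⟩ (List.Vector.ofFn fun i => v (inp i)) else 0
    have key : ∀ j ≤ n, ∃ P, ∀ v : Cfg, (∀ k, b ≤ k → v k = 0) →
        Ev P v fun k => if b ≤ k ∧ k < b + j then G v (k - b) else v k := by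
      intro j
      induction j with
      | zero => exact fun _ => ⟨.skip, fun v _ =>
          (Ev.skip v).cast rfl (funext fun k => by rw [if_neg (by omega)])⟩
      | succ j ih =>
        intro hj
        obtain ⟨P, hP⟩ := ih (by omega)
        obtain ⟨P', hP'⟩ := hg ⟨j, hj⟩ inp (b + j) (b + n) (fun i => by have := h1 i; omega)
          (by omega) (fun i => by have := h1 i; omega)
        refine ⟨.seq P P', fun v hv => ((hP v hv).seq (hP' _ fun k hk => ?_)).cast rfl
          (funext fun k => ?_)⟩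
        · rw [if_neg (by omega), hv k (by omega)]
        · have e : (fun i => if b ≤ inp i ∧ inp i < b + j then G v (inp i - b) else v (inp i)) =
              fun i => v (inp i) := funext fun i => if_neg (by have := h1 i; omega)
          rw [e, update_apply]
          split_ifs with a1 a2 a3 a4 a5 a6 <;> try first | rfl | omega
          subst a1
          simp [G, hv (b + j) (by omega), show j < n from hj]
    obtain ⟨P, hP⟩ := key n le_rfl
    obtain ⟨P', hP'⟩ := hf (fun i => b + i) o (b + n) (fun i => by have := i.2; omega) (by omega)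
      (fun i => by omega)
    refine ⟨.seq P (.seq P' (clrs b n)), fun v hv => ((hP v hv).seq ((hP' _ fun k hk => ?_).seq
      (ev_clrs b n _))).cast rfl (funext fun k => ?_)⟩
    · rw [if_neg (by omega), hv k (by omega)]
    · have e : (fun i : Fin n => if b ≤ b + i ∧ b + i < b + n then G v (b + i - b) else v (b + i)) =
          fun i => g i (List.Vector.ofFn fun i => v (inp i)) := funext fun i => by
        rw [if_pos (by have := i.2; omega)]
        simp [G]
      rw [e, update_apply, update_apply]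
      split_ifs <;> first | rfl | omega | exact (hv k (by omega)).symm
  | @prec n f g _ _ hf hg =>
    intro inp o b h1 h2 h3
    obtain ⟨Pf, hPf⟩ := hf (fun i => inp i.succ) (b + 1) (b + 4)
      (fun i => by have := h1 i.succ; omega) (by omega) (fun i => by have := h1 i.succ; omega)
    obtain ⟨Pg, hPg⟩ := hg (Fin.cons b (Fin.cons (b + 1) fun i => inp i.succ)) (b + 3) (b + 4)
      (by
        refine Fin.cases (by simp) (Fin.cases (by simp) fun i => ?_)
        have := h1 i.succ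
        simp; omega) (by omega)
      (by
        refine Fin.cases (by simp) (Fin.cases (by simp) fun i => ?_)
        have := h1 i.succ
        simp; omega)
    refine ⟨.seq (copy (inp 0) (b + 2) (b + 3)) (.seq Pf (.seq (.whl (b + 2)
      (.seq Pg (.seq (.whl (b + 1) .skip) (.seq (mv (b + 3) (b + 1)) (.inc b)))))
      (.seq (mv (b + 1) o) (.whl b .skip)))), fun v hv => ?_⟩
    have i0 := h1 0
    let tl : List.Vector ℕ n := List.Vector.ofFn fun i => v (inp i.succ)
    let r : ℕ → ℕ := fun j => j.rec (f tl) fun y IH => g (y ::ᵥ IH ::ᵥ tl)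
    let w : ℕ → Cfg := fun j k =>
      if k = b then j else if k = b + 1 then r j else if k = b + 2 then v (inp 0) - j else v k
    have e1 := ev_copy (a := inp 0) (o := b + 2) (t := b + 3) (by omega) (by omega) (by omega)
      (hv _ (by omega))
    have e2 := hPf (update v (b + 2) (v (b + 2) + v (inp 0))) fun k hk => by
      rw [update_of_ne (by omega), hv k (by omega)]
    have e3 := whl_iter (b + 2) (.seq Pg (.seq (.whl (b + 1) .skip) (.seq (mv (b + 3) (b + 1))
        (.inc b)))) (v (inp 0)) w (by simp [w]) fun j hj => ⟨by simp [w]; omega, by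
      refine ((hPg _ fun k hk => ?_).seq ((ev_clr _ _).seq ((ev_mv (by omega) _).seq
        (.inc _ _)))).cast rfl (funext fun k => ?_)
      · rw [update_of_ne (by omega)]
        simp only [w]
        rw [if_neg (by omega), if_neg (by omega), if_neg (by omega), hv k (by omega)]
      · have e : (List.Vector.ofFn fun i => update (w j) (b + 2) (w j (b + 2) - 1)
            ((Fin.cons b (Fin.cons (b + 1) fun i => inp i.succ) : Fin (n + 2) → ℕ) i)) =
            j ::ᵥ r j ::ᵥ tl := by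
          simp only [List.Vector.ofFn, Fin.cons_zero, Fin.cons_succ]
          congr 1
          · simp [w]
          · congr 1
            · simp [w]
            · congr 1
              funext i
              have := h1 i.succ
              rw [update_of_ne (by omega)]
              simp only [w]
              rw [if_neg (by omega), if_neg (by omega), if_neg (by omega)]
        rw [e]
        have := hv (b + 3) (by omega)
        simp only [update_apply, w]
        split_ifs <;> subst_vars <;> first | omega | simp_all [r]⟩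
    refine (e1.seq (e2.seq ((e3.cast (funext fun k => ?_) rfl).seq ((ev_mv (by omega) _).seq
      (ev_clr _ _))))).cast rfl (funext fun k => ?_)
    · have e : (fun i : Fin n => update v (b + 2) (v (b + 2) + v (inp 0)) (inp i.succ)) =
          fun i => v (inp i.succ) := funext fun i => update_of_ne (by have := h1 i.succ; omega) _ _
      rw [e]
      have := hv b (by omega)
      have := hv (b + 1) (by omega)
      have := hv (b + 2) (by omega)
      simp only [update_apply, w]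
      split_ifs <;> subst_vars <;> first | omega | simp_all [r, tl]
    · have := hv b (by omega)
      have := hv (b + 1) (by omega)
      have := hv (b + 2) (by omega)
      simp only [update_apply, w, List.Vector.head_ofFn, List.Vector.tail_ofFn]
      split_ifs <;> subst_vars <;> first | omega | simp_all [r, tl]

end Pool.Agent.MP_e6aac2_al.H99

end

-- part MP_e6aac2_al.H99.Mach
section

/-!
Counter configurations of integers, and the machine that guesses a number, checks it with a counter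
program and then counts it down.
-/

noncomputable section

namespace Pool.Agent.MP_e6aac2_al.H99

open Function

def Ins.stp : Ins → Cfg → Cfg
  | .inc k, v => update v k (v k + 1)
  | .dec k, v => update v k (v k - 1)
  | _, v => v

def Ins.okC : Ins → Cfg → Prop
  | .dec k, v => v k ≠ 0
  | .zero k, v => v k = 0
  | _, _ => True

namespace CM

variable {Md St : Type} (M : CM Md St)

def cfg (n : ℤ) : Cfg := fun k => if k < M.B then n.natAbs.factorization (pr k) else 0

lemma ok_iff (md : Md) {n : ℤ} (hn : n ≠ 0) : M.ok md n ↔ (M.ins md).okC (M.cfg n) := by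
  have h := M.reg_lt md
  have key : ∀ k < M.B, (pr k : ℤ) ∣ n ↔ M.cfg n k ≠ 0 := fun k hk => by
    rw [cfg, if_pos hk, Int.natCast_dvd,
      (pr_prime k).dvd_iff_one_le_factorization (Int.natAbs_ne_zero.2 hn)]
    omega
  unfold ok
  cases e : M.ins md <;> simp only [e, Ins.reg, Ins.okC] at h ⊢
  · exact key _ h
  · rw [key _ h, not_not]

lemma cfg_mul {n : ℤ} (hn : n ≠ 0) {k : ℕ} (hk : k < M.B) :
    M.cfg (n * pr k) = update (M.cfg n) k (M.cfg n k + 1) := by
  funext j
  simp only [cfg, Int.natAbs_mul, Int.natAbs_natCast, update_apply,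
    Nat.factorization_mul (Int.natAbs_ne_zero.2 hn) (pr_prime k).ne_zero,
    (pr_prime k).factorization, Finsupp.add_apply, Finsupp.single_apply, pr_inj.eq_iff]
  split_ifs <;> subst_vars <;> first | rfl | omega

lemma cfg_step (md : Md) {n n' : ℤ} (hn : n ≠ 0) (h : n * M.mul md = M.N * n') :
    n' ≠ 0 ∧ M.cfg n' = (M.ins md).stp (M.cfg n) := by
  have hn' : n' ≠ 0 := by
    rintro rfl
    exact mul_ne_zero hn (by exact_mod_cast (M.mul_pos md).ne') (h.trans (mul_zero _))
  refine ⟨hn', ?_⟩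
  have h1 := M.reg_lt md
  unfold mul at h
  cases e : M.ins md <;> simp only [e, Ins.reg, Ins.stp] at h1 h ⊢
  · rw [← M.cfg_mul hn h1]
    congr 1
    refine mul_left_cancel₀ M.N_ne ?_
    rw [← h]; push_cast; ring
  · rename_i k
    obtain ⟨c, hc⟩ := M.pr_dvd h1
    have hc0 : c ≠ 0 := by rintro rfl; exact M.N_ne (hc.trans (mul_zero _))
    push_cast at h
    rw [hc, Int.mul_ediv_cancel_left _ (pr_primeZ k).ne_zero] at h
    obtain rfl : n = n' * pr k := mul_right_cancel₀ hc0 (by rw [h]; ring)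
    rw [M.cfg_mul hn' h1]
    simp
  · rw [mul_left_cancel₀ M.N_ne (h.symm.trans (mul_comm _ _))]
  · rw [mul_left_cancel₀ M.N_ne (h.symm.trans (mul_comm _ _))]

lemma cfg_le {n : ℤ} (hn : n ≠ 0) {R : ℕ} (h : |n| ≤ R) (k : ℕ) : M.cfg n k ≤ Nat.log 2 R := by
  unfold cfg
  split_ifs
  · have b1 := Nat.le_of_dvd (Int.natAbs_pos.2 hn) (Nat.ordProj_dvd n.natAbs (pr k))
    have b2 := Nat.pow_le_pow_left (pr_prime k).two_le (n.natAbs.factorization (pr k))
    exact Nat.le_log_of_pow_le (by norm_num) ((b2.trans b1).trans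
      (by rw [← Int.natCast_natAbs] at h; exact_mod_cast h))
  · exact Nat.zero_le _

lemma emult_cfg {n : ℤ} (hn : n ≠ 0) (hB : 0 < M.B) : emultiplicity 2 n = M.cfg n 0 := by
  have h := Int.natAbs_ne_zero.2 hn
  rw [cfg, if_pos hB, show pr 0 = 2 from Nat.nth_prime_zero_eq_two,
    ← Nat.multiplicity_eq_factorization Nat.prime_two h,
    ← (Nat.finiteMultiplicity_iff.2 ⟨by norm_num, Nat.pos_of_ne_zero h⟩).emultiplicity_eq_multiplicity]
  exact (Int.emultiplicity_natAbs 2 n).symm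

open Classical in
def potZ (need : St → ℕ → Prop) (pot : St → Cfg → ℕ) (s : St) (n : ℤ) : ℕ :=
  if n = 0 then (if ∃ k < M.B, need s k then 0 else 1) else pot s (M.cfg n)

lemma isPot_potZ {need : St → ℕ → Prop} (hG : M.Good need) {pot : St → Cfg → ℕ}
    (hp : ∀ md v, (∀ k, M.B ≤ k → v k = 0) → (M.ins md).okC v →
      pot (M.tgt md) ((M.ins md).stp v) + (if M.act md then 1 else 0) ≤ pot (M.src md) v) :
    M.IsPot (M.potZ need pot) := by
  intro md n n' h1 h2
  by_cases hn : n = 0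
  · subst hn
    obtain rfl : n' = 0 := (mul_eq_zero.1 (h2.symm.trans (zero_mul _))).resolve_left M.N_ne
    simp only [potZ, if_true]
    cases e : M.act md with
    | true =>
      have hB : 0 < M.B := lt_of_le_of_lt (Nat.zero_le _) (M.reg_lt md)
      have a1 : ∃ k < M.B, need (M.tgt md) k := ⟨0, hB, hG.act_tgt md e 0 hB⟩
      have a2 : ¬ ∃ k < M.B, need (M.src md) k := fun ⟨k, _, h⟩ => hG.act_src md e k h
      rw [if_pos a1, if_neg a2]
      simp
    | false =>
      by_cases h : ∃ k < M.B, need (M.src md) k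
      · obtain ⟨k, hk, h⟩ := h
        rcases hG.step md e k h with h' | h'
        · rw [if_pos ⟨k, hk, h'⟩]; simp
        · exact absurd (dvd_zero _) (not_dvd_of_zero h' h1)
      · rw [if_neg h]
        split_ifs <;> simp_all
  · obtain ⟨h3, h4⟩ := M.cfg_step md hn h2
    simp only [potZ, hn, h3, if_false, h4]
    exact hp md _ (fun k hk => if_neg (by omega)) ((M.ok_iff md hn).1 h1)

end CM

inductive Ph
  | G0 | G | G' | V (c : List Prog) | S (j : ℕ) | M1 | M1' | M2 | M2' | A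

def rho (k : ℕ) : ℕ := if k = 0 then 0 else k + 2

def view (v : Cfg) : Cfg := fun k => v (rho k)

lemma view_update (v : Cfg) (k x : ℕ) : view (update v (rho k) x) = update (view v) k x := by
  funext j
  have : rho j = rho k ↔ j = k := by
    refine ⟨fun h => ?_, fun h => h ▸ rfl⟩
    unfold rho at h
    split_ifs at h <;> omega
  simp only [view, update_apply, this]

lemma rho_ne1 (k : ℕ) : 1 ≠ rho k := by unfold rho; split_ifs <;> omega

lemma rho_ne2 (k : ℕ) : 2 ≠ rho k := by unfold rho; split_ifs <;> omega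

def nxt (P : Prog) (B : ℕ) : Ph → Bool → Ins × Ph × Bool
  | .G0, true => (.inc 4, .G0, false)
  | .G0, false => (.nop, .G, false)
  | .G, true => (.inc 3, .G', false)
  | .G, false => (.nop, .V [P], false)
  | .G', _ => (.inc 1, .G, false)
  | .V [], _ => (.dec 5, .S 0, false)
  | .V (.skip :: r), _ => (.nop, .V r, false)
  | .V (.inc k :: r), _ => (.inc (rho k), .V r, false)
  | .V (.seq p q :: r), _ => (.nop, .V (p :: q :: r), false)
  | .V (.whl k p :: r), true => (.dec (rho k), .V (p :: .whl k p :: r), false)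
  | .V (.whl k _ :: r), false => (.zero (rho k), .V r, false)
  | .S j, b => if B ≤ j then (.nop, .M1, false) else if j = 1 ∨ j = 2 then (.nop, .S (j + 1), false)
      else if b then (.dec j, .S j, false) else (.zero j, .S (j + 1), false)
  | .M1, true => (.dec 1, .M1', false)
  | .M1, false => (.zero 1, .M2, false)
  | .M1', _ => (.inc 2, .M1, false)
  | .M2, true => (.dec 2, .M2', false)
  | .M2, false => (.zero 2, .A, false)
  | .M2', _ => (.inc 1, .M2, false)
  | .A, _ => (.dec 1, .S 0, true)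

def Prog.bnd : Prog → ℕ
  | .skip => 0
  | .inc k => k + 1
  | .seq p q => max p.bnd q.bnd
  | .whl k p => max (k + 1) p.bnd

def conts : Prog → List Prog → List (List Prog)
  | .skip, r => [.skip :: r]
  | .inc k, r => [.inc k :: r]
  | .seq p q, r => (.seq p q :: r) :: (conts p (q :: r) ++ conts q r)
  | .whl k p, r => (.whl k p :: r) :: conts p (.whl k p :: r)

lemma self_mem_conts (p : Prog) (r : List Prog) : p :: r ∈ conts p r := by
  cases p <;> simp [conts]

lemma conts_closed (P : Prog) (B : ℕ) (b : Bool) (p : Prog) : ∀ r, ∀ c ∈ conts p r,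
    (nxt P B (.V c) b).1.reg < p.bnd + 2 ∧
      ∃ c', (nxt P B (.V c) b).2.1 = .V c' ∧ (c' ∈ conts p r ∨ c' = r) := by
  have hr : ∀ k, rho k < k + 3 := fun k => by unfold rho; split_ifs <;> omega
  induction p with
  | skip => intro r c hc; simp only [conts, List.mem_singleton] at hc; simp [hc, nxt, Ins.reg]
  | inc k =>
    intro r c hc
    simp only [conts, List.mem_singleton] at hc
    have := hr k
    simp [hc, nxt, Ins.reg, Prog.bnd]; omega
  | seq p q ihp ihq =>
    intro r c hc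
    simp only [conts, List.mem_cons, List.mem_append, Prog.bnd] at hc ⊢
    rcases hc with rfl | hc | hc
    · exact ⟨by simp [nxt, Ins.reg], _, rfl, Or.inl (Or.inr (Or.inl (self_mem_conts _ _)))⟩
    · obtain ⟨h1, c', h2, h3⟩ := ihp _ c hc
      refine ⟨by omega, c', h2, Or.inl (Or.inr ?_)⟩
      rcases h3 with h3 | rfl
      · exact Or.inl h3
      · exact Or.inr (self_mem_conts _ _)
    · obtain ⟨h1, c', h2, h3⟩ := ihq _ c hc
      exact ⟨by omega, c', h2, by tauto⟩
  | whl k p ih =>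
    intro r c hc
    simp only [conts, List.mem_cons, Prog.bnd] at hc ⊢
    rcases hc with rfl | hc
    · have := hr k
      cases b
      · exact ⟨by simp only [nxt, Ins.reg]; omega, _, rfl, Or.inr rfl⟩
      · exact ⟨by simp only [nxt, Ins.reg]; omega, _, rfl, Or.inl (Or.inr (self_mem_conts _ _))⟩
    · obtain ⟨h1, c', h2, h3⟩ := ih _ c hc
      exact ⟨by omega, c', h2, by tauto⟩

def states (P : Prog) (B : ℕ) : List Ph :=
  [.G0, .G, .G', .V [], .M1, .M1', .M2, .M2', .A] ++ (conts P []).map .V ++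
    (List.range (B + 1)).map .S

lemma states_closed {P : Prog} {B : ℕ} (hB : P.bnd + 2 ≤ B) (hB' : 6 ≤ B) (b : Bool) :
    ∀ s ∈ states P B, (nxt P B s b).1.reg < B ∧ (nxt P B s b).2.1 ∈ states P B := by
  intro s hs
  simp only [states, List.mem_append, List.mem_map, List.mem_range] at hs
  rcases hs with (hs | ⟨c, hc, rfl⟩) | ⟨j, hj, rfl⟩
  · have := self_mem_conts P []
    simp only [List.mem_cons, List.not_mem_nil, or_false] at hs
    rcases hs with rfl | rfl | rfl | rfl | rfl | rfl | rfl | rfl | rfl <;> cases b <;>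
      simp [nxt, Ins.reg, states, this] <;> omega
  · obtain ⟨h1, c', h2, h3⟩ := conts_closed P B b P [] c hc
    refine ⟨by omega, ?_⟩
    rw [h2]
    rcases h3 with h3 | rfl <;> simp [states, *]
  · simp only [nxt]
    split_ifs <;> simp [Ins.reg, states] <;> omega

abbrev Mode (P : Prog) (B : ℕ) := {s // s ∈ states P B} × Bool

instance (P : Prog) (B : ℕ) : Finite (Mode P B) :=
  have : Finite {s // s ∈ states P B} := List.finite_toSet (states P B)
  inferInstance

instance (P : Prog) (B : ℕ) : Fintype (Mode P B) := Fintype.ofFinite _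

def mach {P : Prog} {B : ℕ} (hB : P.bnd + 2 ≤ B) (hB' : 6 ≤ B) : CM (Mode P B) Ph where
  B := B
  ins md := (nxt P B md.1 md.2).1
  act md := (nxt P B md.1 md.2).2.2
  src md := md.1
  tgt md := (nxt P B md.1 md.2).2.1
  s0 := .G0
  reg_lt md := (states_closed hB hB' md.2 _ md.1.2).1

def need (B : ℕ) : Ph → ℕ → Prop
  | .S j, k => (j ≤ k ∧ k < B) ∨ k = 1 ∨ k = 2
  | .M1, k => k = 1 ∨ k = 2
  | .M1', k => k = 1 ∨ k = 2
  | .M2, k => k = 2
  | .M2', k => k = 2
  | .A, _ => False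
  | _, k => k < B

lemma act_iff (P : Prog) (B : ℕ) (s : Ph) (b : Bool) : (nxt P B s b).2.2 = true ↔ s = .A := by
  cases s with
  | V c => rcases c with _ | ⟨_ | _ | _ | _, _⟩ <;> cases b <;> simp [nxt]
  | S j => simp only [nxt]; split_ifs <;> simp
  | _ => cases b <;> simp [nxt]

lemma good {P : Prog} {B : ℕ} (hB : P.bnd + 2 ≤ B) (hB' : 6 ≤ B) : (mach hB hB').Good (need B) := by
  refine ⟨?_, ?_, ?_⟩
  · rintro ⟨⟨s, _⟩, b⟩ h k
    obtain rfl := (act_iff P B s b).1 h
    exact id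
  · rintro ⟨⟨s, _⟩, b⟩ h k hk
    obtain rfl := (act_iff P B s b).1 h
    exact Or.inl ⟨Nat.zero_le _, hk⟩
  · rintro ⟨⟨s, _⟩, b⟩ - k
    simp only [mach]
    cases s with
    | V c => rcases c with _ | ⟨_ | _ | _ | _, _⟩ <;> cases b <;> simp +contextual [nxt, need]
    | S j => simp only [nxt]; split_ifs <;> simp [need] <;> omega
    | _ => cases b <;> simp +contextual [nxt, need] <;> omega

inductive EvL : List Prog → Cfg → Cfg → Prop
  | nil (v : Cfg) : EvL [] v v
  | cons {p : Prog} {r : List Prog} {u v w : Cfg} : Ev p u v → EvL r v w → EvL (p :: r) u w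

open Classical in
def pot (ψ : ℕ → ℕ) : Ph → Cfg → ℕ
  | .G0, v => if v 3 ≤ ψ (v 0) then ψ (v 0) - v 3 + (v 1 + v 2) else 0
  | .G, v => if v 3 ≤ ψ (v 0) then ψ (v 0) - v 3 + (v 1 + v 2) else 0
  | .G', v => if v 3 ≤ ψ (v 0) then ψ (v 0) - v 3 + (v 1 + v 2) + 1 else 0
  | .V c, v => if ∃ w, EvL c (view v) w ∧ w 3 ≠ 0 then v 1 + v 2 else 0
  | .M1', v => v 1 + v 2 + 1
  | .M2', v => v 1 + v 2 + 1
  | _, v => v 1 + v 2

lemma pot_V_le (ψ : ℕ → ℕ) {c c' : List Prog} {v v' : Cfg} (h1 : v' 1 = v 1) (h2 : v' 2 = v 2)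
    (h : ∀ w, EvL c' (view v') w → EvL c (view v) w) : pot ψ (.V c') v' ≤ pot ψ (.V c) v := by
  simp only [pot, h1, h2]
  split_ifs with a1 a2
  · exact le_rfl
  · obtain ⟨w, b1, b2⟩ := a1
    exact absurd ⟨w, h w b1, b2⟩ a2
  · exact Nat.zero_le _
  · exact le_rfl

lemma pot_step {P : Prog} {B : ℕ} {ψ : ℕ → ℕ} {v : Cfg}
    (hP : ∀ w, Ev P (view v) w → w 3 ≠ 0 → v 3 ≤ ψ (v 0)) (s : Ph) (b : Bool)
    (h : (nxt P B s b).1.okC v) :
    pot ψ (nxt P B s b).2.1 ((nxt P B s b).1.stp v) + (if (nxt P B s b).2.2 then 1 else 0) ≤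
      pot ψ s v := by
  cases s with
  | V c =>
    rcases c with _ | ⟨_ | k | ⟨p, q⟩ | ⟨k, p⟩, r⟩
    · simp only [nxt, Ins.okC] at h
      have : ∃ w, EvL [] (view v) w ∧ w 3 ≠ 0 := ⟨_, .nil _, h⟩
      simp only [nxt, pot, Ins.stp, if_pos this]
      simp
    · exact pot_V_le ψ rfl rfl fun w h => .cons (.skip _) h
    · exact pot_V_le ψ (update_of_ne (rho_ne1 k) _ _) (update_of_ne (rho_ne2 k) _ _) fun w h =>
        .cons (.inc _ _) (view_update v k _ ▸ h)
    · refine pot_V_le ψ rfl rfl fun w h => ?_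
      cases h with
      | cons h1 h2 =>
        cases h2 with
        | cons h2 h3 => exact .cons (.seq h1 h2) h3
    · cases b
      · exact pot_V_le ψ rfl rfl fun w h' => .cons (.whl0 _ h) h'
      · refine pot_V_le ψ (update_of_ne (rho_ne1 k) _ _) (update_of_ne (rho_ne2 k) _ _)
          fun w h' => ?_
        cases h' with
        | cons h1 h2 =>
          cases h2 with
          | cons h2 h3 => exact .cons (.whl1 h (view_update v k _ ▸ h1) h2) h3
  | S j =>
    by_cases a1 : B ≤ j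
    · simp [nxt, a1, pot, Ins.stp]
    by_cases a2 : j = 1 ∨ j = 2
    · simp [nxt, a1, a2, pot, Ins.stp]
    rw [not_or] at a2
    cases b <;> simp [nxt, a1, a2, pot, Ins.stp, Ne.symm a2.1, Ne.symm a2.2]
  | G =>
    cases b
    · simp only [nxt, pot, Ins.stp, Bool.false_eq_true, if_false]
      split_ifs with a1 a2 <;> try omega
      obtain ⟨w, b1, b2⟩ := a1
      cases b1 with
      | cons b3 b4 => cases b4; exact absurd (hP _ b3 b2) a2
    · simp only [nxt, pot, Ins.stp, update_apply]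
      simp
      split_ifs <;> omega
  | _ =>
    cases b <;> simp [nxt, pot, Ins.stp, Ins.okC] at h ⊢ <;>
      first | omega | (split_ifs <;> omega)

inductive RunC (P : Prog) (B : ℕ) : Ph → Cfg → ℕ → Prop
  | nil (s : Ph) (v : Cfg) : RunC P B s v 0
  | step {s : Ph} (b : Bool) {v : Cfg} {m : ℕ} : (nxt P B s b).1.okC v →
      RunC P B (nxt P B s b).2.1 ((nxt P B s b).1.stp v) m →
        RunC P B s v (m + if (nxt P B s b).2.2 then 1 else 0)

lemma RunC.run {P : Prog} {B : ℕ} (hB : P.bnd + 2 ≤ B) (hB' : 6 ≤ B) {s : Ph} {v : Cfg} {m : ℕ}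
    (h : RunC P B s v m) : s ∈ states P B → ∀ n : ℤ, n ≠ 0 → (mach hB hB').cfg n = v →
      ∃ L, (mach hB hB').Run s n L ∧ L.countP (mach hB hB').act = m := by
  induction h with
  | nil => exact fun _ _ _ _ => ⟨[], trivial, rfl⟩
  | @step s b v m h1 _ ih =>
    rintro hs n hn rfl
    have h2 := ((mach hB hB').ok_iff (⟨s, hs⟩, b) hn).2 h1
    obtain ⟨h3, h4⟩ := (mach hB hB').cfg_step _ hn
      ((mach hB hB').al_np (σ := some s) (md := (⟨s, hs⟩, b)) ⟨rfl, h2⟩)
    obtain ⟨L, h5, h6⟩ := ih (states_closed hB hB' b s hs).2 _ h3 h4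
    exact ⟨(⟨s, hs⟩, b) :: L, ⟨rfl, h2, h5⟩, by rw [List.countP_cons, h6]; rfl⟩

section Runs

variable {P : Prog} {B : ℕ}

lemma run_M2 {c m : ℕ} (h : ∀ v, v 1 = c → v 2 = 0 → RunC P B .A v m) (a : ℕ) :
    ∀ v : Cfg, v 2 = a → v 1 + v 2 = c → RunC P B .M2 v m := by
  induction a with
  | zero => exact fun v h1 h2 => RunC.step (s := .M2) false h1 (h v (by omega) h1)
  | succ a ih =>
    intro v h1 h2
    refine RunC.step (s := .M2) true (by simp [nxt, Ins.okC, h1])
      (RunC.step (s := .M2') true trivial (ih _ ?_ ?_)) <;> simp [nxt, Ins.stp] <;> omega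

lemma run_M1 {c m : ℕ} (h : ∀ v, v 1 + v 2 = c → RunC P B .M2 v m) (a : ℕ) :
    ∀ v : Cfg, v 1 = a → v 1 + v 2 = c → RunC P B .M1 v m := by
  induction a with
  | zero => exact fun v h1 h2 => RunC.step (s := .M1) false h1 (h v h2)
  | succ a ih =>
    intro v h1 h2
    refine RunC.step (s := .M1) true (by simp [nxt, Ins.okC, h1])
      (RunC.step (s := .M1') true trivial (ih _ ?_ ?_)) <;> simp [nxt, Ins.stp] <;> omega

lemma run_S {c m : ℕ} (h : ∀ v, v 1 + v 2 = c → RunC P B .M1 v m) (d : ℕ) :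
    ∀ j, B ≤ j + d → ∀ v : Cfg, v 1 + v 2 = c → RunC P B (.S j) v m := by
  have h0 : ∀ j, B ≤ j → ∀ v : Cfg, v 1 + v 2 = c → RunC P B (.S j) v m := by
    intro j hj v hv
    have := RunC.step (P := P) (B := B) (s := .S j) true (v := v) (m := m)
    simp only [nxt, hj, if_true] at this
    exact this trivial (h v hv)
  induction d with
  | zero => exact h0
  | succ d ih =>
    intro j hj
    by_cases a1 : B ≤ j
    · exact h0 j a1
    by_cases a2 : j = 1 ∨ j = 2
    · intro v hv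
      have := RunC.step (P := P) (B := B) (s := .S j) true (v := v) (m := m)
      simp only [nxt, a1, a2, if_true, if_false] at this
      exact this trivial (ih _ (by omega) v hv)
    have key : ∀ a, ∀ v : Cfg, v j = a → v 1 + v 2 = c → RunC P B (.S j) v m := by
      intro a
      induction a with
      | zero =>
        intro v h1 hv
        have := RunC.step (P := P) (B := B) (s := .S j) false (v := v) (m := m)
        simp only [nxt, a1, a2, if_false, Bool.false_eq_true] at this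
        exact this h1 (ih _ (by omega) v hv)
      | succ a iha =>
        intro v h1 hv
        have := RunC.step (P := P) (B := B) (s := .S j) true (v := v) (m := m)
        simp only [nxt, a1, a2, if_true, if_false] at this
        rw [not_or] at a2
        exact this (by simp [Ins.okC, h1]) (iha _ (by simp [Ins.stp, h1])
          (by simpa [Ins.stp, Ne.symm a2.1, Ne.symm a2.2] using hv))
    exact fun v => key _ v rfl

lemma run_D (c : ℕ) : ∀ v : Cfg, v 1 + v 2 = c → RunC P B (.S 0) v c := by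
  induction c with
  | zero => exact fun v _ => .nil _ _
  | succ c ih =>
    refine run_S (fun v => run_M1 (fun v => run_M2 (fun v h1 h2 => ?_) _ v rfl) _ v rfl) B 0
      (by omega)
    exact RunC.step (s := .A) true (by simp [nxt, Ins.okC, h1])
      (ih _ (by simp [nxt, Ins.stp, h1, h2]))

lemma run_V {p : Prog} {u u' : Cfg} (h : Ev p u u') : ∀ (r : List Prog) (v : Cfg) (m : ℕ),
    view v = u → (∀ v', view v' = u' → v' 1 = v 1 → v' 2 = v 2 → RunC P B (.V r) v' m) →
      RunC P B (.V (p :: r)) v m := by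
  induction h with
  | skip => exact fun r v m h1 h2 => RunC.step (s := .V _) true trivial (h2 v h1 rfl rfl)
  | inc k =>
    rintro r v m rfl h2
    exact RunC.step (s := .V _) true trivial (h2 _ (view_update v k _)
      (update_of_ne (rho_ne1 k) _ _) (update_of_ne (rho_ne2 k) _ _))
  | seq _ _ ih1 ih2 =>
    intro r v m h1 h2
    exact RunC.step (s := .V _) true trivial (ih1 _ v m h1 fun v' a1 a2 a3 =>
      ih2 _ v' m a1 fun v'' b1 b2 b3 => h2 v'' b1 (b2.trans a2) (b3.trans a3))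
  | whl0 p h0 =>
    rintro r v m rfl h2
    exact RunC.step (s := .V _) false h0 (h2 v rfl rfl rfl)
  | @whl1 k p _ _ _ h0 _ _ ih1 ih2 =>
    rintro r v m rfl h2
    exact RunC.step (s := .V _) true h0 (ih1 _ _ m (view_update v k _) fun v' a1 a2 a3 =>
      ih2 _ v' m a1 fun v'' b1 b2 b3 => h2 v'' b1
        ((b2.trans a2).trans (update_of_ne (rho_ne1 k) _ _))
        ((b3.trans a3).trans (update_of_ne (rho_ne2 k) _ _)))

lemma run_G {m : ℕ} (a : ℕ) : ∀ v : Cfg, RunC P B .G (update (update v 3 (v 3 + a)) 1 (v 1 + a)) m →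
    RunC P B .G v m := by
  induction a with
  | zero => intro v h; simpa using h
  | succ a ih =>
    intro v h
    refine RunC.step (s := .G) true trivial (RunC.step (s := .G') true trivial (ih _ ?_))
    refine Eq.mp (congrArg (fun x => RunC P B .G x m) (funext fun k => ?_)) h
    simp only [nxt, Ins.stp, update_apply]
    split_ifs <;> omega

lemma run_G0 {m : ℕ} (a : ℕ) : ∀ v : Cfg, RunC P B .G (update v 4 (v 4 + a)) m →
    RunC P B .G0 v m := by
  induction a with
  | zero => exact fun v h => RunC.step (s := .G0) false trivial (by simpa [nxt, Ins.stp] using h)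
  | succ a ih =>
    intro v h
    refine RunC.step (s := .G0) true trivial (ih _ ?_)
    simpa [nxt, Ins.stp, add_assoc, add_comm 1 a] using h

end Runs

lemma bnd_clrs (a n : ℕ) : (clrs a n).bnd ≤ a + n := by
  induction n with
  | zero => simp [clrs, Prog.bnd]
  | succ n ih => simp only [clrs, Prog.bnd]; omega

theorem exists_machine {ψ : ℕ → ℕ} {f : List.Vector ℕ 3 → ℕ} (hf : Primrec f)
    (hψ : ∀ s m, m ≤ ψ s ↔ ∃ w, f (s ::ᵥ m ::ᵥ w ::ᵥ List.Vector.nil) ≠ 0) :
    ∃ (Md St : Type) (_ : Fintype Md) (M : CM Md St) (need : St → ℕ → Prop) (pot : St → ℤ → ℕ),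
      M.Good need ∧ M.IsPot pot ∧ need M.s0 0 ∧
      (∀ (R : ℕ) s (n : ℤ), |n| ≤ R → pot s n ≤ 2 * Nat.log 2 R + 1 ∨ (need s 0 ∧
        ∃ a : ℕ, emultiplicity 2 n = a ∧ pot s n ≤ ψ a + (2 * Nat.log 2 R + 1))) ∧
      ∀ s, ∃ L, M.Run M.s0 (2 ^ s) L ∧ L.countP M.act = ψ s := by
  obtain ⟨P0, hP0⟩ := comp_of_primrec (Nat.Primrec'.of_prim hf) (fun i => i) 3 4
    (fun i => by omega) (by omega) (fun i => by omega)
  let P := Prog.seq (clrs 3 (P0.bnd + 1)) P0
  let B := P0.bnd + 6
  have hB : P.bnd + 2 ≤ B := by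
    have := bnd_clrs 3 (P0.bnd + 1)
    simp only [P, B, Prog.bnd]; omega
  have hB' : 6 ≤ B := by omega
  have hP : ∀ v : Cfg, (∀ k, B ≤ k → v k = 0) →
      ∃ w, Ev P (view v) w ∧ w 3 = f (v 0 ::ᵥ v 3 ::ᵥ v 4 ::ᵥ List.Vector.nil) := by
    intro v hv
    refine ⟨_, (ev_clrs 3 (P0.bnd + 1) _).seq (hP0 _ fun k hk => ?_), ?_⟩
    · split_ifs with h
      · rfl
      · exact hv _ (by simp only [rho, B]; split_ifs <;> omega)
    · simp [List.Vector.ofFn, view, rho]
  refine ⟨_, _, inferInstance, mach hB hB', need B, (mach hB hB').potZ (need B) (pot ψ),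
    good hB hB', (mach hB hB').isPot_potZ (good hB hB') fun md v hv => pot_step (fun w h1 h2 => ?_) _ _,
    show 0 < B by omega, fun R s n hn => ?_, fun s => ?_⟩
  · obtain ⟨w', h3, h4⟩ := hP v hv
    rw [h1.det h3, h4] at h2
    exact (hψ _ _).2 ⟨_, h2⟩
  · unfold CM.potZ
    split_ifs with h0 h1
    · exact Or.inl (by omega)
    · exact Or.inl (by omega)
    · have h1 := (mach hB hB').cfg_le h0 hn 1
      have h2 := (mach hB hB').cfg_le h0 hn 2
      have h3 := (mach hB hB').emult_cfg h0 (show 0 < B by omega)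
      cases s with
      | G0 | G | G' =>
        exact Or.inr ⟨show 0 < B by omega, _, h3, by simp only [pot]; split_ifs <;> omega⟩
      | V c => exact Or.inl (by simp only [pot]; split_ifs <;> omega)
      | _ => exact Or.inl (by simp only [pot]; omega)
  · obtain ⟨x, hx⟩ := (hψ s _).1 le_rfl
    refine RunC.run hB hB' (v := update 0 0 s) ?_ (by simp [states, mach]) _ (by positivity) ?_
    · refine run_G0 x _ (run_G (ψ s) _ (RunC.step (s := .G) false trivial ?_))
      obtain ⟨w, h1, h2⟩ := hP (update (update (update (update 0 0 s) 4 x) 3 (ψ s)) 1 (ψ s))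
        fun k hk => by
          simp only [update_apply]
          split_ifs <;> first | rfl | omega
      refine run_V h1 [] _ _ (by simp [nxt, Ins.stp]) fun v' a1 a2 a3 =>
        RunC.step (s := .V []) true ?_ (run_D _ _ ?_)
      · show view v' 3 ≠ 0
        rw [a1, h2]
        simpa using hx
      · simp [nxt, Ins.stp, a2, a3]
    · funext k
      have e : ((2 : ℤ) ^ s).natAbs = pr 0 ^ s := by simp [pr, Nat.nth_prime_zero_eq_two]
      have e2 : 0 < (mach hB hB').B := show 0 < B by omega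
      simp only [CM.cfg, e, (pr_prime 0).factorization_pow, Finsupp.single_apply, update_apply,
        pr_inj.eq_iff]
      split_ifs <;> first | rfl | omega

end Pool.Agent.MP_e6aac2_al.H99

end
end
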