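import Pool.Agent.MP_e6aac2_al.H99.Finger
import Pool.Agent.MP_e6aac2_al.Mg.H99_Mach

/-!
Fingerprints of words: relations that follow from the equality of a bounded number of digits.
-/

noncomputable section

namespace Pool.Agent.MP_e6aac2_al.H22

open Finset
open H99 hiding univ

def Cov {W : Type} (r : W → W → Prop) (c : ℕ) : Prop :=
  ∃ (T : Type) (_ : Finite T) (f : W → T), Nat.card T ≤ 3 ^ c ∧ ∀ a b, f a = f b → r a b

section

variable {W : Type} {r r' : W → W → Prop} {c c' : ℕ}

lemma Cov.mono (h : Cov r c) (hr : ∀ a b, r a b → r' a b) (hc : c ≤ c') : Cov r' c' := by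
  obtain ⟨T, hT, f, h1, h2⟩ := h
  exact ⟨T, hT, f, h1.trans (Nat.pow_le_pow_right (by norm_num) hc), fun a b h => hr a b (h2 a b h)⟩

lemma Cov.and (h : Cov r c) (h' : Cov r' c') : Cov (fun a b => r a b ∧ r' a b) (c + c') := by
  obtain ⟨T, hT, f, h1, h2⟩ := h
  obtain ⟨T', hT', f', h1', h2'⟩ := h'
  refine ⟨T × T', inferInstance, fun a => (f a, f' a), ?_, fun a b h =>
    ⟨h2 a b (congrArg Prod.fst h), h2' a b (congrArg Prod.snd h)⟩⟩
  rw [Nat.card_prod, pow_add]
  exact Nat.mul_le_mul h1 h1'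

lemma Cov.triv (h : ∀ a b, r a b) : Cov r c :=
  ⟨Unit, inferInstance, fun _ => (), by simpa using Nat.one_le_pow c 3 (by norm_num),
    fun a b _ => h a b⟩

lemma Cov.of_fun {I : Type} [Fintype I] (f : W → I → F3) :
    Cov (fun a b => f a = f b) (Fintype.card I) :=
  ⟨I → F3, inferInstance, f, by rw [Nat.card_fun, Nat.card_zmod, Nat.card_eq_fintype_card], fun _ _ h => h⟩

lemma Cov.all {D : Type} (S : Finset D) (r : D → W → W → Prop) (c : D → ℕ)
    (h : ∀ d ∈ S, Cov (r d) (c d)) : Cov (fun a b => ∀ d ∈ S, r d a b) (∑ d ∈ S, c d) := by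
  classical
  induction S using Finset.induction_on with
  | empty => exact Cov.triv (by simp)
  | insert d S hd ih =>
    rw [sum_insert hd]
    exact ((h d (mem_insert_self _ _)).and (ih fun x hx => h x (mem_insert_of_mem hx))).mono
      (fun a b h => (forall_mem_insert _ _ _).2 h) le_rfl

lemma Cov.desc {I D : Type} (S : Finset D) (P : I → Prop) (F : I → D → Prop)
    (r : I → W → W → Prop) (c : D → ℕ) (hF : ∀ i, P i → ∃ d ∈ S, F i d)
    (h : ∀ d ∈ S, ∀ i, F i d → Cov (fun a b => ∀ j, F j d → r j a b) (c d)) :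
    Cov (fun a b => ∀ i, P i → r i a b) (∑ d ∈ S, c d) := by
  refine (Cov.all S (fun d a b => ∀ j, F j d → r j a b) c fun d hd => ?_).mono
    (fun a b h i hi => ?_) le_rfl
  · by_cases e : ∃ i, F i d
    · exact e.elim (h d hd)
    · exact Cov.triv fun a b j hj => absurd ⟨j, hj⟩ e
  · obtain ⟨d, h1, h2⟩ := hF i hi
    exact h d h1 i h2

lemma Cov.card {H : Type} (ev : W → H) (hev : Function.Surjective ev)
    (h : Cov (fun a b => ev a = ev b) c) : Finite H ∧ Nat.card H ≤ 3 ^ c := by
  obtain ⟨T, hT, f, h1, h2⟩ := h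
  have hinj : Function.Injective fun h : H => f (Function.surjInv hev h) := by
    intro h h' e
    rw [← Function.surjInv_eq hev h, h2 _ _ e, Function.surjInv_eq hev h']
  exact ⟨Finite.of_injective _ hinj, (Nat.card_le_card_of_injective _ hinj).trans h1⟩

end

variable {Gn : Type} (side : Gn → Bool)

lemma act_congr {τ τ' : Gn → ℕ} {m : ℕ} (hτ : ∀ g, min (τ g) m = min (τ' g) m) {x x' : Sq}
    (hx : ∀ t < m, x t = x' t) (W : List (Gn × F3 × F3)) :
    ∀ t < m, act side τ W x t = act side τ' W x' t := by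
  induction W with
  | nil => exact hx
  | cons q W ih =>
    intro t ht
    funext b
    have e : t < τ q.1 ↔ t < τ' q.1 := by have := hτ q.1; omega
    simp only [act, U, ih t ht, e]
    cases t with
    | zero => rfl
    | succ t => simp only [cr, ih t (by omega)]

lemma act_tail [Fintype Gn] {τ : Gn → ℕ} {μ : ℕ} {β : Bool} (hβ : ∀ g, side g ≠ β → τ g ≤ μ)
    (x : Sq) (W : List (Gn × F3 × F3)) :
    (∀ t, μ ≤ t → act side τ W x t (!β) = x t (!β)) ∧
    (∀ t, μ ≤ t → act side τ W x (t + 1) β = x (t + 1) β +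
      (∑ g, if side g = β ∧ t + 1 < τ g then lsum W g else 0) * x t (!β)) := by
  classical
  induction W with
  | nil => simp [act, lsum]
  | cons q W ih =>
    obtain ⟨ic, id⟩ := ih
    obtain ⟨g, l, c⟩ := q
    refine ⟨fun t ht => ?_, fun t ht => ?_⟩
    · simp only [act, U, ic t ht]
      rw [if_neg, add_zero]
      rintro ⟨e1, e2⟩
      have := hβ g (by rw [← e1]; simp)
      omega
    · simp only [act, U, id t ht, cr]
      have e : ∀ g', lsum ((g, l, c) :: W) g' = (if g = g' then l else 0) + lsum W g' :=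
        fun g' => by simp [lsum]
      have e2 : (∑ g', if side g' = β ∧ t + 1 < τ g' then lsum ((g, l, c) :: W) g' else 0) =
          (if side g = β ∧ t + 1 < τ g then l else 0) +
            ∑ g', if side g' = β ∧ t + 1 < τ g' then lsum W g' else 0 := by
        rw [← sum_ite_eq_of_mem univ g
          (fun g' => if side g' = β ∧ t + 1 < τ g' then l else 0) (mem_univ _), ← sum_add_distrib]
        refine sum_congr rfl fun g' _ => ?_
        rw [e]
        split_ifs <;> simp
      rw [e2]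
      by_cases hb : side g = β
      · simp only [hb, true_and, ic t ht]
        split_ifs <;> ring
      · simp [hb, Ne.symm hb]

lemma act_eq_of [Fintype Gn] {τ : Gn → ℕ} {μ : ℕ} {β : Bool} (hβ : ∀ g, side g ≠ β → τ g ≤ μ)
    {W W' : List (Gn × F3 × F3)}
    (h1 : ∀ x, ∀ t < μ + 1, act side τ W x t = act side τ W' x t)
    (h2 : ∀ g, 1 ≤ τ g → lsum W g = lsum W' g) : act side τ W = act side τ W' := by
  funext x t b
  by_cases ht : t < μ + 1
  · rw [h1 x t ht]
  by_cases hb : b = β
  · obtain ⟨t, rfl⟩ : ∃ s, t = s + 1 := ⟨t - 1, by omega⟩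
    rw [hb, (act_tail side hβ x W).2 t (by omega), (act_tail side hβ x W').2 t (by omega)]
    congr 2
    refine sum_congr rfl fun g _ => ?_
    split_ifs with h
    · exact h2 g (by omega)
    · rfl
  · rw [Bool.eq_not_iff.2 hb, (act_tail side hβ x W).1 t (by omega),
      (act_tail side hβ x W').1 t (by omega)]

lemma act_affine (τ : Gn → ℕ) (m : ℕ) (W : List (Gn × F3 × F3)) :
    ∃ K : Fin m × Bool → Option (Fin m × Bool) → F3, ∀ (x : Sq) (p : Fin m × Bool),
      act side τ W x p.1 p.2 = K p none + ∑ p' : Fin m × Bool, K p (some p') * x p'.1 p'.2 := by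
  induction W with
  | nil => exact ⟨fun p o => if o = some p then 1 else 0, fun x p => by simp [act]⟩
  | cons q W ih =>
    obtain ⟨K, hK⟩ := ih
    refine ⟨fun p o => K p o + if p.2 = side q.1 ∧ p.1 < τ q.1 then
      (if h : (p.1 : ℕ) = 0 then (if o = none then q.2.2 else 0)
        else q.2.1 * K (⟨p.1 - 1, by omega⟩, !side q.1) o) else 0, ?_⟩
    rintro x ⟨⟨t, ht⟩, b⟩
    have h1 := hK x (⟨t, ht⟩, b)
    simp only [act, U] at h1 ⊢
    rw [h1]
    split_ifs with a1 a2 <;> try simp_all [cr]; done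
    · subst a2; simp [cr]; ring
    · obtain ⟨t, rfl⟩ : ∃ s, t = s + 1 := ⟨t - 1, by omega⟩
      have h2 := hK x (⟨t, by omega⟩, !side q.1)
      simp only [cr, h2, Nat.add_sub_cancel, add_mul, sum_add_distrib, mul_add, mul_sum, mul_assoc]
      ring

lemma cov_low {W : Type} (S : W → List (Gn × F3 × F3)) (τ : Gn → ℕ) (m : ℕ) :
    Cov (fun a b => ∀ x, ∀ t < m, act side τ (S a) x t = act side τ (S b) x t)
      ((2 * m + 1) ^ 2) := by
  choose K hK using act_affine side τ m
  refine (Cov.of_fun (I := (Fin m × Bool) × Option (Fin m × Bool))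
    fun a p => K (S a) p.1 p.2).mono (fun a b h x t ht => funext fun b' => ?_) (by simp; nlinarith)
  have e : K (S a) = K (S b) := funext fun p => funext fun o => congrFun h (p, o)
  exact (hK _ x (⟨t, ht⟩, b')).trans (e ▸ (hK _ x (⟨t, ht⟩, b')).symm)

lemma cov_sync [Fintype Gn] {W : Type} (S : W → List (Gn × F3 × F3)) (κ : Fin 3 → Gn → Prop)
    (m : ℕ) : Cov (fun a b => ∀ (τ : Gn → ℕ) μ β, 1 ≤ μ → μ ≤ m → (∀ g, τ g ≤ 1 ∨ μ ≤ τ g) →
      (∀ g, side g ≠ β → τ g ≤ μ) → (∀ g, κ 0 g ↔ 1 ≤ τ g) → (∀ g, κ 1 g ↔ 2 ≤ τ g) →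
      (∀ g, κ 2 g ↔ μ + 1 ≤ τ g) → ∀ x, ∀ t < μ + 1, act side τ (S a) x t = act side τ (S b) x t)
      (12 * (m + 1)) := by
  refine (Cov.of_fun fun a => fp side κ m (S a)).mono
    (fun a b e τ μ β k1 k2 k3 k4 k5 k6 k7 x t ht => funext fun b' => ?_) (by simp; omega)
  obtain ⟨a1, a2, -⟩ := act_spec side τ κ k1 k3 k4 k5 k6 k7 x (S a)
  obtain ⟨b1, b2, -⟩ := act_spec side τ κ k1 k3 k4 k5 k6 k7 x (S b)
  rcases Nat.lt_succ_iff_lt_or_eq.1 ht with ht | rfl
  · rw [a1 t ht, b1 t ht, coeff_eq_of_fp e _ _ (by omega)]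
  · rw [a2, b2, coeff_eq_of_fp e _ _ k2]

lemma act_triv {τ : Gn → ℕ} (W : List (Gn × F3 × F3)) (h : ∀ q ∈ W, τ q.1 = 0 ∨ q.2 = 0) (x : Sq) :
    act side τ W x = x := by
  induction W with
  | nil => rfl
  | cons q W ih =>
    rw [act, ih fun q hq => h q (List.mem_cons_of_mem _ hq)]
    funext t b
    rcases h q List.mem_cons_self with e | e <;> cases t <;> simp [U, cr, e]

/-- the letters of the first kind -/
def mov : List (Bool × Gn × F3 × F3) → List (Gn × F3 × F3)
  | [] => []
  | q :: W => if q.1 then q.2 :: mov W else mov W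

open Classical in
/-- the letters of the second kind, switched off when the current data are nonzero -/
def sub (τ : Gn → ℕ) (n : ℕ) (x : Sq) : List (Bool × Gn × F3 × F3) → List (Gn × F3 × F3)
  | [] => []
  | q :: W => if q.1 then sub τ n x W else
      (q.2.1, if ∀ t < n, act side τ (mov W) x t = 0 then q.2.2 else 0) :: sub τ n x W

lemma sub_congr {τ τ' : Gn → ℕ} {n : ℕ} (hτ : ∀ g, min (τ g) n = min (τ' g) n) {x x' : Sq}
    (hx : ∀ t < n, x t = x' t) (W : List (Bool × Gn × F3 × F3)) :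
    sub side τ n x W = sub side τ' n x' W := by
  induction W with
  | nil => rfl
  | cons q W ih =>
    have e : (∀ t < n, act side τ (mov W) x t = 0) ↔ ∀ t < n, act side τ' (mov W) x' t = 0 :=
      forall₂_congr fun t ht => by rw [act_congr side hτ hx _ t ht]
    simp only [sub, ih, e]

lemma sub_red [Fintype Gn] {τ : Gn → ℕ} {μ : ℕ} {β : Bool} (hβ : ∀ g, side g ≠ β → τ g ≤ μ)
    (n : ℕ) (x : Sq) : (∀ W, sub side τ n x W = sub side τ (min n (μ + 1)) x W) ∨
      ∀ W, ∀ q ∈ sub side τ n x W, q.2 = 0 := by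
  by_cases h : ∃ W0, ∀ t < n, act side τ W0 x t = 0
  · obtain ⟨W0, h0⟩ := h
    have h1 : ∀ t, μ ≤ t → t < n → x t (!β) = 0 := fun t a b => by
      rw [← (act_tail side hβ x W0).1 t a, h0 t b]; rfl
    have h2 : ∀ W t, μ + 1 ≤ t → t < n → act side τ W x t = x t := by
      intro W t a b
      funext b'
      by_cases hb : b' = β
      · obtain ⟨t, rfl⟩ : ∃ s, t = s + 1 := ⟨t - 1, by omega⟩
        rw [hb, (act_tail side hβ x W).2 t (by omega), h1 t (by omega) (by omega)]
        simp
      · rw [Bool.eq_not_iff.2 hb, (act_tail side hβ x W).1 t (by omega)]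
    refine Or.inl fun W => ?_
    induction W with
    | nil => rfl
    | cons q W ih =>
      have e : (∀ t < n, act side τ (mov W) x t = 0) ↔
          ∀ t < min n (μ + 1), act side τ (mov W) x t = 0 := by
        refine ⟨fun h t ht => h t (by omega), fun h t ht => ?_⟩
        by_cases a : t < μ + 1
        · exact h t (by omega)
        · rw [h2 _ t (by omega) ht, ← h2 W0 t (by omega) ht, h0 t ht]
      simp only [sub, ih, e]
  · refine Or.inr fun W => ?_
    induction W with
    | nil => simp [sub]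
    | cons q W ih =>
      rw [sub, if_neg fun h' => h ⟨_, h'⟩]
      split_ifs
      · exact ih
      · exact List.forall_mem_cons.2 ⟨rfl, ih⟩

end Pool.Agent.MP_e6aac2_al.H22

end

/-!
Counter machines with two kinds of lamps: movers act on the data of the first zone, the other lamps
are switched off by nonzero data in the first zone and act in the last zone.
-/

noncomputable section

namespace Pool.Agent.MP_e6aac2_al.H22

open H99 hiding univ

structure XM (Md St : Type) extends CM Md St where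
  mv : Md → Bool
  zone : St → ℕ
  z_le : ∀ s, zone s ≤ 2
  z_mono : ∀ md, zone (src md) ≤ zone (tgt md)
  z_mv : ∀ md, mv md = true → zone (tgt md) = 0
  z_act : ∀ md, act md = true → zone (src md) = 2

namespace XM

variable {Md St : Type} (M : XM Md St)

def fl (k : Bool) (md : Md) : Bool := if k then M.mv md else M.act md

lemma z_mv' {md : Md} (h : M.mv md = true) : M.zone (M.src md) = 0 := by
  have := M.z_mono md
  have := M.z_mv md h
  omega

lemma not_both {md : Md} (h : M.mv md = true) : M.act md = false := by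
  by_contra h'
  have := M.z_act md (by simpa using h')
  have := M.z_mv' h
  omega

def al (σ : St) (b : Bool) (md : Md) (y : ℤ) : Prop :=
  M.src md = σ ∧ M.toCM.al (if b then none else some σ) md y

lemma al_np {σ : St} {b : Bool} {md : Md} {y : ℤ} (h : M.al σ b md y) :
    y * M.mul md = M.N * M.np md y := M.toCM.al_np h.2

lemma al_of_dvd {σ : St} {b : Bool} {md : Md} {y y' : ℤ} (hd : (M.N : ℤ) ∣ y' - y)
    (h : M.al σ b md y) : M.al σ b md y' := ⟨h.1, M.toCM.al_of_dvd hd h.2⟩

def o (k : Bool) (md : Md) (b : Bool) (α : F3 × F3) (v : Bool → F3) : Bool → F3 :=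
  if M.fl k md then fun b' => v b' + if b' = b then α.2 else 0 else v

def nx (k : Bool) (md : Md) (b : Bool) (α : F3 × F3) (v : Bool → F3) : F3 × F3 :=
  if M.fl k md then (α.1, α.1 * v (!b)) else if k = false ∧ M.mv md = true ∧ v ≠ 0 then 0 else α

open Classical in
def lampF (k b : Bool) : St → F3 × F3 → ℤ → List M.Let → List M.Let
  | _, _, _, [] => []
  | σ, α, j, a :: w =>
    if M.al σ b a.1.1 (a.1.2 + j) then (a.1, M.o k a.1.1 b α a.2) ::
      lampF k b (M.tgt a.1.1) (M.nx k a.1.1 b α a.2) (M.np a.1.1 (a.1.2 + j)) w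
    else a :: w

lemma lampF_add (k b : Bool) (w : List M.Let) : ∀ (σ : St) (α β : F3 × F3) (j : ℤ),
    M.lampF k b σ α j (M.lampF k b σ β j w) = M.lampF k b σ (α + β) j w := by
  induction w with
  | nil => intros; rfl
  | cons a w ih =>
    intro σ α β j
    by_cases h : M.al σ b a.1.1 (a.1.2 + j)
    · simp only [lampF, h, if_true, ih]
      congr 2
      · unfold o
        split_ifs
        · funext b'; by_cases e : b' = b <;> simp [e, add_assoc, add_comm α.2]
        · rfl
      · unfold nx o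
        split_ifs <;> simp [add_mul]
    · simp only [lampF, h, if_false]

lemma lampF_zero (k b : Bool) (w : List M.Let) : ∀ (σ : St) (j : ℤ), M.lampF k b σ 0 j w = w := by
  induction w with
  | nil => intros; rfl
  | cons a w ih =>
    intro σ j
    have e : M.nx k a.1.1 b 0 a.2 = 0 := by unfold nx; split_ifs <;> simp [Prod.ext_iff]
    have e' : M.o k a.1.1 b 0 a.2 = a.2 := by unfold o; split_ifs <;> simp
    simp only [lampF, e, e', ih, ite_self]

def lamp (k b : Bool) (σ : St) (α : F3 × F3) (j : ℤ) : Equiv.Perm (List M.Let) where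
  toFun := M.lampF k b σ α j
  invFun := M.lampF k b σ (-α) j
  left_inv w := by rw [lampF_add, neg_add_cancel, lampF_zero]
  right_inv w := by rw [lampF_add, add_neg_cancel, lampF_zero]

lemma lamp_apply (k b : Bool) (σ : St) (α : F3 × F3) (j : ℤ) (w : List M.Let) :
    M.lamp k b σ α j w = M.lampF k b σ α j w := rfl

lemma lamp_inv (k b : Bool) (σ : St) (α : F3 × F3) (j : ℤ) :
    (M.lamp k b σ α j)⁻¹ = M.lamp k b σ (-α) j := Equiv.ext fun _ => rfl

lemma lamp_cube (k b : Bool) (σ : St) (α : F3 × F3) (j : ℤ) : M.lamp k b σ α j ^ 3 = 1 := by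
  have : α + (α + α) = 0 := by revert α; decide
  refine Equiv.ext fun w => ?_
  simp only [pow_succ, pow_zero, one_mul, Equiv.Perm.mul_apply, lamp_apply, lampF_add, this,
    lampF_zero, Equiv.Perm.one_apply]

lemma lampF_trF (k b : Bool) (w : List M.Let) : ∀ (σ : St) (α : F3 × F3) (j n : ℤ),
    M.lampF k b σ α j (M.trF n w) = M.trF n (M.lampF k b σ α (j + n) w) := by
  induction w with
  | nil => intros; rfl
  | cons a w ih =>
    intro σ α j n
    have h := M.addc_val a.1.2 n
    have e : (a.1.2 + (j + n) : ℤ) = M.addc a.1.2 n + j + M.N * ((a.1.2 + n) / M.N) := by linarith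
    have e1 : M.al σ b a.1.1 (M.addc a.1.2 n + j) ↔ M.al σ b a.1.1 (a.1.2 + (j + n)) :=
      ⟨M.al_of_dvd (by rw [e]; simp), M.al_of_dvd (by rw [e]; simp)⟩
    by_cases h1 : M.al σ b a.1.1 (a.1.2 + (j + n))
    · rw [CM.trF, lampF, lampF, if_pos (e1.2 h1), if_pos h1, CM.trF, ih, e, CM.np_add]
    · rw [CM.trF, lampF, lampF, if_neg (fun h => h1 (e1.1 h)), if_neg h1, CM.trF]

lemma lamp_conj (k b : Bool) (σ : St) (α : F3 × F3) (j n : ℤ) :
    M.lamp k b σ α (j + n) = (M.tr n)⁻¹ * M.lamp k b σ α j * M.tr n := by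
  rw [mul_assoc, eq_inv_mul_iff_mul_eq]
  exact Equiv.ext fun w => (M.lampF_trF k b w σ α j n).symm

open Classical in
/-- number of active letters of kind `k` read before the lamp dies -/
def tau (k : Bool) : List M.Ctl → St → Bool → ℤ → ℕ
  | [], _, _, _ => 0
  | c :: ω, σ, b, j =>
    if M.al σ b c.1 (c.2 + j) then
      tau k ω (M.tgt c.1) b (M.np c.1 (c.2 + j)) + if M.fl k c.1 then 1 else 0
    else 0

lemma tau_pos (k : Bool) {c : M.Ctl} {σ : St} {b : Bool} {j : ℤ} (h : M.al σ b c.1 (c.2 + j))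
    (ω : List M.Ctl) : M.tau k (c :: ω) σ b j =
      M.tau k ω (M.tgt c.1) b (M.np c.1 (c.2 + j)) + if M.fl k c.1 then 1 else 0 := by
  rw [tau, if_pos h]

lemma tau_neg (k : Bool) {c : M.Ctl} {σ : St} {b : Bool} {j : ℤ} (h : ¬ M.al σ b c.1 (c.2 + j))
    (ω : List M.Ctl) : M.tau k (c :: ω) σ b j = 0 := by
  rw [tau, if_neg h]

/-- number of active letters in the first zone -/
def n1 : List M.Ctl → ℕ
  | [] => 0
  | c :: ω => if M.zone (M.src c.1) = 0 then n1 ω + if M.mv c.1 then 1 else 0 else 0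

lemma n1_or (k : Bool) (ω : List M.Ctl) {σ : St} (h : M.zone σ ≠ 0) (b : Bool) (j : ℤ) :
    M.n1 ω = 0 ∨ M.tau k ω σ b j = 0 := by
  cases ω with
  | nil => exact Or.inl rfl
  | cons c ω =>
    by_cases a : M.al σ b c.1 (c.2 + j)
    · exact Or.inl (if_neg (a.1 ▸ h))
    · exact Or.inr (M.tau_neg k a ω)

def dat (k : Bool) : List M.Let → Sq
  | [] => 0
  | a :: w => if M.fl k a.1.1 then CM.scons a.2 (dat k w) else dat k w

def sig (w : List M.Let) : List M.Let :=
  w.map fun a => (a.1, if M.mv a.1.1 ∨ M.act a.1.1 then 0 else a.2)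

lemma ctl_sig (w : List M.Let) : (M.sig w).map Prod.fst = w.map Prod.fst := by simp [sig]

lemma ext_dat : ∀ w w' : List M.Let, M.sig w = M.sig w' → (∀ k, M.dat k w = M.dat k w') → w = w'
  | [], [], _, _ => rfl
  | [], _ :: _, h, _ => by simp [sig] at h
  | _ :: _, [], h, _ => by simp [sig] at h
  | (c, v) :: w, (c', v') :: w', h, h' => by
    simp only [sig, List.map_cons, List.cons.injEq, Prod.mk.injEq] at h
    obtain ⟨⟨rfl, h1⟩, h2⟩ := h
    have h3 : ∀ k, M.dat k w = M.dat k w' := fun k => by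
      have := h' k
      simp only [dat] at this
      split_ifs at this
      · exact funext fun t => congrFun this (t + 1)
      · exact this
    rw [ext_dat w w' h2 h3]
    congr 2
    split_ifs at h1 with a
    · obtain ⟨k, hk⟩ : ∃ k, M.fl k c.1 = true := a.elim (fun a => ⟨true, a⟩) fun a => ⟨false, a⟩
      have := h' k
      simp only [dat, hk, if_true] at this
      exact congrFun this 0
    · exact h1

lemma sig_lampF (k b : Bool) (w : List M.Let) :
    ∀ σ α j, M.sig (M.lampF k b σ α j w) = M.sig w := by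
  induction w with
  | nil => intros; rfl
  | cons a w ih =>
    intro σ α j
    simp only [lampF]
    split_ifs
    · have := ih (M.tgt a.1.1) (M.nx k a.1.1 b α a.2) (M.np a.1.1 (a.1.2 + j))
      simp only [sig, List.map_cons] at this ⊢
      rw [this]
      congr 2
      unfold o fl
      cases k <;> cases M.act a.1.1 <;> cases M.mv a.1.1 <;> simp
    · rfl

lemma ctl_lampF (k b : Bool) (w : List M.Let) (σ α j) :
    (M.lampF k b σ α j w).map Prod.fst = w.map Prod.fst := by
  rw [← ctl_sig, sig_lampF, ctl_sig]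

lemma dat_other (k b : Bool) (w : List M.Let) :
    ∀ σ α j, M.dat (!k) (M.lampF k b σ α j w) = M.dat (!k) w := by
  induction w with
  | nil => intros; rfl
  | cons a w ih =>
    intro σ α j
    simp only [lampF]
    split_ifs
    · simp only [dat, ih]
      split_ifs with h
      · have : M.fl k a.1.1 = false := by
          have := @not_both _ _ M a.1.1
          cases k <;> simp_all [fl]
        simp [o, this]
      · rfl
    · rfl

lemma U_scons (b : Bool) (α : F3 × F3) (τ : ℕ) (v : Bool → F3) (x : Sq) :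
    U b α (τ + 1) (CM.scons v x) = CM.scons (fun b' => v b' + if b' = b then α.2 else 0)
      (U b (α.1, α.1 * v (!b)) τ x) := by
  funext t b'
  cases t with
  | zero => simp [U, CM.scons, cr]
  | succ t => cases t <;> simp [U, CM.scons, cr]

lemma dat_mov (b : Bool) (w : List M.Let) : ∀ σ α j, M.dat true (M.lampF true b σ α j w) =
    U b α (M.tau true (w.map Prod.fst) σ b j) (M.dat true w) := by
  induction w with
  | nil => intro σ α j; exact (CM.U_zero _ _ _).symm
  | cons a w ih =>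
    intro σ α j
    simp only [lampF, List.map_cons, tau]
    by_cases h : M.al σ b a.1.1 (a.1.2 + j)
    · simp only [h, if_true, dat, ih, o, nx]
      cases M.fl true a.1.1
      · simp
      · simp only [if_true, U_scons]
    · simp only [h, if_false, CM.U_zero]

open Classical in
lemma dat_lamp (b : Bool) (w : List M.Let) : ∀ σ α j, M.dat false (M.lampF false b σ α j w) =
    U b (if ∀ t < M.n1 (w.map Prod.fst), M.dat true w t = 0 then α else 0)
      (M.tau false (w.map Prod.fst) σ b j) (M.dat false w) := by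
  induction w with
  | nil => intro σ α j; exact (CM.U_zero _ _ _).symm
  | cons a w ih =>
    intro σ α j
    simp only [lampF, List.map_cons, tau]
    by_cases h : M.al σ b a.1.1 (a.1.2 + j)
    swap
    · simp only [h, if_false, CM.U_zero]
    have key : M.zone (M.src a.1.1) ≠ 0 → ∀ α x,
        U b (if ∀ t < M.n1 (w.map Prod.fst), M.dat true w t = 0 then α else 0)
          (M.tau false (w.map Prod.fst) (M.tgt a.1.1) b (M.np a.1.1 (a.1.2 + j))) x =
        U b α (M.tau false (w.map Prod.fst) (M.tgt a.1.1) b (M.np a.1.1 (a.1.2 + j))) x := by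
      intro hz α x
      rcases M.n1_or false (w.map Prod.fst) (σ := M.tgt a.1.1)
        (by have := M.z_mono a.1.1; omega) b (M.np a.1.1 (a.1.2 + j)) with e | e
      · simp [e]
      · rw [e, CM.U_zero, CM.U_zero]
    simp only [h, if_true, dat, ih, o, nx, n1, fl, Bool.false_eq_true, if_false, true_and]
    cases e1 : M.act a.1.1
    · cases e2 : M.mv a.1.1
      · by_cases hz : M.zone (M.src a.1.1) = 0
        · simp [hz]
        · simp [hz, key hz]
      · have e : (∀ t < M.n1 (w.map Prod.fst) + 1, CM.scons a.2 (M.dat true w) t = 0) ↔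
            a.2 = 0 ∧ ∀ t < M.n1 (w.map Prod.fst), M.dat true w t = 0 :=
          ⟨fun h => ⟨h 0 (by omega), fun t ht => h (t + 1) (by omega)⟩, fun h t ht => by
            cases t with
            | zero => exact h.1
            | succ t => exact h.2 t (by omega)⟩
        simp only [M.z_mv' e2, if_true, e]
        by_cases e3 : a.2 = 0 <;> simp [e3]
    · have hz : M.zone (M.src a.1.1) ≠ 0 := by rw [M.z_act _ e1]; omega
      simp [hz, key hz, U_scons]

end XM

end Pool.Agent.MP_e6aac2_al.H22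

end

/-!
Which lamps survive on a control word.
-/

noncomputable section

namespace Pool.Agent.MP_e6aac2_al.H22

open H99 hiding univ

namespace XM

variable {Md St : Type} (M : XM Md St)

def Al : List M.Ctl → St → Bool → ℤ → Prop
  | [], _, _, _ => True
  | c :: ω, σ, b, j => M.al σ b c.1 (c.2 + j) ∧ Al ω (M.tgt c.1) b (M.np c.1 (c.2 + j))

def pre (k : Bool) : List M.Ctl → ℕ → List M.Ctl
  | [], _ => []
  | _ :: _, 0 => []
  | c :: ω, t + 1 => c :: pre k ω (if M.fl k c.1 then t else t + 1)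

def na (k : Bool) (ω : List M.Ctl) : ℕ := ω.countP fun c => M.fl k c.1

lemma pre_zero (k : Bool) (ω : List M.Ctl) : M.pre k ω 0 = [] := by cases ω <;> rfl

lemma na_cons (k : Bool) (c : M.Ctl) (ω : List M.Ctl) :
    M.na k (c :: ω) = M.na k ω + if M.fl k c.1 then 1 else 0 := by
  simp [na, List.countP_cons]

variable {M} in
lemma al_of_tau {k : Bool} {c : M.Ctl} {ω : List M.Ctl} {σ : St} {b : Bool} {j : ℤ}
    (h : 1 ≤ M.tau k (c :: ω) σ b j) : M.al σ b c.1 (c.2 + j) := by
  by_contra h'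
  rw [M.tau_neg k h'] at h
  omega

lemma le_tau_iff (k b : Bool) (ω : List M.Ctl) : ∀ (t : ℕ) (σ : St) (j : ℤ),
    t ≤ M.tau k ω σ b j ↔ t ≤ M.na k ω ∧ M.Al (M.pre k ω t) σ b j := by
  induction ω with
  | nil => intro t σ j; simp [tau, na, pre, Al]
  | cons c ω ih =>
    intro t σ j
    cases t with
    | zero => simp [pre, Al]
    | succ t =>
      rw [pre, Al, na_cons]
      by_cases h : M.al σ b c.1 (c.2 + j)
      · rw [M.tau_pos k h]
        have := ih (if M.fl k c.1 then t else t + 1) (M.tgt c.1) (M.np c.1 (c.2 + j))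
        revert this
        cases M.fl k c.1 <;> simp [h]
      · simp [M.tau_neg k h, h]

lemma tau_pre (k b : Bool) (ω : List M.Ctl) : ∀ (t : ℕ) (σ : St) (j : ℤ),
    M.tau k (M.pre k ω t) σ b j = min (M.tau k ω σ b j) t := by
  induction ω with
  | nil => intro t σ j; simp [tau, pre]
  | cons c ω ih =>
    intro t σ j
    cases t with
    | zero => simp [pre, tau]
    | succ t =>
      rw [pre]
      by_cases h : M.al σ b c.1 (c.2 + j)
      · rw [M.tau_pos k h, M.tau_pos k h, ih]
        cases M.fl k c.1 <;> simp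
      · simp [M.tau_neg k h]

lemma na_pre (k : Bool) (ω : List M.Ctl) : ∀ t, t ≤ M.na k ω → M.na k (M.pre k ω t) = t := by
  induction ω with
  | nil => intro t h; simpa [na, pre, eq_comm] using h
  | cons c ω ih =>
    intro t h
    cases t with
    | zero => rfl
    | succ t =>
      rw [pre, na_cons, ih] <;> rw [na_cons] at h <;> revert h <;> cases M.fl k c.1 <;> simp

variable {M} in
lemma tau_of_Al (k : Bool) {b : Bool} {ω : List M.Ctl} :
    ∀ {σ : St} {j : ℤ}, M.Al ω σ b j → M.tau k ω σ b j = M.na k ω := by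
  induction ω with
  | nil => intros; rfl
  | cons c ω ih => intro σ j h; rw [M.tau_pos k h.1, na_cons, ih h.2]

lemma np_sub {σ σ' : St} {b b' : Bool} {c : M.Ctl} {u u' : ℤ} (h : M.al σ b c.1 (c.2 + u))
    (h' : M.al σ' b' c.1 (c.2 + u')) :
    (u - u') * M.mul c.1 = M.N * (M.np c.1 (c.2 + u) - M.np c.1 (c.2 + u')) :=
  M.toCM.np_sub h.2 h'.2

lemma Al_dvd {b b' : Bool} (ω : List M.Ctl) : ∀ (σ σ' : St) (u u' : ℤ), M.Al ω σ b u →
    M.Al ω σ' b' u' → (M.Q ω : ℤ) ∣ u - u' := by
  induction ω with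
  | nil => intros; simp [CM.Q]
  | cons c ω ih =>
    intro σ σ' u u' h h'
    rw [CM.Q_spec, M.np_sub h.1 h'.1]
    exact mul_dvd_mul_left _ (ih _ _ _ _ h.2 h'.2)

lemma tau_shift (k b : Bool) (ω : List M.Ctl) : ∀ (σ : St) (u d : ℤ), (M.Q ω : ℤ) ∣ d →
    M.tau k ω σ b (u + M.N * d) = M.tau k ω σ b u := by
  induction ω with
  | nil => intros; rfl
  | cons c ω ih =>
    intro σ u d hd
    by_cases h : M.al σ b c.1 (c.2 + u)
    · obtain ⟨y, hy⟩ := (M.Q_spec c ω _).1 hd
      rw [M.tau_pos k h, M.tau_pos k (M.al_of_dvd (by simp) h), ← add_assoc, CM.np_add,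
        mul_comm (M.mul c.1 : ℤ), hy, mul_assoc, ih _ _ _ (dvd_mul_right _ _)]
    · rw [M.tau_neg k h, M.tau_neg k fun h' => h (M.al_of_dvd (by simp) h')]

lemma Al_shift {b : Bool} (ω : List M.Ctl) : ∀ (σ : St) (u z : ℤ), M.Al ω σ b u →
    M.Al ω σ b (u + M.N * (M.Q ω * z)) := by
  induction ω with
  | nil => intros; trivial
  | cons c ω ih =>
    intro σ u z h
    refine ⟨M.al_of_dvd (by simp) h.1, ?_⟩
    obtain ⟨y, hy⟩ := (M.Q_spec c ω _).1 dvd_rfl
    rw [← add_assoc, CM.np_add, ← mul_assoc, mul_comm (M.mul c.1 : ℤ), hy, mul_assoc, mul_assoc]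
    exact ih _ _ _ h.2

lemma Q_om (ω : List M.Ctl) : M.Q (M.om (ω.map Prod.fst)) = M.Q ω := by
  induction ω with
  | nil => rfl
  | cons c ω ih => simp only [CM.om, List.map_cons, CM.Q] at ih ⊢; rw [ih]

lemma om_cons (md : Md) (L : List Md) : M.om (md :: L) = (md, 0) :: M.om L := rfl

lemma zero_add' (n : ℤ) : (((0 : Fin M.N) : ℕ) : ℤ) + n = n := by simp

lemma tau_ref (k b : Bool) (ω : List M.Ctl) : ∀ (σ0 σ : St) (i u : ℤ), M.Al ω σ0 true i →
    M.tau k ω σ b u = M.tau k (M.om (ω.map Prod.fst)) σ b (u - i) := by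
  induction ω with
  | nil => intros; rfl
  | cons c ω ih =>
    intro σ0 σ i u h
    obtain ⟨q, hq⟩ : (M.N : ℤ) ∣ c.2 + i := h.1.2
    have e : (c.2 + u : ℤ) = u - i + M.N * q := by linear_combination hq
    have e2 : M.np c.1 (c.2 + i) = M.mul c.1 * q := by
      rw [hq, ← zero_add (_ * q), CM.np_add]; simp [CM.np]
    rw [List.map_cons, om_cons]
    by_cases a : M.al σ b c.1 (c.2 + u)
    · rw [M.tau_pos k a, M.tau_pos k (by rw [zero_add']; exact M.al_of_dvd (by simp [e]) a),
        ih _ _ _ _ h.2, zero_add', e2, e, CM.np_add, add_sub_cancel_right]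
    · rw [M.tau_neg k a, M.tau_neg k (c := (c.1, 0)) (j := u - i)
        fun a' => a (M.al_of_dvd (by simp [e]) a')]

def RunV : St → Cfg → List Md → Prop
  | _, _, [] => True
  | s, v, md :: L => M.src md = s ∧ (M.ins md).okC v ∧ RunV (M.tgt md) ((M.ins md).stp v) L

lemma ok_sub {σ σ' : St} {c : M.Ctl} {j i : ℤ} (h : M.al σ false c.1 (c.2 + j))
    (h' : M.al σ' true c.1 (c.2 + i)) : M.ok c.1 (j - i) :=
  M.ok_congr (fun _ hk => CM.dvd_iff_sub hk h'.2 j) h.2.2

lemma run_of_pair (ω : List M.Ctl) : ∀ (σ σ' : St) (j i : ℤ), M.Al ω σ false j →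
    M.Al ω σ' true i → j - i ≠ 0 → M.RunV σ (M.cfg (j - i)) (ω.map Prod.fst) := by
  induction ω with
  | nil => intros; trivial
  | cons c ω ih =>
    intro σ σ' j i h h' hn
    obtain ⟨h1, h2⟩ := M.cfg_step c.1 hn (M.np_sub h.1 h'.1)
    exact ⟨h.1.1, (M.ok_iff _ hn).1 (M.ok_sub h.1 h'.1), h2 ▸ ih _ _ _ _ h.2 h'.2 h1⟩

def rk (b : Bool) (v : Cfg) (n : ℤ) (k : ℕ) : Prop :=
  if b then (pr k : ℤ) ^ (v k + 1) ∣ n else (pr k : ℤ) ^ v k ∣ n ∧ ¬ (pr k : ℤ) ^ (v k + 1) ∣ n

lemma pow_dvd_mul_pr (k r a : ℕ) (n : ℤ) :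
    (pr k : ℤ) ^ (a + if k = r then 1 else 0) ∣ n * pr r ↔ (pr k : ℤ) ^ a ∣ n := by
  split_ifs with h
  · rw [h, pow_succ, mul_dvd_mul_iff_right (pr_primeZ r).ne_zero]
  · refine ⟨IsCoprime.dvd_of_dvd_mul_right (IsCoprime.pow_left ?_), fun h => h.mul_right _⟩
    exact Nat.isCoprime_iff_coprime.2 ((Nat.coprime_primes (pr_prime k) (pr_prime r)).2
      fun e => h (pr_inj e))

lemma dv_step {md : Md} {v : Cfg} (hv : (M.ins md).okC v) {n n' : ℤ}
    (h : n * M.mul md = M.N * n') (k e : ℕ) :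
    (pr k : ℤ) ^ ((M.ins md).stp v k + e) ∣ n' ↔ (pr k : ℤ) ^ (v k + e) ∣ n := by
  have h1 := M.reg_lt md
  unfold CM.mul at h
  cases e0 : M.ins md <;> simp only [e0, Ins.reg, Ins.stp, Ins.okC] at h1 h hv ⊢
  · rename_i r
    obtain rfl : n' = n * pr r := mul_left_cancel₀ M.N_ne (by rw [← h]; push_cast; ring)
    rw [← pow_dvd_mul_pr k r (v k + e) n, Function.update_apply]
    split_ifs with a
    · rw [a, add_right_comm]
    · rfl
  · rename_i r
    obtain ⟨c, hc⟩ := M.pr_dvd h1
    have hc0 : c ≠ 0 := by rintro rfl; exact M.N_ne (hc.trans (mul_zero _))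
    push_cast at h
    rw [hc, Int.mul_ediv_cancel_left _ (pr_primeZ r).ne_zero] at h
    obtain rfl : n = n' * pr r := mul_right_cancel₀ hc0 (by rw [h]; ring)
    rw [← pow_dvd_mul_pr k r _ n', Function.update_apply]
    split_ifs with a
    · rw [a, show v r - 1 + e + 1 = v r + e by omega]
    · rfl
  · rw [mul_left_cancel₀ M.N_ne (h.symm.trans (mul_comm _ _))]
  · rw [mul_left_cancel₀ M.N_ne (h.symm.trans (mul_comm _ _))]

lemma rk_step {md : Md} {v : Cfg} (hv : (M.ins md).okC v) {n n' : ℤ}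
    (h : n * M.mul md = M.N * n') (b : Bool) (k : ℕ) :
    rk b ((M.ins md).stp v) n' k ↔ rk b v n k := by
  have h0 := M.dv_step hv h k 0
  rw [add_zero, add_zero] at h0
  simp only [rk, M.dv_step hv h k 1, h0]

lemma Al_of_rk (b : Bool) (L : List Md) : ∀ (σ : St) (v : Cfg) (n : ℤ), M.RunV σ v L →
    (∀ k < M.B, rk b v n k) → M.Al (M.om L) σ b n := by
  induction L with
  | nil => intros; trivial
  | cons md L ih =>
    intro σ v n h hr
    have a : M.al σ b md n := by
      refine ⟨h.1, ?_⟩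
      cases b
      · refine ⟨h.1, ?_⟩
        have h1 := M.reg_lt md
        have h2 := h.2.1
        unfold CM.ok
        cases e : M.ins md <;> simp only [e, Ins.reg, Ins.okC] at h1 h2 ⊢
        · exact (dvd_pow_self _ h2).trans (hr _ h1).1
        · simpa [h2] using (hr _ h1).2
      · exact M.N_dvd fun k hk => (dvd_pow_self _ (by omega)).trans (hr k hk)
    rw [om_cons, Al, zero_add']
    exact ⟨a, ih _ _ _ h.2.2 fun k hk => (M.rk_step h.2.1 (M.al_np a) b k).2 (hr k hk)⟩

def sm (v : Cfg) : ℕ := ∏ k ∈ Finset.range M.B, pr k ^ v k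

lemma sm_pos (v : Cfg) : 0 < M.sm v := Finset.prod_pos fun k _ => pow_pos (pr_prime k).pos _

lemma sm_dvd {v : Cfg} {d : ℤ} (h : ∀ k < M.B, (pr k : ℤ) ^ v k ∣ d) : (M.sm v : ℤ) ∣ d := by
  rw [Int.natCast_dvd, sm]
  refine Finset.prod_dvd_of_isRelPrime (fun i _ j _ hij => ?_) fun k hk =>
    Int.natCast_dvd.1 (by exact_mod_cast h k (Finset.mem_range.1 hk))
  exact Nat.coprime_iff_isRelPrime.1 (Nat.Coprime.pow _ _
    ((Nat.coprime_primes (pr_prime i) (pr_prime j)).2 fun e => hij (pr_inj e)))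

lemma rk_cfg {n : ℤ} (hn : n ≠ 0) {k : ℕ} (hk : k < M.B) : rk false (M.cfg n) n k := by
  have h := Int.natAbs_ne_zero.2 hn
  simp only [rk, CM.cfg, hk, if_true, Bool.false_eq_true, if_false, ← Nat.cast_pow,
    Int.natCast_dvd, (pr_prime k).pow_dvd_iff_le_factorization h]
  omega

lemma sm_dvd_of_rk {b : Bool} {v : Cfg} {n : ℤ} (h : ∀ k < M.B, rk b v n k) : (M.sm v : ℤ) ∣ n := by
  refine M.sm_dvd fun k hk => ?_
  cases b
  · exact (h k hk).1
  · exact (pow_dvd_pow _ (Nat.le_succ _)).trans (h k hk)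

lemma rk_shift {b : Bool} {v : Cfg} {n d : ℤ} (hd : (M.sm v : ℤ) ∣ d) {k : ℕ} (hk : k < M.B) :
    rk b v (n + M.N * d) k ↔ rk b v n k := by
  have h1 : (pr k : ℤ) ^ (v k + 1) ∣ M.N * d := by
    rw [pow_succ']
    refine mul_dvd_mul (M.pr_dvd hk) (dvd_trans ?_ hd)
    exact_mod_cast Finset.dvd_prod_of_mem (fun k => pr k ^ v k) (Finset.mem_range.2 hk)
  simp only [rk, dvd_add_left h1, dvd_add_left ((pow_dvd_pow _ (Nat.le_succ _)).trans h1)]

lemma Q_dvd_sm {ω : List M.Ctl} {n : ℤ} (hn : n ≠ 0) (h : (M.Q ω : ℤ) ∣ n) :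
    M.Q ω ∣ M.sm (M.cfg n) := by
  rw [← Nat.factorization_prime_le_iff_dvd (M.Q_pos ω).ne' (M.sm_pos _).ne']
  intro p hp
  by_cases h0 : (M.Q ω).factorization p = 0
  · omega
  have p2 := hp.dvd_of_dvd_pow ((Nat.dvd_of_factorization_pos h0).trans (M.Q_dvd_pow ω))
  obtain ⟨k, hk, p3⟩ := (Prime.dvd_finsetProd_iff hp.prime _).1 p2
  obtain rfl := (Nat.prime_dvd_prime_iff_eq hp (pr_prime k)).1 p3
  have a1 := (Nat.factorization_le_iff_dvd (M.Q_pos ω).ne' (Int.natAbs_ne_zero.2 hn)).2
    (Int.natCast_dvd.1 h) (pr k)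
  refine a1.trans ((hp.pow_dvd_iff_le_factorization (M.sm_pos _).ne').1 ?_)
  have := Finset.dvd_prod_of_mem (fun k => pr k ^ M.cfg n k) hk
  rwa [CM.cfg, if_pos (Finset.mem_range.1 hk)] at this

structure Nice (need : St → ℕ → Prop) (p : Bool → St → Cfg → ℕ) : Prop where
  hz : ∀ k md, M.fl k md = true → ∃ r, M.ins md = .zero r
  det : ∀ md md' v, M.src md = M.src md' → M.zone (M.tgt md) = M.zone (M.src md) →
    M.zone (M.tgt md') = M.zone (M.src md') → (M.ins md).okC v → (M.ins md').okC v → md = md'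
  gap : ∀ md md' md'', M.act md = true → M.src md' = M.tgt md → M.src md'' = M.tgt md' →
    M.act md' = true ∨ M.act md'' = true
  need_all : ∀ s, M.zone s ≠ 2 → ∀ k < M.B, need s k
  need_act : ∀ md, M.act md = true → ∀ k, ¬ need (M.src md) k
  need_step : ∀ md k, need (M.src md) k → need (M.tgt md) k ∨ M.ins md = .zero k
  pot : ∀ k s v L, (∀ r, M.B ≤ r → v r = 0) → M.RunV s v L → L.countP (M.fl k) ≤ p k s v

variable {M} {need : St → ℕ → Prop} {p : Bool → St → Cfg → ℕ}

lemma Nice.ne (hN : M.Nice need p) (k : Bool) (ω : List M.Ctl) : ∀ (σ σ' : St) (j : ℤ),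
    M.Al ω σ false j → M.Al ω σ' true j → M.na k ω = 0 := by
  induction ω with
  | nil => intros; rfl
  | cons c ω ih =>
    intro σ σ' j h h'
    rw [na_cons, ih _ _ _ h.2 h'.2, if_neg]
    intro a
    obtain ⟨r, hr⟩ := hN.hz k _ a
    exact CM.not_dvd_of_zero hr (M.ok_sub h.1 h'.1) (by simp)

lemma Nice.rk_of (hN : M.Nice need p) (b : Bool) {k : ℕ} (hk : k < M.B) (L : List Md) :
    ∀ (σ σ' : St) (v : Cfg) (n : ℤ), M.RunV σ v L → 1 ≤ M.tau false (M.om L) σ' b n → need σ k →
      σ' = σ ∧ rk b v n k := by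
  induction L with
  | nil => intro σ σ' v n _ h; simp [CM.om, tau] at h
  | cons md L ih =>
    intro σ σ' v n h h1 h2
    rw [om_cons] at h1
    have a := al_of_tau h1
    rw [M.tau_pos _ a] at h1
    rw [zero_add'] at a h1
    obtain rfl := h.1
    refine ⟨a.1.symm, ?_⟩
    have hact : M.fl false md = false := by
      by_contra h'
      exact hN.need_act _ (by simpa [fl] using h') _ h2
    rcases hN.need_step _ _ h2 with h3 | h3
    · exact (M.rk_step h.2.1 (M.al_np a) b k).1
        (ih _ _ _ _ h.2.2 (by simpa [hact] using h1) h3).2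
    · have h4 : v k = 0 := by simpa [h3, Ins.okC] using h.2.1
      cases b
      · simpa [rk, h4] using CM.not_dvd_of_zero h3 a.2.2
      · simpa [rk, h4] using (M.pr_dvd hk).trans a.2

lemma zone_zero (ω : List M.Ctl) : ∀ (σ : St) (v : Cfg), M.RunV σ v (ω.map Prod.fst) →
    1 ≤ M.na true ω → M.zone σ = 0 := by
  induction ω with
  | nil => intro σ v _ h; simp [na] at h
  | cons c ω ih =>
    intro σ v h h1
    obtain rfl := h.1
    cases e : M.mv c.1
    · have := ih _ _ h.2.2 (by simpa [na_cons, fl, e] using h1)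
      have := M.z_mono c.1
      omega
    · exact M.z_mv' e

lemma Nice.det_pre (hN : M.Nice need p) (k : Bool) (ω : List M.Ctl) :
    ∀ (ω' : List M.Ctl) (σ : St) (v : Cfg) (μ : ℕ), μ ≤ M.na k ω → μ ≤ M.na k ω' →
      M.RunV σ v ((M.pre k ω μ).map Prod.fst) → M.RunV σ v ((M.pre k ω' μ).map Prod.fst) →
      (k = true ∨ M.zone σ = 2) → (M.pre k ω μ).map Prod.fst = (M.pre k ω' μ).map Prod.fst := by
  have key : ∀ (c : M.Ctl) ω σ v μ, μ + 1 ≤ M.na k (c :: ω) →
      M.RunV σ v ((M.pre k (c :: ω) (μ + 1)).map Prod.fst) → (k = true ∨ M.zone σ = 2) →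
      M.zone (M.tgt c.1) = M.zone (M.src c.1) := by
    intro c ω σ v μ h1 h2 h3
    have a1 := M.z_mono c.1
    rcases h3 with rfl | h3
    · cases e : M.mv c.1
      · simp only [pre, na_cons, fl, e, if_true, Bool.false_eq_true, if_false] at h1 h2
        have := zone_zero _ _ _ h2.2.2 (by rw [M.na_pre _ _ _ h1]; omega)
        omega
      · have := M.z_mv _ e
        omega
    · have := M.z_le (M.tgt c.1)
      have : M.src c.1 = σ := h2.1
      subst this
      omega
  induction ω with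
  | nil => intro ω' σ v μ h; obtain rfl : μ = 0 := by simpa [na] using h
           simp [pre_zero]
  | cons c ω ih =>
    intro ω' σ v μ h1 h2 h3 h4 h5
    cases μ with
    | zero => simp [pre_zero]
    | succ μ =>
      cases ω' with
      | nil => simp [na] at h2
      | cons c' ω' =>
        have a1 := key c ω σ v μ h1 h3 h5
        have e : c.1 = c'.1 := hN.det _ _ v (h3.1.trans h4.1.symm) a1 (key c' ω' σ v μ h2 h4 h5)
          h3.2.1 h4.2.1
        simp only [pre, List.map_cons, ← e, na_cons] at h1 h2 h3 h4 ⊢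
        congr 1
        refine ih _ _ _ _ ?_ ?_ h3.2.2 h4.2.2 (h5.imp_right fun h => by rw [a1, h3.1, h])
        · split_ifs at h1 ⊢ <;> omega
        · split_ifs at h2 ⊢ <;> omega

lemma Q_cons_dvd (c : M.Ctl) {ω ω' : List M.Ctl} {X : ℕ} (h : M.Q ω ∣ X * M.Q ω') :
    M.Q (c :: ω) ∣ X * M.Q (c :: ω') := by
  rw [← Int.natCast_dvd_natCast, CM.Q_spec]
  obtain ⟨y, hy⟩ := (M.Q_spec c ω' _).1 dvd_rfl
  obtain ⟨z, hz⟩ := Int.natCast_dvd_natCast.2 h
  push_cast at hz ⊢
  exact ⟨z * y, by rw [mul_assoc, hy]; linear_combination (M.N * y) * hz⟩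

lemma Nice.Q_gap (hN : M.Nice need p) {b : Bool} (ω : List M.Ctl) : ∀ (σ : St) (u : ℤ) (μ : ℕ),
    M.Al (M.pre false ω (μ + 2)) σ b u →
      M.Q (M.pre false ω (μ + 2)) ∣ M.N ^ 2 * M.Q (M.pre false ω (μ + 1)) := by
  induction ω with
  | nil => intros; simp [pre, CM.Q]
  | cons c ω ih =>
    intro σ u μ h
    rw [pre] at h ⊢
    rw [pre]
    refine Q_cons_dvd c ?_
    cases e : M.fl false c.1
    · simp only [e] at h
      exact ih _ _ _ h.2
    · simp only [e, if_true] at h ⊢
      cases μ with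
      | succ μ => exact ih _ _ _ h.2
      | zero =>
        rw [pre_zero, CM.Q, mul_one]
        refine (M.Q_dvd_pow _).trans (pow_dvd_pow _ ?_)
        rcases ω with _ | ⟨c', ω⟩
        · simp [pre]
        cases e' : M.fl false c'.1
        swap
        · simp [pre, e', pre_zero]
        rcases ω with _ | ⟨c'', ω⟩
        · simp [pre]
        simp only [pre, e', zero_add, Bool.false_eq_true, if_false] at h ⊢
        have e'' : M.fl false c''.1 = true :=
          (hN.gap _ _ _ e h.2.1.1 h.2.2.1.1).resolve_left (by simpa [fl] using e')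
        simp [e'', pre_zero]

lemma tau_le_n1 (b : Bool) (ω : List M.Ctl) : ∀ σ j, M.tau true ω σ b j ≤ M.n1 ω := by
  induction ω with
  | nil => intros; exact le_rfl
  | cons c ω ih =>
    intro σ j
    by_cases h : M.al σ b c.1 (c.2 + j)
    · rw [M.tau_pos _ h, n1]
      have h1 := ih (M.tgt c.1) (M.np c.1 (c.2 + j))
      by_cases hz : M.zone (M.src c.1) = 0
      · rw [if_pos hz]
        exact Nat.add_le_add_right h1 _
      · have a1 : ¬ M.fl true c.1 = true := fun e => hz (M.z_mv' e)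
        rw [if_neg hz, if_neg a1]
        rcases M.n1_or true ω (σ := M.tgt c.1) (by have := M.z_mono c.1; omega) b
          (M.np c.1 (c.2 + j)) with e | e <;> omega
    · rw [M.tau_neg _ h]; exact Nat.zero_le _

lemma n1_le_tau (b : Bool) (ω : List M.Ctl) :
    ∀ σ j, 1 ≤ M.tau false ω σ b j → M.n1 ω ≤ M.tau true ω σ b j := by
  induction ω with
  | nil => intros; exact le_rfl
  | cons c ω ih =>
    intro σ j h
    have a := al_of_tau h
    rw [M.tau_pos _ a] at h ⊢
    rw [n1]
    by_cases hz : M.zone (M.src c.1) = 0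
    · have a1 : ¬ M.fl false c.1 = true := fun e => by have := M.z_act _ e; omega
      rw [if_neg a1] at h
      rw [if_pos hz]
      exact Nat.add_le_add_right (ih _ _ h) _
    · rw [if_neg hz]; exact Nat.zero_le _

end XM

end Pool.Agent.MP_e6aac2_al.H22

end
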